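import Pool.Agent.Lib.MP_20f220_co.Angles

/-! The version for all convex domains and all `n ≥ 2`, and the explicit family. -/

open Filter Topology Metric Set MeasureTheory
open scoped ENNReal Pointwise

namespace Pool.Agent.HexNear

/-- `P` tiles no compact convex set, except by one tile. -/
def NoConvex (P : Set Pl) : Prop :=
  ∀ D : Set Pl, IsCompact D → Convex ℝ D → ∀ F, IsTiling P F D → F.Subsingleton

/-- **Few copies, arbitrary convex domains.** -/
theorem fewAll (P : Set Pl) (hPc : IsCompact P) (hPv : Convex ℝ P)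
    (h0 : (0 : Pl) ∈ interior P) (hP8 : NoConvex P) (R : ℝ) :
    ∃ η₁ > 0, η₁ ≤ 1 / 2 ∧ ∃ c₁ > 0, ∀ K : Set Pl, IsCompact K → ∀ η, 0 ≤ η → η ≤ η₁ →
      Near P η K → ∀ t : Set Pl, IsCompact t → Convex ℝ t → ∀ (n : ℕ), 2 ≤ n →
      ∀ (φ : Fin n → (Pl ≃ᵢ Pl)), t ⊆ ⋃ j, φ j '' K → ∀ i : Fin n, t ⊆ ball (φ i 0) R →
      ENNReal.ofReal c₁ ≤ waste volume (copies φ K) t univ := by
  classical
  by_contra hcon
  push Not at hcon
  have hmono : ∀ (a b : ℝ), 0 ≤ a → a ≤ b → b < 1 → ∀ K, Near P a K → Near P b K := by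
    intro a b ha hab hb K hK
    have hstar : ∀ s t : ℝ, 0 ≤ s → s ≤ t → 0 < t → s • P ⊆ t • P := by
      intro s t hs hst ht
      rintro x ⟨y, hy, rfl⟩
      refine ⟨(s / t) • y, ?_, ?_⟩
      · exact hPv.smul_mem_of_zero_mem (interior_subset h0) hy
          ⟨by positivity, (div_le_one ht).2 hst⟩
      · simp only
        rw [smul_smul, mul_div_cancel₀ _ ht.ne']
    exact ⟨(hstar _ _ (by linarith) (by linarith) (by linarith)).trans hK.1,
      hK.2.trans (hstar _ _ (by linarith) (by linarith) (by linarith))⟩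
  have hseq : ∀ m : ℕ, ∃ (K : Set Pl) (t : Set Pl) (n : ℕ) (φ : Fin n → (Pl ≃ᵢ Pl)) (i : Fin n),
      IsCompact K ∧ IsCompact t ∧ Convex ℝ t ∧ 2 ≤ n ∧ Near P (1 / ((m : ℝ) + 1 + 1)) K ∧
      t ⊆ ⋃ j, φ j '' K ∧ t ⊆ ball (φ i 0) R ∧
      waste volume (copies φ K) t univ < ENNReal.ofReal (1 / ((m : ℝ) + 1)) := by
    intro m
    have hle : 1 / ((m : ℝ) + 1 + 1) ≤ 1 / 2 := by
      apply one_div_le_one_div_of_le (by norm_num)
      have : (0 : ℝ) ≤ m := Nat.cast_nonneg m
      linarith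
    obtain ⟨K, hK, η, hη0, hη, hN, t, ht, htv, n, hn, φ, hcov, i, h1, h2⟩ :=
      hcon (1 / ((m : ℝ) + 1 + 1)) (by positivity) hle (1 / ((m : ℝ) + 1))
        (by positivity)
    exact ⟨K, t, n, φ, i, hK, ht, htv, hn, hmono η _ hη0 hη (by linarith) K hN, hcov, h1, h2⟩
  choose K t n φ i hK ht htv hn hN hcov hball hw using hseq
  let S : Seq P := ⟨K, t, n, φ, i, hK, ht, htv, hN, hcov,
    fun m => (measure_mono (subset_univ _)).trans_lt (hw m)⟩
  set U : Ultrafilter ℕ := hyperfilter ℕ with hUdef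
  have hU : (U : Filter ℕ) ≤ atTop := Nat.hyperfilter_le_atTop
  have hT := S.tiling hPc hPv ⟨0, h0⟩ U hU
  have hcv := convex_limSet U S.D' S.convex_D'
  have h0D : (0 : Pl) ∈ limSet U S.D' := by
    rw [← hT.2.2]
    exact ⟨P, S.self_mem U, interior_subset h0⟩
  -- the limit domain is compact
  have hbdd : limSet U S.D' ⊆ closedBall 0 R := by
    intro x hx
    obtain ⟨y, hyD, hy⟩ := exists_tendsto_of_mem_limSet U hU S.D' x hx
    have h1 : ∀ᶠ m in (U : Filter ℕ), y m ∈ closedBall (0 : Pl) R := by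
      filter_upwards [hyD] with m hm
      obtain ⟨w, hw1, hw2⟩ := hm
      have h2 := hball m hw1
      rw [mem_ball] at h2
      rw [mem_closedBall, ← hw2]
      change dist ((φ m (i m)).symm w) 0 ≤ R
      rw [← (φ m (i m)).dist_eq, IsometryEquiv.apply_symm_apply]
      exact h2.le
    exact isClosed_closedBall.mem_of_tendsto hy h1
  have hcomp : IsCompact (limSet U S.D') :=
    (isCompact_closedBall (0 : Pl) R).of_isClosed_subset (isClosed_limSet U _) hbdd
  have hsub : (limFam U S.g P).Subsingleton := hP8 _ hcomp hcv _ hT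
  -- a second copy
  have hj : ∀ m, ∃ j : Fin (n m), j ≠ i m := by
    intro m
    have : Nontrivial (Fin (n m)) := Fin.nontrivial_iff_two_le.2 (hn m)
    exact exists_ne (i m)
  choose j hj using hj
  obtain ⟨h, hh, hin⟩ := near_in U P K _ (Seq.eta_tendsto.mono_left hU) hN 0 h0
  have hpos : 0 < volume (ball (0 : Pl) h) := measure_ball_pos volume _ hh
  have hlim : Tendsto (fun m : ℕ => ENNReal.ofReal (1 / ((m : ℝ) + 1))) (U : Filter ℕ) (𝓝 0) := by
    have := ENNReal.tendsto_ofReal (tendsto_one_div_add_atTop_nhds_zero_nat (𝕜 := ℝ))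
    simpa using this.mono_left hU
  have hsmall := (tendsto_order.1 hlim).2 _ hpos
  have hbound : ∀ᶠ m in (U : Filter ℕ), dist (S.g m (j m) 0) 0 ≤ h + R := by
    filter_upwards [hin, hsmall] with m a1 a2
    have hmeet : ¬ Disjoint (ball (φ m (j m) 0) h) (t m) := by
      intro hd
      have h1 : volume (ball (φ m (j m) 0) h) ≤ waste volume (copies (φ m) (K m))
          (t m) (ball (φ m (j m) 0) h) := by
        apply le_waste_of_out volume _ _ (S.cov' m) (S.meas' m) (S.hDc m).measure_lt_top.ne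
          measurableSet_ball (j m) _ hd
        rw [← IsometryEquiv.image_ball]
        exact image_mono a1
      have h2 : volume (ball (φ m (j m) 0) h) = volume (ball (0 : Pl) h) :=
        Measure.addHaar_ball_center volume _ _
      rw [h2] at h1
      have h3 := (h1.trans (measure_mono (subset_univ _))).trans_lt (hw m)
      exact absurd (h3.trans a2) (lt_irrefl _)
    obtain ⟨y, hy1, hy2⟩ := Set.not_disjoint_iff.1 hmeet
    have h4 := hball m hy2
    rw [mem_ball] at hy1 h4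
    have e : dist (S.g m (j m) 0) 0 = dist (φ m (j m) 0) (φ m (i m) 0) := by
      rw [Seq.g_apply, ← (φ m (i m)).dist_eq]
      change dist ((φ m (i m)) ((φ m (i m)).symm (φ m (j m) 0))) _ = _
      rw [IsometryEquiv.apply_symm_apply]
    rw [e]
    have := dist_triangle (φ m (j m) 0) y (φ m (i m) 0)
    rw [dist_comm _ y] at this
    linarith
  obtain ⟨ψ, hψ⟩ := exists_iso_lim U (fun m => S.g m (j m)) _ hbound
  have hTmem : ψ '' P ∈ limFam U S.g P := ⟨j, ψ, hψ, rfl⟩
  have heq : ψ '' P = P := hsub hTmem (S.self_mem U)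
  have h0' : (0 : Pl) ∈ interior (ψ '' P) := by rw [heq]; exact h0
  obtain ⟨h', hh', hev'⟩ := inner_ball U (fun m => S.g m (j m)) ψ hψ K P
    (fun y hy => near_in U P K _ (Seq.eta_tendsto.mono_left hU) hN y hy) 0 h0'
  have hmin : 0 < min h h' := lt_min hh hh'
  obtain ⟨m, a1, a2, a3⟩ := (hin.and (hev'.and (hU (S.small' 0 (min h h') hmin)))).exists
  refine absurd a3 (not_lt.2 ?_)
  apply le_waste_of_two volume _ _ (S.cov' m) (S.meas' m) (S.hDc m).measure_lt_top.ne
    measurableSet_ball measure_ball_lt_top.ne (j m) (i m) (hj m)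
  · rw [← IsometryEquiv.image_ball, copies, ← S.image_g m (j m)]
    exact image_mono ((ball_subset_ball (min_le_right _ _)).trans a2)
  · rw [← IsometryEquiv.image_ball]
    exact image_mono ((ball_subset_ball (min_le_left _ _)).trans a1)

/-- **Main theorem for rigid polygons**: all convex domains, all `n ≥ 2`. -/
theorem main_all (s : Finset Pl) (hs : s.card ≤ 6)
    (hint : (interior (convexHull ℝ (s : Set Pl))).Nonempty)
    (hnt : ¬ ∃ F, IsTiling (convexHull ℝ (s : Set Pl)) F univ)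
    (hnc : NoConvex (convexHull ℝ (s : Set Pl))) :
    ∃ ε > 0, ∃ c > 0, ∀ K : Set Pl, IsCompact K → Convex ℝ K → K.Nonempty →
      hausdorffDist K (convexHull ℝ (s : Set Pl)) ≤ ε →
      ∀ D : Set Pl, IsCompact D → Convex ℝ D → ∀ (n : ℕ), 2 ≤ n → ∀ φ : Fin n → (Pl ≃ᵢ Pl),
      D ⊆ ⋃ i, φ i '' K → area D + c * n ≤ n * hexArea K := by
  obtain ⟨ε, hε, c, hc, N, h⟩ := main_gen s hs hint hnt True (fun _ => True) (by
    intro _ z h0 R
    have hQc : IsCompact (convexHull ℝ (s : Set Pl)) := s.finite_toSet.isCompact_convexHull ℝ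
    have hPc : IsCompact ((fun x => x + -z) '' (convexHull ℝ (s : Set Pl))) :=
      hQc.image (by fun_prop)
    have hPv : Convex ℝ ((fun x => x + -z) '' (convexHull ℝ (s : Set Pl))) := by
      rintro _ ⟨x, hx, rfl⟩ _ ⟨y, hy, rfl⟩ a b ha hb hab
      refine ⟨a • x + b • y, convex_convexHull ℝ _ hx hy ha hb hab, ?_⟩
      have e : -z = (a + b) • (-z) := by rw [hab, one_smul]
      simp only
      nth_rewrite 1 [e]
      module
    obtain ⟨η₁, h1, h2, c₁, h3, h4⟩ := fewAll _ hPc hPv h0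
      (fun D hD hDv F hF => hnc D hD hDv F (hF.of_translate (-z))) R
    refine ⟨η₁, h1, h2, c₁, h3, ?_⟩
    intro K hK η hη hη1 hN t _ ht htv n hn φ hcov i hi
    exact h4 K hK η hη hη1 hN t ht htv n hn φ hcov i hi)
  refine ⟨ε, hε, c, hc, fun K hK hKv hKne hd D hD hDv n hn φ hcov => ?_⟩
  exact h K hK hKv hKne hd D hD hDv n hn φ hcov (Or.inr ⟨trivial, trivial⟩)

/-- **The explicit family.** -/
theorem main_obtuse (s : Finset Pl) (hs : s.card ≤ 6) (hob : Obtuse s) :
    ∃ ε > 0, ∃ c > 0, ∀ K : Set Pl, IsCompact K → Convex ℝ K → K.Nonempty →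
      hausdorffDist K (convexHull ℝ (s : Set Pl)) ≤ ε →
      ∀ D : Set Pl, IsCompact D → Convex ℝ D → ∀ (n : ℕ), 2 ≤ n → ∀ φ : Fin n → (Pl ≃ᵢ Pl),
      D ⊆ ⋃ i, φ i '' K → area D + c * n ≤ n * hexArea K := by
  apply main_all s hs hob.interior_nonempty
  · rintro ⟨F, hF⟩
    have hsub := hob.rigid univ isClosed_univ convex_univ F hF
    -- a single bounded tile does not cover the plane
    have h0 : (0 : Pl) ∈ ⋃₀ F := by rw [hF.2.2]; trivial
    obtain ⟨T, hT, -⟩ := h0
    obtain ⟨ψ, hψ⟩ := hF.1 T hT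
    have hTc : IsCompact T := by
      rw [hψ]
      exact (s.finite_toSet.isCompact_convexHull ℝ).image ψ.continuous
    have huniv : (univ : Set Pl) ⊆ T := by
      rw [← hF.2.2]
      rintro x ⟨T', hT', hx⟩
      rwa [hsub hT hT']
    have hcompact : IsCompact (univ : Set Pl) := by
      rwa [univ_subset_iff.1 huniv] at hTc
    exact noncompact_univ Pl hcompact
  · intro D hD hDv F hF
    exact hob.rigid D hD.isClosed hDv F hF

end Pool.Agent.HexNear
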