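import Pool.Agent.Lib.MP_20f220_co.Cone

/-! Polygons with obtuse angles, no three of which sum to a full turn, tile nothing. -/

open Filter Topology Metric Set MeasureTheory
open scoped ENNReal Pointwise

namespace Pool.Agent.HexNear

/-- all angles obtuse, no three with sum `2π` -/
structure Obtuse (s : Finset Pl) : Prop where
  nonempty : s.Nonempty
  angles : ∀ v ∈ s, Real.pi / 2 < ang (convexHull ℝ (s : Set Pl)) v ∧
    ang (convexHull ℝ (s : Set Pl)) v < Real.pi
  triples : ∀ u ∈ s, ∀ v ∈ s, ∀ w ∈ s, ang (convexHull ℝ (s : Set Pl)) u +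
    ang (convexHull ℝ (s : Set Pl)) v + ang (convexHull ℝ (s : Set Pl)) w ≠ 2 * Real.pi

lemma Obtuse.interior_nonempty {s : Finset Pl} (h : Obtuse s) :
    (interior (convexHull ℝ (s : Set Pl))).Nonempty := by
  by_contra hcon
  rw [not_nonempty_iff_eq_empty] at hcon
  obtain ⟨v, hv⟩ := h.nonempty
  have hvP : v ∈ convexHull ℝ (s : Set Pl) := subset_convexHull ℝ _ hv
  obtain ⟨δ, hδ, hloc⟩ := area_local s v hvP
  have h1 := (hloc δ hδ le_rfl).1
  have h2 : volume (convexHull ℝ (s : Set Pl)) = 0 := by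
    have h3 := (convex_convexHull ℝ (s : Set Pl)).addHaar_frontier volume
    have hcl : IsClosed (convexHull ℝ (s : Set Pl)) :=
      (s.finite_toSet.isCompact_convexHull ℝ).isClosed
    rw [frontier, hcon, diff_empty, hcl.closure_eq] at h3
    exact h3
  have h4 : area (convexHull ℝ (s : Set Pl) ∩ ball v δ) = 0 := by
    rw [area, measure_mono_null inter_subset_left h2]
    simp
  rw [h4] at h1
  have h5 := (h.angles v hv).1
  have h6 : area (unitCone (convexHull ℝ (s : Set Pl)) v) = 0 := by
    rcases mul_eq_zero.1 h1.symm with h | h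
    · exact absurd h (by positivity)
    · exact h
  rw [ang, h6] at h5
  have := Real.pi_pos
  linarith

/-- the arithmetic of angles around a point -/
lemma angle_sum {ι : Type*} [DecidableEq ι] (J : Finset ι) (a : ι → ℝ) (p : ℝ) (i0 : ι)
    (hi0 : i0 ∈ J) (V : Set ℝ) (hV : ∀ x ∈ V, p / 2 < x ∧ x < p)
    (h3 : ∀ x ∈ V, ∀ y ∈ V, ∀ z ∈ V, x + y + z ≠ 2 * p)
    (ha : ∀ i ∈ J, a i ∈ V ∨ a i = p ∨ a i = 2 * p) (h0 : a i0 ∈ V) (hp : 0 < p)
    (hsum : ∑ i ∈ J, a i = 2 * p ∨ ∑ i ∈ J, a i ≤ p) : J = {i0} := by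
  have hpos : ∀ i ∈ J, p / 2 < a i := by
    intro i hi
    rcases ha i hi with h | h | h
    · exact (hV _ h).1
    · rw [h]; linarith
    · rw [h]; linarith
  have hnn : ∀ i ∈ J, 0 ≤ a i := fun i hi => by linarith [hpos i hi]
  by_contra hne
  obtain ⟨i1, hi1, h01⟩ : ∃ i1 ∈ J, i1 ≠ i0 := by
    by_contra hcon
    push Not at hcon
    exact hne (Finset.eq_singleton_iff_unique_mem.2 ⟨hi0, hcon⟩)
  have hs2 : a i0 + a i1 ≤ ∑ i ∈ J, a i := by
    have h := Finset.sum_le_sum_of_subset_of_nonneg (s := {i0, i1}) (t := J) (f := a)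
      (by intro x hx; rcases Finset.mem_insert.1 hx with rfl | hx
          · exact hi0
          · rw [Finset.mem_singleton.1 hx]; exact hi1)
      (fun i hi _ => hnn i hi)
    rwa [Finset.sum_pair h01.symm] at h
  have b0 := hpos i0 hi0
  have b1 := hpos i1 hi1
  have c0 := hV _ h0
  have htot : ∑ i ∈ J, a i = 2 * p := by
    rcases hsum with h | h
    · exact h
    · linarith
  by_cases h2 : ∃ i2 ∈ J, i2 ≠ i0 ∧ i2 ≠ i1
  · obtain ⟨i2, hi2, h02, h12⟩ := h2
    have b2 := hpos i2 hi2
    by_cases h3' : ∃ i3 ∈ J, i3 ≠ i0 ∧ i3 ≠ i1 ∧ i3 ≠ i2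
    · obtain ⟨i3, hi3, h03, h13, h23⟩ := h3'
      have b3 := hpos i3 hi3
      have h := Finset.sum_le_sum_of_subset_of_nonneg (s := {i0, i1, i2, i3}) (t := J) (f := a)
        (by intro x hx
            simp only [Finset.mem_insert, Finset.mem_singleton] at hx
            rcases hx with rfl | rfl | rfl | rfl
            · exact hi0
            · exact hi1
            · exact hi2
            · exact hi3)
        (fun i hi _ => hnn i hi)
      rw [Finset.sum_insert (by simp [h01.symm, h02.symm, h03.symm]),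
        Finset.sum_insert (by simp [h12.symm, h13.symm]), Finset.sum_pair h23.symm] at h
      linarith
    · have hJ : J = {i0, i1, i2} := by
        ext i
        simp only [Finset.mem_insert, Finset.mem_singleton]
        constructor
        · intro hi
          by_contra hcon
          push Not at hcon
          exact h3' ⟨i, hi, hcon⟩
        · rintro (rfl | rfl | rfl)
          · exact hi0
          · exact hi1
          · exact hi2
      rw [hJ, Finset.sum_insert (by simp [h01.symm, h02.symm]), Finset.sum_pair h12.symm] at htot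
      rcases ha i1 hi1 with v1 | v1 | v1
      · rcases ha i2 hi2 with v2 | v2 | v2
        · exact h3 _ h0 _ v1 _ v2 (by linarith)
        · rw [v2] at htot; linarith
        · rw [v2] at htot; linarith
      · rw [v1] at htot; linarith
      · rw [v1] at htot; linarith
  · have hJ : J = {i0, i1} := by
      ext i
      simp only [Finset.mem_insert, Finset.mem_singleton]
      constructor
      · intro hi
        by_contra hcon
        push Not at hcon
        exact h2 ⟨i, hi, hcon⟩
      · rintro (rfl | rfl)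
        · exact hi0
        · exact hi1
    rw [hJ, Finset.sum_pair h01.symm] at htot
    rcases ha i1 hi1 with v1 | v1 | v1
    · have := hV _ v1; linarith
    · rw [v1] at htot; linarith
    · rw [v1] at htot; linarith

lemma area_mono {A B : Set Pl} (h : A ⊆ B) (hB : volume B ≠ ∞) : area A ≤ area B :=
  ENNReal.toReal_mono hB (measure_mono h)

lemma area_ball (x : Pl) (r : ℝ) (hr : 0 ≤ r) : area (ball x r) = r ^ 2 * Real.pi := by
  rw [area, EuclideanSpace.volume_ball_fin_two, ENNReal.toReal_mul, ENNReal.toReal_pow,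
    ENNReal.toReal_ofReal hr, ENNReal.toReal_ofReal Real.pi_pos.le]

/-- the part of a convex set in a disc about a boundary point has at most half the area -/
lemma area_half (D : Set Pl) (hDv : Convex ℝ D) (v : Pl) (hv : v ∉ interior D)
    (hne : (interior D).Nonempty) (r : ℝ) (hr : 0 ≤ r) :
    area (D ∩ ball v r) ≤ r ^ 2 * Real.pi / 2 := by
  obtain ⟨f, hf⟩ := geometric_hahn_banach_open_point hDv.interior isOpen_interior hv
  set A : Set Pl := interior D ∩ ball v r with hA
  have hAD : volume (D ∩ ball v r) ≤ volume A := by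
    have h1 : D ∩ ball v r ⊆ A ∪ frontier D := by
      rintro x ⟨hx, hxb⟩
      by_cases h : x ∈ interior D
      · exact Or.inl ⟨h, hxb⟩
      · exact Or.inr ⟨subset_closure hx, h⟩
    refine (measure_mono h1).trans ((measure_union_le _ _).trans ?_)
    rw [hDv.addHaar_frontier volume, add_zero]
  have hAf : volume A ≠ ∞ := ne_top_of_le_ne_top measure_ball_lt_top.ne
    (measure_mono inter_subset_right)
  set B : Set Pl := (IsometryEquiv.subLeft ((2 : ℝ) • v)) '' A with hB
  have hBv : volume B = volume A := vol_image _ _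
  have hdis : Disjoint A B := by
    rw [Set.disjoint_left]
    rintro x hx ⟨y, hy, hyx⟩
    have h1 := hf x hx.1
    have h2 := hf y hy.1
    have h3 : x = (2 : ℝ) • v - y := hyx.symm
    rw [h3, map_sub, map_smul, smul_eq_mul] at h1
    linarith
  have hBball : B ⊆ ball v r := by
    rintro _ ⟨y, hy, rfl⟩
    have h1 : dist y v < r := hy.2
    have h2 : (IsometryEquiv.subLeft ((2 : ℝ) • v)) y = (2 : ℝ) • v - y := rfl
    rw [h2, mem_ball, dist_eq_norm]
    have h3 : (2 : ℝ) • v - y - v = v - y := by module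
    rw [h3, ← dist_eq_norm, dist_comm]
    exact h1
  have hAm : MeasurableSet A := isOpen_interior.measurableSet.inter measurableSet_ball
  have hle : volume A + volume A ≤ volume (ball v r) := by
    nth_rewrite 2 [← hBv]
    rw [← measure_union' hdis hAm]
    exact measure_mono (union_subset inter_subset_right hBball)
  have h4 := ENNReal.toReal_mono measure_ball_lt_top.ne hle
  rw [ENNReal.toReal_add hAf hAf] at h4
  have h5 : (volume (ball v r)).toReal = r ^ 2 * Real.pi := area_ball v r hr
  have h6 : area (D ∩ ball v r) ≤ (volume A).toReal := ENNReal.toReal_mono hAf hAD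
  linarith

/-- **Rigidity, one vertex.** -/
lemma vertex_cone (s : Finset Pl) (hob : Obtuse s) (D : Set Pl) (hDc : IsClosed D)
    (hDv : Convex ℝ D) (F : Set (Set Pl)) (hF : IsTiling (convexHull ℝ (s : Set Pl)) F D)
    (hPF : convexHull ℝ (s : Set Pl) ∈ F) (v : Pl) (hv : v ∈ s) :
    ∀ y ∈ D, ∃ t : ℝ, 0 < t ∧ v + t • (y - v) ∈ convexHull ℝ (s : Set Pl) := by
  classical
  set P := convexHull ℝ (s : Set Pl) with hP
  have hPc : IsCompact P := s.finite_toSet.isCompact_convexHull ℝ
  have hPv : Convex ℝ P := convex_convexHull ℝ _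
  have hint : (interior P).Nonempty := hob.interior_nonempty
  have hvP : v ∈ P := subset_convexHull ℝ _ hv
  have hPD : P ⊆ D := hF.subset hPF
  have hvD : v ∈ D := hPD hvP
  have hDint : (interior D).Nonempty := hint.mono (interior_mono hPD)
  choose! ψ hψ using hF.1
  have hTc : ∀ T ∈ F, IsCompact T := fun T hT => by
    rw [hψ T hT]; exact hPc.image (ψ T).continuous
  have hTv : ∀ T ∈ F, Convex ℝ T := fun T hT => by
    have h1 : T = ((ψ T).toRealAffineIsometryEquiv.toAffineEquiv.toAffineMap) '' P := hψ T hT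
    rw [h1]
    exact hPv.affine_image _
  have hTint : ∀ T ∈ F, (interior T).Nonempty := fun T hT => by
    have e : interior (ψ T '' P) = ψ T '' interior P :=
      ((ψ T).toHomeomorph.image_interior P).symm
    rw [hψ T hT, e]
    exact hint.image _
  have hTvol : ∀ T ∈ F, volume (interior T) = volume (interior P) := fun T hT => by
    have e : interior (ψ T '' P) = ψ T '' interior P :=
      ((ψ T).toHomeomorph.image_interior P).symm
    rw [hψ T hT, e, vol_image]
  have hvolP : 0 < volume (interior P) := isOpen_interior.measure_pos volume hint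
  -- local finiteness
  obtain ⟨ρ, hρ⟩ : ∃ ρ : ℝ, ∀ T ∈ F, ∀ x ∈ T, ∀ y ∈ T, dist x y ≤ ρ := by
    obtain ⟨C, hC⟩ := Metric.isBounded_iff.1 hPc.isBounded
    refine ⟨C, fun T hT x hx y hy => ?_⟩
    rw [hψ T hT] at hx hy
    obtain ⟨x', hx', rfl⟩ := hx
    obtain ⟨y', hy', rfl⟩ := hy
    rw [(ψ T).dist_eq]
    exact hC hx' hy'
  have hfin : {T : F | ((T : Set Pl) ∩ ball v 1).Nonempty}.Finite := by
    let As : F → Set Pl := fun T => interior (T : Set Pl) ∩ ball v (1 + ρ + 1)
    have h1 : {T : F | volume (interior P) ≤ volume (As T)}.Finite := by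
      apply Measure.finite_const_le_meas_of_disjoint_iUnion volume hvolP
      · intro T; exact isOpen_interior.measurableSet.inter measurableSet_ball
      · intro T T' hne
        have := hF.2.1 T T.2 T' T'.2 (fun h => hne (Subtype.ext h))
        exact this.mono inter_subset_left inter_subset_left
      · refine ne_top_of_le_ne_top (measure_ball_lt_top (x := v) (r := 1 + ρ + 1)).ne
          (measure_mono ?_)
        exact iUnion_subset fun T => inter_subset_right
    refine h1.subset ?_
    rintro T ⟨x, hxT, hxb⟩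
    have h2 : As T = interior (T : Set Pl) := by
      apply inter_eq_left.2
      intro y hy
      have h3 := hρ T T.2 y (interior_subset hy) x hxT
      rw [mem_ball] at hxb ⊢
      have := dist_triangle y x v
      linarith
    change volume (interior P) ≤ volume (As T)
    rw [h2, hTvol T T.2]
  -- the tiles containing `v`
  set J : Finset F := hfin.toFinset.filter (fun T => v ∈ (T : Set Pl)) with hJ
  have hJmem : ∀ T : F, T ∈ J ↔ v ∈ (T : Set Pl) := by
    intro T
    rw [hJ, Finset.mem_filter, Set.Finite.mem_toFinset]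
    constructor
    · exact fun h => h.2
    · intro h
      exact ⟨⟨v, h, mem_ball_self one_pos⟩, h⟩
  -- a radius below which only tiles through `v` occur
  obtain ⟨δ₁, hδ₁, hδ₁'⟩ : ∃ δ > 0, ∀ T : F, ((T : Set Pl) ∩ ball v δ).Nonempty → T ∈ J := by
    set B : Finset F := hfin.toFinset.filter (fun T => v ∉ (T : Set Pl)) with hB
    rcases B.eq_empty_or_nonempty with h0 | hne
    · refine ⟨1, one_pos, fun T hT => ?_⟩
      rw [hJmem]
      by_contra hvT
      have : T ∈ B := Finset.mem_filter.2 ⟨hfin.mem_toFinset.2 hT, hvT⟩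
      rw [h0] at this
      exact absurd this (Finset.notMem_empty _)
    · obtain ⟨T0, hT0, hmin⟩ := B.exists_min_image (fun T : F => infDist v (T : Set Pl)) hne
      have h1 := (Finset.mem_filter.1 hT0).2
      have h2 : 0 < infDist v (T0 : Set Pl) :=
        ((hTc T0 T0.2).isClosed.notMem_iff_infDist_pos
          ((hTint T0 T0.2).mono interior_subset)).1 h1
      refine ⟨min 1 (infDist v (T0 : Set Pl)), lt_min one_pos h2, ?_⟩
      rintro T ⟨x, hxT, hxb⟩
      rw [hJmem]
      by_contra hvT
      have hTfin : T ∈ hfin.toFinset := hfin.mem_toFinset.2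
        ⟨x, hxT, ball_subset_ball (min_le_left _ _) hxb⟩
      have h3 : infDist v (T0 : Set Pl) ≤ infDist v (T : Set Pl) :=
        hmin T (Finset.mem_filter.2 ⟨hTfin, hvT⟩)
      have h4 : infDist v (T : Set Pl) ≤ dist v x := infDist_le_dist_of_mem hxT
      rw [mem_ball, dist_comm] at hxb
      have h5 := lt_of_lt_of_le hxb (min_le_right _ _)
      linarith
  -- angles of the tiles at `v`
  let a : F → ℝ := fun T => ang P ((ψ (T : Set Pl)).symm v)
  have hpre : ∀ T ∈ J, (ψ (T : Set Pl)).symm v ∈ P := by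
    intro T hT
    have h1 := (hJmem T).1 hT
    rw [hψ T T.2] at h1
    obtain ⟨y, hy, hyv⟩ := h1
    rw [← hyv]
    simpa using hy
  obtain ⟨δ₂, hδ₂, hδ₂'⟩ : ∃ δ > 0, ∀ T ∈ J, ∀ r : ℝ, 0 < r → r ≤ δ →
      area ((T : Set Pl) ∩ ball v r) = r ^ 2 * (a T / 2) := by
    have h1 : ∀ T : F, ∃ δ > 0, T ∈ J → ∀ r : ℝ, 0 < r → r ≤ δ →
        area ((T : Set Pl) ∩ ball v r) = r ^ 2 * (a T / 2) := by
      intro T
      by_cases hT : T ∈ J
      · obtain ⟨δ, hδ, hloc⟩ := area_local s ((ψ (T : Set Pl)).symm v) (hpre T hT)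
        refine ⟨δ, hδ, fun _ r hr hrδ => ?_⟩
        have h2 : (T : Set Pl) ∩ ball v r
            = ψ (T : Set Pl) '' (P ∩ ball ((ψ (T : Set Pl)).symm v) r) := by
          rw [image_inter (ψ (T : Set Pl)).injective, IsometryEquiv.image_ball,
            IsometryEquiv.apply_symm_apply, ← hψ T T.2]
        have h3 := (hloc r hr hrδ).1
        rw [h2, area, vol_image]
        rw [area] at h3
        rw [h3]
        simp only [a, ang]
        ring
      · exact ⟨1, one_pos, fun h => absurd h hT⟩
    choose δf hδf hδf' using h1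
    rcases J.eq_empty_or_nonempty with h0 | hne
    · refine ⟨1, one_pos, fun T hT => ?_⟩
      rw [h0] at hT
      exact absurd hT (Finset.notMem_empty _)
    · obtain ⟨T0, hT0, hmin⟩ := J.exists_min_image δf hne
      exact ⟨δf T0, hδf T0, fun T hT r hr hrδ => hδf' T hT r hr (hrδ.trans (hmin T hT))⟩
  -- additivity
  have hadd : ∀ r : ℝ, 0 < r → r ≤ δ₁ → r ≤ δ₂ →
      area (D ∩ ball v r) = r ^ 2 * (∑ T ∈ J, a T) / 2 := by
    intro r hr hr1 hr2
    have hset : D ∩ ball v r = ⋃ T ∈ J, ((T : Set Pl) ∩ ball v r) := by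
      ext x
      constructor
      · rintro ⟨hx, hxb⟩
        rw [← hF.2.2] at hx
        obtain ⟨T, hT, hxT⟩ := hx
        refine mem_iUnion₂.2 ⟨⟨T, hT⟩, hδ₁' ⟨T, hT⟩ ⟨x, hxT, ball_subset_ball hr1 hxb⟩, hxT, hxb⟩
      · intro hx
        obtain ⟨T, -, hxT, hxb⟩ := mem_iUnion₂.1 hx
        exact ⟨hF.subset T.2 hxT, hxb⟩
    have hmeas : ∀ T ∈ J, NullMeasurableSet ((T : Set Pl) ∩ ball v r) volume := fun T _ =>
      ((hTc T T.2).isClosed.measurableSet.inter measurableSet_ball).nullMeasurableSet
    have hae : (J : Set F).Pairwise (Function.onFun (AEDisjoint volume)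
        (fun T : F => (T : Set Pl) ∩ ball v r)) := by
      intro T _ T' _ hne
      have hd := hF.2.1 T T.2 T' T'.2 (fun h => hne (Subtype.ext h))
      have hsub : ((T : Set Pl) ∩ ball v r) ∩ ((T' : Set Pl) ∩ ball v r)
          ⊆ frontier (T : Set Pl) := by
        rintro x ⟨⟨hx, -⟩, ⟨hx', -⟩⟩
        refine ⟨subset_closure hx, fun hxi => ?_⟩
        have h1 : x ∈ closure (interior (T' : Set Pl)) := by
          rw [(hTv T' T'.2).closure_interior_eq_closure_of_nonempty_interior (hTint T' T'.2)]
          exact subset_closure hx'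
        obtain ⟨y, hy1, hy2⟩ := mem_closure_iff.1 h1 _ isOpen_interior hxi
        exact disjoint_left.1 hd hy1 hy2
      exact measure_mono_null hsub ((hTv T T.2).addHaar_frontier volume)
    have h1 := measure_biUnion_finset₀ hae hmeas
    rw [← hset] at h1
    rw [area, h1, ENNReal.toReal_sum]
    · have h2 : ∀ T ∈ J, (volume ((T : Set Pl) ∩ ball v r)).toReal = r ^ 2 * (a T / 2) :=
        fun T hT => hδ₂' T hT r hr hr2
      rw [Finset.sum_congr rfl h2, ← Finset.mul_sum, ← Finset.sum_div]
      ring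
    · intro T _
      exact ne_top_of_le_ne_top measure_ball_lt_top.ne (measure_mono inter_subset_right)
  -- the sum of the angles
  have hsum : ∑ T ∈ J, a T = 2 * Real.pi ∨ ∑ T ∈ J, a T ≤ Real.pi := by
    by_cases hvi : v ∈ interior D
    · left
      obtain ⟨ε, hε, hb⟩ := Metric.isOpen_iff.1 isOpen_interior v hvi
      set r := min ε (min δ₁ δ₂) with hr
      have hrpos : 0 < r := lt_min hε (lt_min hδ₁ hδ₂)
      have h1 := hadd r hrpos ((min_le_right _ _).trans (min_le_left _ _))
        ((min_le_right _ _).trans (min_le_right _ _))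
      have h2 : D ∩ ball v r = ball v r := inter_eq_right.2
        ((ball_subset_ball (min_le_left _ _)).trans (hb.trans interior_subset))
      rw [h2, area_ball v r hrpos.le] at h1
      have h3 : r ^ 2 * (2 * Real.pi) = r ^ 2 * ∑ T ∈ J, a T := by linarith
      exact (mul_left_cancel₀ (by positivity) h3).symm
    · right
      set r := min δ₁ δ₂ with hr
      have hrpos : 0 < r := lt_min hδ₁ hδ₂
      have h1 := hadd r hrpos (min_le_left _ _) (min_le_right _ _)
      have h2 := area_half D hDv v hvi hDint r hrpos.le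
      rw [h1] at h2
      have h3 : r ^ 2 * ∑ T ∈ J, a T ≤ r ^ 2 * Real.pi := by linarith
      exact le_of_mul_le_mul_left h3 (by positivity)
  -- only one tile at `v`
  let T0 : F := ⟨P, hPF⟩
  have hT0J : T0 ∈ J := (hJmem T0).2 hvP
  set V : Set ℝ := (fun w => ang P w) '' (s : Set Pl) with hV
  have hval : ∀ T ∈ J, a T ∈ V ∨ a T = Real.pi ∨ a T = 2 * Real.pi := by
    intro T hT
    by_cases hs : (ψ (T : Set Pl)).symm v ∈ s
    · exact Or.inl ⟨_, hs, rfl⟩
    · exact Or.inr (ang_nonvertex s hint _ (hpre T hT) hs)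
  have haT0 : a T0 = ang P v := by
    -- both count the area of `P` near `v`
    obtain ⟨δ, hδ, hloc⟩ := area_local s v hvP
    set r := min δ δ₂ with hr
    have hrpos : 0 < r := lt_min hδ hδ₂
    have h1 := (hloc r hrpos (min_le_left _ _)).1
    have h2 := hδ₂' T0 hT0J r hrpos (min_le_right _ _)
    have h3 : area (P ∩ ball v r) = r ^ 2 * (ang P v / 2) := by
      rw [ang]
      have e : (2 * area (unitCone P v)) / 2 = area (unitCone P v) := by ring
      rw [e]
      exact h1
    have h4 : r ^ 2 * (a T0 / 2) = r ^ 2 * (ang P v / 2) := by rw [← h2, ← h3]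
    have h5 := mul_left_cancel₀ (by positivity : r ^ 2 ≠ 0) h4
    linarith
  have hJ1 : J = {T0} := by
    refine angle_sum J a Real.pi T0 hT0J V ?_ ?_ hval ?_ Real.pi_pos hsum
    · rintro _ ⟨w, hw, rfl⟩
      exact hob.angles w hw
    · rintro _ ⟨w, hw, rfl⟩ _ ⟨w', hw', rfl⟩ _ ⟨w'', hw'', rfl⟩
      exact hob.triples w hw w' hw' w'' hw''
    · rw [haT0]
      exact ⟨v, hv, rfl⟩
  -- conclusion
  intro y hy
  by_cases hyv : y = v
  · refine ⟨1, one_pos, ?_⟩
    rw [hyv]
    simpa using hvP
  have hnpos : 0 < ‖y - v‖ := norm_pos_iff.2 (sub_ne_zero.2 hyv)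
  set t := min 1 (δ₁ / (2 * ‖y - v‖)) with ht
  have htpos : 0 < t := lt_min one_pos (by positivity)
  refine ⟨t, htpos, ?_⟩
  have h1 : v + t • (y - v) ∈ D := hDv.add_smul_sub_mem hvD hy ⟨htpos.le, min_le_left _ _⟩
  have h2 : v + t • (y - v) ∈ ball v δ₁ := by
    rw [mem_ball, dist_eq_norm, add_sub_cancel_left, norm_smul, Real.norm_eq_abs,
      abs_of_pos htpos]
    have h3 : t ≤ δ₁ / (2 * ‖y - v‖) := min_le_right _ _
    calc t * ‖y - v‖ ≤ δ₁ / (2 * ‖y - v‖) * ‖y - v‖ :=
          mul_le_mul_of_nonneg_right h3 hnpos.le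
      _ = δ₁ / 2 := by field_simp
      _ < δ₁ := by linarith
  rw [← hF.2.2] at h1
  obtain ⟨T, hT, hxT⟩ := h1
  have h4 : (⟨T, hT⟩ : F) ∈ J := hδ₁' ⟨T, hT⟩ ⟨_, hxT, h2⟩
  rw [hJ1, Finset.mem_singleton] at h4
  have h5 : T = P := congrArg Subtype.val h4
  rw [h5] at hxT
  exact hxT

/-- **Rigidity.** An obtuse polygon without triples of angles adding up to a full turn tiles no
closed convex set except itself. -/
theorem Obtuse.rigid {s : Finset Pl} (hob : Obtuse s) (D : Set Pl) (hDc : IsClosed D)
    (hDv : Convex ℝ D) (F : Set (Set Pl)) (hF : IsTiling (convexHull ℝ (s : Set Pl)) F D) :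
    F.Subsingleton := by
  classical
  set P := convexHull ℝ (s : Set Pl) with hP
  have hPc : IsCompact P := s.finite_toSet.isCompact_convexHull ℝ
  have hPv : Convex ℝ P := convex_convexHull ℝ _
  have hint : (interior P).Nonempty := hob.interior_nonempty
  intro T1 hT1 T2 hT2
  by_contra hne
  obtain ⟨ψ, hψ⟩ := hF.1 T1 hT1
  have hF' := hF.image ψ.symm
  have hPF : P ∈ (fun T => ψ.symm '' T) '' F := by
    refine ⟨T1, hT1, ?_⟩
    simp only
    rw [hψ, ← image_comp]
    convert image_id _
    funext x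
    simp
  have hD'c : IsClosed (ψ.symm '' D) := ψ.symm.toHomeomorph.isClosedMap D hDc
  have hD'v : Convex ℝ (ψ.symm '' D) := by
    have h1 : ψ.symm '' D = (ψ.symm.toRealAffineIsometryEquiv.toAffineEquiv.toAffineMap) '' D := rfl
    rw [h1]
    exact hDv.affine_image _
  have hcone := vertex_cone s hob (ψ.symm '' D) hD'c hD'v _ hF' hPF
  -- `D'` is contained in `P`
  have hDP : ψ.symm '' D ⊆ P := by
    intro y hy
    by_contra hyP
    obtain ⟨f, u, hf1, hf2⟩ := geometric_hahn_banach_closed_point hPv hPc.isClosed hyP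
    obtain ⟨v, hv, hmax⟩ := s.exists_max_image f hob.nonempty
    have hPle : ∀ x ∈ P, f x ≤ f v := by
      have h1 : Convex ℝ {x : Pl | f x ≤ f v} := convex_halfSpace_le f.isLinear _
      have h2 : P ⊆ {x : Pl | f x ≤ f v} := convexHull_min (fun x hx => hmax x hx) h1
      exact h2
    obtain ⟨t, ht, htP⟩ := hcone v hv y hy
    have h3 := hPle _ htP
    rw [map_add, map_smul, map_sub, smul_eq_mul] at h3
    have h4 : f v < f y := (hf1 v (subset_convexHull ℝ _ hv)).trans hf2
    nlinarith
  -- hence the second tile has no interior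
  have hT2' : ψ.symm '' T2 ⊆ P := (image_mono (hF.subset hT2)).trans hDP
  have hne' : (ψ.symm '' T1) ≠ ψ.symm '' T2 := fun h => hne
    (ψ.symm.injective.image_injective h)
  have hT1' : ψ.symm '' T1 = P := by
    rw [hψ, ← image_comp]
    convert image_id _
    funext x
    simp
  have hdis := hF'.2.1 _ ⟨T1, hT1, rfl⟩ _ ⟨T2, hT2, rfl⟩ hne'
  simp only at hdis
  rw [hT1'] at hdis
  obtain ⟨χ, hχ⟩ := hF.1 T2 hT2
  have hint2 : (interior (ψ.symm '' T2)).Nonempty := by
    have e : interior (ψ.symm '' T2) = ψ.symm '' interior T2 :=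
      (ψ.symm.toHomeomorph.image_interior T2).symm
    have e2 : interior (χ '' P) = χ '' interior P := (χ.toHomeomorph.image_interior P).symm
    rw [e, hχ, e2]
    exact (hint.image _).image _
  obtain ⟨x, hx⟩ := hint2
  exact disjoint_left.1 hdis (interior_mono hT2' hx) hx

end Pool.Agent.HexNear
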