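import Pool.Agent.Lib.MP_20f220_co.Final

/-! Cones and angles of convex polygons. -/

open Filter Topology Metric Set MeasureTheory
open scoped ENNReal Pointwise

namespace Pool.Agent.HexNear

lemma hull_fintype {ι : Type} [Fintype ι] (v : ι → Pl) (x : Pl)
    (hx : x ∈ convexHull ℝ (range v)) :
    ∃ w ∈ stdSimplex ℝ ι, ∑ i, w i • v i = x := by
  classical
  let L : (ι → ℝ) →ₗ[ℝ] Pl := ∑ i, (LinearMap.proj i).smulRight (v i)
  have hL : ∀ w, L w = ∑ i, w i • v i := by
    intro w
    simp [L]
  have h1 : convexHull ℝ (range v) ⊆ L '' stdSimplex ℝ ι := by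
    apply convexHull_min
    · rintro _ ⟨i, rfl⟩
      refine ⟨Pi.single i 1, single_mem_stdSimplex ℝ i, ?_⟩
      rw [hL]
      simp [Pi.single_apply]
    · exact (convex_stdSimplex ℝ ι).linear_image L
  obtain ⟨w, hw, hwx⟩ := h1 hx
  exact ⟨w, hw, by rw [← hL, hwx]⟩

/-- a polygon is a cone near each of its points -/
lemma cone_local (s : Finset Pl) (x : Pl) (hx : x ∈ convexHull ℝ (s : Set Pl)) :
    ∃ δ > 0, ∀ z : Pl, ‖z‖ < δ → (∃ t : ℝ, 0 < t ∧ x + t • z ∈ convexHull ℝ (s : Set Pl)) →
      x + z ∈ convexHull ℝ (s : Set Pl) := by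
  classical
  set P := convexHull ℝ (s : Set Pl) with hP
  have hPc : IsCompact P := s.finite_toSet.isCompact_convexHull ℝ
  have hPv : Convex ℝ P := convex_convexHull ℝ _
  -- faces not containing `x`
  obtain ⟨δ, hδ, hδf⟩ : ∃ δ > 0, ∀ t ∈ s.powerset, x ∉ convexHull ℝ (t : Set Pl) →
      t.Nonempty → δ ≤ infDist x (convexHull ℝ (t : Set Pl)) := by
    set B : Finset (Finset Pl) := s.powerset.filter
      (fun t : Finset Pl => x ∉ convexHull ℝ (t : Set Pl) ∧ t.Nonempty) with hB
    rcases B.eq_empty_or_nonempty with h0 | hne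
    · refine ⟨1, one_pos, fun t ht hxt htn => ?_⟩
      have : t ∈ B := Finset.mem_filter.2 ⟨ht, hxt, htn⟩
      rw [h0] at this
      exact absurd this (Finset.notMem_empty _)
    · obtain ⟨t0, ht0, hmin⟩ := B.exists_min_image
        (fun t : Finset Pl => infDist x (convexHull ℝ (t : Set Pl))) hne
      have h1 := (Finset.mem_filter.1 ht0).2
      have hcl : IsClosed (convexHull ℝ (t0 : Set Pl)) :=
        (t0.finite_toSet.isCompact_convexHull ℝ).isClosed
      have hne0 : (convexHull ℝ (t0 : Set Pl)).Nonempty :=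
        convexHull_nonempty_iff.2 (Finset.coe_nonempty.2 h1.2)
      refine ⟨_, (hcl.notMem_iff_infDist_pos hne0).1 h1.1, fun t ht hxt htn => ?_⟩
      exact hmin t (Finset.mem_filter.2 ⟨ht, hxt, htn⟩)
  refine ⟨δ, hδ, ?_⟩
  rintro z hz ⟨t, ht, htP⟩
  by_contra hcon
  -- the exit time
  set A : Set ℝ := {τ | τ ∈ Icc (0 : ℝ) 1 ∧ x + τ • z ∈ P} with hA
  have hAc : IsCompact A := by
    have h1 : IsClosed {τ : ℝ | x + τ • z ∈ P} := hPc.isClosed.preimage (by fun_prop)
    exact isCompact_Icc.inter_right h1
  have ht1 : t < 1 := by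
    by_contra h
    push Not at h
    apply hcon
    have h2 : x + z = (1 - t⁻¹) • x + t⁻¹ • (x + t • z) := by
      have : t⁻¹ * t = 1 := inv_mul_cancel₀ ht.ne'
      rw [smul_add, smul_smul, this]
      module
    rw [h2]
    exact hPv hx htP (by
      have : t⁻¹ ≤ 1 := inv_le_one_of_one_le₀ h
      linarith) (by positivity) (by ring)
  have htA : t ∈ A := ⟨⟨ht.le, ht1.le⟩, htP⟩
  obtain ⟨τ, hτA, hτmax⟩ := hAc.exists_isMaxOn ⟨t, htA⟩ continuousOn_id
  have htτ : t ≤ τ := hτmax htA
  have hτpos : 0 < τ := lt_of_lt_of_le ht htτ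
  have hτ1 : τ < 1 := by
    rcases hτA.1.2.eq_or_lt with h | h
    · exfalso
      apply hcon
      have := hτA.2
      rwa [h, one_smul] at this
    · exact h
  obtain ⟨ι, hι, p, w, hps, -, hw, hw1, hwy⟩ := eq_pos_convex_span_of_mem_convexHull hτA.2
  set t' : Finset Pl := Finset.univ.image p with ht'
  have ht'c : (t' : Set Pl) = range p := by
    rw [ht', Finset.coe_image, Finset.coe_univ, image_univ]
  have hιne : Nonempty ι := by
    by_contra h
    rw [not_nonempty_iff] at h
    simp at hw1
  have ht'ne : t'.Nonempty := by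
    obtain ⟨i⟩ := hιne
    exact ⟨p i, Finset.mem_image.2 ⟨i, Finset.mem_univ i, rfl⟩⟩
  have ht's : t' ∈ s.powerset := by
    rw [Finset.mem_powerset, ← Finset.coe_subset, ht'c]
    exact hps
  by_cases hxt : x ∈ convexHull ℝ (t' : Set Pl)
  · rw [ht'c] at hxt
    obtain ⟨d, hd, hdx⟩ := hull_fintype p x hxt
    obtain ⟨i0, -, hi0⟩ := Finset.univ.exists_min_image w (Finset.univ_nonempty (α := ι))
    set η := min (w i0) ((1 - τ) / τ) with hη
    have hηpos : 0 < η := lt_min (hw i0) (by
      have : 0 < 1 - τ := by linarith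
      positivity)
    have hmem : x + ((1 + η) * τ) • z ∈ P := by
      have e : x + ((1 + η) * τ) • z = ∑ i, ((1 + η) * w i - η * d i) • p i := by
        have e1 : x + ((1 + η) * τ) • z = (1 + η) • (x + τ • z) - η • x := by
          module
        rw [e1, ← hwy, ← hdx, Finset.smul_sum, Finset.smul_sum, ← Finset.sum_sub_distrib]
        refine Finset.sum_congr rfl fun i _ => ?_
        rw [smul_smul, smul_smul, sub_smul]
      rw [e]
      apply hPv.sum_mem
      · intro i _
        have h1 : d i ≤ 1 := by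
          have := Finset.single_le_sum (fun j _ => hd.1 j) (Finset.mem_univ i)
          rw [hd.2] at this
          exact this
        have h2 : w i0 ≤ w i := hi0 i (Finset.mem_univ i)
        have h3 : η ≤ w i0 := min_le_left _ _
        have h4 : η * d i ≤ η := by nlinarith
        have h5 := hw i
        nlinarith
      · rw [Finset.sum_sub_distrib, ← Finset.mul_sum, ← Finset.mul_sum, hw1, hd.2]
        ring
      · intro i _
        exact subset_convexHull ℝ _ (hps ⟨i, rfl⟩)
    have hA2 : (1 + η) * τ ∈ A := by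
      refine ⟨⟨by positivity, ?_⟩, hmem⟩
      have h1 : η ≤ (1 - τ) / τ := min_le_right _ _
      rw [le_div_iff₀ hτpos] at h1
      nlinarith
    have h6 : (1 + η) * τ ≤ τ := hτmax hA2
    nlinarith
  · have h1 := hδf t' ht's hxt ht'ne
    have hy : x + τ • z ∈ convexHull ℝ (t' : Set Pl) := by
      rw [← hwy]
      apply (convex_convexHull ℝ _).sum_mem (fun i _ => (hw i).le) hw1
      intro i _
      apply subset_convexHull ℝ _
      rw [ht'c]
      exact ⟨i, rfl⟩
    have h2 : infDist x (convexHull ℝ (t' : Set Pl)) ≤ dist x (x + τ • z) :=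
      infDist_le_dist_of_mem hy
    have h3 : dist x (x + τ • z) = τ * ‖z‖ := by
      rw [dist_eq_norm, sub_add_cancel_left, norm_neg, norm_smul, Real.norm_eq_abs,
        abs_of_pos hτpos]
    rw [h3] at h2
    have h4 : τ * ‖z‖ ≤ ‖z‖ := by
      have := norm_nonneg z
      nlinarith
    linarith

/-- the local area of a polygon -/
lemma area_local (s : Finset Pl) (x : Pl) (hx : x ∈ convexHull ℝ (s : Set Pl)) :
    ∃ δ > 0, ∀ r : ℝ, 0 < r → r ≤ δ →
      area (convexHull ℝ (s : Set Pl) ∩ ball x r)
        = r ^ 2 * area (unitCone (convexHull ℝ (s : Set Pl)) x) ∧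
      MeasurableSet (unitCone (convexHull ℝ (s : Set Pl)) x) := by
  set P := convexHull ℝ (s : Set Pl) with hP
  have hPc : IsCompact P := s.finite_toSet.isCompact_convexHull ℝ
  obtain ⟨δ, hδ, hloc⟩ := cone_local s x hx
  refine ⟨δ, hδ, fun r hr hrδ => ?_⟩
  have hset : P ∩ ball x r = (fun y => y + x) '' (r • unitCone P x) := by
    ext y
    constructor
    · rintro ⟨hy, hyb⟩
      refine ⟨y - x, ⟨r⁻¹ • (y - x), ⟨?_, r, hr, ?_⟩, ?_⟩, by simp⟩
      · rw [norm_smul, norm_inv, Real.norm_eq_abs, abs_of_pos hr, inv_mul_lt_iff₀ hr, mul_one,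
          ← dist_eq_norm]
        exact hyb
      · rw [smul_smul, mul_inv_cancel₀ hr.ne', one_smul, add_sub_cancel]
        exact hy
      · simp only
        rw [smul_smul, mul_inv_cancel₀ hr.ne', one_smul]
    · rintro ⟨_, ⟨z, ⟨hz1, t, ht, htz⟩, rfl⟩, rfl⟩
      simp only
      have hn : ‖r • z‖ < r := by
        rw [norm_smul, Real.norm_eq_abs, abs_of_pos hr]
        nlinarith
      constructor
      · rw [add_comm]
        apply hloc _ (hn.trans_le hrδ)
        refine ⟨t / r, by positivity, ?_⟩
        rw [smul_smul, div_mul_cancel₀ _ hr.ne']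
        exact htz
      · rw [mem_ball, dist_eq_norm, add_sub_cancel_right]
        exact hn
  constructor
  · rw [hset]
    have e2 : volume ((fun y : Pl => y + x) '' (r • unitCone P x)) = volume (r • unitCone P x) := by
      have := vol_image (IsometryEquiv.addRight x) (r • unitCone P x)
      exact this
    rw [area, e2, vol_smul _ hr.le, ENNReal.toReal_mul, ENNReal.toReal_ofReal (by positivity), area]
  · have h1 : unitCone P x = (fun z => x + r • z) ⁻¹' (P ∩ ball x r) := by
      ext z
      constructor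
      · intro hz
        have h2 : x + r • z ∈ P ∩ ball x r := by
          rw [hset]
          exact ⟨r • z, ⟨z, hz, rfl⟩, by simp [add_comm]⟩
        exact h2
      · intro hz
        have h2 : x + r • z ∈ P ∩ ball x r := hz
        rw [hset] at h2
        obtain ⟨_, ⟨w, hw, rfl⟩, hwz⟩ := h2
        simp only at hwz
        have h3 : r • w = r • z := by
          have : r • w + x = r • z + x := by rw [hwz, add_comm]
          exact add_right_cancel this
        have h4 : w = z := smul_right_injective Pl hr.ne' h3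
        rwa [← h4]
    rw [h1]
    exact (hPc.isClosed.measurableSet.inter measurableSet_ball).preimage (by fun_prop)

/-- half of the unit disc -/
lemma half_disc (f : Pl →L[ℝ] ℝ) (hf : f ≠ 0) :
    area {z : Pl | ‖z‖ < 1 ∧ 0 ≤ f z} = Real.pi / 2 := by
  have hball : volume (ball (0 : Pl) 1) = ENNReal.ofReal Real.pi := by
    rw [EuclideanSpace.volume_ball_fin_two]
    simp
  set A : Set Pl := {z | ‖z‖ < 1 ∧ 0 ≤ f z} with hA
  set B : Set Pl := {z | ‖z‖ < 1 ∧ f z < 0} with hB
  have hAm : MeasurableSet A := by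
    apply MeasurableSet.inter
    · exact measurableSet_lt measurable_norm measurable_const
    · exact measurableSet_le measurable_const f.continuous.measurable
  have hBm : MeasurableSet B := by
    apply MeasurableSet.inter
    · exact measurableSet_lt measurable_norm measurable_const
    · exact measurableSet_lt f.continuous.measurable measurable_const
  have hun : A ∪ B = ball (0 : Pl) 1 := by
    ext z
    simp only [hA, hB, mem_union, mem_setOf_eq, mem_ball, dist_zero_right]
    constructor
    · rintro (h | h) <;> exact h.1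
    · intro h
      rcases le_or_gt 0 (f z) with h1 | h1
      · exact Or.inl ⟨h, h1⟩
      · exact Or.inr ⟨h, h1⟩
  have hdis : Disjoint A B := by
    rw [Set.disjoint_left]
    rintro z ⟨-, h1⟩ ⟨-, h2⟩
    linarith
  have hsum : volume A + volume B = ENNReal.ofReal Real.pi := by
    rw [← measure_union hdis hBm, hun, hball]
  have hker : volume ((f : Pl →ₗ[ℝ] ℝ).ker : Set Pl) = 0 := by
    apply Measure.addHaar_submodule
    intro h
    apply hf
    ext z
    have : z ∈ (f : Pl →ₗ[ℝ] ℝ).ker := by rw [h]; trivial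
    simpa using this
  have hAB : volume A = volume B := by
    have h1 : volume B = volume ((fun z : Pl => -z) '' B) :=
      (vol_image (IsometryEquiv.neg Pl) B).symm
    rw [h1]
    apply measure_congr
    have h2 : (fun z : Pl => -z) '' B = {z | ‖z‖ < 1 ∧ 0 < f z} := by
      ext z
      constructor
      · rintro ⟨y, ⟨hy1, hy2⟩, rfl⟩
        refine ⟨by simpa using hy1, ?_⟩
        simp only [map_neg]
        linarith
      · rintro ⟨h1, h2⟩
        refine ⟨-z, ⟨by simpa using h1, ?_⟩, by simp⟩
        simp only [map_neg]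
        linarith
    rw [h2]
    have hae : ∀ᵐ z : Pl, z ∉ ((f : Pl →ₗ[ℝ] ℝ).ker : Set Pl) := by
      rw [ae_iff]
      have h5 : {a : Pl | ¬ a ∉ ((f : Pl →ₗ[ℝ] ℝ).ker : Set Pl)}
          = ((f : Pl →ₗ[ℝ] ℝ).ker : Set Pl) := by
        ext a
        exact not_not
      rw [h5]
      exact hker
    filter_upwards [hae] with z hz
    have hz' : f z ≠ 0 := by
      intro h
      apply hz
      simpa using h
    apply propext
    constructor
    · rintro ⟨a, b⟩
      exact ⟨a, lt_of_le_of_ne b (Ne.symm hz')⟩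
    · rintro ⟨a, b⟩
      exact ⟨a, b.le⟩
  rw [← hAB] at hsum
  have hAf : volume A ≠ ∞ := by
    intro h
    rw [h] at hsum
    simp at hsum
  have h3 := congrArg ENNReal.toReal hsum
  rw [ENNReal.toReal_add hAf hAf, ENNReal.toReal_ofReal Real.pi_pos.le] at h3
  rw [area]
  linarith

/-- angles at points which are not extreme -/
lemma ang_not_extreme (s : Finset Pl) (hint : (interior (convexHull ℝ (s : Set Pl))).Nonempty)
    (x : Pl) (hx : x ∈ convexHull ℝ (s : Set Pl))
    (hnot' : x ∉ Set.extremePoints ℝ (convexHull ℝ (s : Set Pl))) :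
    ang (convexHull ℝ (s : Set Pl)) x = Real.pi ∨
      ang (convexHull ℝ (s : Set Pl)) x = 2 * Real.pi := by
  set P := convexHull ℝ (s : Set Pl) with hP
  have hPv : Convex ℝ P := convex_convexHull ℝ _
  have hball : area (ball (0 : Pl) 1) = Real.pi := by
    rw [area, EuclideanSpace.volume_ball_fin_two]
    simp [Real.pi_pos.le]
  -- a two-sided direction
  obtain ⟨u, hu0, hu1, hu2⟩ : ∃ u : Pl, u ≠ 0 ∧ (∃ t : ℝ, 0 < t ∧ x + t • u ∈ P) ∧
      (∃ t : ℝ, 0 < t ∧ x + t • (-u) ∈ P) := by
    have hnot : x ∉ Set.extremePoints ℝ P := hnot'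
    rw [mem_extremePoints] at hnot
    push Not at hnot
    obtain ⟨x1, h1, x2, h2, hop, hne⟩ := hnot hx
    obtain ⟨a, b, ha, hb, hab, hxe⟩ := hop
    have hne1 : x1 ≠ x := by
      intro h
      apply hne h
      have h3 : b • x2 = b • x := by
        have h5 : a • x + b • x2 = x := by
          have h6 := hxe
          rw [h] at h6
          exact h6
        have h7 : a • x + b • x2 = a • x + b • x := by rw [h5, ← add_smul, hab, one_smul]
        exact add_left_cancel h7
      exact smul_right_injective Pl hb.ne' h3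
    refine ⟨x1 - x, sub_ne_zero.2 hne1, ⟨1, one_pos, by simpa using h1⟩, ⟨a / b, by positivity, ?_⟩⟩
    have h4 : x + (a / b) • (-(x1 - x)) = x2 := by
      have hb' : b • (x + (a / b) • (-(x1 - x))) = b • x2 := by
        rw [smul_add, smul_smul, mul_div_cancel₀ _ hb.ne']
        have h5 : b • x2 = x - a • x1 := by rw [← hxe]; module
        calc b • x + a • (-(x1 - x)) = (a + b) • x - a • x1 := by module
          _ = b • x2 := by rw [hab, one_smul, h5]
      exact smul_right_injective Pl hb.ne' hb'
    rw [h4]; exact h2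
  -- the cone
  set C : Set Pl := {z | ∃ t : ℝ, 0 < t ∧ x + t • z ∈ P} with hC
  have hCs : ∀ z ∈ C, ∀ a : ℝ, 0 < a → a • z ∈ C := by
    rintro z ⟨t, ht, h⟩ a ha
    refine ⟨t / a, by positivity, ?_⟩
    rw [smul_smul, div_mul_cancel₀ _ ha.ne']
    exact h
  have hCa : ∀ z ∈ C, ∀ w ∈ C, z + w ∈ C := by
    rintro z ⟨t, ht, h⟩ w ⟨t', ht', h'⟩
    refine ⟨t * t' / (t + t'), by positivity, ?_⟩
    have h3 : x + (t * t' / (t + t')) • (z + w)
        = (t' / (t + t')) • (x + t • z) + (t / (t + t')) • (x + t' • w) := by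
      have e1 : t' / (t + t') + t / (t + t') = 1 := by field_simp; ring
      have e2 : x = (t' / (t + t') + t / (t + t')) • x := by rw [e1, one_smul]
      nth_rewrite 1 [e2]
      rw [smul_add, smul_add, smul_add, smul_smul, smul_smul, add_smul]
      have e3 : t' / (t + t') * t = t * t' / (t + t') := by ring
      have e4 : t / (t + t') * t' = t * t' / (t + t') := by ring
      rw [e3, e4]
      abel
    rw [h3]
    exact hPv h h' (by positivity) (by positivity) (by field_simp; ring)
  have hC0 : (0 : Pl) ∈ C := ⟨1, one_pos, by simpa using hx⟩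
  have hCu : ∀ b : ℝ, b • u ∈ C := by
    intro b
    rcases lt_trichotomy b 0 with h | h | h
    · have h1 := hCs (-u) hu2 (-b) (by linarith)
      have h2 : (-b) • (-u) = b • u := by simp
      rwa [h2] at h1
    · rw [h, zero_smul]; exact hC0
    · exact hCs u hu1 b h
  -- the transversal functional
  set n : Pl := !₂[-u 1, u 0] with hn
  let f : Pl →L[ℝ] ℝ := innerSL ℝ n
  have hf : ∀ x : Pl, f x = -u 1 * x 0 + u 0 * x 1 := by
    intro x
    simp [f, n, PiLp.inner_apply, Fin.sum_univ_two]
    ring
  have huu : 0 < u 0 ^ 2 + u 1 ^ 2 := by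
    by_contra h
    apply hu0
    have h0 : u 0 = 0 := by nlinarith [sq_nonneg (u 0), sq_nonneg (u 1)]
    have h1 : u 1 = 0 := by nlinarith [sq_nonneg (u 0), sq_nonneg (u 1)]
    ext i
    fin_cases i
    · simpa using h0
    · simpa using h1
  have hfn : f n = u 0 ^ 2 + u 1 ^ 2 := by
    rw [hf]
    simp [n]
    ring
  have hfne : f ≠ 0 := by
    intro h
    rw [h] at hfn
    simp at hfn
    linarith
  have hker : ∀ z : Pl, f z = 0 → ∃ b : ℝ, z = b • u := by
    intro z hz
    rw [hf] at hz
    refine ⟨(u 0 * z 0 + u 1 * z 1) / (u 0 ^ 2 + u 1 ^ 2), ?_⟩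
    ext i
    fin_cases i
    · simp only [Fin.zero_eta, PiLp.smul_apply, smul_eq_mul]
      rw [div_mul_eq_mul_div, eq_div_iff huu.ne']
      linear_combination (-u 1) * hz
    · simp only [Fin.mk_one, PiLp.smul_apply, smul_eq_mul]
      rw [div_mul_eq_mul_div, eq_div_iff huu.ne']
      linear_combination (u 0) * hz
  have hprop : ∀ w ∈ C, ∀ z : Pl, 0 < f z * f w → z ∈ C := by
    intro w hw z hz
    have hfw : f w ≠ 0 := by
      intro h; rw [h] at hz; simp at hz
    set a := f z / f w with ha
    have hapos : 0 < a := by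
      rw [ha, div_eq_mul_inv]
      have : f z * (f w)⁻¹ = (f z * f w) * ((f w)⁻¹ * (f w)⁻¹) := by
        field_simp
      rw [this]
      have h2 : 0 < (f w)⁻¹ * (f w)⁻¹ := mul_self_pos.2 (inv_ne_zero hfw)
      exact mul_pos hz h2
    obtain ⟨b, hb⟩ := hker (z - a • w) (by
      rw [map_sub, map_smul, smul_eq_mul, ha, div_mul_cancel₀ _ hfw, sub_self])
    have h3 : z = a • w + b • u := by rw [← hb]; abel
    rw [h3]
    exact hCa _ (hCs w hw a hapos) _ (hCu b)
  have hker' : ∀ z : Pl, f z = 0 → z ∈ C := by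
    intro z hz
    obtain ⟨b, rfl⟩ := hker z hz
    exact hCu b
  -- the cone is not contained in the line
  obtain ⟨w0, hw0C, hw0f⟩ : ∃ w ∈ C, f w ≠ 0 := by
    obtain ⟨p, hp⟩ := hint
    obtain ⟨ε, hε, hb⟩ := Metric.isOpen_iff.1 isOpen_interior p hp
    by_contra hcon
    push Not at hcon
    have h1 : f (p - x) = 0 := hcon _ ⟨1, one_pos, by
      rw [one_smul, add_sub_cancel]; exact interior_subset hp⟩
    have hnpos : 0 < ‖n‖ := by
      rw [norm_pos_iff]
      intro h
      rw [h] at hfn
      simp at hfn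
      linarith
    set δ := ε / (2 * ‖n‖) with hδ
    have hδpos : 0 < δ := by positivity
    have hmem : p + δ • n ∈ ball p ε := by
      rw [mem_ball, dist_eq_norm, add_sub_cancel_left, norm_smul, Real.norm_eq_abs,
        abs_of_pos hδpos, hδ]
      have : ε / (2 * ‖n‖) * ‖n‖ = ε / 2 := by field_simp
      rw [this]; linarith
    have h2 : f (p + δ • n - x) = 0 := hcon _ ⟨1, one_pos, by
      rw [one_smul, add_sub_cancel]; exact interior_subset (hb hmem)⟩
    have h3 : f (p + δ • n - x) = f (p - x) + δ * f n := by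
      rw [map_sub, map_add, map_smul, map_sub, smul_eq_mul]; ring
    rw [h3, h1, hfn] at h2
    have : 0 < δ * (u 0 ^ 2 + u 1 ^ 2) := by positivity
    linarith
  have hunit : ∀ z, z ∈ unitCone P x ↔ ‖z‖ < 1 ∧ z ∈ C := fun z => Iff.rfl
  by_cases hopp : ∃ w ∈ C, f w * f w0 < 0
  · right
    obtain ⟨w1, hw1C, hw1f⟩ := hopp
    have hall : ∀ z, z ∈ C := by
      intro z
      rcases lt_trichotomy (f z * f w0) 0 with h | h | h
      · apply hprop w1 hw1C
        have h2 : 0 < (f z * f w0) * (f w1 * f w0) := mul_pos_of_neg_of_neg h hw1f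
        have h3 : (f z * f w0) * (f w1 * f w0) = (f z * f w1) * (f w0 * f w0) := by ring
        rw [h3] at h2
        exact pos_of_mul_pos_left h2 (mul_self_nonneg _)
      · apply hker'
        rcases mul_eq_zero.1 h with h | h
        · exact h
        · exact absurd h hw0f
      · exact hprop w0 hw0C z h
    have : unitCone P x = ball 0 1 := by
      ext z
      rw [hunit]
      simp [hall z]
    rw [ang, this, hball]
  · left
    push Not at hopp
    have hset : unitCone P x = {z : Pl | ‖z‖ < 1 ∧ 0 ≤ ((f w0) • f) z} := by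
      ext z
      rw [hunit]
      simp only [mem_setOf_eq, ContinuousLinearMap.smul_apply, smul_eq_mul]
      constructor
      · rintro ⟨h1, h2⟩
        refine ⟨h1, ?_⟩
        have := hopp z h2
        linarith
      · rintro ⟨h1, h2⟩
        refine ⟨h1, ?_⟩
        rcases h2.eq_or_lt with h | h
        · apply hker'
          rcases mul_eq_zero.1 h.symm with h' | h'
          · exact absurd h' hw0f
          · exact h'
        · apply hprop w0 hw0C
          linarith
    have hne : (f w0) • f ≠ 0 := by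
      intro h
      rcases smul_eq_zero.1 h with h | h
      · exact hw0f h
      · exact hfne h
    rw [ang, hset, half_disc _ hne]
    ring

/-- angles at points which are not vertices -/
lemma ang_nonvertex (s : Finset Pl) (hint : (interior (convexHull ℝ (s : Set Pl))).Nonempty)
    (x : Pl) (hx : x ∈ convexHull ℝ (s : Set Pl)) (hxs : x ∉ s) :
    ang (convexHull ℝ (s : Set Pl)) x = Real.pi ∨
      ang (convexHull ℝ (s : Set Pl)) x = 2 * Real.pi :=
  ang_not_extreme s hint x hx (fun h => hxs (by
      have := extremePoints_convexHull_subset h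
      exact_mod_cast this))

end Pool.Agent.HexNear
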