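import Pool.Agent.Lib.MP_20f220_co.Local

/-! From the local waste to a linear gain. -/

open Filter Topology Metric Set MeasureTheory
open scoped ENNReal Pointwise

namespace Pool.Agent.HexNear

/-- membership in the limit set from a convergent sequence -/
lemma mem_limSet_of_tendsto (U : Ultrafilter ℕ) (D : ℕ → Set Pl) (w : ℕ → Pl) (x : Pl)
    (hw : ∀ᶠ m in (U : Filter ℕ), w m ∈ D m) (hx : Tendsto w (U : Filter ℕ) (𝓝 x)) :
    x ∈ limSet U D := by
  intro δ hδ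
  filter_upwards [hw, (Metric.tendsto_nhds.1 hx) δ hδ] with m a b
  exact ⟨w m, a, b⟩

namespace Seq
variable {P : Set Pl} (S : Seq P)

theorem unbounded (hPc : IsCompact P) (hPv : Convex ℝ P) (h0 : (0 : Pl) ∈ interior P)
    (U : Ultrafilter ℕ) (hU : (U : Filter ℕ) ≤ atTop)
    (hfar : ∀ m : ℕ, ¬ S.D m ⊆ ball (S.φ m (S.i m) 0) ((m : ℝ) + 1)) :
    ¬ Bornology.IsBounded (limSet U S.D') := by
  intro hb
  obtain ⟨C, hC⟩ := hb.subset_ball (0 : Pl)
  set r : ℝ := |C| + 1 with hr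
  have hT := S.tiling hPc hPv ⟨0, h0⟩ U hU
  have h0D : (0 : Pl) ∈ limSet U S.D' := by
    rw [← hT.2.2]
    exact ⟨P, S.self_mem U, interior_subset h0⟩
  have hex : ∀ᶠ m in (U : Filter ℕ), ∃ w ∈ S.D' m, ‖w‖ = r := by
    filter_upwards [h0D 1 one_pos, hU (eventually_ge_atTop ⌈r⌉₊)] with m h1 h2
    obtain ⟨y, hy, hy1⟩ := h1
    obtain ⟨z, hz, hzfar⟩ := Set.not_subset.1 (hfar m)
    have hz' : (S.φ m (S.i m)).symm z ∈ S.D' m := ⟨z, hz, rfl⟩
    have hzn : (m : ℝ) + 1 ≤ ‖(S.φ m (S.i m)).symm z‖ := by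
      rw [mem_ball, not_lt] at hzfar
      rw [← dist_zero_right, ← (S.φ m (S.i m)).dist_eq, IsometryEquiv.apply_symm_apply]
      exact hzfar
    have hm : r ≤ m := (Nat.le_ceil _).trans (by exact_mod_cast h2)
    have hpre : IsPreconnected (S.D' m) := (S.convex_D' m).isPreconnected
    have := hpre.intermediate_value hy hz' (f := fun x => ‖x‖) continuous_norm.continuousOn
    have hmem : r ∈ Icc ‖y‖ ‖(S.φ m (S.i m)).symm z‖ := by
      rw [dist_zero_right] at hy1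
      constructor
      · have := abs_nonneg C
        linarith
      · linarith
    obtain ⟨w, hw, hwr⟩ := this hmem
    exact ⟨w, hw, hwr⟩
  have hch : ∀ m, ∃ w : Pl, (∃ w ∈ S.D' m, ‖w‖ = r) → (w ∈ S.D' m ∧ ‖w‖ = r) := by
    intro m
    by_cases h : ∃ w ∈ S.D' m, ‖w‖ = r
    · obtain ⟨w, h1, h2⟩ := h
      exact ⟨w, fun _ => ⟨h1, h2⟩⟩
    · exact ⟨0, fun h' => absurd h' h⟩
  choose w hw using hch
  have hw1 : ∀ᶠ m in (U : Filter ℕ), w m ∈ S.D' m := hex.mono fun m hm => (hw m hm).1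
  have hw2 : ∀ᶠ m in (U : Filter ℕ), ‖w m‖ = r := hex.mono fun m hm => (hw m hm).2
  obtain ⟨x, hx⟩ := exists_lim U w 0 r (hw2.mono fun m hm => by rw [dist_zero_right, hm])
  have hxD := mem_limSet_of_tendsto U S.D' w x hw1 hx
  have hxr : ‖x‖ = r := by
    have a1 : Tendsto (fun m => ‖w m‖) (U : Filter ℕ) (𝓝 ‖x‖) := hx.norm
    have a2 : Tendsto (fun m => ‖w m‖) (U : Filter ℕ) (𝓝 r) :=
      tendsto_const_nhds.congr' (hw2.mono fun m hm => hm.symm)
    exact tendsto_nhds_unique a1 a2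
  have := hC hxD
  rw [mem_ball, dist_zero_right, hxr, hr] at this
  have := le_abs_self C
  linarith

end Seq

/-- **Local lemma.** -/
theorem local_waste (P : Set Pl) (hPc : IsCompact P) (hPv : Convex ℝ P)
    (h0 : (0 : Pl) ∈ interior P) (hP : NoUnbounded P) :
    ∃ R > 0, ∃ η₀ > 0, η₀ ≤ 1 / 2 ∧ ∃ c₀ > 0, ∀ K : Set Pl, IsCompact K → ∀ η, 0 ≤ η → η ≤ η₀ →
      Near P η K → ∀ D : Set Pl, IsCompact D → Convex ℝ D → ∀ (n : ℕ) (φ : Fin n → (Pl ≃ᵢ Pl)),
      D ⊆ ⋃ j, φ j '' K → ∀ i : Fin n,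
      ENNReal.ofReal c₀ ≤ waste volume (copies φ K) D (ball (φ i 0) R) ∨
        D ⊆ ball (φ i 0) R := by
  by_contra hcon
  push Not at hcon
  have hmono : ∀ (a b : ℝ), 0 ≤ a → a ≤ b → b < 1 → ∀ K, Near P a K → Near P b K := by
    intro a b ha hab hb K hK
    have hstar : ∀ s t : ℝ, 0 ≤ s → s ≤ t → 0 < t → s • P ⊆ t • P := by
      intro s t hs hst ht
      rintro x ⟨y, hy, rfl⟩
      refine ⟨(s / t) • y, ?_, ?_⟩
      · exact hPv.smul_mem_of_zero_mem (interior_subset h0) hy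
          ⟨by positivity, (div_le_one ht).2 hst⟩
      · simp only
        rw [smul_smul, mul_div_cancel₀ _ ht.ne']
    exact ⟨(hstar _ _ (by linarith) (by linarith) (by linarith)).trans hK.1,
      hK.2.trans (hstar _ _ (by linarith) (by linarith) (by linarith))⟩
  have hseq : ∀ m : ℕ, ∃ (K D : Set Pl) (n : ℕ) (φ : Fin n → (Pl ≃ᵢ Pl)) (i : Fin n),
      IsCompact K ∧ IsCompact D ∧ Convex ℝ D ∧ Near P (1 / ((m : ℝ) + 1 + 1)) K ∧
      D ⊆ ⋃ j, φ j '' K ∧
      waste volume (copies φ K) D (ball (φ i 0) ((m : ℝ) + 1)) < ENNReal.ofReal (1 / ((m : ℝ) + 1))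
      ∧ ¬ D ⊆ ball (φ i 0) ((m : ℝ) + 1) := by
    intro m
    have hm : (0 : ℝ) < (m : ℝ) + 1 := by positivity
    have hle : 1 / ((m : ℝ) + 1 + 1) ≤ 1 / 2 := by
      apply one_div_le_one_div_of_le (by norm_num)
      have : (0 : ℝ) ≤ m := Nat.cast_nonneg m
      linarith
    obtain ⟨K, hK, η, hη0, hη, hN, D, hD, hDv, n, φ, hcov, i, h1, h2⟩ :=
      hcon ((m : ℝ) + 1) hm (1 / ((m : ℝ) + 1 + 1)) (by positivity) hle (1 / ((m : ℝ) + 1))
        (by positivity)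
    refine ⟨K, D, n, φ, i, hK, hD, hDv, hmono η _ hη0 hη (by linarith) K hN, hcov, h1, h2⟩
  choose K D n φ i hK hD hDv hN hcov hw hfar using hseq
  let S : Seq P := ⟨K, D, n, φ, i, hK, hD, hDv, hN, hcov, hw⟩
  have hU : ((hyperfilter ℕ : Ultrafilter ℕ) : Filter ℕ) ≤ atTop := Nat.hyperfilter_le_atTop
  exact hP (limSet (hyperfilter ℕ) S.D') (isClosed_limSet _ _)
    (convex_limSet _ _ S.convex_D') (S.unbounded hPc hPv h0 _ hU hfar)
    ⟨_, S.tiling hPc hPv ⟨0, h0⟩ _ hU⟩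

lemma near_compact_bound (P : Set Pl) (hPc : IsCompact P) : ∃ ρ > 0, ∀ K : Set Pl, ∀ η, 0 ≤ η →
    η ≤ 1 / 2 → Near P η K → K ⊆ closedBall 0 ρ := by
  obtain ⟨C, hC⟩ := hPc.isBounded.subset_closedBall (0 : Pl)
  refine ⟨2 * |C| + 1, by positivity, ?_⟩
  intro K η h0 h1 hK z hz
  obtain ⟨w, hw, hwz⟩ := hK.2 hz
  simp only at hwz
  have h2 := hC hw
  rw [mem_closedBall, dist_zero_right] at h2 ⊢
  rw [← hwz, norm_smul, Real.norm_eq_abs, abs_of_nonneg (by linarith)]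
  have h3 : ‖w‖ ≤ |C| := h2.trans (le_abs_self C)
  have h4 : (1 + η) * ‖w‖ ≤ 2 * |C| := mul_le_mul (by linarith) h3 (norm_nonneg _) (by norm_num)
  linarith

lemma vol_smul (r : ℝ) (hr : 0 ≤ r) (P : Set Pl) :
    volume (r • P) = ENNReal.ofReal (r ^ 2) * volume P := by
  rw [Measure.addHaar_smul]
  simp [abs_of_nonneg hr]

lemma near_vol_lower (P : Set Pl) (K : Set Pl) (η : ℝ) (h1 : η ≤ 1 / 2)
    (hK : Near P η K) : ENNReal.ofReal ((1 - η) ^ 2) * volume P ≤ volume K := by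
  rw [← vol_smul _ (by linarith)]
  exact measure_mono hK.1

lemma measure_pos_iff_nonempty_interior_aux (P : Set Pl) (h : (interior P).Nonempty) :
    0 < volume P :=
  (isOpen_interior.measure_pos volume h).trans_le (measure_mono interior_subset)

/-- the gain, in terms of the waste measure -/
theorem gain_of_waste {n : ℕ} (φ : Fin n → (Pl ≃ᵢ Pl)) (K D : Set Pl) (hK : IsCompact K)
    (hD : IsCompact D) (hcov : D ⊆ ⋃ j, φ j '' K) (c : ℝ) (hc : 0 ≤ c)
    (hw : ENNReal.ofReal c ≤ waste volume (copies φ K) D univ) :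
    (volume D).toReal + c ≤ n * (volume K).toReal := by
  have hm : ∀ j, MeasurableSet (copies φ K j) := fun j =>
    (hK.image (φ j).continuous).isClosed.measurableSet
  have h1 := waste_add volume (copies φ K) D hcov hm hD.measure_lt_top.ne MeasurableSet.univ
  simp only [univ_inter, vol_image, Finset.sum_const, Finset.card_univ, Fintype.card_fin,
    nsmul_eq_mul] at h1
  have h2 : ENNReal.ofReal c + volume D ≤ n * volume K := by
    rw [← h1]; gcongr
  have hKf : volume K ≠ ∞ := hK.measure_lt_top.ne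
  have hDf : volume D ≠ ∞ := hD.measure_lt_top.ne
  have h3 := ENNReal.toReal_mono (ENNReal.mul_ne_top (ENNReal.natCast_ne_top n) hKf) h2
  rw [ENNReal.toReal_add ENNReal.ofReal_ne_top hDf, ENNReal.toReal_ofReal hc,
    ENNReal.toReal_mul, ENNReal.toReal_natCast] at h3
  linarith

/-- **Linear gain for many copies.** -/
theorem core (P : Set Pl) (hPc : IsCompact P) (hPv : Convex ℝ P)
    (h0 : (0 : Pl) ∈ interior P) (hP : NoUnbounded P) :
    ∃ η₀ > 0, η₀ ≤ 1 / 2 ∧ ∃ R > 0, ∃ c > 0, ∀ K : Set Pl, IsCompact K → ∀ η, 0 ≤ η → η ≤ η₀ →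
      Near P η K → ∀ D : Set Pl, IsCompact D → Convex ℝ D → ∀ (n : ℕ) (φ : Fin n → (Pl ≃ᵢ Pl)),
      D ⊆ ⋃ j, φ j '' K →
      ((volume D).toReal + c * n ≤ n * (volume K).toReal ∨ ∃ i, D ⊆ ball (φ i 0) R) := by
  obtain ⟨R, hR, η₀, hη₀, hη₁, c₀, hc₀, hloc⟩ := local_waste P hPc hPv h0 hP
  obtain ⟨ρ, hρ, hbd⟩ := near_compact_bound P hPc
  have hVP : 0 < volume P := (measure_pos_iff_nonempty_interior_aux P ⟨0, h0⟩)
  have hVPf : volume P ≠ ∞ := hPc.measure_lt_top.ne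
  set a : ℝ := (volume P).toReal / 4 with ha
  have haP : 0 < a := by
    have := ENNReal.toReal_pos hVP.ne' hVPf
    positivity
  obtain ⟨c, hc, hsum⟩ := sum_up (volume : Measure Pl) R ρ a c₀ hR hρ haP hc₀
  refine ⟨η₀, hη₀, hη₁, R, hR, c, hc, ?_⟩
  intro K hK η h1 h2 hN D hD hDv n φ hcov
  by_cases hex : ∃ i, D ⊆ ball (φ i 0) R
  · exact Or.inr hex
  left
  push Not at hex
  have hη : η ≤ 1 / 2 := h2.trans hη₁
  apply gain_of_waste φ K D hK hD hcov _ (by positivity)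
  apply hsum n (copies φ K) D (fun j => φ j 0) hcov
    (fun j => (hK.image (φ j).continuous).isClosed.measurableSet)
    (fun j => by rw [vol_image]; exact hK.measure_lt_top.ne) hD.measure_lt_top.ne
    hD.isClosed.measurableSet
  · intro j
    rintro _ ⟨x, hx, rfl⟩
    rw [mem_closedBall, (φ j).dist_eq]
    exact hbd K η h1 hη hN hx
  · intro j
    rw [vol_image]
    refine le_trans ?_ (near_vol_lower P K η hη hN)
    rw [ha, ← ENNReal.ofReal_toReal hVPf, ENNReal.toReal_ofReal ENNReal.toReal_nonneg,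
      ← ENNReal.ofReal_mul (by positivity)]
    apply ENNReal.ofReal_le_ofReal
    have h3 : (0 : ℝ) ≤ (volume P).toReal := ENNReal.toReal_nonneg
    have h4 : (1 / 4 : ℝ) ≤ (1 - η) ^ 2 := by nlinarith
    nlinarith
  · intro j
    rcases hloc K hK η h1 h2 hN D hD hDv n φ hcov j with h | h
    · exact h
    · exact absurd h (hex j)

end Pool.Agent.HexNear
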