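import Pool.Agent.Lib.MP_20f220_co.Limit

/-! The inscribed polygons spanned by triple points cover. -/

open Filter Topology Metric Set MeasureTheory
open scoped ENNReal Pointwise

namespace Pool.Agent.HexNear

/-- membership in a triangle -/
lemma tri_mem (Q : Set Pl) (hQ : Convex ℝ Q) (a b c : Pl) (ha : a ∈ Q) (hb : b ∈ Q) (hc : c ∈ Q)
    (μ ν : ℝ) (hμ : 0 ≤ μ) (hν : 0 ≤ ν) (h : μ + ν ≤ 1) :
    a + (μ • (b - a) + ν • (c - a)) ∈ Q := by
  have e : a + (μ • (b - a) + ν • (c - a)) = (1 - μ - ν) • a + μ • b + ν • c := by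
    module
  rw [e]
  have h4 := hQ.sum_mem (t := (Finset.univ : Finset (Fin 3)))
    (w := ![1 - μ - ν, μ, ν]) (z := ![a, b, c])
    (by
      intro i _
      fin_cases i
      · simp; linarith
      · simpa using hμ
      · simpa using hν)
    (by simp [Fin.sum_univ_three]; ring)
    (by
      intro i _
      fin_cases i
      · simpa using ha
      · simpa using hb
      · simpa using hc)
  simpa [Fin.sum_univ_three] using h4

/-- a point near an edge -/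
lemma edge_case (U : Ultrafilter ℕ) (Q1 Q2 : ℕ → Set Pl) (v1 : ∀ m, Convex ℝ (Q1 m))
    (v2 : ∀ m, Convex ℝ (Q2 m)) (a b : ℕ → Pl) (a0 b0 z1 z2 p : Pl) (y : ℕ → Pl)
    (ha : Tendsto a (U : Filter ℕ) (𝓝 a0)) (hb : Tendsto b (U : Filter ℕ) (𝓝 b0))
    (hy : Tendsto y (U : Filter ℕ) (𝓝 p)) (θ : ℝ) (hθ0 : 0 < θ) (hθ1 : θ < 1)
    (hp : p - a0 = θ • (b0 - a0))
    (hz : cr (b0 - a0) (z1 - a0) * cr (b0 - a0) (z2 - a0) < 0)
    (m1 : ∀ᶠ m in (U : Filter ℕ), a m ∈ Q1 m ∧ b m ∈ Q1 m ∧ z1 ∈ Q1 m)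
    (m2 : ∀ᶠ m in (U : Filter ℕ), a m ∈ Q2 m ∧ b m ∈ Q2 m ∧ z2 ∈ Q2 m) :
    ∀ᶠ m in (U : Filter ℕ), y m ∈ Q1 m ∨ y m ∈ Q2 m := by
  have hba : Tendsto (fun m => b m - a m) (U : Filter ℕ) (𝓝 (b0 - a0)) := hb.sub ha
  have hya : Tendsto (fun m => y m - a m) (U : Filter ℕ) (𝓝 (p - a0)) := hy.sub ha
  have hne : ∀ z : Pl, cr (b0 - a0) (z - a0) ≠ 0 → ∀ Q : ℕ → Set Pl, (∀ m, Convex ℝ (Q m)) →
      (∀ᶠ m in (U : Filter ℕ), a m ∈ Q m ∧ b m ∈ Q m ∧ z ∈ Q m) →
      ∀ᶠ m in (U : Filter ℕ), 0 ≤ cr (b m - a m) (y m - a m) / cr (b m - a m) (z - a m) →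
        y m ∈ Q m := by
    intro z hz0 Q hQ hm
    have hza : Tendsto (fun m => z - a m) (U : Filter ℕ) (𝓝 (z - a0)) :=
      tendsto_const_nhds.sub ha
    have hD := cr_tendsto hba hza
    have hN := cr_tendsto hba hya
    have hM := cr_tendsto hya hza
    have h0 : cr (b0 - a0) (p - a0) = 0 := by rw [hp, cr_smul_right, cr_self, mul_zero]
    have hν : Tendsto (fun m => cr (b m - a m) (y m - a m) / cr (b m - a m) (z - a m))
        (U : Filter ℕ) (𝓝 0) := by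
      have := hN.div hD hz0
      rwa [h0, zero_div] at this
    have hμ : Tendsto (fun m => cr (y m - a m) (z - a m) / cr (b m - a m) (z - a m))
        (U : Filter ℕ) (𝓝 θ) := by
      have h1 := hM.div hD hz0
      have h2 : cr (p - a0) (z - a0) / cr (b0 - a0) (z - a0) = θ := by
        rw [hp, cr_smul_left, mul_div_assoc, div_self hz0, mul_one]
      rwa [h2] at h1
    have hs := hμ.add hν
    rw [add_zero] at hs
    filter_upwards [hD.eventually_ne hz0, (tendsto_order.1 hμ).1 0 hθ0,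
      (tendsto_order.1 hs).2 1 hθ1, hm] with m c1 c2 c3 c4 c5
    have e : y m = a m + ((cr (y m - a m) (z - a m) / cr (b m - a m) (z - a m)) • (b m - a m) +
        (cr (b m - a m) (y m - a m) / cr (b m - a m) (z - a m)) • (z - a m)) := by
      rw [← cr_expand (b m - a m) (z - a m) (y m - a m) c1]; abel
    rw [e]
    exact tri_mem _ (hQ m) _ _ _ c4.1 c4.2.1 c4.2.2 _ _ c2.le c5 c3.le
  have hz1 : cr (b0 - a0) (z1 - a0) ≠ 0 := by
    intro h; rw [h, zero_mul] at hz; exact lt_irrefl _ hz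
  have hz2 : cr (b0 - a0) (z2 - a0) ≠ 0 := by
    intro h; rw [h, mul_zero] at hz; exact lt_irrefl _ hz
  have hD1 := cr_tendsto hba ((tendsto_const_nhds (x := z1)).sub ha)
  have hD2 := cr_tendsto hba ((tendsto_const_nhds (x := z2)).sub ha)
  have hprod := hD1.mul hD2
  filter_upwards [hne z1 hz1 Q1 v1 m1, hne z2 hz2 Q2 v2 m2, (tendsto_order.1 hprod).2 0 hz]
    with m c1 c2 c3
  set N := cr (b m - a m) (y m - a m) with hN
  set D1 := cr (b m - a m) (z1 - a m) with hD1'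
  set D2 := cr (b m - a m) (z2 - a m) with hD2'
  rcases mul_neg_iff.1 c3 with ⟨d1, d2⟩ | ⟨d1, d2⟩
  · rcases le_total 0 N with h | h
    · exact Or.inl (c1 (div_nonneg h d1.le))
    · exact Or.inr (c2 (div_nonneg_of_nonpos h d2.le))
  · rcases le_total 0 N with h | h
    · exact Or.inr (c2 (div_nonneg h d2.le))
    · exact Or.inl (c1 (div_nonneg_of_nonpos h d1.le))

/-- a point near a vertex -/
lemma corner_case (U : Ultrafilter ℕ) (Q1 Q2 Q3 : ℕ → Set Pl) (v1 : ∀ m, Convex ℝ (Q1 m))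
    (v2 : ∀ m, Convex ℝ (Q2 m)) (v3 : ∀ m, Convex ℝ (Q3 m)) (o a b c : ℕ → Pl)
    (p a0 b0 c0 : Pl) (y : ℕ → Pl)
    (ho : Tendsto o (U : Filter ℕ) (𝓝 p))
    (ha : Tendsto a (U : Filter ℕ) (𝓝 a0)) (hb : Tendsto b (U : Filter ℕ) (𝓝 b0))
    (hc : Tendsto c (U : Filter ℕ) (𝓝 c0)) (hy : Tendsto y (U : Filter ℕ) (𝓝 p))
    (hor : (0 < cr (a0 - p) (b0 - p) ∧ 0 < cr (b0 - p) (c0 - p) ∧ 0 < cr (c0 - p) (a0 - p)) ∨
      (cr (a0 - p) (b0 - p) < 0 ∧ cr (b0 - p) (c0 - p) < 0 ∧ cr (c0 - p) (a0 - p) < 0))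
    (m1 : ∀ᶠ m in (U : Filter ℕ), o m ∈ Q1 m ∧ c m ∈ Q1 m ∧ a m ∈ Q1 m)
    (m2 : ∀ᶠ m in (U : Filter ℕ), o m ∈ Q2 m ∧ a m ∈ Q2 m ∧ b m ∈ Q2 m)
    (m3 : ∀ᶠ m in (U : Filter ℕ), o m ∈ Q3 m ∧ b m ∈ Q3 m ∧ c m ∈ Q3 m) :
    ∀ᶠ m in (U : Filter ℕ), y m ∈ Q1 m ∨ y m ∈ Q2 m ∨ y m ∈ Q3 m := by
  have hyo : Tendsto (fun m => y m - o m) (U : Filter ℕ) (𝓝 0) := by
    have := hy.sub ho
    rwa [sub_self] at this
  have one : ∀ (s t : ℕ → Pl) (s0 t0 : Pl), Tendsto s (U : Filter ℕ) (𝓝 s0) →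
      Tendsto t (U : Filter ℕ) (𝓝 t0) → cr (s0 - p) (t0 - p) ≠ 0 →
      ∀ Q : ℕ → Set Pl, (∀ m, Convex ℝ (Q m)) →
      (∀ᶠ m in (U : Filter ℕ), o m ∈ Q m ∧ s m ∈ Q m ∧ t m ∈ Q m) →
      ∀ᶠ m in (U : Filter ℕ), 0 ≤ cr (y m - o m) (t m - o m) / cr (s m - o m) (t m - o m) →
        0 ≤ cr (s m - o m) (y m - o m) / cr (s m - o m) (t m - o m) → y m ∈ Q m := by
    intro s t s0 t0 hs ht hne Q hQ hm
    have hs' : Tendsto (fun m => s m - o m) (U : Filter ℕ) (𝓝 (s0 - p)) := hs.sub ho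
    have ht' : Tendsto (fun m => t m - o m) (U : Filter ℕ) (𝓝 (t0 - p)) := ht.sub ho
    have hD := cr_tendsto hs' ht'
    have z1 : cr 0 (t0 - p) = 0 := by simp [cr]
    have z2 : cr (s0 - p) 0 = 0 := by simp [cr]
    have hμ : Tendsto (fun m => cr (y m - o m) (t m - o m) / cr (s m - o m) (t m - o m))
        (U : Filter ℕ) (𝓝 0) := by
      have := (cr_tendsto hyo ht').div hD hne
      rwa [z1, zero_div] at this
    have hν : Tendsto (fun m => cr (s m - o m) (y m - o m) / cr (s m - o m) (t m - o m))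
        (U : Filter ℕ) (𝓝 0) := by
      have := (cr_tendsto hs' hyo).div hD hne
      rwa [z2, zero_div] at this
    have hsum := hμ.add hν
    rw [add_zero] at hsum
    filter_upwards [hD.eventually_ne hne, (tendsto_order.1 hsum).2 1 one_pos, hm]
      with m c1 c2 c3 c4 c5
    have e : y m = o m + ((cr (y m - o m) (t m - o m) / cr (s m - o m) (t m - o m)) • (s m - o m) +
        (cr (s m - o m) (y m - o m) / cr (s m - o m) (t m - o m)) • (t m - o m)) := by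
      rw [← cr_expand (s m - o m) (t m - o m) (y m - o m) c1]; abel
    rw [e]
    exact tri_mem _ (hQ m) _ _ _ c3.1 c3.2.1 c3.2.2 _ _ c4 c5 c2.le
  have nAB : cr (a0 - p) (b0 - p) ≠ 0 := by
    rcases hor with h | h
    · exact h.1.ne'
    · exact h.1.ne
  have nBC : cr (b0 - p) (c0 - p) ≠ 0 := by
    rcases hor with h | h
    · exact h.2.1.ne'
    · exact h.2.1.ne
  have nCA : cr (c0 - p) (a0 - p) ≠ 0 := by
    rcases hor with h | h
    · exact h.2.2.ne'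
    · exact h.2.2.ne
  have ha' : Tendsto (fun m => a m - o m) (U : Filter ℕ) (𝓝 (a0 - p)) := ha.sub ho
  have hb' : Tendsto (fun m => b m - o m) (U : Filter ℕ) (𝓝 (b0 - p)) := hb.sub ho
  have hc' : Tendsto (fun m => c m - o m) (U : Filter ℕ) (𝓝 (c0 - p)) := hc.sub ho
  have hAB := cr_tendsto ha' hb'
  have hBC := cr_tendsto hb' hc'
  have hCA := cr_tendsto hc' ha'
  have hsign : ∀ᶠ m in (U : Filter ℕ),
      (0 < cr (a m - o m) (b m - o m) ∧ 0 < cr (b m - o m) (c m - o m) ∧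
        0 < cr (c m - o m) (a m - o m)) ∨
      (cr (a m - o m) (b m - o m) < 0 ∧ cr (b m - o m) (c m - o m) < 0 ∧
        cr (c m - o m) (a m - o m) < 0) := by
    rcases hor with ⟨h1, h2, h3⟩ | ⟨h1, h2, h3⟩
    · filter_upwards [(tendsto_order.1 hAB).1 0 h1, (tendsto_order.1 hBC).1 0 h2,
        (tendsto_order.1 hCA).1 0 h3] with m a1 a2 a3
      exact Or.inl ⟨a1, a2, a3⟩
    · filter_upwards [(tendsto_order.1 hAB).2 0 h1, (tendsto_order.1 hBC).2 0 h2,
        (tendsto_order.1 hCA).2 0 h3] with m a1 a2 a3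
      exact Or.inr ⟨a1, a2, a3⟩
  filter_upwards [hsign, one c a c0 a0 hc ha nCA Q1 v1 m1, one a b a0 b0 ha hb nAB Q2 v2 m2,
    one b c b0 c0 hb hc nBC Q3 v3 m3] with m hs k1 k2 k3
  set A := a m - o m with hA
  set B := b m - o m with hB
  set C := c m - o m with hC
  set Y := y m - o m with hY
  -- the relation between the three determinants with `Y`
  have hrel : cr B C * cr A Y + cr C A * cr B Y + cr A B * cr C Y = 0 := by
    simp only [cr]; ring
  have sA := cr_swap Y A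
  have sB := cr_swap Y B
  have sC := cr_swap Y C
  rcases hs with ⟨h1, h2, h3⟩ | ⟨h1, h2, h3⟩
  · -- positive orientation
    by_cases c1 : 0 ≤ cr C Y ∧ cr A Y ≤ 0
    · exact Or.inl (k1 (by rw [sA]; exact div_nonneg (by linarith [c1.2]) h3.le)
        (div_nonneg c1.1 h3.le))
    by_cases c2 : 0 ≤ cr A Y ∧ cr B Y ≤ 0
    · exact Or.inr (Or.inl (k2 (by rw [sB]; exact div_nonneg (by linarith [c2.2]) h1.le)
        (div_nonneg c2.1 h1.le)))
    by_cases c3 : 0 ≤ cr B Y ∧ cr C Y ≤ 0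
    · exact Or.inr (Or.inr (k3 (by rw [sC]; exact div_nonneg (by linarith [c3.2]) h2.le)
        (div_nonneg c3.1 h2.le)))
    exfalso
    rcases le_or_gt 0 (cr A Y) with hAY | hAY
    · have hBY : 0 < cr B Y := by
        by_contra h; exact c2 ⟨hAY, not_lt.1 h⟩
      have hCY : 0 < cr C Y := by
        by_contra h; exact c3 ⟨hBY.le, not_lt.1 h⟩
      have e1 := mul_nonneg h2.le hAY
      have e2 := mul_pos h3 hBY
      have e3 := mul_pos h1 hCY
      linarith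
    · have hCY : cr C Y < 0 := by
        by_contra h; exact c1 ⟨not_lt.1 h, hAY.le⟩
      have hBY : cr B Y < 0 := by
        by_contra h; exact c3 ⟨not_lt.1 h, hCY.le⟩
      have e1 := mul_neg_of_pos_of_neg h2 hAY
      have e2 := mul_neg_of_pos_of_neg h3 hBY
      have e3 := mul_neg_of_pos_of_neg h1 hCY
      linarith
  · -- negative orientation
    by_cases c1 : cr C Y ≤ 0 ∧ 0 ≤ cr A Y
    · exact Or.inl (k1 (by rw [sA]; exact div_nonneg_of_nonpos (by linarith [c1.2]) h3.le)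
        (div_nonneg_of_nonpos c1.1 h3.le))
    by_cases c2 : cr A Y ≤ 0 ∧ 0 ≤ cr B Y
    · exact Or.inr (Or.inl (k2 (by rw [sB]; exact div_nonneg_of_nonpos (by linarith [c2.2]) h1.le)
        (div_nonneg_of_nonpos c2.1 h1.le)))
    by_cases c3 : cr B Y ≤ 0 ∧ 0 ≤ cr C Y
    · exact Or.inr (Or.inr (k3 (by rw [sC]; exact div_nonneg_of_nonpos (by linarith [c3.2]) h2.le)
        (div_nonneg_of_nonpos c3.1 h2.le)))
    exfalso
    rcases le_or_gt (cr A Y) 0 with hAY | hAY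
    · have hBY : cr B Y < 0 := by
        by_contra h; exact c2 ⟨hAY, not_lt.1 h⟩
      have hCY : cr C Y < 0 := by
        by_contra h; exact c3 ⟨hBY.le, not_lt.1 h⟩
      have e1 := mul_nonneg_of_nonpos_of_nonpos h2.le hAY
      have e2 := mul_pos_of_neg_of_neg h3 hBY
      have e3 := mul_pos_of_neg_of_neg h1 hCY
      linarith
    · have hCY : 0 < cr C Y := by
        by_contra h; exact c1 ⟨not_lt.1 h, hAY.le⟩
      have hBY : 0 < cr B Y := by
        by_contra h; exact c3 ⟨not_lt.1 h, hCY.le⟩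
      have e1 := mul_neg_of_neg_of_pos h2 hAY
      have e2 := mul_neg_of_neg_of_pos h3 hBY
      have e3 := mul_neg_of_neg_of_pos h1 hCY
      linarith

namespace Seq
variable {P : Set Pl} (S : Seq P) (U : Ultrafilter ℕ) (hU : (U : Filter ℕ) ≤ atTop)

/-- the data of the inscribed polygons -/
structure Polys where
  Q : ∀ m, Fin (S.n m) → Set Pl
  hQc : ∀ m j, IsClosed (Q m j)
  hQv : ∀ m j, Convex ℝ (Q m j)
  x : ∀ m, Finset (Fin (S.n m)) → Pl
  hx : ∀ m t, t.card = 3 → (⋂ l ∈ t, S.C m l).Nonempty → ∀ l ∈ t, x m t ∈ S.C m l ∧ x m t ∈ Q m l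

include hU

/-- the triple points near a vertex -/
lemma vertex_pt (Y : S.Polys) (hPc : IsCompact P) (h0 : (interior P).Nonempty)
    (hF : Tame (limFam U S.g P)) (hKv : ∀ m, Convex ℝ (S.K m))
    (huniv : limSet U S.D' = univ) {j1 j2 j3 : ∀ m, Fin (S.n m)} {T1 T2 T3 : Set Pl}
    (r1 : S.Rep U j1 T1) (r2 : S.Rep U j2 T2) (r3 : S.Rep U j3 T3)
    (h12 : T1 ≠ T2) (h13 : T1 ≠ T3) (h23 : T2 ≠ T3)
    (p : Pl) (p1 : p ∈ T1) (p2 : p ∈ T2) (p3 : p ∈ T3) :
    ∃ ξ : ℕ → Pl, Tendsto ξ (U : Filter ℕ) (𝓝 p) ∧ (∀ᶠ m in (U : Filter ℕ), ξ m ∈ Y.Q m (j1 m)) ∧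
      (∀ᶠ m in (U : Filter ℕ), ξ m ∈ Y.Q m (j2 m)) ∧
      (∀ᶠ m in (U : Filter ℕ), ξ m ∈ Y.Q m (j3 m)) := by
  classical
  set ξ : ℕ → Pl := fun m => Y.x m {j1 m, j2 m, j3 m} with hξ
  have hall : ∀ᶠ m in (U : Filter ℕ), (∀ l ∈ ({j1 m, j2 m, j3 m} : Finset (Fin (S.n m))),
      ξ m ∈ S.C m l ∧ ξ m ∈ Y.Q m l) := by
    filter_upwards [S.rep_ev_ne U r1 r2 h12, S.rep_ev_ne U r1 r3 h13, S.rep_ev_ne U r2 r3 h23,
      S.triple_meet U hU hPc h0 hF hKv huniv r1 r2 r3 h12 h13 h23 p p1 p2 p3] with m a1 a2 a3 a4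
    apply Y.hx m
    · rw [Finset.card_insert_of_notMem (by simp [a1, a2]), Finset.card_pair a3]
    · obtain ⟨x, ⟨x1, x2⟩, x3⟩ := a4
      refine ⟨x, mem_iInter₂.2 fun l hl => ?_⟩
      simp only [Finset.mem_insert, Finset.mem_singleton] at hl
      rcases hl with rfl | rfl | rfl
      · exact x1
      · exact x2
      · exact x3
  refine ⟨ξ, ?_, ?_, ?_, ?_⟩
  · apply S.triple_lim U hU hPc hF r1 r2 r3 h12 h13 h23 p p1 p2 p3 ξ
    filter_upwards [hall] with m hm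
    exact ⟨(hm _ (by simp)).1, (hm _ (by simp)).1, (hm _ (by simp)).1⟩
  · filter_upwards [hall] with m hm
    exact (hm _ (by simp)).2
  · filter_upwards [hall] with m hm
    exact (hm _ (by simp)).2
  · filter_upwards [hall] with m hm
    exact (hm _ (by simp)).2

/-- convergence to interior points of tiles -/
lemma interior_pt (Y : S.Polys) (hPc : IsCompact P) (h0 : (interior P).Nonempty)
    (hF : Tame (limFam U S.g P)) (hKv : ∀ m, Convex ℝ (S.K m))
    (huniv : limSet U S.D' = univ) {j : ∀ m, Fin (S.n m)} {T : Set Pl}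
    (r : S.Rep U j T) (p : Pl) (hp : p ∈ interior T) (y : ℕ → Pl)
    (hy : Tendsto y (U : Filter ℕ) (𝓝 p)) :
    ∀ᶠ m in (U : Filter ℕ), y m ∈ Y.Q m (j m) := by
  have f : T ∈ limFam U S.g P := ⟨j, r⟩
  apply stable U (fun m => Y.Q m (j m)) (fun m => Y.hQc m _) (fun m => Y.hQv m _) T
    (hF.compact T f) (hF.convex T f) _ p hp y hy
  intro v hv
  obtain ⟨T2, f2, T3, f3, h12, h13, h23, v2, v3⟩ := hF.ext_three T f v hv
  obtain ⟨j2, r2⟩ := f2
  obtain ⟨j3, r3⟩ := f3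
  obtain ⟨ξ, h1, h2, -, -⟩ := S.vertex_pt U hU Y hPc h0 hF hKv huniv r r2 r3 h12 h13 h23 v hv.1 v2 v3
  exact ⟨ξ, h1, h2⟩

/-- **The polygons cover** near a well covered copy. -/
theorem cover_limit (Y : S.Polys) (hPc : IsCompact P) (h0 : (interior P).Nonempty)
    (hF : Tame (limFam U S.g P)) (hKv : ∀ m, Convex ℝ (S.K m))
    (huniv : limSet U S.D' = univ) (y : ℕ → Pl) (p : Pl)
    (hy : Tendsto y (U : Filter ℕ) (𝓝 p)) :
    ∀ᶠ m in (U : Filter ℕ), ∃ l, y m ∈ Y.Q m l := by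
  obtain ⟨T1, f1, p1⟩ := hF.cover p
  obtain ⟨j1, r1⟩ := id f1
  by_cases c2 : ∃ T2 ∈ limFam U S.g P, T1 ≠ T2 ∧ p ∈ T2
  · obtain ⟨T2, f2, h12, p2⟩ := c2
    obtain ⟨j2, r2⟩ := id f2
    by_cases c3 : ∃ T3 ∈ limFam U S.g P, T1 ≠ T3 ∧ T2 ≠ T3 ∧ p ∈ T3
    · -- a vertex
      obtain ⟨T3, f3, h13, h23, p3⟩ := c3
      obtain ⟨j3, r3⟩ := id f3
      obtain ⟨a, hap, a1, a2, Ta, fa, na1, na2, aTa⟩ := hF.vertex f1 f2 f3 h12 h13 h23 p p1 p2 p3
      obtain ⟨b, hbp, b2, b3, Tb, fb, nb2, nb3, bTb⟩ :=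
        hF.vertex f2 f3 f1 h23 h12.symm h13.symm p p2 p3 p1
      obtain ⟨c, hcp, c3', c1, Tc, fc, nc3, nc1, cTc⟩ :=
        hF.vertex f3 f1 f2 h13.symm h23.symm h12 p p3 p1 p2
      obtain ⟨ja, ra⟩ := id fa
      obtain ⟨jb, rb⟩ := id fb
      obtain ⟨jc, rc⟩ := id fc
      obtain ⟨o, ho, o1, o2, o3⟩ :=
        S.vertex_pt U hU Y hPc h0 hF hKv huniv r1 r2 r3 h12 h13 h23 p p1 p2 p3
      obtain ⟨α, hα, α1, α2, -⟩ :=
        S.vertex_pt U hU Y hPc h0 hF hKv huniv r1 r2 ra h12 na1.symm na2.symm a a1 a2 aTa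
      obtain ⟨β, hβ, β2, β3, -⟩ :=
        S.vertex_pt U hU Y hPc h0 hF hKv huniv r2 r3 rb h23 nb2.symm nb3.symm b b2 b3 bTb
      obtain ⟨γ, hγ, γ3, γ1, -⟩ :=
        S.vertex_pt U hU Y hPc h0 hF hKv huniv r3 r1 rc h13.symm nc3.symm nc1.symm c c3' c1 cTc
      have hor := hF.orient f1 f2 f3 h12 h13 h23 p a b c p1 p2 p3 a1 a2 hap b2 b3 hbp c3' c1 hcp
      have h := corner_case U (fun m => Y.Q m (j1 m)) (fun m => Y.Q m (j2 m))
        (fun m => Y.Q m (j3 m)) (fun m => Y.hQv m _) (fun m => Y.hQv m _) (fun m => Y.hQv m _)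
        o α β γ p a b c y ho hα hβ hγ hy hor (o1.and (γ1.and α1)) (o2.and (α2.and β2))
        (o3.and (β3.and γ3))
      filter_upwards [h] with m hm
      rcases hm with hm | hm | hm
      · exact ⟨_, hm⟩
      · exact ⟨_, hm⟩
      · exact ⟨_, hm⟩
    · -- an edge
      have hp : ∀ T ∈ limFam U S.g P, p ∈ T → T = T1 ∨ T = T2 := by
        intro T hT hpT
        by_contra hne
        push Not at hne
        exact c3 ⟨T, hT, hne.1.symm, hne.2.symm, hpT⟩
      obtain ⟨u, c, hu, s1, s2, i1, i2⟩ := sep T1 T2 (hF.convex T1 f1) (hF.convex T2 f2)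
        (hF.int T1 f1) (hF.int T2 f2) (hF.disj T1 f1 T2 f2 h12)
      obtain ⟨τ, hτ, τ', hτ', ⟨a1, a2, Ta, fa, na1, na2, aTa⟩, b1, b2, Tb, fb, nb1, nb2, bTb⟩ :=
        hF.edge f1 f2 u c hu s1 s2 p p1 p2 hp
      obtain ⟨ja, ra⟩ := id fa
      obtain ⟨jb, rb⟩ := id fb
      set a := p + τ • u with ha
      set b := p - τ' • u with hb
      obtain ⟨α, hα, α1, α2, -⟩ :=
        S.vertex_pt U hU Y hPc h0 hF hKv huniv r1 r2 ra h12 na1.symm na2.symm a a1 a2 aTa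
      obtain ⟨β, hβ, β1, β2, -⟩ :=
        S.vertex_pt U hU Y hPc h0 hF hKv huniv r1 r2 rb h12 nb1.symm nb2.symm b b1 b2 bTb
      obtain ⟨z1, hz1⟩ := hF.int T1 f1
      obtain ⟨z2, hz2⟩ := hF.int T2 f2
      have e1 := S.interior_pt U hU Y hPc h0 hF hKv huniv r1 z1 hz1 (fun _ => z1) tendsto_const_nhds
      have e2 := S.interior_pt U hU Y hPc h0 hF hKv huniv r2 z2 hz2 (fun _ => z2) tendsto_const_nhds
      have hpc : cr u p = c := le_antisymm (s1 p p1) (s2 p p2)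
      have hba : b - a = (-(τ + τ')) • u := by rw [ha, hb]; module
      have hac : cr u a = c := by
        rw [ha, cr_add_right, cr_smul_right, cr_self, mul_zero, add_zero, hpc]
      have h := edge_case U (fun m => Y.Q m (j1 m)) (fun m => Y.Q m (j2 m))
        (fun m => Y.hQv m _) (fun m => Y.hQv m _) α β a b z1 z2 p y hα hβ hy
        (τ / (τ + τ')) (by positivity) (by rw [div_lt_one (by positivity)]; linarith)
        (by
          rw [hba, smul_smul]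
          have e : τ / (τ + τ') * -(τ + τ') = -τ := by field_simp
          rw [e, ha]; module)
        (by
          rw [hba, cr_smul_left, cr_smul_left, cr_sub_right, cr_sub_right, hac]
          have g1 : cr u z1 - c < 0 := by linarith [i1 z1 hz1]
          have g2 : 0 < cr u z2 - c := by linarith [i2 z2 hz2]
          have g3 : 0 < (τ + τ') * (τ + τ') := by positivity
          have g4 := mul_neg_of_neg_of_pos g1 g2
          have g5 := mul_neg_of_pos_of_neg g3 g4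
          nlinarith)
        (α1.and (β1.and e1)) (α2.and (β2.and e2))
      filter_upwards [h] with m hm
      rcases hm with hm | hm
      · exact ⟨_, hm⟩
      · exact ⟨_, hm⟩
  · -- an interior point
    have hpi : p ∈ interior T1 := by
      obtain ⟨δ, hδ, hb⟩ := hF.ball_two (T1 := T1) (T2 := T1) p (by
        intro T hT hpT
        by_contra hne
        push Not at hne
        exact c2 ⟨T, hT, hne.1.symm, hpT⟩)
      rw [union_self] at hb
      exact interior_maximal hb isOpen_ball (mem_ball_self hδ)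
    filter_upwards [S.interior_pt U hU Y hPc h0 hF hKv huniv r1 p hpi y hy] with m hm
    exact ⟨_, hm⟩

/-- **Few triples** contain a well covered copy. -/
theorem few_triples (s : Finset Pl) (hPs : P = convexHull ℝ (s : Set Pl)) (hPc : IsCompact P)
    (h0 : (interior P).Nonempty) (hF : Tame (limFam U S.g P)) :
    ¬ ∀ᶠ m in (U : Filter ℕ), ∃ τ : Fin (s.card + 1) → Finset (Fin (S.n m)),
      Function.Injective τ ∧ ∀ k, (τ k).card = 3 ∧ S.i m ∈ τ k ∧ (⋂ l ∈ τ k, S.C m l).Nonempty := by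
  classical
  intro hev
  have hP : S.Rep U S.i P := by
    refine ⟨IsometryEquiv.refl Pl, fun x => ?_, ?_⟩
    · simp only [g_self]
      exact tendsto_const_nhds
    · have h : ((IsometryEquiv.refl Pl : Pl ≃ᵢ Pl) : Pl → Pl) = id := rfl
      rw [h, image_id]
  have hPF : P ∈ limFam U S.g P := ⟨S.i, hP⟩
  -- choices
  have hch : ∀ m, ∃ (τ : Fin (s.card + 1) → Finset (Fin (S.n m)))
      (a b : Fin (s.card + 1) → Fin (S.n m)) (x : Fin (s.card + 1) → Pl),
      (∃ τ : Fin (s.card + 1) → Finset (Fin (S.n m)),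
      Function.Injective τ ∧ ∀ k, (τ k).card = 3 ∧ S.i m ∈ τ k ∧ (⋂ l ∈ τ k, S.C m l).Nonempty) →
      (Function.Injective τ ∧ ∀ k, τ k = {S.i m, a k, b k} ∧ S.i m ≠ a k ∧ S.i m ≠ b k ∧
        a k ≠ b k ∧ x k ∈ S.C m (S.i m) ∧ x k ∈ S.C m (a k) ∧ x k ∈ S.C m (b k)) := by
    intro m
    by_cases h : ∃ τ : Fin (s.card + 1) → Finset (Fin (S.n m)),
      Function.Injective τ ∧ ∀ k, (τ k).card = 3 ∧ S.i m ∈ τ k ∧ (⋂ l ∈ τ k, S.C m l).Nonempty
    · obtain ⟨τ, hinj, hτ⟩ := h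
      have hk : ∀ k, ∃ (a b : Fin (S.n m)) (x : Pl), τ k = {S.i m, a, b} ∧ S.i m ≠ a ∧
          S.i m ≠ b ∧ a ≠ b ∧ x ∈ S.C m (S.i m) ∧ x ∈ S.C m a ∧ x ∈ S.C m b := by
        intro k
        obtain ⟨h1, h2, x, hx⟩ := hτ k
        have hc : ((τ k).erase (S.i m)).card = 2 := by
          rw [Finset.card_erase_of_mem h2, h1]
        obtain ⟨a, b, hab, heq⟩ := Finset.card_eq_two.1 hc
        have ma : a ∈ (τ k).erase (S.i m) := by rw [heq]; simp
        have mb : b ∈ (τ k).erase (S.i m) := by rw [heq]; simp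
        refine ⟨a, b, x, ?_, (Finset.ne_of_mem_erase ma).symm, (Finset.ne_of_mem_erase mb).symm,
          hab, mem_iInter₂.1 hx _ h2, mem_iInter₂.1 hx _ (Finset.mem_of_mem_erase ma),
          mem_iInter₂.1 hx _ (Finset.mem_of_mem_erase mb)⟩
        rw [← heq, Finset.insert_erase h2]
      choose a b x hx using hk
      exact ⟨τ, a, b, x, fun _ => ⟨hinj, hx⟩⟩
    · exact ⟨fun _ => ∅, fun _ => S.i m, fun _ => S.i m, fun _ => 0, fun h' => absurd h' h⟩
  choose τ a b x hx using hch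
  have hgood : ∀ᶠ m in (U : Filter ℕ), Function.Injective (τ m) ∧
      ∀ k, τ m k = {S.i m, a m k, b m k} ∧ S.i m ≠ a m k ∧ S.i m ≠ b m k ∧
        a m k ≠ b m k ∧ x m k ∈ S.C m (S.i m) ∧ x m k ∈ S.C m (a m k) ∧ x m k ∈ S.C m (b m k) :=
    hev.mono fun m hm => hx m hm
  -- limits
  have hlim : ∀ k, ∃ (v : Pl) (A B : Set Pl), v ∈ P ∧ v ∈ A ∧ v ∈ B ∧
      S.Rep U (fun m => a m k) A ∧ S.Rep U (fun m => b m k) B := by
    intro k
    obtain ⟨C, hC⟩ := near_bd U P hPc.isBounded S.K _ (eta_U U hU) S.near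
    obtain ⟨v, hv⟩ := exists_lim U (fun m => x m k) 0 C (by
      filter_upwards [hgood, hC] with m h1 h2
      obtain ⟨z, hz, hzx⟩ := (h1.2 k).2.2.2.2.1
      rw [← hzx, S.g_self]
      exact h2 hz)
    obtain ⟨A, hA, hvA⟩ := S.exists_rep U hU hPc (fun m => a m k) (fun m => x m k) v
      (hgood.mono fun m hm => (hm.2 k).2.2.2.2.2.1) hv
    obtain ⟨B, hB, hvB⟩ := S.exists_rep U hU hPc (fun m => b m k) (fun m => x m k) v
      (hgood.mono fun m hm => (hm.2 k).2.2.2.2.2.2) hv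
    have hvP := S.rep_lim U hU hPc hP (fun m => x m k) v
      (hgood.mono fun m hm => (hm.2 k).2.2.2.2.1) hv
    exact ⟨v, A, B, hvP, hvA, hvB, hA, hB⟩
  choose v A B vP vA vB rA rB using hlim
  have nPA : ∀ k, P ≠ A k := fun k => S.rep_ne U hU h0 hP (rA k)
    (hgood.mono fun m hm => (hm.2 k).2.1)
  have nPB : ∀ k, P ≠ B k := fun k => S.rep_ne U hU h0 hP (rB k)
    (hgood.mono fun m hm => (hm.2 k).2.2.1)
  have nAB : ∀ k, A k ≠ B k := fun k => S.rep_ne U hU h0 (rA k) (rB k)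
    (hgood.mono fun m hm => (hm.2 k).2.2.2.1)
  have fA : ∀ k, A k ∈ limFam U S.g P := fun k => ⟨_, rA k⟩
  have fB : ∀ k, B k ∈ limFam U S.g P := fun k => ⟨_, rB k⟩
  have hvs : ∀ k, v k ∈ s := by
    intro k
    have h1 := hF.three_ext (v k) P hPF (A k) (fA k) (B k) (fB k) (nPA k) (nPB k) (nAB k)
      (vP k) (vA k) (vB k)
    have h2 : v k ∈ Set.extremePoints ℝ (convexHull ℝ (s : Set Pl)) := by rw [← hPs]; exact h1
    have := extremePoints_convexHull_subset h2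
    exact_mod_cast this
  -- pigeonhole
  obtain ⟨k, k', hkk, hv⟩ : ∃ k k' : Fin (s.card + 1), k ≠ k' ∧ v k = v k' := by
    have hcard : s.card < (Finset.univ : Finset (Fin (s.card + 1))).card := by simp
    obtain ⟨k, -, k', -, h1, h2⟩ := Finset.exists_ne_map_eq_of_card_lt_of_maps_to hcard
      (fun k _ => hvs k)
    exact ⟨k, k', h1, h2⟩
  have hAk := hF.three_max (v k) P hPF (A k) (fA k) (B k) (fB k) (nPA k) (nPB k) (nAB k)
    (vP k) (vA k) (vB k) (A k') (fA k') (by rw [hv]; exact vA k')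
  have hBk := hF.three_max (v k) P hPF (A k) (fA k) (B k) (fB k) (nPA k) (nPB k) (nAB k)
    (vP k) (vA k) (vB k) (B k') (fB k') (by rw [hv]; exact vB k')
  have same : ∀ (j j' : ∀ m, Fin (S.n m)) (X X' : Set Pl), S.Rep U j X → S.Rep U j' X' →
      X = X' → ∀ᶠ m in (U : Filter ℕ), j m = j' m := by
    intro j j' X X' r r' hXX
    by_contra hcon
    rw [← Ultrafilter.eventually_not] at hcon
    exact S.rep_ne U hU h0 r r' hcon hXX
  have hfin : ∀ᶠ m in (U : Filter ℕ), τ m k = τ m k' := by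
    rcases hAk with h1 | h1 | h1
    · exact absurd h1.symm (nPA k')
    · rcases hBk with h2 | h2 | h2
      · exact absurd h2.symm (nPB k')
      · exact absurd (h1.trans h2.symm) (nAB k')
      · filter_upwards [hgood, same _ _ _ _ (rA k') (rA k) h1, same _ _ _ _ (rB k') (rB k) h2]
          with m g1 g2 g3
        rw [(g1.2 k).1, (g1.2 k').1, g2, g3]
    · rcases hBk with h2 | h2 | h2
      · exact absurd h2.symm (nPB k')
      · filter_upwards [hgood, same _ _ _ _ (rA k') (rB k) h1, same _ _ _ _ (rB k') (rA k) h2]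
          with m g1 g2 g3
        rw [(g1.2 k).1, (g1.2 k').1, g2, g3, Finset.pair_comm]
      · exact absurd (h1.trans h2.symm) (nAB k')
  obtain ⟨m, h1, h2⟩ := (hfin.and hgood).exists
  exact hkk (h2.1 h1)

end Seq

end Pool.Agent.HexNear
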