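import Mathlib

/-! Definitions used in the statements on the hexagon bound (MP_20f220_co). -/

open Metric Set MeasureTheory

namespace Pool.Agent.HexNear

/-- `S` is tiled by the family `F` of congruent copies of `P`: every member of `F` is a
congruent copy of `P`, distinct members have disjoint interiors, the union is `S`. -/
def IsTiling {E : Type*} [NormedAddCommGroup E] (P : Set E) (F : Set (Set E)) (S : Set E) : Prop :=
  (∀ T ∈ F, ∃ ψ : E ≃ᵢ E, T = ψ '' P) ∧
  (∀ T ∈ F, ∀ T' ∈ F, T ≠ T' → Disjoint (interior T) (interior T')) ∧ ⋃₀ F = S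

/-- the Euclidean plane -/
abbrev Pl := EuclideanSpace ℝ (Fin 2)

/-- the area of a set -/
noncomputable def area (S : Set Pl) : ℝ := (volume S).toReal

/-- the largest area of a convex polygon with at most six vertices inscribed in `K` -/
noncomputable def hexArea (K : Set Pl) : ℝ :=
  sSup {a : ℝ | ∃ s : Finset Pl, s.card ≤ 6 ∧ (s : Set Pl) ⊆ K ∧
    a = area (convexHull ℝ (s : Set Pl))}

/-- the class of convex polygons with at most eight vertices -/
def Oct (D : Set Pl) : Prop := ∃ t : Finset Pl, t.card ≤ 8 ∧ D = convexHull ℝ (t : Set Pl)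

/-- the part in the open unit disc of the cone spanned by `P` at `v` -/
def unitCone (P : Set Pl) (v : Pl) : Set Pl :=
  {z | ‖z‖ < 1 ∧ ∃ t : ℝ, 0 < t ∧ v + t • z ∈ P}

/-- the angle of `P` at `v` (in radians): twice the area of the part in the unit disc of the
cone spanned by `P` at `v` -/
noncomputable def ang (P : Set Pl) (v : Pl) : ℝ := 2 * area (unitCone P v)

end Pool.Agent.HexNear
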