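import Pool.Agent.Lib.MP_20f220_co.Tiles

/-! Edges and vertices of tame tilings. -/

open Filter Topology Metric Set MeasureTheory
open scoped ENNReal Pointwise

namespace Pool.Agent.HexNear

/-- the cross product -/
def cr (x y : Pl) : ℝ := x 0 * y 1 - x 1 * y 0

lemma cr_add_right (x y z : Pl) : cr x (y + z) = cr x y + cr x z := by
  simp [cr]; ring

lemma cr_sub_right (x y z : Pl) : cr x (y - z) = cr x y - cr x z := by
  simp [cr]; ring

lemma cr_smul_right (x y : Pl) (t : ℝ) : cr x (t • y) = t * cr x y := by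
  simp [cr]; ring

lemma cr_neg_left (x y : Pl) : cr (-x) y = -cr x y := by
  simp [cr]; ring

lemma cr_smul_left (x y : Pl) (t : ℝ) : cr (t • x) y = t * cr x y := by
  simp [cr]; ring

lemma cr_self (x : Pl) : cr x x = 0 := by
  simp [cr]; ring

lemma cr_swap (x y : Pl) : cr x y = -cr y x := by
  simp [cr]; ring

lemma cr_continuous : Continuous (fun q : Pl × Pl => cr q.1 q.2) := by
  unfold cr
  fun_prop

lemma cr_tendsto {α : Type*} {l : Filter α} {f g : α → Pl} {x y : Pl}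
    (hf : Tendsto f l (𝓝 x)) (hg : Tendsto g l (𝓝 y)) :
    Tendsto (fun m => cr (f m) (g m)) l (𝓝 (cr x y)) :=
  (cr_continuous.tendsto (x, y)).comp (hf.prodMk_nhds hg)

lemma cr_identity (u v w : Pl) : cr v w • u + cr w u • v + cr u v • w = 0 := by
  ext i
  fin_cases i
  · simp [cr]; ring
  · simp [cr]; ring

/-- expansion of `w` in the basis `u`, `v` -/
lemma cr_expand (u v w : Pl) (h : cr u v ≠ 0) :
    w = (cr w v / cr u v) • u + (cr u w / cr u v) • v := by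
  ext i
  fin_cases i
  · simp only [Fin.zero_eta, PiLp.add_apply, PiLp.smul_apply, smul_eq_mul]
    rw [div_mul_eq_mul_div, div_mul_eq_mul_div, ← add_div, eq_div_iff h]
    simp [cr]; ring
  · simp only [Fin.mk_one, PiLp.add_apply, PiLp.smul_apply, smul_eq_mul]
    rw [div_mul_eq_mul_div, div_mul_eq_mul_div, ← add_div, eq_div_iff h]
    simp [cr]; ring

/-- rotation by a right angle -/
def rot (x : Pl) : Pl := !₂[-x 1, x 0]

lemma cr_rot (x : Pl) : cr x (rot x) = x 0 ^ 2 + x 1 ^ 2 := by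
  simp [cr, rot]; ring

lemma sq_pos_of_ne (x : Pl) (h : x ≠ 0) : 0 < x 0 ^ 2 + x 1 ^ 2 := by
  by_contra hcon
  apply h
  have h0 : x 0 = 0 := by nlinarith [sq_nonneg (x 0), sq_nonneg (x 1)]
  have h1 : x 1 = 0 := by nlinarith [sq_nonneg (x 0), sq_nonneg (x 1)]
  ext i
  fin_cases i
  · simpa using h0
  · simpa using h1

lemma cr_zero_iff (u w : Pl) (hu : u ≠ 0) (h : cr u w = 0) : ∃ b : ℝ, w = b • u := by
  have huu := sq_pos_of_ne u hu
  simp only [cr] at h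
  refine ⟨(u 0 * w 0 + u 1 * w 1) / (u 0 ^ 2 + u 1 ^ 2), ?_⟩
  ext i
  fin_cases i
  · simp only [Fin.zero_eta, PiLp.smul_apply, smul_eq_mul]
    rw [div_mul_eq_mul_div, eq_div_iff huu.ne']
    linear_combination (-u 1) * h
  · simp only [Fin.mk_one, PiLp.smul_apply, smul_eq_mul]
    rw [div_mul_eq_mul_div, eq_div_iff huu.ne']
    linear_combination (u 0) * h

/-- every functional is a cross product -/
lemma exists_cr (f : Pl →L[ℝ] ℝ) : ∃ u : Pl, ∀ x, f x = cr u x := by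
  obtain ⟨w, hw⟩ : ∃ w : Pl, ∀ y, f y = inner ℝ w y :=
    ⟨(InnerProductSpace.toDual ℝ Pl).symm f, fun y => by simp⟩
  refine ⟨!₂[w 1, -w 0], fun x => ?_⟩
  rw [hw]
  simp [cr, PiLp.inner_apply, Fin.sum_univ_two]
  ring

/-- separation of convex sets with disjoint interiors -/
lemma sep (A B : Set Pl) (hA : Convex ℝ A) (hB : Convex ℝ B) (hAi : (interior A).Nonempty)
    (hBi : (interior B).Nonempty) (hAB : Disjoint (interior A) (interior B)) :
    ∃ (u : Pl) (c : ℝ), u ≠ 0 ∧ (∀ x ∈ A, cr u x ≤ c) ∧ (∀ x ∈ B, c ≤ cr u x) ∧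
      (∀ x ∈ interior A, cr u x < c) ∧ (∀ x ∈ interior B, c < cr u x) := by
  obtain ⟨f, c, h1, h2⟩ := geometric_hahn_banach_open_open hA.interior isOpen_interior
    hB.interior isOpen_interior hAB
  obtain ⟨u, hu⟩ := exists_cr f
  have hcont : Continuous (fun x : Pl => cr u x) := by unfold cr; fun_prop
  refine ⟨u, c, ?_, ?_, ?_, ?_, ?_⟩
  · rintro rfl
    obtain ⟨a, ha⟩ := hAi
    obtain ⟨b, hb⟩ := hBi
    have h3 := h1 a ha
    have h4 := h2 b hb
    rw [hu] at h3 h4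
    simp [cr] at h3 h4
    linarith
  · intro x hx
    have hcl : x ∈ closure (interior A) := by
      rw [hA.closure_interior_eq_closure_of_nonempty_interior hAi]
      exact subset_closure hx
    have hsub : closure (interior A) ⊆ {y | cr u y ≤ c} :=
      closure_minimal (fun y hy => by rw [mem_ofPred_eq, ← hu]; exact (h1 y hy).le)
        (isClosed_le hcont continuous_const)
    exact hsub hcl
  · intro x hx
    have hcl : x ∈ closure (interior B) := by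
      rw [hB.closure_interior_eq_closure_of_nonempty_interior hBi]
      exact subset_closure hx
    have hsub : closure (interior B) ⊆ {y | c ≤ cr u y} :=
      closure_minimal (fun y hy => by rw [mem_ofPred_eq, ← hu]; exact (h2 y hy).le)
        (isClosed_le continuous_const hcont)
    exact hsub hcl
  · intro x hx
    rw [← hu]; exact h1 x hx
  · intro x hx
    rw [← hu]; exact h2 x hx

/-- a point of the separating line near which only two tiles occur lies in both -/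
lemma side_mem (A B : Set Pl) (hA : IsClosed A) (hB : IsClosed B) (u : Pl) (c : ℝ) (hu : u ≠ 0)
    (h1 : ∀ x ∈ A, cr u x ≤ c) (h2 : ∀ x ∈ B, c ≤ cr u x) (z : Pl) (hz : cr u z = c)
    (δ : ℝ) (hδ : 0 < δ) (hcov : ball z δ ⊆ A ∪ B) : z ∈ A ∧ z ∈ B := by
  have huu := sq_pos_of_ne u hu
  have hlim : ∀ σ : ℝ, Tendsto (fun t : ℝ => z + (σ * t) • rot u) (𝓝[>] 0) (𝓝 z) := by
    intro σ
    have h3 : Continuous (fun t : ℝ => z + (σ * t) • rot u) := by fun_prop
    have h4 := (h3.tendsto 0).mono_left (nhdsWithin_le_nhds (s := Ioi (0 : ℝ)))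
    simpa using h4
  have hball : ∀ σ : ℝ, ∀ᶠ t : ℝ in 𝓝[>] 0, z + (σ * t) • rot u ∈ ball z δ := fun σ =>
    (hlim σ).eventually (ball_mem_nhds z hδ)
  have hval : ∀ σ t : ℝ, cr u (z + (σ * t) • rot u) = c + σ * (t * (u 0 ^ 2 + u 1 ^ 2)) := by
    intro σ t
    rw [cr_add_right, cr_smul_right, cr_rot, hz]; ring
  have hpos : ∀ᶠ t : ℝ in 𝓝[>] 0, 0 < t := eventually_mem_nhdsWithin
  constructor
  · refine hA.mem_of_tendsto (hlim (-1)) ?_
    filter_upwards [hball (-1), hpos] with t ht ht0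
    rcases hcov ht with h | h
    · exact h
    · exfalso
      have h3 := h2 _ h
      rw [hval] at h3
      have : 0 < t * (u 0 ^ 2 + u 1 ^ 2) := mul_pos ht0 huu
      linarith
  · refine hB.mem_of_tendsto (hlim 1) ?_
    filter_upwards [hball 1, hpos] with t ht ht0
    rcases hcov ht with h | h
    · exfalso
      have h3 := h1 _ h
      rw [hval] at h3
      have : 0 < t * (u 0 ^ 2 + u 1 ^ 2) := mul_pos ht0 huu
      linarith
    · exact h

namespace Tame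
variable {F : Set (Set Pl)} (hF : Tame F)
include hF

lemma closed {T : Set Pl} (hT : T ∈ F) : IsClosed T := (hF.compact T hT).isClosed

/-- two tiles near `q` -/
lemma ball_two {T1 T2 : Set Pl} (q : Pl)
    (hq : ∀ T ∈ F, q ∈ T → T = T1 ∨ T = T2) : ∃ δ > 0, ball q δ ⊆ T1 ∪ T2 := by
  obtain ⟨δ, hδ, hloc⟩ := hF.loc q
  refine ⟨δ, hδ, fun x hx => ?_⟩
  obtain ⟨T, hT, hxT⟩ := hF.cover x
  rcases hq T hT (hloc T hT ⟨x, hxT, hx⟩) with rfl | rfl
  · exact Or.inl hxT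
  · exact Or.inr hxT

/-- no point of an open segment in a tile lies in three tiles -/
lemma no_third {T1 T2 T3 : Set Pl} (h1 : T1 ∈ F) (h2 : T2 ∈ F) (h3 : T3 ∈ F)
    (h12 : T1 ≠ T2) (h13 : T1 ≠ T3) (h23 : T2 ≠ T3) (x y q : Pl) (hx : x ∈ T1) (hy : y ∈ T1)
    (hq : q ∈ openSegment ℝ x y) (hqx : q ≠ x) (q1 : q ∈ T1) (q2 : q ∈ T2) (q3 : q ∈ T3) :
    False := by
  have h := hF.three_ext q T1 h1 T2 h2 T3 h3 h12 h13 h23 q1 q2 q3
  rw [mem_extremePoints] at h
  exact hqx (h.2 x hx y hy hq).1.symm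

/-- prolongation to a vertex along the common edge -/
lemma ray_end {T1 T2 : Set Pl} (h1 : T1 ∈ F) (h2 : T2 ∈ F) (u : Pl) (c : ℝ)
    (hu : u ≠ 0) (s1 : ∀ x ∈ T1, cr u x ≤ c) (s2 : ∀ x ∈ T2, c ≤ cr u x) (q : Pl)
    (τ₀ : ℝ) (hτ₀ : 0 < τ₀) (q1 : q + τ₀ • u ∈ T1) (q2 : q + τ₀ • u ∈ T2) :
    ∃ τ, τ₀ ≤ τ ∧ q + τ • u ∈ T1 ∧ q + τ • u ∈ T2 ∧
      ∃ T3 ∈ F, T3 ≠ T1 ∧ T3 ≠ T2 ∧ q + τ • u ∈ T3 := by
  have hupos : 0 < ‖u‖ := norm_pos_iff.2 hu
  set A : Set ℝ := {τ | τ₀ ≤ τ ∧ q + τ • u ∈ T1 ∧ q + τ • u ∈ T2} with hA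
  have hAc : IsClosed A := by
    apply IsClosed.inter isClosed_Ici
    apply IsClosed.inter
    · exact (hF.closed h1).preimage (by fun_prop)
    · exact (hF.closed h2).preimage (by fun_prop)
  have hAb : BddAbove A := by
    obtain ⟨C, hC⟩ := (hF.compact T1 h1).isBounded.subset_closedBall q
    refine ⟨C / ‖u‖, fun τ hτ => ?_⟩
    have h3 := hC hτ.2.1
    rw [mem_closedBall, dist_eq_norm, add_sub_cancel_left, norm_smul, Real.norm_eq_abs,
      abs_of_pos (lt_of_lt_of_le hτ₀ hτ.1)] at h3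
    rwa [le_div_iff₀ hupos]
  have hAne : A.Nonempty := ⟨τ₀, le_rfl, q1, q2⟩
  have hmem := hAc.csSup_mem hAne hAb
  set τ := sSup A with hτ
  refine ⟨τ, hmem.1, hmem.2.1, hmem.2.2, ?_⟩
  by_contra hcon
  push Not at hcon
  obtain ⟨δ, hδ, hball⟩ := hF.ball_two (T1 := T1) (T2 := T2) (q + τ • u) (by
    intro T hT hqT
    by_contra hne
    push Not at hne
    exact hcon T hT hne.1 hne.2 hqT)
  -- a further point
  set ε := δ / (2 * ‖u‖) with hε
  have hεpos : 0 < ε := by positivity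
  have hz : cr u (q + (τ + ε) • u) = c := by
    have h3 := s1 _ hmem.2.1
    have h4 := s2 _ hmem.2.2
    rw [cr_add_right, cr_smul_right, cr_self, mul_zero, add_zero] at h3 h4
    rw [cr_add_right, cr_smul_right, cr_self, mul_zero, add_zero]
    linarith
  have hdist : dist (q + (τ + ε) • u) (q + τ • u) = δ / 2 := by
    rw [dist_eq_norm]
    have e : q + (τ + ε) • u - (q + τ • u) = ε • u := by module
    rw [e, norm_smul, Real.norm_eq_abs, abs_of_pos hεpos, hε]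
    field_simp
  have hsub : ball (q + (τ + ε) • u) (δ / 2) ⊆ ball (q + τ • u) δ := by
    apply ball_subset_ball'
    rw [hdist]; linarith
  have h5 := side_mem T1 T2 (hF.closed h1) (hF.closed h2) u c hu s1 s2 _ hz (δ / 2)
    (by linarith) (hsub.trans hball)
  have h6 : τ + ε ∈ A := ⟨by have := hmem.1; linarith, h5.1, h5.2⟩
  have h7 := le_csSup hAb h6
  rw [← hτ] at h7
  linarith

/-- **Edges.** A point in exactly two tiles lies between two vertices on their common edge. -/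
lemma edge {T1 T2 : Set Pl} (h1 : T1 ∈ F) (h2 : T2 ∈ F) (u : Pl) (c : ℝ)
    (hu : u ≠ 0) (s1 : ∀ x ∈ T1, cr u x ≤ c) (s2 : ∀ x ∈ T2, c ≤ cr u x) (p : Pl)
    (p1 : p ∈ T1) (p2 : p ∈ T2) (hp : ∀ T ∈ F, p ∈ T → T = T1 ∨ T = T2) :
    ∃ τ > (0 : ℝ), ∃ τ' > (0 : ℝ), (p + τ • u ∈ T1 ∧ p + τ • u ∈ T2 ∧
      ∃ T3 ∈ F, T3 ≠ T1 ∧ T3 ≠ T2 ∧ p + τ • u ∈ T3) ∧
      (p - τ' • u ∈ T1 ∧ p - τ' • u ∈ T2 ∧
      ∃ T3 ∈ F, T3 ≠ T1 ∧ T3 ≠ T2 ∧ p - τ' • u ∈ T3) := by
  have hupos : 0 < ‖u‖ := norm_pos_iff.2 hu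
  obtain ⟨δ, hδ, hball⟩ := hF.ball_two (T1 := T1) (T2 := T2) p hp
  set ε := δ / (2 * ‖u‖) with hε
  have hεpos : 0 < ε := by positivity
  have hpc : cr u p = c := le_antisymm (s1 p p1) (s2 p p2)
  have hz : ∀ σ : ℝ, cr u (p + σ • u) = c := by
    intro σ
    rw [cr_add_right, cr_smul_right, cr_self, mul_zero, add_zero, hpc]
  have hmem : ∀ σ : ℝ, |σ| = ε → p + σ • u ∈ T1 ∧ p + σ • u ∈ T2 := by
    intro σ hσ
    have hdist : dist (p + σ • u) p = δ / 2 := by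
      rw [dist_eq_norm, add_sub_cancel_left, norm_smul, Real.norm_eq_abs, hσ, hε]
      field_simp
    have hsub : ball (p + σ • u) (δ / 2) ⊆ ball p δ := by
      apply ball_subset_ball'
      rw [hdist]; linarith
    exact side_mem T1 T2 (hF.closed h1) (hF.closed h2) u c hu s1 s2 _ (hz σ) (δ / 2)
      (by linarith) (hsub.trans hball)
  have m1 := hmem ε (abs_of_pos hεpos)
  have m2 := hmem (-ε) (by rw [abs_neg, abs_of_pos hεpos])
  obtain ⟨τ, hτ, t1, t2, t3⟩ := hF.ray_end h1 h2 u c hu s1 s2 p ε hεpos m1.1 m1.2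
  have e : p + (-ε) • u = p + ε • (-u) := by module
  rw [e] at m2
  obtain ⟨τ', hτ', t1', t2', T3, hT3, n1, n2, t3'⟩ := hF.ray_end h2 h1 (-u) (-c)
    (neg_ne_zero.2 hu)
    (fun x hx => by rw [cr_neg_left]; linarith [s2 x hx])
    (fun x hx => by rw [cr_neg_left]; linarith [s1 x hx]) p ε hεpos m2.2 m2.1
  have e' : p + τ' • (-u) = p - τ' • u := by module
  rw [e'] at t1' t2' t3'
  exact ⟨τ, lt_of_lt_of_le hεpos hτ, τ', lt_of_lt_of_le hεpos hτ', ⟨t1, t2, t3⟩,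
    ⟨t2', t1', T3, hT3, n2, n1, t3'⟩⟩

/-- **Vertices.** At a point in three tiles, any two of them have another vertex in common. -/
lemma vertex {T1 T2 T3 : Set Pl} (h1 : T1 ∈ F) (h2 : T2 ∈ F) (h3 : T3 ∈ F)
    (h12 : T1 ≠ T2) (h13 : T1 ≠ T3) (h23 : T2 ≠ T3) (p : Pl)
    (p1 : p ∈ T1) (p2 : p ∈ T2) (p3 : p ∈ T3) :
    ∃ a, a ≠ p ∧ a ∈ T1 ∧ a ∈ T2 ∧ ∃ T ∈ F, T ≠ T1 ∧ T ≠ T2 ∧ a ∈ T := by
  obtain ⟨u, c, hu, s1, s2, -, -⟩ := sep T1 T2 (hF.convex T1 h1) (hF.convex T2 h2)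
    (hF.int T1 h1) (hF.int T2 h2) (hF.disj T1 h1 T2 h2 h12)
  have hupos : 0 < ‖u‖ := norm_pos_iff.2 hu
  obtain ⟨δ, hδ, hloc⟩ := hF.loc p
  have hball : ∀ x ∈ ball p δ, x ∈ T1 ∨ x ∈ T2 ∨ x ∈ T3 := by
    intro x hx
    obtain ⟨T, hT, hxT⟩ := hF.cover x
    rcases hF.three_max p T1 h1 T2 h2 T3 h3 h12 h13 h23 p1 p2 p3 T hT
      (hloc T hT ⟨x, hxT, hx⟩) with rfl | rfl | rfl
    · exact Or.inl hxT
    · exact Or.inr (Or.inl hxT)
    · exact Or.inr (Or.inr hxT)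
  have hpc : cr u p = c := le_antisymm (s1 p p1) (s2 p p2)
  have hz : ∀ σ : ℝ, cr u (p + σ • u) = c := by
    intro σ
    rw [cr_add_right, cr_smul_right, cr_self, mul_zero, add_zero, hpc]
  set ε := δ / (2 * ‖u‖) with hε
  have hεpos : 0 < ε := by positivity
  have hdist : ∀ σ : ℝ, |σ| = ε → dist (p + σ • u) p = δ / 2 := by
    intro σ hσ
    rw [dist_eq_norm, add_sub_cancel_left, norm_smul, Real.norm_eq_abs, hσ, hε]
    field_simp
  have hmem : ∀ σ : ℝ, |σ| = ε → p + σ • u ∉ T3 → p + σ • u ∈ T1 ∧ p + σ • u ∈ T2 := by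
    intro σ hσ hn
    obtain ⟨δ', hδ', hb'⟩ := Metric.isOpen_iff.1 (hF.closed h3).isOpen_compl _ hn
    have hmin : 0 < min δ' (δ / 2) := lt_min hδ' (by linarith)
    refine side_mem T1 T2 (hF.closed h1) (hF.closed h2) u c hu s1 s2 _ (hz σ) _ hmin ?_
    intro x hx
    have hx1 : x ∈ ball p δ := by
      have h4 : dist x (p + σ • u) < δ / 2 := lt_of_lt_of_le (mem_ball.1 hx) (min_le_right _ _)
      have h5 := hdist σ hσ
      have h6 := dist_triangle x (p + σ • u) p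
      rw [mem_ball]; linarith
    have hx3 : x ∉ T3 := hb' (ball_subset_ball (min_le_left _ _) hx)
    rcases hball x hx1 with h | h | h
    · exact Or.inl h
    · exact Or.inr h
    · exact absurd h hx3
  have hext := hF.three_ext p T3 h3 T1 h1 T2 h2 h13.symm h23.symm h12 p3 p1 p2
  rw [mem_extremePoints] at hext
  have hor : p + ε • u ∉ T3 ∨ p + (-ε) • u ∉ T3 := by
    by_contra hcon
    push Not at hcon
    have h4 := (hext.2 _ hcon.1 _ hcon.2 ⟨1 / 2, 1 / 2, by norm_num, by norm_num, by norm_num,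
      by module⟩).1
    have h5 : ε • u = 0 := by
      have h6 : p + ε • u = p + 0 := by rw [h4, add_zero]
      exact add_left_cancel h6
    rcases smul_eq_zero.1 h5 with h6 | h6
    · exact hεpos.ne' h6
    · exact hu h6
  rcases hor with hn | hn
  · have m1 := hmem ε (abs_of_pos hεpos) hn
    obtain ⟨τ, hτ, t1, t2, t3⟩ := hF.ray_end h1 h2 u c hu s1 s2 p ε hεpos m1.1 m1.2
    refine ⟨p + τ • u, ?_, t1, t2, t3⟩
    intro h4
    have h6 : p + τ • u = p + 0 := by rw [h4, add_zero]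
    rcases smul_eq_zero.1 (add_left_cancel h6) with h7 | h7
    · linarith
    · exact hu h7
  · have m2 := hmem (-ε) (by rw [abs_neg, abs_of_pos hεpos]) hn
    have e : p + (-ε) • u = p + ε • (-u) := by module
    rw [e] at m2
    obtain ⟨τ', hτ', t1', t2', T, hT, n1, n2, t3'⟩ := hF.ray_end h2 h1 (-u) (-c)
      (neg_ne_zero.2 hu)
      (fun x hx => by rw [cr_neg_left]; linarith [s2 x hx])
      (fun x hx => by rw [cr_neg_left]; linarith [s1 x hx]) p ε hεpos m2.2 m2.1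
    refine ⟨p + τ' • (-u), ?_, t2', t1', T, hT, n2, n1, t3'⟩
    intro h4
    have h6 : p + τ' • (-u) = p + 0 := by rw [h4, add_zero]
    rcases smul_eq_zero.1 (add_left_cancel h6) with h7 | h7
    · linarith
    · exact hu (neg_eq_zero.1 h7)

/-- the edge between two tiles does not enter the third -/
lemma no_cone {T1 T2 T3 : Set Pl} (h1 : T1 ∈ F) (h2 : T2 ∈ F) (h3 : T3 ∈ F)
    (h12 : T1 ≠ T2) (h13 : T1 ≠ T3) (h23 : T2 ≠ T3) (p a b c : Pl)
    (p1 : p ∈ T1) (p2 : p ∈ T2) (p3 : p ∈ T3) (a1 : a ∈ T1) (a2 : a ∈ T2) (hap : a ≠ p)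
    (b3 : b ∈ T3) (c3 : c ∈ T3) (β γ : ℝ) (hβ : 0 ≤ β) (hγ : 0 ≤ γ)
    (h : a - p = β • (b - p) + γ • (c - p)) : False := by
  set μ : ℝ := 1 / (2 + β + γ) with hμ
  have hμpos : 0 < μ := by positivity
  have hden : 0 < 2 + β + γ := by linarith
  have hμ1 : μ < 1 := by
    rw [hμ, div_lt_one hden]; linarith
  set q : Pl := p + μ • (a - p) with hq
  have hq1 : q ∈ T1 := (hF.convex T1 h1).add_smul_sub_mem p1 a1 ⟨hμpos.le, hμ1.le⟩
  have hq2 : q ∈ T2 := (hF.convex T2 h2).add_smul_sub_mem p2 a2 ⟨hμpos.le, hμ1.le⟩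
  have hq3 : q ∈ T3 := by
    have e : q = (1 - μ * β - μ * γ) • p + (μ * β) • b + (μ * γ) • c := by
      rw [hq, h]; module
    rw [e]
    have hs : μ * β + μ * γ ≤ 1 := by
      have : μ * (2 + β + γ) = 1 := by rw [hμ]; field_simp
      nlinarith
    have h4 := (hF.convex T3 h3).sum_mem (t := (Finset.univ : Finset (Fin 3)))
      (w := ![1 - μ * β - μ * γ, μ * β, μ * γ]) (z := ![p, b, c])
      (by
        intro i _
        fin_cases i
        · simp; linarith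
        · simp; positivity
        · simp; positivity)
      (by simp [Fin.sum_univ_three]; ring)
      (by
        intro i _
        fin_cases i
        · simpa using p3
        · simpa using b3
        · simpa using c3)
    simpa [Fin.sum_univ_three] using h4
  have hqp : q ≠ p := by
    intro h4
    have h6 : p + μ • (a - p) = p + 0 := by rw [← hq, h4, add_zero]
    rcases smul_eq_zero.1 (add_left_cancel h6) with h7 | h7
    · exact hμpos.ne' h7
    · exact hap (sub_eq_zero.1 h7)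
  refine hF.no_third h1 h2 h3 h12 h13 h23 p a q p1 a1 ?_ hqp hq1 hq2 hq3
  exact ⟨1 - μ, μ, by linarith, hμpos, by ring, by rw [hq]; module⟩

/-- nonzero cross product of consecutive edges -/
lemma cross_ne {T1 T2 T3 : Set Pl} (h1 : T1 ∈ F) (h2 : T2 ∈ F) (h3 : T3 ∈ F)
    (h12 : T1 ≠ T2) (h13 : T1 ≠ T3) (h23 : T2 ≠ T3) (p a b : Pl)
    (p1 : p ∈ T1) (p2 : p ∈ T2) (p3 : p ∈ T3) (a1 : a ∈ T1) (a2 : a ∈ T2) (hap : a ≠ p)
    (b2 : b ∈ T2) (b3 : b ∈ T3) (hbp : b ≠ p) : cr (a - p) (b - p) ≠ 0 := by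
  intro h0
  obtain ⟨l, hl⟩ := cr_zero_iff _ _ (sub_ne_zero.2 hap) h0
  rcases lt_trichotomy l 0 with hl0 | hl0 | hl0
  · -- opposite directions
    have hext := hF.three_ext p T2 h2 T1 h1 T3 h3 h12.symm h23 h13 p2 p1 p3
    rw [mem_extremePoints] at hext
    have hne : (1 - l) ≠ 0 := by linarith
    have h4 := (hext.2 a a2 b b2 ⟨-l / (1 - l), 1 / (1 - l), by
        apply div_pos <;> linarith, by apply div_pos <;> linarith, by
        rw [← add_div, div_eq_one_iff_eq hne]; ring, ?_⟩).1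
    · exact hap h4
    · have hb : b = p + l • (a - p) := by rw [← hl]; abel
      rw [hb]
      have e : (-l / (1 - l)) • a + (1 / (1 - l)) • (p + l • (a - p))
          = ((1 / (1 - l)) * (1 - l)) • p + ((-l / (1 - l)) + (1 / (1 - l)) * l) • a := by
        module
      rw [e]
      have e1 : (1 / (1 - l)) * (1 - l) = 1 := by field_simp
      have e2 : (-l / (1 - l)) + (1 / (1 - l)) * l = 0 := by field_simp; ring
      rw [e1, e2]
      module
  · rw [hl0, zero_smul] at hl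
    exact hbp (sub_eq_zero.1 hl)
  · apply hF.no_cone h1 h2 h3 h12 h13 h23 p a b b p1 p2 p3 a1 a2 hap b3 b3 (1 / l) 0
      (by positivity) le_rfl
    rw [hl, smul_smul, one_div, inv_mul_cancel₀ hl0.ne', one_smul, zero_smul, add_zero]

/-- **Orientation.** The three edges at a vertex point in three directions which positively span
the plane. -/
lemma orient {T1 T2 T3 : Set Pl} (h1 : T1 ∈ F) (h2 : T2 ∈ F) (h3 : T3 ∈ F)
    (h12 : T1 ≠ T2) (h13 : T1 ≠ T3) (h23 : T2 ≠ T3) (p a b c : Pl)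
    (p1 : p ∈ T1) (p2 : p ∈ T2) (p3 : p ∈ T3) (a1 : a ∈ T1) (a2 : a ∈ T2) (hap : a ≠ p)
    (b2 : b ∈ T2) (b3 : b ∈ T3) (hbp : b ≠ p) (c3 : c ∈ T3) (c1 : c ∈ T1) (hcp : c ≠ p) :
    (0 < cr (a - p) (b - p) ∧ 0 < cr (b - p) (c - p) ∧ 0 < cr (c - p) (a - p)) ∨
    (cr (a - p) (b - p) < 0 ∧ cr (b - p) (c - p) < 0 ∧ cr (c - p) (a - p) < 0) := by
  have n1 := hF.cross_ne h1 h2 h3 h12 h13 h23 p a b p1 p2 p3 a1 a2 hap b2 b3 hbp
  have n2 := hF.cross_ne h2 h3 h1 h23 h12.symm h13.symm p b c p2 p3 p1 b2 b3 hbp c3 c1 hcp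
  have n3 := hF.cross_ne h3 h1 h2 h13.symm h23.symm h12 p c a p3 p1 p2 c3 c1 hcp a1 a2 hap
  have hid := cr_identity (a - p) (b - p) (c - p)
  set A := cr (b - p) (c - p) with hA
  set B := cr (c - p) (a - p) with hB
  set C := cr (a - p) (b - p) with hC
  -- `A (a-p) + B (b-p) + C (c-p) = 0`
  have noA : ¬ (0 ≤ -B / A ∧ 0 ≤ -C / A) := by
    rintro ⟨hx, hy⟩
    apply hF.no_cone h1 h2 h3 h12 h13 h23 p a b c p1 p2 p3 a1 a2 hap b3 c3 (-B / A) (-C / A) hx hy
    have h4 : A • (a - p) = A • ((-B / A) • (b - p) + (-C / A) • (c - p)) := by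
      rw [smul_add, smul_smul, smul_smul, mul_div_cancel₀ _ n2, mul_div_cancel₀ _ n2]
      have h5 : A • (a - p) = (A • (a - p) + B • (b - p) + C • (c - p))
        + ((-B) • (b - p) + (-C) • (c - p)) := by module
      rw [h5, hid, zero_add]
    exact smul_right_injective Pl n2 h4
  have noB : ¬ (0 ≤ -C / B ∧ 0 ≤ -A / B) := by
    rintro ⟨hx, hy⟩
    apply hF.no_cone h2 h3 h1 h23 h12.symm h13.symm p b c a p2 p3 p1 b2 b3 hbp c1 a1
      (-C / B) (-A / B) hx hy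
    have h4 : B • (b - p) = B • ((-C / B) • (c - p) + (-A / B) • (a - p)) := by
      rw [smul_add, smul_smul, smul_smul, mul_div_cancel₀ _ n3, mul_div_cancel₀ _ n3]
      have h5 : B • (b - p) = (A • (a - p) + B • (b - p) + C • (c - p))
        + ((-C) • (c - p) + (-A) • (a - p)) := by module
      rw [h5, hid, zero_add]
    exact smul_right_injective Pl n3 h4
  have noC : ¬ (0 ≤ -A / C ∧ 0 ≤ -B / C) := by
    rintro ⟨hx, hy⟩
    apply hF.no_cone h3 h1 h2 h13.symm h23.symm h12 p c a b p3 p1 p2 c3 c1 hcp a2 b2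
      (-A / C) (-B / C) hx hy
    have h4 : C • (c - p) = C • ((-A / C) • (a - p) + (-B / C) • (b - p)) := by
      rw [smul_add, smul_smul, smul_smul, mul_div_cancel₀ _ n1, mul_div_cancel₀ _ n1]
      have h5 : C • (c - p) = (A • (a - p) + B • (b - p) + C • (c - p))
        + ((-A) • (a - p) + (-B) • (b - p)) := by module
      rw [h5, hid, zero_add]
    exact smul_right_injective Pl n1 h4
  have pn : ∀ x y : ℝ, x < 0 → 0 < y → 0 ≤ -x / y := fun x y hx hy =>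
    (div_pos (by linarith) hy).le
  have np : ∀ x y : ℝ, 0 < x → y < 0 → 0 ≤ -x / y := fun x y hx hy =>
    (div_pos_of_neg_of_neg (by linarith) hy).le
  rcases lt_or_gt_of_ne n1 with hC0 | hC0 <;> rcases lt_or_gt_of_ne n2 with hA0 | hA0 <;>
    rcases lt_or_gt_of_ne n3 with hB0 | hB0
  · exact Or.inr ⟨hC0, hA0, hB0⟩
  · exact absurd ⟨pn _ _ hC0 hB0, pn _ _ hA0 hB0⟩ noB
  · exact absurd ⟨pn _ _ hB0 hA0, pn _ _ hC0 hA0⟩ noA
  · exact absurd ⟨np _ _ hA0 hC0, np _ _ hB0 hC0⟩ noC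
  · exact absurd ⟨pn _ _ hA0 hC0, pn _ _ hB0 hC0⟩ noC
  · exact absurd ⟨np _ _ hB0 hA0, np _ _ hC0 hA0⟩ noA
  · exact absurd ⟨np _ _ hC0 hB0, np _ _ hA0 hB0⟩ noB
  · exact Or.inl ⟨hC0, hA0, hB0⟩

end Tame

end Pool.Agent.HexNear
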