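import Pool.Agent.Lib.MP_20f220_co.Octagon

/-! The hexagon bound near polygons which do not tile. -/

open Filter Topology Metric Set MeasureTheory
open scoped ENNReal Pointwise

namespace Pool.Agent.HexNear

lemma le_hexArea (K : Set Pl) (hK : IsCompact K) (hKv : Convex ℝ K) (s : Finset Pl)
    (hs : s.card ≤ 6) (hsK : (s : Set Pl) ⊆ K) : area (convexHull ℝ (s : Set Pl)) ≤ hexArea K := by
  apply le_csSup
  · refine ⟨area K, ?_⟩
    rintro a ⟨t, -, htK, rfl⟩
    exact ENNReal.toReal_mono hK.measure_lt_top.ne (measure_mono (convexHull_min htK hKv))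
  · exact ⟨s, hs, hsK, rfl⟩

/-- tilings by a translate of `P` are tilings by `P` -/
lemma IsTiling.of_translate {P S : Set Pl} {F : Set (Set Pl)} (z : Pl)
    (h : IsTiling ((fun x => x + z) '' P) F S) : IsTiling P F S := by
  refine ⟨fun T hT => ?_, h.2.1, h.2.2⟩
  obtain ⟨ψ, rfl⟩ := h.1 T hT
  refine ⟨(IsometryEquiv.addRight z).trans ψ, ?_⟩
  rw [← image_comp]
  rfl

/-- Hausdorff-close convex bodies are squeezed between homothets -/
lemma near_of_hausdorff (P : Set Pl) (hPc : IsCompact P) (hPv : Convex ℝ P) (r : ℝ) (hr : 0 < r)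
    (hball : closedBall (0 : Pl) r ⊆ P) (K : Set Pl) (hK : IsCompact K) (hKv : Convex ℝ K)
    (hKne : K.Nonempty) (η : ℝ) (h0 : 0 < η) (h1 : η < 1) (hd : hausdorffDist K P ≤ η * r) :
    Near P η K := by
  have h0P : (0 : Pl) ∈ P := hball (by simp [hr.le])
  have hfin : hausdorffEDist K P ≠ ⊤ :=
    hausdorffEDist_ne_top_of_nonempty_of_bounded hKne ⟨0, h0P⟩ hK.isBounded hPc.isBounded
  have hfin' : hausdorffEDist P K ≠ ⊤ := by rwa [hausdorffEDist_comm]
  constructor
  · rintro x ⟨p, hp, rfl⟩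
    by_contra hx
    obtain ⟨f, u, hf1, hf2⟩ := geometric_hahn_banach_closed_point hKv hK.isClosed hx
    obtain ⟨w, hw⟩ : ∃ w : Pl, ∀ y, f y = inner ℝ w y :=
      ⟨(InnerProductSpace.toDual ℝ Pl).symm f, fun y => by simp⟩
    have hwne : w ≠ 0 := by
      rintro rfl
      obtain ⟨k, hk⟩ := hKne
      have a1 := hf1 k hk
      rw [hw] at a1 hf2
      simp at a1 hf2
      linarith
    have hwpos : 0 < ‖w‖ := norm_pos_iff.2 hwne
    set q : Pl := (r / ‖w‖) • w with hq
    have hqP : q ∈ P := by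
      apply hball
      rw [mem_closedBall, dist_zero_right, hq, norm_smul, Real.norm_eq_abs,
        abs_of_pos (by positivity), div_mul_cancel₀ _ hwpos.ne']
    have hx'P : (1 - η) • p + η • q ∈ P := hPv hp hqP (by linarith) h0.le (by ring)
    have hinf := infDist_le_hausdorffDist_of_mem hx'P hfin'
    obtain ⟨k, hk, hkd⟩ := hK.exists_infDist_eq_dist hKne ((1 - η) • p + η • q)
    rw [hausdorffDist_comm] at hinf
    have hdist : dist ((1 - η) • p + η • q) k ≤ η * r := by rw [← hkd]; exact hinf.trans hd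
    have h3 : f ((1 - η) • p + η • q) = f ((1 - η) • p) + η * (r * ‖w‖) := by
      rw [map_add, map_smul f η q, hw q, hq, inner_smul_right, real_inner_self_eq_norm_sq]
      simp only [smul_eq_mul]
      field_simp
    have h4 : f ((1 - η) • p + η • q) - f k ≤ ‖w‖ * (η * r) := by
      rw [← map_sub, hw]
      refine (real_inner_le_norm _ _).trans ?_
      rw [← dist_eq_norm]
      exact mul_le_mul_of_nonneg_left hdist hwpos.le
    have h5 := hf1 k hk
    rw [h3] at h4
    have h6 : f ((1 - η) • p) ≤ f k := by nlinarith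
    linarith
  · intro x hx
    have hinf := infDist_le_hausdorffDist_of_mem hx hfin
    obtain ⟨p, hp, hpd⟩ := hPc.exists_infDist_eq_dist ⟨0, h0P⟩ x
    have hdist : dist x p ≤ η * r := by rw [← hpd]; exact hinf.trans hd
    have hq : η⁻¹ • (x - p) ∈ P := by
      apply hball
      rw [mem_closedBall, dist_zero_right, norm_smul, norm_inv, Real.norm_eq_abs, abs_of_pos h0,
        ← dist_eq_norm, inv_mul_le_iff₀ h0]
      exact hdist
    have h2 : (0 : ℝ) < 1 + η := by linarith
    refine ⟨(1 / (1 + η)) • p + (η / (1 + η)) • (η⁻¹ • (x - p)), ?_, ?_⟩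
    · apply hPv hp hq (by positivity) (by positivity)
      field_simp
    · simp only
      rw [smul_add, smul_smul, smul_smul, smul_smul]
      have e1 : (1 + η) * (1 / (1 + η)) = 1 := by field_simp
      have e2 : (1 + η) * (η / (1 + η) * η⁻¹) = 1 := by field_simp
      rw [e1]
      have e3 : (1 + η) * (η / (1 + η)) * η⁻¹ = 1 := by field_simp
      rw [e3]
      module

/-- the conclusion of the lemma on few copies, for a class `C` of domains -/
def FewFor (P : Set Pl) (C : Set Pl → Prop) : Prop :=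
  ∀ R : ℝ, ∃ η₁ > 0, η₁ ≤ 1 / 2 ∧ ∃ c₁ > 0, ∀ K : Set Pl, IsCompact K → ∀ η, 0 ≤ η → η ≤ η₁ →
      Near P η K → ∀ t : Set Pl, C t → IsCompact t → Convex ℝ t → ∀ (n : ℕ), 2 ≤ n →
      ∀ (φ : Fin n → (Pl ≃ᵢ Pl)), t ⊆ ⋃ j, φ j '' K → ∀ i : Fin n, t ⊆ ball (φ i 0) R →
      ENNReal.ofReal c₁ ≤ waste volume (copies φ K) t univ

/-- **Main theorem**, general form. -/
theorem main_gen (s : Finset Pl) (hs : s.card ≤ 6)
    (hint : (interior (convexHull ℝ (s : Set Pl))).Nonempty)
    (hnt : ¬ ∃ F, IsTiling (convexHull ℝ (s : Set Pl)) F univ)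
    (Good : Prop) (C : Set Pl → Prop)
    (hgood : Good → ∀ z : Pl,
      (0 : Pl) ∈ interior ((fun x => x + -z) '' (convexHull ℝ (s : Set Pl))) →
      FewFor ((fun x => x + -z) '' (convexHull ℝ (s : Set Pl))) C) :
    ∃ ε > 0, ∃ c > 0, ∃ N : ℕ, ∀ K : Set Pl, IsCompact K → Convex ℝ K → K.Nonempty →
      hausdorffDist K (convexHull ℝ (s : Set Pl)) ≤ ε →
      ∀ D : Set Pl, IsCompact D → Convex ℝ D → ∀ (n : ℕ), 2 ≤ n → ∀ φ : Fin n → (Pl ≃ᵢ Pl),
      D ⊆ ⋃ i, φ i '' K →
      (N ≤ n ∨ (Good ∧ C D)) → area D + c * n ≤ n * hexArea K := by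
  classical
  obtain ⟨z, hz⟩ := hint
  set Q : Set Pl := convexHull ℝ (s : Set Pl) with hQ
  have hQc : IsCompact Q := s.finite_toSet.isCompact_convexHull ℝ
  have hQv : Convex ℝ Q := convex_convexHull ℝ _
  -- translate
  set P : Set Pl := (fun x => x + -z) '' Q with hP
  have hPc : IsCompact P := hQc.image (by fun_prop)
  have hPv : Convex ℝ P := by
    rintro _ ⟨x, hx, rfl⟩ _ ⟨y, hy, rfl⟩ a b ha hb hab
    refine ⟨a • x + b • y, hQv hx hy ha hb hab, ?_⟩
    have e : -z = (a + b) • (-z) := by rw [hab, one_smul]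
    simp only
    nth_rewrite 1 [e]
    module
  have h0 : (0 : Pl) ∈ interior P := by
    have e : interior P = (fun x => x + -z) '' interior Q :=
      ((IsometryEquiv.addRight (-z)).toHomeomorph.image_interior Q).symm
    rw [e]
    exact ⟨z, hz, by simp⟩
  have hPnt : NoUnbounded P := by
    apply noUnbounded_of_not_plane P hPc hPv ⟨0, h0⟩
    rintro ⟨G, hG⟩
    exact hnt ⟨G, hG.of_translate (-z)⟩
  obtain ⟨r, hr, hrP⟩ := Metric.isOpen_iff.1 isOpen_interior 0 h0
  have hr2 : closedBall (0 : Pl) (r / 2) ⊆ P :=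
    (closedBall_subset_ball (by linarith)).trans (hrP.trans interior_subset)
  -- constants
  set A : ℝ := area P with hA
  have hVPf : volume P ≠ ∞ := hPc.measure_lt_top.ne
  have hApos : 0 < A :=
    ENNReal.toReal_pos (measure_pos_iff_nonempty_interior_aux P ⟨0, h0⟩).ne' hVPf
  obtain ⟨η₀, hη₀, hη₀', R, hR, c₀, hc₀, hcore⟩ := core P hPc hPv h0 hPnt
  set V : ℝ := (volume (ball (0 : Pl) R)).toReal with hV
  have hVf : volume (ball (0 : Pl) R) ≠ ∞ := measure_ball_lt_top.ne
  set N : ℕ := ⌈V / (A / 8)⌉₊ + 1 with hN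
  obtain ⟨η₁, hη₁, hη₁', c₁, hc₁, hfew⟩ : ∃ η₁ > 0, η₁ ≤ 1 / 2 ∧ ∃ c₁ > 0, Good →
      ∀ K : Set Pl, IsCompact K → ∀ η, 0 ≤ η → η ≤ η₁ →
      Near P η K → ∀ t : Set Pl, C t → IsCompact t → Convex ℝ t → ∀ (n : ℕ), 2 ≤ n →
      ∀ (φ : Fin n → (Pl ≃ᵢ Pl)), t ⊆ ⋃ j, φ j '' K → ∀ i : Fin n, t ⊆ ball (φ i 0) R →
      ENNReal.ofReal c₁ ≤ waste volume (copies φ K) t univ := by
    by_cases h8 : Good
    · obtain ⟨η₁, h1, h2, c₁, h3, h4⟩ := hgood h8 z h0 R
      exact ⟨η₁, h1, h2, c₁, h3, fun _ => h4⟩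
    · exact ⟨1 / 2, by norm_num, le_refl _, 1, one_pos, fun h => absurd h h8⟩
  set c : ℝ := min c₀ (min (c₁ / N) (A / 8)) with hc
  have hNpos : (0 : ℝ) < N := by rw [hN]; positivity
  have hcpos : 0 < c := lt_min hc₀ (lt_min (by positivity) (by positivity))
  have hcc₀ : c ≤ c₀ := min_le_left _ _
  have hcc₁ : c ≤ c₁ / N := (min_le_right _ _).trans (min_le_left _ _)
  have hcA : c ≤ A / 8 := (min_le_right _ _).trans (min_le_right _ _)
  set η : ℝ := min (min η₀ η₁) (c / (8 * A)) with hη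
  have hηpos : 0 < η := lt_min (lt_min hη₀ hη₁) (by positivity)
  have hηη₀ : η ≤ η₀ := (min_le_left _ _).trans (min_le_left _ _)
  have hηη₁ : η ≤ η₁ := (min_le_left _ _).trans (min_le_right _ _)
  have hηc : η * (8 * A) ≤ c := by
    have : η ≤ c / (8 * A) := min_le_right _ _
    rwa [le_div_iff₀ (by positivity)] at this
  have hηhalf : η ≤ 1 / 2 := hηη₀.trans hη₀'
  refine ⟨η * (r / 2), by positivity, c / 2, by positivity, N, ?_⟩
  intro K hK hKv hKne hd D hD hDv n hn φ hcov hcase
  -- translate the covering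
  set K' : Set Pl := (fun x => x + -z) '' K with hK'
  have hK'c : IsCompact K' := hK.image (by fun_prop)
  have hK'v : Convex ℝ K' := by
    rintro _ ⟨x, hx, rfl⟩ _ ⟨y, hy, rfl⟩ a b ha hb hab
    refine ⟨a • x + b • y, hKv hx hy ha hb hab, ?_⟩
    have e : -z = (a + b) • (-z) := by rw [hab, one_smul]
    simp only
    nth_rewrite 1 [e]
    module
  have hd' : hausdorffDist K' P ≤ η * (r / 2) := by
    rw [hK', hP, hausdorffDist_image (isometry_add_right (-z))]
    exact hd
  have hnear : Near P η K' := near_of_hausdorff P hPc hPv (r / 2) (by positivity) hr2 K' hK'c hK'v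
    (hKne.image _) η hηpos (by linarith) hd'
  let φ' : Fin n → (Pl ≃ᵢ Pl) := fun j => (IsometryEquiv.addRight z).trans (φ j)
  have hφ' : ∀ j, φ' j '' K' = φ j '' K := by
    intro j
    rw [hK', ← image_comp]
    congr 1
    funext x
    change φ j ((x + -z) + z) = φ j x
    simp
  have hcov' : D ⊆ ⋃ j, φ' j '' K' := by
    simp only [hφ']
    exact hcov
  have hvolK : volume K' = volume K := by
    have := vol_image (IsometryEquiv.addRight (-z)) K
    exact this
  -- lower bound for the hexagon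
  have hhex : (1 - η) ^ 2 * A ≤ hexArea K := by
    set s' : Finset Pl := s.image (fun x => (1 - η) • (x + -z) + z) with hs'
    have hhull : convexHull ℝ (s' : Set Pl) = (fun x => (1 - η) • (x + -z) + z) '' Q := by
      let g : Pl →ᵃ[ℝ] Pl := AffineMap.homothety z (1 - η)
      have hg : ∀ x, g x = (1 - η) • (x + -z) + z := by
        intro x
        simp only [g, AffineMap.homothety_apply, vsub_eq_sub, vadd_eq_add]
        rw [sub_eq_add_neg x z]
      have hg' : (fun x => (1 - η) • (x + -z) + z) = g := by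
        funext x; exact (hg x).symm
      rw [hs', Finset.coe_image, hg', hQ, AffineMap.image_convexHull]
    have harea : area (convexHull ℝ (s' : Set Pl)) = (1 - η) ^ 2 * A := by
      rw [hhull]
      have e1 : (fun x => (1 - η) • (x + -z) + z) '' Q
          = (fun x => x + z) '' ((1 - η) • P) := by
        rw [hP, ← image_smul, image_image, image_image]
      have e2 : volume ((fun x : Pl => x + z) '' ((1 - η) • P)) = volume ((1 - η) • P) := by
        have := vol_image (IsometryEquiv.addRight z) ((1 - η) • P)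
        exact this
      rw [e1, area, e2, vol_smul _ (by linarith), ENNReal.toReal_mul,
        ENNReal.toReal_ofReal (by positivity), hA, area]
    rw [← harea]
    apply le_hexArea K hK hKv
    · exact Finset.card_image_le.trans hs
    · intro x hx
      have h1 : x ∈ convexHull ℝ (s' : Set Pl) := subset_convexHull ℝ _ hx
      rw [hhull] at h1
      obtain ⟨y, hy, rfl⟩ := h1
      have h2 : (1 - η) • (y + -z) ∈ K' := hnear.1 ⟨y + -z, ⟨y, hy, rfl⟩, rfl⟩
      obtain ⟨k, hk, hkz⟩ := h2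
      simp only at hkz
      simp only
      rw [← hkz]
      simpa using hk
  have hupp : (volume K').toReal ≤ (1 + η) ^ 2 * A := by
    have h1 := measure_mono (μ := volume) hnear.2
    rw [vol_smul _ (by linarith)] at h1
    have h2 := ENNReal.toReal_mono (ENNReal.mul_ne_top ENNReal.ofReal_ne_top hVPf) h1
    rwa [ENNReal.toReal_mul, ENNReal.toReal_ofReal (by positivity)] at h2
  have hlow : A / 4 ≤ (volume K').toReal := by
    have h1 := near_vol_lower P K' η hηhalf hnear
    have h2 := ENNReal.toReal_mono hK'c.measure_lt_top.ne h1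
    rw [ENNReal.toReal_mul, ENNReal.toReal_ofReal (by positivity)] at h2
    have h3 : (1 / 4 : ℝ) ≤ (1 - η) ^ 2 := by nlinarith
    have h4 : (1 / 4 : ℝ) * A ≤ (1 - η) ^ 2 * A := mul_le_mul_of_nonneg_right h3 hApos.le
    have h5 : (1 - η) ^ 2 * A ≤ (volume K').toReal := h2
    linarith
  have hn0 : (0 : ℝ) ≤ n := Nat.cast_nonneg n
  -- the linear gain over the area of `K`
  have hgain : area D + c * n ≤ n * (volume K').toReal := by
    rcases hcore K' hK'c η hηpos.le hηη₀ hnear D hD hDv n φ' hcov' with h | ⟨i, hi⟩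
    · have h1 : c * n ≤ c₀ * n := mul_le_mul_of_nonneg_right hcc₀ hn0
      have h2 : area D + c₀ * n ≤ n * (volume K').toReal := h
      linarith
    · by_cases hNn : N ≤ n
      · have h1 : area D ≤ V := by
          have h2 := measure_mono (μ := volume) hi
          have h3 : volume (ball (φ' i 0) R) = volume (ball (0 : Pl) R) :=
            Measure.addHaar_ball_center volume _ _
          rw [h3] at h2
          exact ENNReal.toReal_mono hVf h2
        have h2 : V / (A / 8) ≤ n := by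
          have a1 : V / (A / 8) ≤ (⌈V / (A / 8)⌉₊ : ℝ) := Nat.le_ceil _
          have a2 : ((⌈V / (A / 8)⌉₊ + 1 : ℕ) : ℝ) ≤ n := by exact_mod_cast hNn
          push_cast at a2
          linarith
        rw [div_le_iff₀ (by positivity)] at h2
        have h3 : (n : ℝ) * (A / 4) ≤ n * (volume K').toReal := mul_le_mul_of_nonneg_left hlow hn0
        have h4 : c * n ≤ A / 8 * n := mul_le_mul_of_nonneg_right hcA hn0
        nlinarith
      · rcases hcase with h | ⟨h8, hCD⟩
        · exact absurd h hNn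
        · have h1 := hfew h8 K' hK'c η hηpos.le hηη₁ hnear D hCD hD hDv n hn φ' hcov' i hi
          have h2 := gain_of_waste φ' K' _ hK'c hD hcov' c₁ hc₁.le h1
          have h3 : c * n ≤ c₁ := by
            have a1 : (n : ℝ) ≤ N := by
              have : n ≤ N := by omega
              exact_mod_cast this
            calc c * n ≤ c₁ / N * N := mul_le_mul hcc₁ a1 hn0 (by positivity)
              _ = c₁ := by field_simp
          have h4 : area D + c₁ ≤ n * (volume K').toReal := h2
          linarith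
  -- conclusion
  have h1 : (n : ℝ) * (volume K').toReal ≤ n * ((1 + η) ^ 2 * A) :=
    mul_le_mul_of_nonneg_left hupp hn0
  have h2 : (n : ℝ) * ((1 - η) ^ 2 * A) ≤ n * hexArea K := mul_le_mul_of_nonneg_left hhex hn0
  have h3 : (n : ℝ) * ((1 + η) ^ 2 * A) = n * ((1 - η) ^ 2 * A) + n * (4 * (η * A)) := by ring
  have h4 : (n : ℝ) * (4 * (η * A)) ≤ n * (c / 2) := by
    apply mul_le_mul_of_nonneg_left _ hn0
    linarith
  linarith

/-- **Main theorem**, polygons with at most eight vertices for few copies. -/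
theorem main (s : Finset Pl) (hs : s.card ≤ 6)
    (hint : (interior (convexHull ℝ (s : Set Pl))).Nonempty)
    (hnt : ¬ ∃ F, IsTiling (convexHull ℝ (s : Set Pl)) F univ) :
    ∃ ε > 0, ∃ c > 0, ∃ N : ℕ, ∀ K : Set Pl, IsCompact K → Convex ℝ K → K.Nonempty →
      hausdorffDist K (convexHull ℝ (s : Set Pl)) ≤ ε →
      ∀ D : Set Pl, IsCompact D → Convex ℝ D → ∀ (n : ℕ), 2 ≤ n → ∀ φ : Fin n → (Pl ≃ᵢ Pl),
      D ⊆ ⋃ i, φ i '' K →
      (N ≤ n ∨ (NoOctagon (convexHull ℝ (s : Set Pl)) ∧ Oct D)) →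
      area D + c * n ≤ n * hexArea K := by
  apply main_gen s hs hint hnt
  intro h8 z h0 R
  have hQc : IsCompact (convexHull ℝ (s : Set Pl)) := s.finite_toSet.isCompact_convexHull ℝ
  have hPc : IsCompact ((fun x => x + -z) '' (convexHull ℝ (s : Set Pl))) :=
    hQc.image (by fun_prop)
  have hPv : Convex ℝ ((fun x => x + -z) '' (convexHull ℝ (s : Set Pl))) := by
    rintro _ ⟨x, hx, rfl⟩ _ ⟨y, hy, rfl⟩ a b ha hb hab
    refine ⟨a • x + b • y, convex_convexHull ℝ _ hx hy ha hb hab, ?_⟩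
    have e : -z = (a + b) • (-z) := by rw [hab, one_smul]
    simp only
    nth_rewrite 1 [e]
    module
  obtain ⟨η₁, h1, h2, c₁, h3, h4⟩ := few _ hPc hPv h0
    (fun t ht F hF => h8 t ht F (hF.of_translate (-z))) R
  refine ⟨η₁, h1, h2, c₁, h3, ?_⟩
  rintro K hK η hη hη1 hN _ ⟨t, ht, rfl⟩ - - n hn φ hcov i hi
  exact h4 K hK η hη hη1 hN t ht n hn φ hcov i hi

end Pool.Agent.HexNear
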