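import Pool.Agent.Lib.MP_20f220_co.Edge

/-! Angle-generic polygons tile no unbounded closed convex set other than the plane; obtuse
polygons tile no compact convex set with two or more tiles. -/

open Filter Topology Metric Set MeasureTheory
open scoped ENNReal Pointwise

namespace Pool.Agent.HexNear

/-- tilings seen from points running through the tiled set -/
lemma recenter (P : Set Pl) (hPc : IsCompact P) (hPv : Convex ℝ P) (h0 : (interior P).Nonempty)
    (D : Set Pl) (hne : D.Nonempty)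
    (F : Set (Set Pl)) (hF : IsTiling P F D) (q : ℕ → Pl) :
    ∃ (G : Set (Set Pl)), IsTiling P G
      (limSet (hyperfilter ℕ) (fun m => (fun x => x + -(q m)) '' D)) := by
  classical
  set U : Ultrafilter ℕ := hyperfilter ℕ with hUdef
  have hU : (U : Filter ℕ) ≤ atTop := Nat.hyperfilter_le_atTop
  obtain ⟨d0, hd0⟩ := hne
  have hFne : Nonempty F := by
    rw [← hF.2.2] at hd0
    obtain ⟨T, hT, -⟩ := hd0
    exact ⟨⟨T, hT⟩⟩
  have hψ : ∀ T : F, ∃ ψ : Pl ≃ᵢ Pl, (T : Set Pl) = ψ '' P := fun T => hF.1 T T.2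
  choose ψ hψ using hψ
  let φ : ∀ m : ℕ, (fun _ : ℕ => (F : Type)) m → (Pl ≃ᵢ Pl) :=
    fun m T => (ψ T).trans (IsometryEquiv.addRight (-(q m)))
  let Dm : ℕ → Set Pl := fun m => (fun x => x + -(q m)) '' D
  have hφ : ∀ (m : ℕ) (T : F), φ m T '' P = (fun x => x + -(q m)) '' (T : Set Pl) := by
    intro m T
    rw [hψ T, ← image_comp]
    rfl
  have hinj : ∀ m : ℕ, Function.Injective (fun x : Pl => x + -(q m)) := fun m x y h => by
    simpa using h
  have hint : ∀ (m : ℕ) (A : Set Pl), interior ((fun x => x + -(q m)) '' A)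
      = (fun x => x + -(q m)) '' interior A := fun m A =>
    ((IsometryEquiv.addRight (-(q m))).toHomeomorph.image_interior A).symm
  refine ⟨limFam U φ P, ?_⟩
  have : ∀ m : ℕ, Nonempty ((fun _ : ℕ => (F : Type)) m) := fun m => hFne
  refine lim_tiling U hU φ (fun _ => P) Dm P ?_ ?_ ?_ ?_ ?_ ?_ ?_
  · rw [hPv.closure_interior_eq_closure_of_nonempty_interior h0]
    exact subset_closure
  · intro y hy
    obtain ⟨h, hh, hb⟩ := Metric.isOpen_iff.1 isOpen_interior y hy
    exact ⟨h, hh, Eventually.of_forall fun _ => hb.trans interior_subset⟩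
  · intro y hy
    obtain ⟨h, hh, hb⟩ := Metric.isOpen_iff.1 hPc.isClosed.isOpen_compl y hy
    exact ⟨h, hh, Eventually.of_forall fun _ => disjoint_left.2 fun z hz => hb hz⟩
  · obtain ⟨C, hC⟩ := hPc.isBounded.subset_closedBall (0 : Pl)
    exact ⟨C, Eventually.of_forall fun _ => hC⟩
  · intro x h hh
    refine Eventually.of_forall fun m => ?_
    rintro T T' hTT ⟨a1, a2⟩
    simp only [hφ] at a1 a2
    have b1 : x ∈ interior ((fun x => x + -(q m)) '' (T : Set Pl)) :=
      interior_maximal a1 isOpen_ball (mem_ball_self hh)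
    have b2 : x ∈ interior ((fun x => x + -(q m)) '' (T' : Set Pl)) :=
      interior_maximal a2 isOpen_ball (mem_ball_self hh)
    rw [hint] at b1 b2
    have hne : (T : Set Pl) ≠ T' := fun h => hTT (Subtype.ext h)
    have := (disjoint_image_iff (hinj m)).2 (hF.2.1 T T.2 T' T'.2 hne)
    exact disjoint_left.1 this b1 b2
  · intro x h hh
    refine Eventually.of_forall fun m => ?_
    rintro T ⟨a1, a2⟩
    simp only [hφ] at a1
    have b1 := a1 (mem_ball_self hh)
    have b2 : x ∈ Dm m := image_mono (hF.subset T.2) b1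
    exact disjoint_left.1 a2 (mem_ball_self hh) b2
  · intro R
    refine Eventually.of_forall fun m => ?_
    rintro x ⟨⟨y, hy, rfl⟩, -⟩
    rw [← hF.2.2] at hy
    obtain ⟨T, hT, hyT⟩ := hy
    refine mem_iUnion.2 ⟨⟨T, hT⟩, ?_⟩
    rw [hφ]
    exact ⟨y, hyT, rfl⟩

/-- limits of unit functionals -/
lemma exists_unit_lim' (U : Ultrafilter ℕ) (w : ℕ → Pl) (hw : ∀ᶠ m in (U : Filter ℕ), ‖w m‖ = 1) :
    ∃ w0 : Pl, ‖w0‖ = 1 ∧ Tendsto w (U : Filter ℕ) (𝓝 w0) := by
  obtain ⟨w0, h0⟩ := exists_lim U w 0 1 (hw.mono fun m hm => by rw [dist_zero_right, hm])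
  refine ⟨w0, ?_, h0⟩
  have a2 : Tendsto (fun m => ‖w m‖) (U : Filter ℕ) (𝓝 1) :=
    tendsto_const_nhds.congr' (hw.mono fun m hm => hm.symm)
  exact tendsto_nhds_unique h0.norm a2

lemma cr_bound (x y : Pl) : |cr x y| ≤ 2 * ‖x‖ * ‖y‖ := by
  have h0 : ∀ (z : Pl) (i : Fin 2), |z i| ≤ ‖z‖ := fun z i => by
    have := PiLp.norm_apply_le z i
    simpa using this
  have h1 : |x 0 * y 1| ≤ ‖x‖ * ‖y‖ := by
    rw [abs_mul]
    exact mul_le_mul (h0 x 0) (h0 y 1) (abs_nonneg _) (norm_nonneg _)
  have h2 : |x 1 * y 0| ≤ ‖x‖ * ‖y‖ := by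
    rw [abs_mul]
    exact mul_le_mul (h0 x 1) (h0 y 0) (abs_nonneg _) (norm_nonneg _)
  have h3 : |cr x y| ≤ |x 0 * y 1| + |x 1 * y 0| := by
    unfold cr
    exact abs_sub _ _
  linarith

/-- a supporting unit vector at a boundary point -/
lemma unit_support (D : Set Pl) (hDv : Convex ℝ D) (hint : (interior D).Nonempty) (q : Pl)
    (hq : q ∉ interior D) : ∃ w : Pl, ‖w‖ = 1 ∧ ∀ z ∈ D, (inner ℝ w z : ℝ) ≤ inner ℝ w q := by
  obtain ⟨f, hf⟩ := geometric_hahn_banach_open_point hDv.interior isOpen_interior hq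
  obtain ⟨w, hw⟩ : ∃ w : Pl, ∀ y, f y = inner ℝ w y :=
    ⟨(InnerProductSpace.toDual ℝ Pl).symm f, fun y => by simp⟩
  have hw0 : w ≠ 0 := by
    rintro rfl
    obtain ⟨z, hz⟩ := hint
    have h3 := hf z hz
    rw [hw, hw] at h3
    simp at h3
  have hpos : 0 < ‖w‖ := norm_pos_iff.2 hw0
  refine ⟨(‖w‖)⁻¹ • w, by rw [norm_smul, norm_inv, norm_norm, inv_mul_cancel₀ hpos.ne'], ?_⟩
  intro z hz
  rw [real_inner_smul_left, real_inner_smul_left, ← hw, ← hw]
  apply mul_le_mul_of_nonneg_left _ (by positivity)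
  have hcl : z ∈ closure (interior D) := by
    rw [hDv.closure_interior_eq_closure_of_nonempty_interior hint]
    exact subset_closure hz
  have hsub : closure (interior D) ⊆ {y | f y ≤ f q} :=
    closure_minimal (fun y hy => (hf y hy).le) (isClosed_le f.continuous continuous_const)
  exact hsub hcl

/-- only one tile at a point of a straight boundary -/
lemma AngleGeneric.types_half {s : Finset Pl} (h : AngleGeneric s) {ι : Type*} [DecidableEq ι]
    (J : Finset ι) (a : ι → ℝ) (w : ι → Pl)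
    (hw : ∀ i ∈ J, w i ∈ convexHull ℝ (s : Set Pl))
    (haw : ∀ i ∈ J, a i = ang (convexHull ℝ (s : Set Pl)) (w i))
    (hpos : ∀ i ∈ J, 0 < a i) (hsum : ∑ i ∈ J, a i = Real.pi) : J.card = 1 := by
  have hpi := Real.pi_pos
  by_cases hall : ∀ i ∈ J, w i ∈ s
  · exfalso
    apply h.ne_half J w hall
    rw [← hsum]
    exact (Finset.sum_congr rfl haw).symm
  push Not at hall
  obtain ⟨i0, hi0, hi0s⟩ := hall
  have hsplit := Finset.add_sum_erase J a hi0
  rw [hsum] at hsplit
  have hnn : 0 ≤ ∑ i ∈ J.erase i0, a i := Finset.sum_nonneg fun i hi =>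
    (hpos i (Finset.mem_of_mem_erase hi)).le
  have h1 : a i0 = Real.pi ∨ a i0 = 2 * Real.pi := by
    rw [haw i0 hi0]
    exact ang_nonvertex s h.int_ne (w i0) (hw i0 hi0) hi0s
  have hzero : ∑ i ∈ J.erase i0, a i = 0 := by
    rcases h1 with h1 | h1
    · linarith
    · rw [h1] at hsplit; linarith
  have hempty : J.erase i0 = ∅ := by
    by_contra hne
    obtain ⟨i2, hi2⟩ := Finset.nonempty_iff_ne_empty.2 hne
    have h3 := Finset.sum_pos (fun i hi => hpos i (Finset.mem_of_mem_erase hi)) ⟨i2, hi2⟩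
    linarith
  have hc := Finset.card_erase_of_mem hi0
  rw [hempty, Finset.card_empty] at hc
  have : 0 < J.card := Finset.card_pos.2 ⟨i0, hi0⟩
  omega

/-- **Angle-generic polygons tile no unbounded closed convex set except the plane.** -/
theorem AngleGeneric.univ_of_unbounded {s : Finset Pl} (h : AngleGeneric s) (D : Set Pl)
    (hDc : IsClosed D) (hDv : Convex ℝ D) (hDu : ¬ Bornology.IsBounded D) (F : Set (Set Pl))
    (hF : IsTiling (convexHull ℝ (s : Set Pl)) F D) : D = univ := by
  classical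
  by_contra hne
  set P := convexHull ℝ (s : Set Pl) with hP
  have hPc : IsCompact P := s.finite_toSet.isCompact_convexHull ℝ
  have hPv : Convex ℝ P := convex_convexHull ℝ _
  have hpi := Real.pi_pos
  obtain ⟨q0, hq0⟩ : ∃ q, q ∉ D := by
    by_contra hcon
    push Not at hcon
    exact hne (eq_univ_of_forall hcon)
  obtain ⟨f, c, hf1, hf2⟩ := geometric_hahn_banach_closed_point hDv hDc hq0
  obtain ⟨n, hn⟩ : ∃ w : Pl, ∀ y, f y = inner ℝ w y :=
    ⟨(InnerProductSpace.toDual ℝ Pl).symm f, fun y => by simp⟩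
  obtain ⟨u, hu1, hrec⟩ := exists_recession D hDc hDv hDu
  have hDne : D.Nonempty := by
    rw [nonempty_iff_ne_empty]
    rintro rfl
    exact hDu Bornology.isBounded_empty
  obtain ⟨d0, hd0⟩ := hDne
  have hn0 : n ≠ 0 := by
    rintro rfl
    have h1 := hf1 d0 hd0
    rw [hn] at h1 hf2
    simp at h1 hf2
    linarith
  have hu0 : u ≠ 0 := by
    rintro rfl
    simp at hu1
  have hnn : 0 < ‖n‖ ^ 2 := by
    have := norm_pos_iff.2 hn0
    positivity
  -- a transversal direction in which `D` is bounded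
  obtain ⟨w, hfw, hcw⟩ : ∃ w : Pl, 0 < f w ∧ cr u w ≠ 0 := by
    by_cases hc : cr u n = 0
    · refine ⟨n + rot u, ?_, ?_⟩
      · have e : (inner ℝ n (rot u) : ℝ) = cr u n := by
          simp [rot, cr, PiLp.inner_apply, Fin.sum_univ_two]
          ring
        rw [hn, inner_add_right, e, hc, real_inner_self_eq_norm_sq, add_zero]
        exact hnn
      · rw [cr_add_right, hc, cr_rot, zero_add]
        exact (sq_pos_of_ne u hu0).ne'
    · exact ⟨n, by rw [hn, real_inner_self_eq_norm_sq]; exact hnn, hc⟩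
  have hw0 : w ≠ 0 := by
    rintro rfl
    simp at hfw
  have hwpos : 0 < ‖w‖ := norm_pos_iff.2 hw0
  -- the exit points
  have hexit : ∀ m : ℕ, ∃ σ : ℝ, d0 + (m : ℝ) • u + σ • w ∈ D ∧
      d0 + (m : ℝ) • u + σ • w ∉ interior D := by
    intro m
    set A : Set ℝ := {σ | 0 ≤ σ ∧ d0 + (m : ℝ) • u + σ • w ∈ D} with hA
    have hAc : IsClosed A := isClosed_Ici.inter (hDc.preimage (by fun_prop))
    have hAne : A.Nonempty := ⟨0, le_rfl, by
      rw [zero_smul, add_zero]; exact hrec d0 hd0 m (Nat.cast_nonneg m)⟩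
    have hAb : BddAbove A := by
      refine ⟨(c - f (d0 + (m : ℝ) • u)) / f w, fun σ hσ => ?_⟩
      have h1 := hf1 _ hσ.2
      rw [map_add, map_smul, smul_eq_mul] at h1
      rw [le_div_iff₀ hfw]
      linarith
    have hmem := hAc.csSup_mem hAne hAb
    refine ⟨sSup A, hmem.2, fun hint => ?_⟩
    obtain ⟨ε, hε, hb⟩ := Metric.isOpen_iff.1 isOpen_interior _ hint
    set δ := ε / (2 * ‖w‖) with hδ
    have hδpos : 0 < δ := by positivity
    have h1 : d0 + (m : ℝ) • u + (sSup A + δ) • w ∈ ball (d0 + (m : ℝ) • u + sSup A • w) ε := by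
      rw [mem_ball, dist_eq_norm]
      have e : d0 + (m : ℝ) • u + (sSup A + δ) • w - (d0 + (m : ℝ) • u + sSup A • w) = δ • w := by
        module
      rw [e, norm_smul, Real.norm_eq_abs, abs_of_pos hδpos, hδ]
      have : ε / (2 * ‖w‖) * ‖w‖ = ε / 2 := by field_simp
      rw [this]; linarith
    have h2 : sSup A + δ ∈ A := ⟨by linarith [hmem.1], interior_subset (hb h1)⟩
    have h3 := le_csSup hAb h2
    linarith
  choose σ hσD hσi using hexit
  set q : ℕ → Pl := fun m => d0 + (m : ℝ) • u + σ m • w with hq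
  have hqD : ∀ m, q m ∈ D := hσD
  have hqi : ∀ m, q m ∉ interior D := hσi
  have hfar : ∀ m : ℕ, (m : ℝ) * (|cr u w| / (2 * ‖w‖)) ≤ ‖q m - d0‖ := by
    intro m
    have e : q m - d0 = (m : ℝ) • u + σ m • w := by rw [hq]; simp only; abel
    have h1 := cr_bound (q m - d0) w
    have h2 : cr (q m - d0) w = m * cr u w := by
      rw [e]; simp [cr]; ring
    rw [h2, abs_mul, abs_of_nonneg (Nat.cast_nonneg m)] at h1
    rw [← mul_div_assoc, div_le_iff₀ (by positivity)]
    linarith
  have hcpos : 0 < |cr u w| / (2 * ‖w‖) := by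
    have := abs_pos.2 hcw
    positivity
  set U : Ultrafilter ℕ := hyperfilter ℕ with hUdef
  have hU : (U : Filter ℕ) ≤ atTop := Nat.hyperfilter_le_atTop
  have hnorm : Tendsto (fun m => ‖q m - d0‖) (U : Filter ℕ) atTop := by
    refine tendsto_atTop_mono hfar ?_
    exact (tendsto_natCast_atTop_atTop.atTop_mul_const hcpos).mono_left hU
  have hinv : Tendsto (fun m => (‖q m - d0‖)⁻¹) (U : Filter ℕ) (𝓝 0) :=
    tendsto_inv_atTop_zero.comp hnorm
  have hposq : ∀ᶠ m in (U : Filter ℕ), 0 < ‖q m - d0‖ := hnorm.eventually_gt_atTop 0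
  obtain ⟨v, hv1, hv⟩ := exists_unit_lim' U (fun m => (‖q m - d0‖)⁻¹ • (q m - d0)) (by
    filter_upwards [hposq] with m hm
    rw [norm_smul, norm_inv, norm_norm, inv_mul_cancel₀ hm.ne'])
  -- `v` is a recession direction
  have hrecv : ∀ x ∈ D, ∀ t : ℝ, 0 ≤ t → x + t • v ∈ D := by
    intro x hx t ht
    have hev : ∀ᶠ m in (U : Filter ℕ), x + (t * (‖q m - d0‖)⁻¹) • (q m - x) ∈ D := by
      filter_upwards [hnorm.eventually_ge_atTop t, hposq] with m hm hpos
      apply hDv.add_smul_sub_mem hx (hqD m)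
      constructor
      · positivity
      · rw [← div_eq_mul_inv]
        exact (div_le_one hpos).2 hm
    have hlim : Tendsto (fun m => x + (t * (‖q m - d0‖)⁻¹) • (q m - x)) (U : Filter ℕ)
        (𝓝 (x + t • v)) := by
      have e : ∀ m, x + (t * (‖q m - d0‖)⁻¹) • (q m - x)
          = x + (t • ((‖q m - d0‖)⁻¹ • (q m - d0)) + (t * (‖q m - d0‖)⁻¹) • (d0 - x)) := by
        intro m; module
      simp only [e]
      have a1 : Tendsto (fun m => (t * (‖q m - d0‖)⁻¹) • (d0 - x)) (U : Filter ℕ)
          (𝓝 ((t * 0) • (d0 - x))) := (hinv.const_mul t).smul_const (d0 - x)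
      have a2 := (hv.const_smul t).add a1
      have a3 := a2.const_add x
      simpa using a3
    exact hDc.mem_of_tendsto hlim hev
  -- the limit domain
  set Dm : ℕ → Set Pl := fun m => (fun x => x + -(q m)) '' D with hDm
  obtain ⟨G, hG⟩ := recenter P hPc hPv h.int_ne D ⟨d0, hd0⟩ F hF q
  set S : Set Pl := limSet U Dm with hS
  have hSc : IsClosed S := isClosed_limSet U Dm
  have hconv : ∀ m, Convex ℝ (Dm m) := by
    intro m
    rintro _ ⟨x, hx, rfl⟩ _ ⟨y, hy, rfl⟩ a b ha hb hab
    refine ⟨a • x + b • y, hDv hx hy ha hb hab, ?_⟩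
    have e : -(q m) = (a + b) • (-(q m)) := by rw [hab, one_smul]
    simp only
    nth_rewrite 1 [e]
    module
  have hSv : Convex ℝ S := convex_limSet U Dm hconv
  have hline : ∀ t : ℝ, t • v ∈ S := by
    intro t
    rcases le_total 0 t with ht | ht
    · refine mem_limSet_of_tendsto U Dm (fun _ => t • v) _ (Eventually.of_forall fun m => ?_)
        tendsto_const_nhds
      exact ⟨q m + t • v, hrecv _ (hqD m) t ht, by simp⟩
    · refine mem_limSet_of_tendsto U Dm (fun m => t • ((‖q m - d0‖)⁻¹ • (q m - d0))) _ ?_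
        (hv.const_smul t)
      filter_upwards [hnorm.eventually_ge_atTop (-t), hposq] with m hm hpos
      refine ⟨q m + (-t * (‖q m - d0‖)⁻¹) • (d0 - q m), ?_, ?_⟩
      · apply hDv.add_smul_sub_mem (hqD m) hd0
        constructor
        · have : 0 ≤ -t := by linarith
          positivity
        · rw [← div_eq_mul_inv]
          exact (div_le_one hpos).2 hm
      · simp only
        module
  -- interior of `D`
  have hDint : (interior D).Nonempty := by
    have h1 : d0 ∈ ⋃₀ F := by rw [hF.2.2]; exact hd0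
    obtain ⟨T, hT, -⟩ := h1
    obtain ⟨ψ, hψ⟩ := hF.1 T hT
    have e : interior (ψ '' P) = ψ '' interior P :=
      (ψ.toHomeomorph.image_interior P).symm
    have h2 : (interior T).Nonempty := by
      rw [hψ, e]; exact h.int_ne.image _
    exact h2.mono (interior_mono (hF.subset hT))
  have hsup : ∀ m, ∃ e : Pl, ‖e‖ = 1 ∧ ∀ z ∈ D, (inner ℝ e z : ℝ) ≤ inner ℝ e (q m) := fun m =>
    unit_support D hDv hDint (q m) (hqi m)
  choose em hem1 hem2 using hsup
  obtain ⟨e, he1, he⟩ := exists_unit_lim' U em (Eventually.of_forall hem1)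
  have hSle : ∀ z ∈ S, (inner ℝ e z : ℝ) ≤ 0 := by
    intro z hz
    obtain ⟨y, hyD, hy⟩ := exists_tendsto_of_mem_limSet U hU Dm z hz
    refine le_of_tendsto (he.inner hy) ?_
    filter_upwards [hyD] with m hm
    obtain ⟨x, hx, hxy⟩ := hm
    rw [← hxy]
    simp only
    rw [← sub_eq_add_neg, inner_sub_right]
    linarith [hem2 m x hx]
  have hev0 : (inner ℝ e v : ℝ) = 0 := by
    have h1 := hSle _ (hline 1)
    have h2 := hSle _ (hline (-1))
    rw [inner_smul_right] at h1 h2
    linarith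
  have h0S : (0 : Pl) ∈ S := by simpa using hline 0
  -- a point strictly inside
  obtain ⟨y0, hy0S, hy0⟩ : ∃ y ∈ S, (inner ℝ e y : ℝ) < 0 := by
    have h1 : (0 : Pl) ∈ ⋃₀ G := by rw [hG.2.2]; exact h0S
    obtain ⟨T, hT, -⟩ := h1
    obtain ⟨ψ, hψ⟩ := hG.1 T hT
    have e' : interior (ψ '' P) = ψ '' interior P :=
      (ψ.toHomeomorph.image_interior P).symm
    have h2 : (interior T).Nonempty := by
      rw [hψ, e']; exact h.int_ne.image _
    obtain ⟨x, hx⟩ := h2
    obtain ⟨ε, hε, hb⟩ := Metric.isOpen_iff.1 isOpen_interior x hx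
    have hmem : x + (ε / 2) • e ∈ ball x ε := by
      rw [mem_ball, dist_eq_norm, add_sub_cancel_left, norm_smul, he1, Real.norm_eq_abs,
        abs_of_pos (by linarith)]
      linarith
    have h3 := hSle _ (hG.subset hT (interior_subset (hb hmem)))
    rw [inner_add_right, inner_smul_right, real_inner_self_eq_norm_sq, he1] at h3
    exact ⟨x, hG.subset hT (interior_subset hx), by linarith⟩
  -- `S` is a half-plane near the line
  have hloc : ∀ z : Pl, (inner ℝ e y0 : ℝ) < inner ℝ e z → (inner ℝ e z : ℝ) ≤ 0 → z ∈ S := by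
    intro z hz1 hz2
    set l : ℝ := inner ℝ e z / inner ℝ e y0 with hl
    have hl0 : 0 ≤ l := div_nonneg_of_nonpos hz2 hy0.le
    have hl1 : l < 1 := by
      rw [hl, div_lt_one_of_neg hy0]; exact hz1
    have hl1' : (1 - l) ≠ 0 := by linarith
    have hle : l * inner ℝ e y0 = inner ℝ e z := by
      rw [hl]; exact div_mul_cancel₀ _ hy0.ne
    set x' : Pl := (1 - l)⁻¹ • (z - l • y0) with hx'
    have hx'0 : (inner ℝ e x' : ℝ) = 0 := by
      rw [hx', inner_smul_right, inner_sub_right, inner_smul_right, hle, sub_self, mul_zero]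
    have hv0 : v ≠ 0 := by
      rintro rfl
      simp at hv1
    have he0 : e ≠ 0 := by
      rintro rfl
      simp at he1
    have hcr : cr v x' = 0 := by
      have g1 : e 0 * v 0 + e 1 * v 1 = 0 := by
        have := hev0
        simp only [PiLp.inner_apply, Fin.sum_univ_two] at this
        simp at this
        linarith
      have g2 : e 0 * x' 0 + e 1 * x' 1 = 0 := by
        have := hx'0
        simp only [PiLp.inner_apply, Fin.sum_univ_two] at this
        simp at this
        linarith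
      have k1 : e 1 * cr v x' = 0 := by
        unfold cr
        linear_combination (v 0) * g2 - (x' 0) * g1
      have k0 : e 0 * cr v x' = 0 := by
        unfold cr
        linear_combination (x' 1) * g1 - (v 1) * g2
      by_contra hcon
      have m1 : e 1 = 0 := by
        rcases mul_eq_zero.1 k1 with h | h
        · exact h
        · exact absurd h hcon
      have m0 : e 0 = 0 := by
        rcases mul_eq_zero.1 k0 with h | h
        · exact h
        · exact absurd h hcon
      apply he0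
      ext i
      fin_cases i
      · simpa using m0
      · simpa using m1
    obtain ⟨b, hb⟩ := cr_zero_iff v x' hv0 hcr
    have hz : z = (1 - l) • x' + l • y0 := by
      rw [hx', smul_smul, mul_inv_cancel₀ hl1', one_smul]; abel
    rw [hz, hb]
    exact hSv (hline b) hy0S (by linarith) hl0 (by ring)
  -- one tile at each point of the line
  have hone : ∀ t : ℝ, ∃ T ∈ G, t • v ∈ T ∧ ∃ δ > 0, S ∩ ball (t • v) δ ⊆ T := by
    intro t
    obtain ⟨J, a, hJ, ha, δ, hδ, hδ1, hδ2⟩ := local_structure s h.int_ne S G hG (t • v)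
    choose! hpos ψ w' hw' hT hwv haw using ha
    set r : ℝ := min δ (-(inner ℝ e y0 : ℝ)) with hr
    have hrpos : 0 < r := lt_min hδ (by linarith)
    have hsum : ∑ T ∈ J, a T = Real.pi := by
      have h1 := hδ2 r hrpos (min_le_left _ _)
      have hset : S ∩ ball (t • v) r = (fun y => y + t • v) '' (r • {z : Pl | ‖z‖ < 1 ∧
          0 ≤ (-(innerSL ℝ e)) z}) := by
        ext z
        constructor
        · rintro ⟨hzS, hzb⟩
          refine ⟨z - t • v, ⟨r⁻¹ • (z - t • v), ⟨?_, ?_⟩, ?_⟩, by simp⟩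
          · rw [norm_smul, norm_inv, Real.norm_eq_abs, abs_of_pos hrpos,
              inv_mul_lt_iff₀ hrpos, mul_one, ← dist_eq_norm]
            exact hzb
          · have h3 := hSle z hzS
            have h4 : (-(innerSL ℝ e)) (r⁻¹ • (z - t • v)) = -(r⁻¹ * inner ℝ e z) := by
              rw [ContinuousLinearMap.neg_apply, innerSL_apply_apply, inner_smul_right,
                inner_sub_right, inner_smul_right, hev0, mul_zero, sub_zero]
            rw [h4]
            have h5 : 0 < r⁻¹ := by positivity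
            nlinarith
          · simp only
            rw [smul_smul, mul_inv_cancel₀ hrpos.ne', one_smul]
        · rintro ⟨_, ⟨y, ⟨hy1, hy2⟩, rfl⟩, rfl⟩
          simp only
          rw [ContinuousLinearMap.neg_apply, innerSL_apply_apply] at hy2
          have hnr : ‖r • y‖ < r := by
            rw [norm_smul, Real.norm_eq_abs, abs_of_pos hrpos]
            nlinarith
          have hval : (inner ℝ e (r • y + t • v) : ℝ) = r * inner ℝ e y := by
            rw [inner_add_right, inner_smul_right, inner_smul_right, hev0, mul_zero, add_zero]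
          constructor
          · apply hloc
            · rw [hval]
              have h3 : -(inner ℝ e (r • y) : ℝ) ≤ ‖e‖ * ‖r • y‖ := by
                have := real_inner_le_norm e (-(r • y))
                rwa [inner_neg_right, norm_neg] at this
              rw [he1, one_mul, inner_smul_right] at h3
              have h4 : r ≤ -(inner ℝ e y0 : ℝ) := min_le_right _ _
              linarith
            · rw [hval]
              nlinarith
          · rw [mem_ball, dist_eq_norm, add_sub_cancel_right]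
            exact hnr
      have hne' : (-(innerSL ℝ e) : Pl →L[ℝ] ℝ) ≠ 0 := by
        intro h3
        have h4 : (-(innerSL ℝ e) : Pl →L[ℝ] ℝ) e = 0 := by rw [h3]; rfl
        rw [ContinuousLinearMap.neg_apply, innerSL_apply_apply, real_inner_self_eq_norm_sq,
          he1] at h4
        norm_num at h4
      have h2 : area (S ∩ ball (t • v) r) = r ^ 2 * (Real.pi / 2) := by
        have e2 : volume ((fun y : Pl => y + t • v) '' (r • {z : Pl | ‖z‖ < 1 ∧
            0 ≤ (-(innerSL ℝ e)) z})) = volume (r • {z : Pl | ‖z‖ < 1 ∧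
            0 ≤ (-(innerSL ℝ e)) z}) := by
          have := vol_image (IsometryEquiv.addRight (t • v)) (r • {z : Pl | ‖z‖ < 1 ∧
            0 ≤ (-(innerSL ℝ e)) z})
          exact this
        rw [hset, area, e2, vol_smul _ hrpos.le, ENNReal.toReal_mul,
          ENNReal.toReal_ofReal (by positivity)]
        have h5 := half_disc (-(innerSL ℝ e)) hne'
        rw [area] at h5
        rw [h5]
      rw [h2] at h1
      have h3 : r ^ 2 * Real.pi = r ^ 2 * ∑ T ∈ J, a T := by linarith
      exact (mul_left_cancel₀ (by positivity) h3).symm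
    have hcard := h.types_half J a w' hw' haw hpos hsum
    obtain ⟨T, hJT⟩ := Finset.card_eq_one.1 hcard
    have hTJ : T ∈ J := by rw [hJT]; simp
    refine ⟨T, ((hJ T).1 hTJ).1, ((hJ T).1 hTJ).2, δ, hδ, ?_⟩
    rintro z ⟨hzS, hzb⟩
    have h3 : z ∈ ⋃₀ G := by rw [hG.2.2]; exact hzS
    obtain ⟨T', hT', hzT'⟩ := h3
    have h4 := hδ1 T' hT' ⟨z, hzT', hzb⟩
    rw [hJT, Finset.mem_singleton] at h4
    rw [← h4]; exact hzT'
  -- connectedness of the line
  obtain ⟨T0, hT0, h0T0, -⟩ := hone 0
  rw [zero_smul] at h0T0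
  have hT0c : IsCompact T0 := by
    obtain ⟨ψ, rfl⟩ := hG.1 T0 hT0
    exact hPc.image ψ.continuous
  have hclopen : IsClopen {t : ℝ | t • v ∈ T0} := by
    constructor
    · exact hT0c.isClosed.preimage (by fun_prop)
    · rw [Metric.isOpen_iff]
      intro t ht
      obtain ⟨J, a, hJ, ha, δ, hδ, hδ1, -⟩ := local_structure s h.int_ne S G hG (t • v)
      obtain ⟨T, hT, htT, δ', hδ', hsub⟩ := hone t
      -- near `t v`, `S ⊆ T`; hence `T0 = T`
      have hTT : T0 = T := by
        by_contra hne'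
        have hd := hG.2.1 T0 hT0 T hT hne'
        have hT0v : Convex ℝ T0 := by
          obtain ⟨ψ, rfl⟩ := hG.1 T0 hT0
          have h1 : ψ '' P = (ψ.toRealAffineIsometryEquiv.toAffineEquiv.toAffineMap) '' P := rfl
          rw [h1]
          exact hPv.affine_image _
        have hT0i : (interior T0).Nonempty := by
          obtain ⟨ψ, rfl⟩ := hG.1 T0 hT0
          have e' : interior (ψ '' P) = ψ '' interior P :=
            (ψ.toHomeomorph.image_interior P).symm
          rw [e']; exact h.int_ne.image _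
        have hcl : t • v ∈ closure (interior T0) := by
          rw [hT0v.closure_interior_eq_closure_of_nonempty_interior hT0i]
          exact subset_closure ht
        obtain ⟨y, hy1, hy2⟩ := mem_closure_iff.1 hcl (ball (t • v) δ') isOpen_ball
          (mem_ball_self hδ')
        have h5 : ball (t • v) δ' ∩ interior T0 ⊆ T := by
          rintro z ⟨hz1, hz2⟩
          exact hsub ⟨hG.subset hT0 (interior_subset hz2), hz1⟩
        have h6 : y ∈ interior T :=
          interior_maximal h5 (isOpen_ball.inter isOpen_interior) ⟨hy1, hy2⟩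
        exact disjoint_left.1 hd hy2 h6
      refine ⟨δ', hδ', fun t' ht' => ?_⟩
      change t' • v ∈ T0
      rw [hTT]
      apply hsub
      refine ⟨hline t', ?_⟩
      rw [mem_ball, dist_eq_norm, ← sub_smul, norm_smul, hv1, mul_one, ← dist_eq_norm]
      exact ht'
  have huniv := hclopen.eq_univ ⟨0, by
    change (0 : ℝ) • v ∈ T0
    rw [zero_smul]; exact h0T0⟩
  obtain ⟨C, hC⟩ := hT0c.isBounded.subset_closedBall (0 : Pl)
  have h7 : (|C| + 1) ∈ {t : ℝ | t • v ∈ T0} := by rw [huniv]; trivial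
  have h8 := hC h7
  rw [mem_closedBall, dist_zero_right, norm_smul, hv1, mul_one, Real.norm_eq_abs,
    abs_of_pos (by positivity)] at h8
  have := le_abs_self C
  linarith

/-- **Obtuse polygons tile no compact convex set with two or more tiles.** -/
theorem noConvex_of_obtuse (s : Finset Pl)
    (hint : (interior (convexHull ℝ (s : Set Pl))).Nonempty)
    (hang : ∀ v ∈ s, Real.pi / 2 < ang (convexHull ℝ (s : Set Pl)) v) :
    NoConvex (convexHull ℝ (s : Set Pl)) := by
  classical
  intro D hDc hDv F hF T1 hT1 T2 hT2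
  by_contra hne
  set P := convexHull ℝ (s : Set Pl) with hP
  have hPc : IsCompact P := s.finite_toSet.isCompact_convexHull ℝ
  have hPv : Convex ℝ P := convex_convexHull ℝ _
  have hpi := Real.pi_pos
  have hTc : ∀ T ∈ F, IsCompact T := by
    intro T hT
    obtain ⟨ψ, rfl⟩ := hF.1 T hT
    exact hPc.image ψ.continuous
  have hTv : ∀ T ∈ F, Convex ℝ T := by
    intro T hT
    obtain ⟨ψ, rfl⟩ := hF.1 T hT
    have h1 : ψ '' P = (ψ.toRealAffineIsometryEquiv.toAffineEquiv.toAffineMap) '' P := rfl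
    rw [h1]
    exact hPv.affine_image _
  have hTi : ∀ T ∈ F, (interior T).Nonempty := by
    intro T hT
    obtain ⟨ψ, rfl⟩ := hF.1 T hT
    have e' : interior (ψ '' P) = ψ '' interior P := (ψ.toHomeomorph.image_interior P).symm
    rw [e']; exact hint.image _
  have hDint : (interior D).Nonempty := (hTi T1 hT1).mono (interior_mono (hF.subset hT1))
  -- one tile at each boundary point
  have hone : ∀ q ∈ frontier D, ∃ T ∈ F, q ∈ T ∧ ∃ δ > 0, D ∩ ball q δ ⊆ T := by
    intro q hq
    have hqi : q ∉ interior D := hq.2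
    have hqD : q ∈ D := by
      have := hq.1
      rwa [hDc.isClosed.closure_eq] at this
    obtain ⟨J, a, hJ, ha, δ, hδ, hδ1, hδ2⟩ := local_structure s hint D F hF q
    choose! hpos ψ w' hw' hT hwv haw using ha
    have hsum : ∑ T ∈ J, a T ≤ Real.pi := by
      have h1 := hδ2 δ hδ le_rfl
      have h2 := area_half D hDv q hqi hDint δ hδ.le
      rw [h1] at h2
      have h3 : δ ^ 2 * ∑ T ∈ J, a T ≤ δ ^ 2 * Real.pi := by linarith
      exact le_of_mul_le_mul_left h3 (by positivity)
    have hbig : ∀ T ∈ J, Real.pi / 2 < a T := by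
      intro T hTJ
      rw [haw T hTJ]
      by_cases hs : w' T ∈ s
      · exact hang _ hs
      · rcases ang_nonvertex s hint (w' T) (hw' T hTJ) hs with h | h
        · rw [h]; linarith
        · rw [h]; linarith
    have hJne : J.Nonempty := by
      rw [← hF.2.2] at hqD
      obtain ⟨T, hT', hqT⟩ := hqD
      exact ⟨T, (hJ T).2 ⟨hT', hqT⟩⟩
    have hcard : J.card ≤ 1 := by
      by_contra hcon
      push Not at hcon
      have h1 : (J.card : ℝ) * (Real.pi / 2) ≤ ∑ T ∈ J, a T := by
        have := Finset.card_nsmul_le_sum J a (Real.pi / 2) (fun T hT => (hbig T hT).le)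
        rwa [nsmul_eq_mul] at this
      obtain ⟨T, hTJ⟩ := hJne
      have h2 : ∑ T ∈ J, (Real.pi / 2) < ∑ T ∈ J, a T :=
        Finset.sum_lt_sum_of_nonempty ⟨T, hTJ⟩ hbig
      rw [Finset.sum_const, nsmul_eq_mul] at h2
      have h3 : (2 : ℝ) ≤ J.card := by exact_mod_cast hcon
      have h4 : 2 * (Real.pi / 2) ≤ (J.card : ℝ) * (Real.pi / 2) :=
        mul_le_mul_of_nonneg_right h3 (by positivity)
      linarith
    have hcard1 : J.card = 1 := le_antisymm hcard (Finset.card_pos.2 hJne)
    obtain ⟨T, hJT⟩ := Finset.card_eq_one.1 hcard1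
    have hTJ : T ∈ J := by rw [hJT]; simp
    refine ⟨T, ((hJ T).1 hTJ).1, ((hJ T).1 hTJ).2, δ, hδ, ?_⟩
    rintro z ⟨hzD, hzb⟩
    rw [← hF.2.2] at hzD
    obtain ⟨T', hT', hzT'⟩ := hzD
    have h4 := hδ1 T' hT' ⟨z, hzT', hzb⟩
    rw [hJT, Finset.mem_singleton] at h4
    rw [← h4]; exact hzT'
  -- the boundary is connected
  obtain ⟨g, -, -, hg⟩ := exists_homeomorph_image_interior_closure_frontier_eq_unitBall hDv hDint
    hDc.isBounded
  have hrank : 1 < Module.rank ℝ Pl := by
    rw [← Module.finrank_eq_rank]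
    simp
  have hfr : frontier D = g.symm '' sphere 0 1 := by
    rw [← hg, ← image_comp]
    simp
  have hpre : IsPreconnected (frontier D) := by
    rw [hfr]
    exact (isPreconnected_sphere hrank 0 1).image _ g.symm.continuous.continuousOn
  have hfne : (frontier D).Nonempty := by
    rw [hfr]
    have : (sphere (0 : Pl) 1).Nonempty := ⟨EuclideanSpace.single 0 1, by simp⟩
    exact this.image _
  obtain ⟨q0, hq0⟩ := hfne
  obtain ⟨T0, hT0, hq0T, -⟩ := hone q0 hq0
  -- near a boundary point in `T0`, `D` is contained in `T0`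
  have hnear : ∀ q ∈ frontier D, q ∈ T0 → ∃ δ > 0, D ∩ ball q δ ⊆ T0 := by
    intro q hq hqT0
    obtain ⟨T, hT, hqT, δ, hδ, hsub⟩ := hone q hq
    refine ⟨δ, hδ, ?_⟩
    have hTT : T0 = T := by
      by_contra hne'
      have hd := hF.2.1 T0 hT0 T hT hne'
      have hcl : q ∈ closure (interior T0) := by
        rw [(hTv T0 hT0).closure_interior_eq_closure_of_nonempty_interior (hTi T0 hT0)]
        exact subset_closure hqT0
      obtain ⟨y, hy1, hy2⟩ := mem_closure_iff.1 hcl (ball q δ) isOpen_ball (mem_ball_self hδ)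
      have h5 : ball q δ ∩ interior T0 ⊆ T := by
        rintro z ⟨hz1, hz2⟩
        exact hsub ⟨hF.subset hT0 (interior_subset hz2), hz1⟩
      have h6 : y ∈ interior T :=
        interior_maximal h5 (isOpen_ball.inter isOpen_interior) ⟨hy1, hy2⟩
      exact disjoint_left.1 hd hy2 h6
    rw [hTT]; exact hsub
  have hfT0 : frontier D ⊆ T0 := by
    intro z hz
    by_contra hzT0
    set u : Set Pl := {x | ∃ q ∈ frontier D, q ∈ T0 ∧ ∃ δ > 0, D ∩ ball q δ ⊆ T0 ∧
      x ∈ ball q δ} with hu
    have huo : IsOpen u := by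
      have : u = ⋃ (q : Pl) (δ : ℝ) (_ : q ∈ frontier D ∧ q ∈ T0 ∧ 0 < δ ∧ D ∩ ball q δ ⊆ T0),
          ball q δ := by
        ext x
        simp only [hu, mem_ofPred_eq, mem_iUnion]
        constructor
        · rintro ⟨q, h1, h2, δ, h3, h4, h5⟩
          exact ⟨q, δ, ⟨h1, h2, h3, h4⟩, h5⟩
        · rintro ⟨q, δ, ⟨h1, h2, h3, h4⟩, h5⟩
          exact ⟨q, h1, h2, δ, h3, h4, h5⟩
      rw [this]
      exact isOpen_iUnion fun q => isOpen_iUnion fun δ => isOpen_iUnion fun _ => isOpen_ball
    have hcov : frontier D ⊆ u ∪ T0ᶜ := by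
      intro x hx
      by_cases hxT : x ∈ T0
      · obtain ⟨δ, hδ, hsub⟩ := hnear x hx hxT
        exact Or.inl ⟨x, hx, hxT, δ, hδ, hsub, mem_ball_self hδ⟩
      · exact Or.inr hxT
    obtain ⟨δ, hδ, hsub⟩ := hnear q0 hq0 hq0T
    obtain ⟨x, hx, ⟨q, hq1, hq2, δ', hδ', hs', hxb⟩, hxT⟩ := hpre u T0ᶜ huo
      (hTc T0 hT0).isClosed.isOpen_compl hcov
      ⟨q0, hq0, q0, hq0, hq0T, δ, hδ, hsub, mem_ball_self hδ⟩ ⟨z, hz, hzT0⟩
    apply hxT
    apply hs'
    refine ⟨?_, hxb⟩
    have := hx.1
    rwa [hDc.isClosed.closure_eq] at this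
  -- hence `D ⊆ T0`
  have hDT0 : D ⊆ T0 := by
    intro y hy
    by_contra hyT
    obtain ⟨f, c, hf1, hf2⟩ := geometric_hahn_banach_closed_point (hTv T0 hT0)
      (hTc T0 hT0).isClosed hyT
    obtain ⟨x, hxD, hmax⟩ := hDc.exists_isMaxOn ⟨y, hy⟩ f.continuous.continuousOn
    have hxf : x ∈ frontier D := by
      refine ⟨subset_closure hxD, fun hxi => ?_⟩
      obtain ⟨w, hw⟩ : ∃ w : Pl, ∀ y, f y = inner ℝ w y :=
        ⟨(InnerProductSpace.toDual ℝ Pl).symm f, fun y => by simp⟩
      have hw0 : w ≠ 0 := by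
        rintro rfl
        have h3 := hf1 q0 hq0T
        rw [hw] at h3 hf2
        simp at h3 hf2
        linarith
      have hwpos : 0 < ‖w‖ := norm_pos_iff.2 hw0
      obtain ⟨ε, hε, hb⟩ := Metric.isOpen_iff.1 isOpen_interior x hxi
      set δ := ε / (2 * ‖w‖) with hδ
      have hδpos : 0 < δ := by positivity
      have hmem : x + δ • w ∈ ball x ε := by
        rw [mem_ball, dist_eq_norm, add_sub_cancel_left, norm_smul, Real.norm_eq_abs,
          abs_of_pos hδpos, hδ]
        have : ε / (2 * ‖w‖) * ‖w‖ = ε / 2 := by field_simp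
        rw [this]; linarith
      have h4 : f (x + δ • w) ≤ f x := hmax (interior_subset (hb hmem))
      rw [map_add, map_smul, smul_eq_mul, hw w, real_inner_self_eq_norm_sq] at h4
      have : 0 < δ * ‖w‖ ^ 2 := by positivity
      linarith
    have h5 := hf1 x (hfT0 hxf)
    have h6 : f y ≤ f x := hmax hy
    linarith
  -- contradiction
  obtain ⟨T, hT, hTne⟩ : ∃ T ∈ F, T ≠ T0 := by
    by_cases h1 : T1 = T0
    · exact ⟨T2, hT2, fun h2 => hne (h1.trans h2.symm)⟩
    · exact ⟨T1, hT1, h1⟩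
  obtain ⟨x, hx⟩ := hTi T hT
  exact disjoint_left.1 (hF.2.1 T hT T0 hT0 hTne) hx
    (interior_mono ((hF.subset hT).trans hDT0) hx)

end Pool.Agent.HexNear
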