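import Pool.Agent.Lib.MP_20f220_co.Edge

/-! Copies near a well covered copy and the limit tiling. -/

open Filter Topology Metric Set MeasureTheory
open scoped ENNReal Pointwise

namespace Pool.Agent.HexNear

/-- **Berge's lemma** for three convex sets with convex union. -/
lemma berge (B C1 C2 C3 : Set Pl) (hB : Convex ℝ B) (k1 : IsCompact C1) (k2 : IsCompact C2)
    (k3 : IsCompact C3) (v1 : Convex ℝ C1) (v2 : Convex ℝ C2) (v3 : Convex ℝ C3)
    (s1 : C1 ⊆ B) (s2 : C2 ⊆ B) (hcov : B ⊆ C1 ∪ C2 ∪ C3)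
    (h12 : (C1 ∩ C2).Nonempty) (h13 : (C1 ∩ C3).Nonempty) (h23 : (C2 ∩ C3).Nonempty) :
    (C1 ∩ C2 ∩ C3).Nonempty := by
  by_contra hcon
  rw [← Set.not_disjoint_iff_nonempty_inter, not_not] at hcon
  obtain ⟨f, a, b, hf1, hab, hf2⟩ := geometric_hahn_banach_compact_closed (v1.inter v2)
    (k1.inter k2) v3 k3.isClosed hcon
  obtain ⟨x, hx1, hx2⟩ := h12
  obtain ⟨y, hy1, hy3⟩ := h13
  obtain ⟨z, hz2, hz3⟩ := h23
  set c := (a + b) / 2 with hc
  have fx := hf1 x ⟨hx1, hx2⟩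
  have fy := hf2 y hy3
  have fz := hf2 z hz3
  obtain ⟨p, hp1, hpc⟩ := v1.isPreconnected.intermediate_value hx1 hy1
    f.continuous.continuousOn (show c ∈ Icc (f x) (f y) from ⟨by linarith, by linarith⟩)
  obtain ⟨q, hq2, hqc⟩ := v2.isPreconnected.intermediate_value hx2 hz2
    f.continuous.continuousOn (show c ∈ Icc (f x) (f z) from ⟨by linarith, by linarith⟩)
  have hH : Convex ℝ (B ∩ {x | f x = c}) := hB.inter (convex_hyperplane f.isLinear c)
  have h1 := isPreconnected_closed_iff.1 hH.isPreconnected C1 C2 k1.isClosed k2.isClosed (by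
    rintro w ⟨hwB, hwc⟩
    rcases hcov hwB with h | h
    · exact h
    · exfalso
      have h4 := hf2 w h
      have h5 : f w = c := hwc
      linarith) ⟨p, ⟨s1 hp1, hpc⟩, hp1⟩ ⟨q, ⟨s2 hq2, hqc⟩, hq2⟩
  obtain ⟨w, ⟨-, hwc⟩, hw⟩ := h1
  have h4 := hf1 w hw
  have h5 : f w = c := hwc
  linarith

/-- separation by a unit vector -/
lemma unit_sep (Q : Set Pl) (hQc : IsClosed Q) (hQv : Convex ℝ Q) (y : Pl) (hy : y ∉ Q) :
    ∃ w : Pl, ‖w‖ = 1 ∧ ∀ z ∈ Q, (inner ℝ w z : ℝ) ≤ inner ℝ w y := by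
  rcases Q.eq_empty_or_nonempty with h0 | hne
  · refine ⟨EuclideanSpace.single 0 1, by simp, fun z hz => ?_⟩
    rw [h0] at hz
    exact absurd hz (Set.notMem_empty _)
  obtain ⟨f, c, h1, h2⟩ := geometric_hahn_banach_closed_point hQv hQc hy
  obtain ⟨w, hw⟩ : ∃ w : Pl, ∀ y, f y = inner ℝ w y :=
    ⟨(InnerProductSpace.toDual ℝ Pl).symm f, fun y => by simp⟩
  have hw0 : w ≠ 0 := by
    rintro rfl
    obtain ⟨z, hz⟩ := hne
    have h3 := h1 z hz
    rw [hw] at h3 h2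
    simp at h3 h2
    linarith
  have hpos : 0 < ‖w‖ := norm_pos_iff.2 hw0
  refine ⟨(‖w‖)⁻¹ • w, by rw [norm_smul, norm_inv, norm_norm, inv_mul_cancel₀ hpos.ne'], ?_⟩
  intro z hz
  rw [real_inner_smul_left, real_inner_smul_left, ← hw, ← hw]
  exact mul_le_mul_of_nonneg_left ((h1 z hz).trans h2).le (by positivity)

/-- limits of unit functionals -/
lemma exists_unit_lim (U : Ultrafilter ℕ) (w : ℕ → Pl) (hw : ∀ᶠ m in (U : Filter ℕ), ‖w m‖ = 1) :
    ∃ w0 : Pl, ‖w0‖ = 1 ∧ Tendsto w (U : Filter ℕ) (𝓝 w0) := by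
  obtain ⟨w0, h0⟩ := exists_lim U w 0 1 (hw.mono fun m hm => by rw [dist_zero_right, hm])
  refine ⟨w0, ?_, h0⟩
  have a2 : Tendsto (fun m => ‖w m‖) (U : Filter ℕ) (𝓝 1) :=
    tendsto_const_nhds.congr' (hw.mono fun m hm => hm.symm)
  exact tendsto_nhds_unique h0.norm a2

/-- stability of interior points under perturbation of the extreme points -/
lemma stable (U : Ultrafilter ℕ) (Q : ℕ → Set Pl) (hQc : ∀ m, IsClosed (Q m))
    (hQv : ∀ m, Convex ℝ (Q m)) (T : Set Pl) (hTc : IsCompact T) (hTv : Convex ℝ T)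
    (hξ : ∀ v ∈ Set.extremePoints ℝ T, ∃ ξ : ℕ → Pl, Tendsto ξ (U : Filter ℕ) (𝓝 v) ∧
      ∀ᶠ m in (U : Filter ℕ), ξ m ∈ Q m) (p : Pl) (hp : p ∈ interior T) (y : ℕ → Pl)
    (hy : Tendsto y (U : Filter ℕ) (𝓝 p)) : ∀ᶠ m in (U : Filter ℕ), y m ∈ Q m := by
  by_contra hcon
  rw [← Ultrafilter.eventually_not] at hcon
  have hch : ∀ m, ∃ w : Pl, y m ∉ Q m →
      (‖w‖ = 1 ∧ ∀ z ∈ Q m, (inner ℝ w z : ℝ) ≤ inner ℝ w (y m)) := by
    intro m
    by_cases h : y m ∈ Q m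
    · exact ⟨0, fun h' => absurd h h'⟩
    · obtain ⟨w, h1, h2⟩ := unit_sep (Q m) (hQc m) (hQv m) (y m) h
      exact ⟨w, fun _ => ⟨h1, h2⟩⟩
  choose w hw using hch
  obtain ⟨w0, hw0, hwlim⟩ := exists_unit_lim U w (hcon.mono fun m hm => (hw m hm).1)
  have hy' : Tendsto (fun m => (inner ℝ (w m) (y m) : ℝ)) (U : Filter ℕ) (𝓝 (inner ℝ w0 p)) :=
    hwlim.inner hy
  have hext : ∀ v ∈ Set.extremePoints ℝ T, (inner ℝ w0 v : ℝ) ≤ inner ℝ w0 p := by
    intro v hv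
    obtain ⟨ξ, h1, h2⟩ := hξ v hv
    have h3 : Tendsto (fun m => (inner ℝ (w m) (ξ m) : ℝ)) (U : Filter ℕ) (𝓝 (inner ℝ w0 v)) :=
      hwlim.inner h1
    refine le_of_tendsto_of_tendsto h3 hy' ?_
    filter_upwards [hcon, h2] with m a b
    exact (hw m a).2 _ b
  have hsub : T ⊆ {z | (inner ℝ w0 z : ℝ) ≤ inner ℝ w0 p} := by
    rw [← closure_convexHull_extremePoints hTc hTv]
    apply closure_minimal
    · apply convexHull_min hext
      exact convex_halfSpace_le (innerSL ℝ w0).isLinear _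
    · exact isClosed_le (by fun_prop) continuous_const
  obtain ⟨ε, hε, hb⟩ := Metric.isOpen_iff.1 isOpen_interior p hp
  have hmem : p + (ε / 2) • w0 ∈ ball p ε := by
    rw [mem_ball, dist_eq_norm, add_sub_cancel_left, norm_smul, hw0, Real.norm_eq_abs,
      abs_of_pos (by linarith)]
    linarith
  have h4 : (inner ℝ w0 (p + (ε / 2) • w0) : ℝ) ≤ inner ℝ w0 p :=
    hsub (interior_subset (hb hmem))
  rw [inner_add_right, inner_smul_right, real_inner_self_eq_norm_sq, hw0] at h4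
  linarith

namespace Seq
variable {P : Set Pl} (S : Seq P)

/-- normalised copies -/
noncomputable def C (m : ℕ) (j : Fin (S.n m)) : Set Pl := S.g m j '' S.K m

/-- the tile `T` is the limit of the copies with index `j m` -/
def Rep (U : Ultrafilter ℕ) (j : ∀ m, Fin (S.n m)) (T : Set Pl) : Prop :=
  ∃ ψ : Pl ≃ᵢ Pl, (∀ x, Tendsto (fun m => S.g m (j m) x) (U : Filter ℕ) (𝓝 (ψ x))) ∧ T = ψ '' P

lemma isCompact_C (m : ℕ) (j : Fin (S.n m)) : IsCompact (S.C m j) :=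
  (S.hKc m).image (S.g m j).continuous

lemma isCompact_D' (m : ℕ) : IsCompact (S.D' m) :=
  (S.hDc m).image (S.φ m (S.i m)).symm.continuous

lemma convex_C (m : ℕ) (hK : Convex ℝ (S.K m)) (j : Fin (S.n m)) : Convex ℝ (S.C m j) := by
  have h1 : S.C m j = ((S.g m j).toRealAffineIsometryEquiv.toAffineEquiv.toAffineMap) ''
      S.K m := rfl
  rw [h1]
  exact hK.affine_image _

lemma D'_sub (m : ℕ) : S.D' m ⊆ ⋃ j, S.C m j := by
  rintro _ ⟨y, hy, rfl⟩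
  obtain ⟨j, z, hz, hzy⟩ := mem_iUnion.1 (S.cov m hy)
  refine mem_iUnion.2 ⟨j, z, hz, ?_⟩
  rw [g_apply, hzy]

variable (U : Ultrafilter ℕ) (hU : (U : Filter ℕ) ≤ atTop)

lemma mem_limFam (T : Set Pl) : T ∈ limFam U S.g P ↔ ∃ j, S.Rep U j T := Iff.rfl

include hU

lemma eta_U : Tendsto (fun m : ℕ => 1 / ((m : ℝ) + 1 + 1)) (U : Filter ℕ) (𝓝 0) :=
  eta_tendsto.mono_left hU

lemma rep_inner {j : ∀ m, Fin (S.n m)} {T : Set Pl} (h : S.Rep U j T) (x : Pl)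
    (hx : x ∈ interior T) : ∃ r > 0, ∀ᶠ m in (U : Filter ℕ), ball x r ⊆ S.C m (j m) := by
  obtain ⟨ψ, hψ, rfl⟩ := h
  exact inner_ball U (fun m => S.g m (j m)) ψ hψ S.K P
    (fun y hy => near_in U P S.K _ (eta_U U hU) S.near y hy) x hx

lemma rep_outer (hPc : IsCompact P) {j : ∀ m, Fin (S.n m)} {T : Set Pl} (h : S.Rep U j T) (x : Pl)
    (hx : x ∉ T) : ∃ r > 0, ∀ᶠ m in (U : Filter ℕ), Disjoint (ball x r) (S.C m (j m)) := by
  obtain ⟨ψ, hψ, rfl⟩ := h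
  exact outer_ball U (fun m => S.g m (j m)) ψ hψ S.K P
    (fun y hy => near_out U P hPc.isClosed S.K _ (eta_U U hU) S.near y hy) x hx

lemma rep_lim (hPc : IsCompact P) {j : ∀ m, Fin (S.n m)} {T : Set Pl} (h : S.Rep U j T)
    (y : ℕ → Pl) (x : Pl) (hy : ∀ᶠ m in (U : Filter ℕ), y m ∈ S.C m (j m))
    (hlim : Tendsto y (U : Filter ℕ) (𝓝 x)) : x ∈ T := by
  by_contra hx
  obtain ⟨r, hr, hev⟩ := S.rep_outer U hU hPc h x hx
  obtain ⟨m, h1, h2, h3⟩ := (hy.and (hev.and ((Metric.tendsto_nhds.1 hlim) r hr))).exists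
  exact disjoint_left.1 h2 (mem_ball.2 h3) h1

lemma exists_rep (hPc : IsCompact P) (j : ∀ m, Fin (S.n m))
    (y : ℕ → Pl) (x : Pl) (hy : ∀ᶠ m in (U : Filter ℕ), y m ∈ S.C m (j m))
    (hlim : Tendsto y (U : Filter ℕ) (𝓝 x)) : ∃ T, S.Rep U j T ∧ x ∈ T := by
  obtain ⟨C, hC⟩ := near_bd U P hPc.isBounded S.K _ (eta_U U hU) S.near
  have hbound : ∀ᶠ m in (U : Filter ℕ), dist (S.g m (j m) 0) 0 ≤ C + (dist x 0 + 1) := by
    filter_upwards [hy, (Metric.tendsto_nhds.1 hlim) 1 one_pos, hC] with m a1 a2 a3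
    obtain ⟨z, hz, hzy⟩ := a1
    have b1 : dist z 0 ≤ C := a3 hz
    have b2 : dist (S.g m (j m) 0) (y m) = dist z 0 := by
      rw [← hzy, (S.g m (j m)).dist_eq, dist_comm]
    have b3 := dist_triangle (S.g m (j m) 0) (y m) 0
    have b4 := dist_triangle (y m) x 0
    linarith
  obtain ⟨ψ, hψ⟩ := exists_iso_lim U (fun m => S.g m (j m)) _ hbound
  have hrep : S.Rep U j (ψ '' P) := ⟨ψ, hψ, rfl⟩
  exact ⟨_, hrep, S.rep_lim U hU hPc hrep y x hy hlim⟩

omit hU in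
lemma rep_eq {j j' : ∀ m, Fin (S.n m)} {T T' : Set Pl} (h : S.Rep U j T) (h' : S.Rep U j' T')
    (he : ∀ᶠ m in (U : Filter ℕ), j m = j' m) : T = T' := by
  obtain ⟨ψ, hψ, rfl⟩ := h
  obtain ⟨ψ', hψ', rfl⟩ := h'
  have : ψ = ψ' := by
    ext1 y
    refine tendsto_nhds_unique (hψ y) ((hψ' y).congr' ?_)
    filter_upwards [he] with m hm
    rw [hm]
  rw [this]

omit hU in
lemma rep_ev_ne {j j' : ∀ m, Fin (S.n m)} {T T' : Set Pl} (h : S.Rep U j T) (h' : S.Rep U j' T')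
    (hne : T ≠ T') : ∀ᶠ m in (U : Filter ℕ), j m ≠ j' m := by
  rw [Ultrafilter.eventually_not]
  intro he
  exact hne (S.rep_eq U h h' he)

lemma rep_ne (h0 : (interior P).Nonempty) {j j' : ∀ m, Fin (S.n m)} {T T' : Set Pl}
    (h : S.Rep U j T) (h' : S.Rep U j' T')
    (hne : ∀ᶠ m in (U : Filter ℕ), j m ≠ j' m) : T ≠ T' := by
  intro hTT
  have hint : (interior T).Nonempty := by
    obtain ⟨ψ, hψ, rfl⟩ := h
    have e : interior (ψ '' P) = ψ '' interior P := (ψ.toHomeomorph.image_interior P).symm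
    rw [e]
    exact h0.image _
  obtain ⟨x, hx⟩ := hint
  obtain ⟨r, hr, hev⟩ := S.rep_inner U hU h x hx
  obtain ⟨r', hr', hev'⟩ := S.rep_inner U hU h' x (by rw [← hTT]; exact hx)
  have hmin : 0 < min r r' := lt_min hr hr'
  obtain ⟨m, a1, a2, a3, a4⟩ :=
    (hne.and (hev.and (hev'.and (hU (S.small' x (min r r') hmin))))).exists
  refine absurd a4 (not_lt.2 ?_)
  apply le_waste_of_two volume _ _ (S.cov' m) (S.meas' m) (S.hDc m).measure_lt_top.ne
    measurableSet_ball measure_ball_lt_top.ne (j m) (j' m) a1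
  · rw [← IsometryEquiv.image_ball, copies, ← S.image_g m (j m)]
    exact image_mono ((ball_subset_ball (min_le_left _ _)).trans a2)
  · rw [← IsometryEquiv.image_ball, copies, ← S.image_g m (j' m)]
    exact image_mono ((ball_subset_ball (min_le_right _ _)).trans a3)

lemma rep_meet {j : ∀ m, Fin (S.n m)} {T : Set Pl} (h : S.Rep U j T) (hTv : Convex ℝ T)
    (hTi : (interior T).Nonempty) (q : Pl) (hq : q ∈ T) (r : ℝ) (hr : 0 < r) :
    ∀ᶠ m in (U : Filter ℕ), (ball q r ∩ S.C m (j m)).Nonempty := by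
  have hcl : q ∈ closure (interior T) := by
    rw [hTv.closure_interior_eq_closure_of_nonempty_interior hTi]
    exact subset_closure hq
  obtain ⟨y, hy1, hy2⟩ := mem_closure_iff.1 hcl (ball q r) isOpen_ball (mem_ball_self hr)
  obtain ⟨r', hr', hev⟩ := S.rep_inner U hU h y hy2
  filter_upwards [hev] with m hm
  exact ⟨y, hy1, hm (mem_ball_self hr')⟩

/-- if the limit domain is the plane, the domains exhaust the plane -/
lemma ball_D' (huniv : limSet U S.D' = univ) (R : ℝ) :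
    ∀ᶠ m in (U : Filter ℕ), closedBall (0 : Pl) R ⊆ S.D' m := by
  by_contra hcon
  rw [← Ultrafilter.eventually_not] at hcon
  have hch : ∀ m, ∃ y w : Pl, ¬ closedBall (0 : Pl) R ⊆ S.D' m →
      (y ∈ closedBall (0 : Pl) R ∧ ‖w‖ = 1 ∧ ∀ z ∈ S.D' m, (inner ℝ w z : ℝ) ≤ inner ℝ w y) := by
    intro m
    by_cases h : closedBall (0 : Pl) R ⊆ S.D' m
    · exact ⟨0, 0, fun h' => absurd h h'⟩
    · obtain ⟨y, hy, hyD⟩ := Set.not_subset.1 h
      obtain ⟨w, h1, h2⟩ := unit_sep (S.D' m) (S.isCompact_D' m).isClosed (S.convex_D' m) y hyD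
      exact ⟨y, w, fun _ => ⟨hy, h1, h2⟩⟩
  choose y w hyw using hch
  obtain ⟨w0, hw0, hwlim⟩ := exists_unit_lim U w (hcon.mono fun m hm => (hyw m hm).2.1)
  obtain ⟨y0, hy0⟩ := exists_lim U y 0 R (hcon.mono fun m hm => (hyw m hm).1)
  have hmem : y0 + w0 ∈ limSet U S.D' := by rw [huniv]; trivial
  obtain ⟨z, hz1, hz2⟩ := exists_tendsto_of_mem_limSet U hU S.D' _ hmem
  have h1 : (inner ℝ w0 (y0 + w0) : ℝ) ≤ inner ℝ w0 y0 := by
    refine le_of_tendsto_of_tendsto (hwlim.inner hz2) (hwlim.inner hy0) ?_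
    filter_upwards [hcon, hz1] with m a b
    exact (hyw m a).2.2 _ b
  rw [inner_add_right, real_inner_self_eq_norm_sq, hw0] at h1
  linarith

/-- near a point only the copies represented by the tiles at that point occur -/
lemma only_few (hPc : IsCompact P) (h0 : (interior P).Nonempty) (hF : Tame (limFam U S.g P))
    (p : Pl) {ι : Type} [Finite ι]
    (j : ι → ∀ m, Fin (S.n m)) (T : ι → Set Pl) (hrep : ∀ k, S.Rep U (j k) (T k))
    (hall : ∀ T' ∈ limFam U S.g P, p ∈ T' → ∃ k, T' = T k) :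
    ∃ δ > 0, ∀ᶠ m in (U : Filter ℕ), ∀ l : Fin (S.n m), (S.C m l ∩ closedBall p δ).Nonempty →
      ∃ k, l = j k m := by
  obtain ⟨δ, hδ, hloc⟩ := hF.loc p
  refine ⟨δ / 2, by linarith, ?_⟩
  by_contra hcon
  rw [← Ultrafilter.eventually_not] at hcon
  have hch : ∀ m, ∃ (l : Fin (S.n m)) (y : Pl),
      (¬ ∀ l : Fin (S.n m), (S.C m l ∩ closedBall p (δ / 2)).Nonempty → ∃ k, l = j k m) →
      (y ∈ S.C m l ∧ y ∈ closedBall p (δ / 2) ∧ ∀ k, l ≠ j k m) := by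
    intro m
    by_cases h : ∀ l : Fin (S.n m), (S.C m l ∩ closedBall p (δ / 2)).Nonempty → ∃ k, l = j k m
    · exact ⟨S.i m, 0, fun h' => absurd h h'⟩
    · have h' := h
      push Not at h'
      obtain ⟨l, ⟨y, hy1, hy2⟩, hl⟩ := h'
      exact ⟨l, y, fun _ => ⟨hy1, hy2, hl⟩⟩
  choose l y hly using hch
  obtain ⟨y0, hy0⟩ := exists_lim U y p (δ / 2) (hcon.mono fun m hm => (hly m hm).2.1)
  obtain ⟨T', hT', hyT'⟩ := S.exists_rep U hU hPc l y y0 (hcon.mono fun m hm => (hly m hm).1) hy0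
  have hy0b : y0 ∈ ball p δ := by
    have h1 : y0 ∈ closedBall p (δ / 2) :=
      isClosed_closedBall.mem_of_tendsto hy0 (hcon.mono fun m hm => (hly m hm).2.1)
    rw [mem_closedBall] at h1
    rw [mem_ball]; linarith
  have hT'F : T' ∈ limFam U S.g P := ⟨l, hT'⟩
  have hpT' := hloc T' hT'F ⟨y0, hyT', hy0b⟩
  obtain ⟨k, hk⟩ := hall T' hT'F hpT'
  exact S.rep_ne U hU h0 hT' (hrep k) (hcon.mono fun m hm => (hly m hm).2.2 k) hk

/-- and they cover a neighbourhood -/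
lemma cover_few (hPc : IsCompact P) (h0 : (interior P).Nonempty) (hF : Tame (limFam U S.g P))
    (huniv : limSet U S.D' = univ) (p : Pl) {ι : Type} [Finite ι]
    (j : ι → ∀ m, Fin (S.n m)) (T : ι → Set Pl) (hrep : ∀ k, S.Rep U (j k) (T k))
    (hall : ∀ T' ∈ limFam U S.g P, p ∈ T' → ∃ k, T' = T k) :
    ∃ δ > 0, ∀ᶠ m in (U : Filter ℕ), closedBall p δ ⊆ ⋃ k, S.C m (j k m) := by
  obtain ⟨δ, hδ, hev⟩ := S.only_few U hU hPc h0 hF p j T hrep hall
  refine ⟨δ, hδ, ?_⟩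
  filter_upwards [hev, S.ball_D' U hU huniv (dist p 0 + δ)] with m h1 h2
  intro x hx
  have hxD : x ∈ S.D' m := by
    apply h2
    rw [mem_closedBall] at hx ⊢
    have := dist_triangle x p 0
    linarith
  obtain ⟨l, hl⟩ := mem_iUnion.1 (S.D'_sub m hxD)
  obtain ⟨k, hk⟩ := h1 l ⟨x, hl, hx⟩
  exact mem_iUnion.2 ⟨k, by rw [← hk]; exact hl⟩

/-- copies of two neighbouring tiles meet near their common boundary -/
lemma pair_meet (hPc : IsCompact P) (h0 : (interior P).Nonempty) (hF : Tame (limFam U S.g P))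
    (huniv : limSet U S.D' = univ) {j1 j2 : ∀ m, Fin (S.n m)} {T1 T2 : Set Pl}
    (r1 : S.Rep U j1 T1) (r2 : S.Rep U j2 T2) (q : Pl) (q1 : q ∈ T1) (q2 : q ∈ T2)
    (hq : ∀ T ∈ limFam U S.g P, q ∈ T → T = T1 ∨ T = T2) (r : ℝ) (hr : 0 < r) :
    ∀ᶠ m in (U : Filter ℕ), (ball q r ∩ (S.C m (j1 m) ∩ S.C m (j2 m))).Nonempty := by
  obtain ⟨δ, hδ, hev⟩ := S.cover_few U hU hPc h0 hF huniv q (ι := Bool)
    (fun b => if b then j1 else j2) (fun b => if b then T1 else T2)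
    (fun b => by cases b <;> simp [r1, r2]) (fun T' hT' hqT' => by
      rcases hq T' hT' hqT' with h | h
      · exact ⟨true, by simpa using h⟩
      · exact ⟨false, by simpa using h⟩)
  have hmin : 0 < min δ r := lt_min hδ hr
  have hT1F : T1 ∈ limFam U S.g P := ⟨j1, r1⟩
  have hT2F : T2 ∈ limFam U S.g P := ⟨j2, r2⟩
  filter_upwards [hev, S.rep_meet U hU r1 (hF.convex T1 hT1F) (hF.int T1 hT1F) q q1 _ hmin,
    S.rep_meet U hU r2 (hF.convex T2 hT2F) (hF.int T2 hT2F) q q2 _ hmin] with m h1 h2 h3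
  have hpre : IsPreconnected (ball q (min δ r)) := (convex_ball q _).isPreconnected
  have h4 := isPreconnected_closed_iff.1 hpre (S.C m (j1 m)) (S.C m (j2 m))
    (S.isCompact_C m _).isClosed (S.isCompact_C m _).isClosed (by
      intro x hx
      have hx1 : x ∈ closedBall q δ :=
        ball_subset_closedBall (ball_subset_ball (min_le_left _ _) hx)
      obtain ⟨b, hb⟩ := mem_iUnion.1 (h1 hx1)
      cases b
      · exact Or.inr (by simpa using hb)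
      · exact Or.inl (by simpa using hb)) h2 h3
  exact h4.mono (inter_subset_inter_left _ (ball_subset_ball (min_le_right _ _)))

/-- **Copies of three tiles at a vertex have a common point.** -/
lemma triple_meet (hPc : IsCompact P) (h0 : (interior P).Nonempty)
    (hF : Tame (limFam U S.g P)) (hKv : ∀ m, Convex ℝ (S.K m))
    (huniv : limSet U S.D' = univ) {j1 j2 j3 : ∀ m, Fin (S.n m)} {T1 T2 T3 : Set Pl}
    (r1 : S.Rep U j1 T1) (r2 : S.Rep U j2 T2) (r3 : S.Rep U j3 T3)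
    (h12 : T1 ≠ T2) (h13 : T1 ≠ T3) (h23 : T2 ≠ T3)
    (p : Pl) (p1 : p ∈ T1) (p2 : p ∈ T2) (p3 : p ∈ T3) :
    ∀ᶠ m in (U : Filter ℕ), (S.C m (j1 m) ∩ S.C m (j2 m) ∩ S.C m (j3 m)).Nonempty := by
  have f1 : T1 ∈ limFam U S.g P := ⟨j1, r1⟩
  have f2 : T2 ∈ limFam U S.g P := ⟨j2, r2⟩
  have f3 : T3 ∈ limFam U S.g P := ⟨j3, r3⟩
  obtain ⟨δ, hδ, hev⟩ := S.cover_few U hU hPc h0 hF huniv p (ι := Fin 3)
    (fun k => match k with | 0 => j1 | 1 => j2 | 2 => j3)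
    (fun k => match k with | 0 => T1 | 1 => T2 | 2 => T3)
    (fun k => match k with | 0 => r1 | 1 => r2 | 2 => r3) (fun T' hT' hqT' => by
      rcases hF.three_max p T1 f1 T2 f2 T3 f3 h12 h13 h23 p1 p2 p3 T' hT' hqT' with h | h | h
      · exact ⟨0, h⟩
      · exact ⟨1, h⟩
      · exact ⟨2, h⟩)
  -- pairs of copies meet near `p`
  have hpair : ∀ {j j' : ∀ m, Fin (S.n m)} {T T' T'' : Set Pl}, S.Rep U j T → S.Rep U j' T' →
      T ∈ limFam U S.g P → T' ∈ limFam U S.g P → T'' ∈ limFam U S.g P → T ≠ T' → T ≠ T'' →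
      T' ≠ T'' → p ∈ T → p ∈ T' → p ∈ T'' →
      ∀ᶠ m in (U : Filter ℕ), (ball p δ ∩ (S.C m (j m) ∩ S.C m (j' m))).Nonempty := by
    intro j j' T T' T'' r r' f f' f'' n1 n2 n3 q1 q2 q3
    obtain ⟨a, hap, a1, a2, -⟩ := hF.vertex f f' f'' n1 n2 n3 p q1 q2 q3
    have hnpos : 0 < ‖a - p‖ := norm_pos_iff.2 (sub_ne_zero.2 hap)
    set t : ℝ := min (1 / 2) (δ / (4 * ‖a - p‖)) with ht
    have htpos : 0 < t := lt_min (by norm_num) (by positivity)
    have ht1 : t < 1 := lt_of_le_of_lt (min_le_left _ _) (by norm_num)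
    set q : Pl := p + t • (a - p) with hq
    have hqT : q ∈ T := (hF.convex T f).add_smul_sub_mem q1 a1 ⟨htpos.le, ht1.le⟩
    have hqT' : q ∈ T' := (hF.convex T' f').add_smul_sub_mem q2 a2 ⟨htpos.le, ht1.le⟩
    have hqp : q ≠ p := by
      intro h4
      have h6 : p + t • (a - p) = p + 0 := by rw [← hq, h4, add_zero]
      rcases smul_eq_zero.1 (add_left_cancel h6) with h7 | h7
      · exact htpos.ne' h7
      · exact hap (sub_eq_zero.1 h7)
    have hdist : dist q p < δ / 2 := by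
      rw [hq, dist_eq_norm, add_sub_cancel_left, norm_smul, Real.norm_eq_abs, abs_of_pos htpos]
      have h3 : t ≤ δ / (4 * ‖a - p‖) := min_le_right _ _
      calc t * ‖a - p‖ ≤ δ / (4 * ‖a - p‖) * ‖a - p‖ :=
            mul_le_mul_of_nonneg_right h3 hnpos.le
        _ = δ / 4 := by field_simp
        _ < δ / 2 := by linarith
    have h5 := S.pair_meet U hU hPc h0 hF huniv r r' q hqT hqT' (by
      intro X hX hqX
      by_contra hne
      push Not at hne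
      refine hF.no_third f f' hX n1 hne.1.symm hne.2.symm p a q q1 a1 ?_ hqp hqT hqT' hqX
      exact ⟨1 - t, t, by linarith, htpos, by ring, by rw [hq]; module⟩) (δ / 2) (by linarith)
    refine h5.mono fun m hm => hm.mono (inter_subset_inter_left _ ?_)
    apply ball_subset_ball'
    linarith
  filter_upwards [hev, hpair r1 r2 f1 f2 f3 h12 h13 h23 p1 p2 p3,
    hpair r1 r3 f1 f3 f2 h13 h12 h23.symm p1 p3 p2,
    hpair r2 r3 f2 f3 f1 h23 h12.symm h13.symm p2 p3 p1] with m h1 m12 m13 m23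
  have hB := convex_closedBall p δ (E := Pl)
  have hBc := isCompact_closedBall p δ
  have hin : ∀ (j : Fin (S.n m)), IsCompact (S.C m j ∩ closedBall p δ) := fun j =>
    (S.isCompact_C m j).inter_right isClosed_closedBall
  have hcv : ∀ (j : Fin (S.n m)), Convex ℝ (S.C m j ∩ closedBall p δ) := fun j =>
    (S.convex_C m (hKv m) j).inter hB
  have hne : ∀ j j' : Fin (S.n m), (ball p δ ∩ (S.C m j ∩ S.C m j')).Nonempty →
      ((S.C m j ∩ closedBall p δ) ∩ (S.C m j' ∩ closedBall p δ)).Nonempty := by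
    rintro j j' ⟨x, hx, hxj, hxj'⟩
    exact ⟨x, ⟨hxj, ball_subset_closedBall hx⟩, hxj', ball_subset_closedBall hx⟩
  obtain ⟨x, ⟨⟨x1, -⟩, x2, -⟩, x3, -⟩ := berge (closedBall p δ) _ _ _ hB (hin (j1 m)) (hin (j2 m))
    (hin (j3 m)) (hcv (j1 m)) (hcv (j2 m)) (hcv (j3 m)) inter_subset_right inter_subset_right (by
      intro x hx
      obtain ⟨k, hk⟩ := mem_iUnion.1 (h1 hx)
      match k, hk with
      | 0, hk => exact Or.inl (Or.inl ⟨hk, hx⟩)
      | 1, hk => exact Or.inl (Or.inr ⟨hk, hx⟩)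
      | 2, hk => exact Or.inr ⟨hk, hx⟩) (hne _ _ m12) (hne _ _ m13) (hne _ _ m23)
  exact ⟨x, ⟨x1, x2⟩, x3⟩

/-- common points of the three copies converge to the vertex -/
lemma triple_lim (hPc : IsCompact P) (hF : Tame (limFam U S.g P))
    {j1 j2 j3 : ∀ m, Fin (S.n m)} {T1 T2 T3 : Set Pl}
    (r1 : S.Rep U j1 T1) (r2 : S.Rep U j2 T2) (r3 : S.Rep U j3 T3)
    (h12 : T1 ≠ T2) (h13 : T1 ≠ T3) (h23 : T2 ≠ T3)
    (p : Pl) (p1 : p ∈ T1) (p2 : p ∈ T2) (p3 : p ∈ T3) (ξ : ℕ → Pl)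
    (hξ : ∀ᶠ m in (U : Filter ℕ), ξ m ∈ S.C m (j1 m) ∧ ξ m ∈ S.C m (j2 m) ∧ ξ m ∈ S.C m (j3 m)) :
    Tendsto ξ (U : Filter ℕ) (𝓝 p) := by
  have f1 : T1 ∈ limFam U S.g P := ⟨j1, r1⟩
  have f2 : T2 ∈ limFam U S.g P := ⟨j2, r2⟩
  have f3 : T3 ∈ limFam U S.g P := ⟨j3, r3⟩
  -- boundedness
  obtain ⟨C, hC⟩ := near_bd U P hPc.isBounded S.K _ (eta_U U hU) S.near
  have hbd : ∃ R : ℝ, ∀ᶠ m in (U : Filter ℕ), dist (ξ m) 0 ≤ R := by
    obtain ⟨ψ, hψ, -⟩ := r1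
    refine ⟨C + (dist (ψ 0) 0 + 1), ?_⟩
    filter_upwards [hξ, hC, (Metric.tendsto_nhds.1 (hψ 0)) 1 one_pos] with m a1 a2 a3
    obtain ⟨z, hz, hzξ⟩ := a1.1
    have b1 : dist z 0 ≤ C := a2 hz
    have b2 : dist (ξ m) (S.g m (j1 m) 0) = dist z 0 := by rw [← hzξ, (S.g m (j1 m)).dist_eq]
    have b3 := dist_triangle (ξ m) (S.g m (j1 m) 0) 0
    have b4 := dist_triangle (S.g m (j1 m) 0) (ψ 0) 0
    linarith
  obtain ⟨R, hR⟩ := hbd
  obtain ⟨x, hx⟩ := exists_lim U ξ 0 R hR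
  have x1 := S.rep_lim U hU hPc r1 ξ x (hξ.mono fun m hm => hm.1) hx
  have x2 := S.rep_lim U hU hPc r2 ξ x (hξ.mono fun m hm => hm.2.1) hx
  have x3 := S.rep_lim U hU hPc r3 ξ x (hξ.mono fun m hm => hm.2.2) hx
  by_cases hxp : x = p
  · rw [← hxp]; exact hx
  exfalso
  -- the midpoint
  set q : Pl := (1 / 2 : ℝ) • p + (1 / 2 : ℝ) • x with hq
  have hmid : ∀ T ∈ limFam U S.g P, p ∈ T → x ∈ T → q ∈ T := fun T hT hp hx' =>
    hF.convex T hT hp hx' (by norm_num) (by norm_num) (by norm_num)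
  have hqp : q ≠ p := by
    intro h4
    apply hxp
    have h5 : (1 / 2 : ℝ) • x = (1 / 2 : ℝ) • p := by
      have h6 : (1 / 2 : ℝ) • p + (1 / 2 : ℝ) • x = (1 / 2 : ℝ) • p + (1 / 2 : ℝ) • p := by
        rw [← hq, h4]; module
      exact add_left_cancel h6
    exact smul_right_injective Pl (by norm_num : (1 / 2 : ℝ) ≠ 0) h5
  exact hF.no_third f1 f2 f3 h12 h13 h23 p x q p1 x1
    ⟨1 / 2, 1 / 2, by norm_num, by norm_num, by norm_num, rfl⟩ hqp
    (hmid T1 f1 p1 x1) (hmid T2 f2 p2 x2) (hmid T3 f3 p3 x3)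

end Seq

end Pool.Agent.HexNear
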