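import Mathlib

/-! The waste measure of a covering and the summation lemma. -/

open Filter Topology Metric Set MeasureTheory
open scoped ENNReal

namespace Pool.Agent.HexNear

variable {E : Type*} [NormedAddCommGroup E] [MeasurableSpace E]

/-- multiplicity minus indicator of `D`, as a measure -/
noncomputable def waste (μ : Measure E) {n : ℕ} (C : Fin n → Set E) (D : Set E) : Measure E :=
  (∑ j, μ.restrict (C j)) - μ.restrict D

section basic
variable (μ : Measure E) {n : ℕ} (C : Fin n → Set E) (D : Set E)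

lemma restrict_le (hcov : D ⊆ ⋃ j, C j) (hC : ∀ j, MeasurableSet (C j)) :
    μ.restrict D ≤ ∑ j, μ.restrict (C j) := by
  rw [Measure.le_iff]
  intro A hA
  rw [Measure.restrict_apply hA, Measure.finsetSum_apply]
  calc μ (A ∩ D) ≤ μ (⋃ j ∈ (Finset.univ : Finset (Fin n)), (A ∩ C j)) := by
        apply measure_mono
        rintro x ⟨hx, hxD⟩
        obtain ⟨j, hj⟩ := mem_iUnion.1 (hcov hxD)
        simp only [mem_iUnion]
        exact ⟨j, Finset.mem_univ j, hx, hj⟩
    _ ≤ ∑ j, μ (A ∩ C j) := measure_biUnion_finset_le _ _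
    _ = ∑ j, (μ.restrict (C j)) A := by
        refine Finset.sum_congr rfl fun j _ => ?_
        rw [Measure.restrict_apply hA]

lemma waste_apply (hcov : D ⊆ ⋃ j, C j) (hC : ∀ j, MeasurableSet (C j)) (hD : μ D ≠ ∞)
    {A : Set E} (hA : MeasurableSet A) :
    waste μ C D A = (∑ j, μ (A ∩ C j)) - μ (A ∩ D) := by
  have : IsFiniteMeasure (μ.restrict D) := ⟨by
    rw [Measure.restrict_apply_univ]; exact hD.lt_top⟩
  rw [waste, Measure.sub_apply hA (restrict_le μ C D hcov hC), Measure.restrict_apply hA,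
    Measure.finsetSum_apply]
  congr 1
  refine Finset.sum_congr rfl fun j _ => ?_
  rw [Measure.restrict_apply hA]

lemma waste_add (hcov : D ⊆ ⋃ j, C j) (hC : ∀ j, MeasurableSet (C j)) (hD : μ D ≠ ∞)
    {A : Set E} (hA : MeasurableSet A) :
    waste μ C D A + μ (A ∩ D) = ∑ j, μ (A ∩ C j) := by
  rw [waste_apply μ C D hcov hC hD hA]
  apply tsub_add_cancel_of_le
  have h1 := Measure.le_iff.1 (restrict_le μ C D hcov hC) A hA
  rw [Measure.restrict_apply hA, Measure.finsetSum_apply] at h1
  refine h1.trans (le_of_eq ?_)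
  refine Finset.sum_congr rfl fun j _ => ?_
  rw [Measure.restrict_apply hA]

/-- a doubly covered set is wasted -/
lemma le_waste_of_two (hcov : D ⊆ ⋃ j, C j) (hC : ∀ j, MeasurableSet (C j)) (hD : μ D ≠ ∞)
    {A : Set E} (hA : MeasurableSet A) (hAfin : μ A ≠ ∞) (i j : Fin n) (hij : i ≠ j)
    (hi : A ⊆ C i) (hj : A ⊆ C j) : μ A ≤ waste μ C D A := by
  have h1 := waste_add μ C D hcov hC hD hA
  have h2 : μ A + μ A ≤ ∑ k, μ (A ∩ C k) := by
    have h3 : ∑ k ∈ ({i, j} : Finset (Fin n)), μ (A ∩ C k) ≤ ∑ k, μ (A ∩ C k) :=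
      Finset.sum_le_sum_of_subset (Finset.subset_univ _)
    rw [Finset.sum_pair hij, inter_eq_left.2 hi, inter_eq_left.2 hj] at h3
    exact h3
  have h4 : μ (A ∩ D) ≤ μ A := measure_mono inter_subset_left
  rw [← h1] at h2
  have h5 : μ A + μ A ≤ waste μ C D A + μ A := h2.trans (by gcongr)
  exact (ENNReal.add_le_add_iff_right hAfin).1 h5

/-- a covered set outside `D` is wasted -/
lemma le_waste_of_out (hcov : D ⊆ ⋃ j, C j) (hC : ∀ j, MeasurableSet (C j)) (hD : μ D ≠ ∞)
    {A : Set E} (hA : MeasurableSet A) (i : Fin n)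
    (hi : A ⊆ C i) (hj : Disjoint A D) : μ A ≤ waste μ C D A := by
  have h1 := waste_add μ C D hcov hC hD hA
  have h2 : μ A ≤ ∑ k, μ (A ∩ C k) := by
    have h3 : ∑ k ∈ ({i} : Finset (Fin n)), μ (A ∩ C k) ≤ ∑ k, μ (A ∩ C k) :=
      Finset.sum_le_sum_of_subset (Finset.subset_univ _)
    rw [Finset.sum_singleton, inter_eq_left.2 hi] at h3
    exact h3
  rw [← h1, disjoint_iff_inter_eq_empty.1 hj, measure_empty, add_zero] at h2
  exact h2

end basic

/-- **Summation lemma.** -/
theorem sum_up [NormedSpace ℝ E] [FiniteDimensional ℝ E] [BorelSpace E]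
    (μ : Measure E) [μ.IsAddHaarMeasure]
    (R ρ a c₀ : ℝ) (hR : 0 < R) (hρ : 0 < ρ) (ha : 0 < a) (hc : 0 < c₀) :
    ∃ c > 0, ∀ (n : ℕ) (C : Fin n → Set E) (D : Set E) (p : Fin n → E),
      D ⊆ ⋃ j, C j → (∀ j, MeasurableSet (C j)) → (∀ j, μ (C j) ≠ ∞) → μ D ≠ ∞ →
      MeasurableSet D →
      (∀ j, C j ⊆ closedBall (p j) ρ) → (∀ j, ENNReal.ofReal a ≤ μ (C j)) →
      (∀ j, ENNReal.ofReal c₀ ≤ waste μ C D (ball (p j) R)) →
      ENNReal.ofReal (c * n) ≤ waste μ C D univ := by
  classical
  set R2 : ℝ := 2 * R + ρ + 1 with hR2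
  have hR2pos : 0 < R2 := by positivity
  have hV2fin : μ (ball (0 : E) R2) ≠ ∞ := measure_ball_lt_top.ne
  have hV1fin : μ (ball (0 : E) R) ≠ ∞ := measure_ball_lt_top.ne
  set V2 : ℝ := (μ (ball (0 : E) R2)).toReal with hV2
  set V1 : ℝ := (μ (ball (0 : E) R)).toReal with hV1
  have hV2pos : 0 < V2 := ENNReal.toReal_pos (measure_ball_pos μ _ hR2pos).ne' hV2fin
  have hV1pos : 0 < V1 := ENNReal.toReal_pos (measure_ball_pos μ _ hR).ne' hV1fin
  set M : ℝ := 2 * V2 / a with hM
  have hMpos : 0 < M := by positivity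
  set c₂ : ℝ := min (c₀ / M) (a / 2) with hc2
  have hc2pos : 0 < c₂ := lt_min (by positivity) (by positivity)
  refine ⟨c₂ * V1 / V2, by positivity, ?_⟩
  intro n C D p hcov hCm hCfin hDfin hDm hCb haC hloc
  set W := waste μ C D with hW
  have hWfin : W univ ≠ ∞ := by
    rw [hW, waste_apply μ C D hcov hCm hDfin MeasurableSet.univ]
    refine ne_top_of_le_ne_top ?_ tsub_le_self
    simp only [univ_inter]
    exact ENNReal.sum_ne_top.2 fun j _ => hCfin j
  have : IsFiniteMeasure W := ⟨hWfin.lt_top⟩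
  -- the pointwise inequality
  have hpt : ∀ x : E, ENNReal.ofReal c₂ * (∑ i, (ball (p i) R).indicator 1 x) ≤ W (ball x R2) := by
    intro x
    set S : Finset (Fin n) := Finset.univ.filter (fun i => x ∈ ball (p i) R) with hS
    have hsum : (∑ i, (ball (p i) R).indicator (1 : E → ℝ≥0∞) x) = (S.card : ℝ≥0∞) := by
      rw [hS, Finset.card_filter]
      push_cast
      refine Finset.sum_congr rfl fun i _ => ?_
      by_cases h : x ∈ ball (p i) R <;> simp [h]
    rw [hsum]
    rcases Finset.eq_empty_or_nonempty S with h0 | ⟨i0, hi0⟩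
    · rw [h0]; simp
    have hsub : ∀ i ∈ S, C i ⊆ ball x R2 := by
      intro i hi y hy
      have h1 : dist x (p i) < R := (Finset.mem_filter.1 hi).2
      have h2 : dist y (p i) ≤ ρ := hCb i hy
      rw [mem_ball]
      have := dist_triangle y (p i) x
      rw [dist_comm (p i) x] at this
      linarith
    have hbig : (S.card : ℝ≥0∞) * ENNReal.ofReal a ≤ W (ball x R2) + ENNReal.ofReal V2 := by
      have h1 := waste_add μ C D hcov hCm hDfin (A := ball x R2) measurableSet_ball
      have h2 : ∑ i ∈ S, μ (ball x R2 ∩ C i) ≤ ∑ i, μ (ball x R2 ∩ C i) :=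
        Finset.sum_le_sum_of_subset (Finset.subset_univ _)
      have h3 : (S.card : ℝ≥0∞) * ENNReal.ofReal a ≤ ∑ i ∈ S, μ (ball x R2 ∩ C i) := by
        rw [← nsmul_eq_mul]
        apply Finset.card_nsmul_le_sum
        intro i hi
        rw [inter_eq_right.2 (hsub i hi)]
        exact haC i
      have h4 : μ (ball x R2 ∩ D) ≤ ENNReal.ofReal V2 := by
        rw [hV2, ENNReal.ofReal_toReal hV2fin]
        refine (measure_mono inter_subset_left).trans (le_of_eq ?_)
        exact Measure.addHaar_ball_center μ x R2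
      calc (S.card : ℝ≥0∞) * ENNReal.ofReal a ≤ ∑ i, μ (ball x R2 ∩ C i) := h3.trans h2
        _ = W (ball x R2) + μ (ball x R2 ∩ D) := h1.symm
        _ ≤ _ := by gcongr
    have hone : ENNReal.ofReal c₀ ≤ W (ball x R2) := by
      refine (hloc i0).trans (measure_mono ?_)
      intro y hy
      have h1 : dist x (p i0) < R := (Finset.mem_filter.1 hi0).2
      have h2 : dist y (p i0) < R := hy
      rw [mem_ball]
      have := dist_triangle y (p i0) x
      rw [dist_comm (p i0) x] at this
      linarith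
    -- pass to reals
    have hWb : W (ball x R2) ≠ ∞ := measure_ne_top _ _
    set w : ℝ := (W (ball x R2)).toReal with hw
    have hwe : W (ball x R2) = ENNReal.ofReal w := (ENNReal.ofReal_toReal hWb).symm
    have hw0 : 0 ≤ w := ENNReal.toReal_nonneg
    rw [hwe] at hbig hone ⊢
    have hcard : ((S.card : ℕ) : ℝ≥0∞) = ENNReal.ofReal (S.card : ℝ) := by
      rw [ENNReal.ofReal_natCast]
    rw [hcard] at hbig ⊢
    have hcn : (0 : ℝ) ≤ (S.card : ℝ) := Nat.cast_nonneg _
    rw [← ENNReal.ofReal_mul hcn, ← ENNReal.ofReal_add hw0 hV2pos.le,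
      ENNReal.ofReal_le_ofReal_iff (add_nonneg hw0 hV2pos.le)] at hbig
    rw [ENNReal.ofReal_le_ofReal_iff hw0] at hone
    rw [← ENNReal.ofReal_mul hc2pos.le, ENNReal.ofReal_le_ofReal_iff hw0]
    by_cases hcase : (S.card : ℝ) ≤ M
    · calc c₂ * S.card ≤ (c₀ / M) * M := by
            exact mul_le_mul (min_le_left _ _) hcase hcn (by positivity)
        _ = c₀ := by field_simp
        _ ≤ w := hone
    · push Not at hcase
      have h5 : V2 ≤ S.card * a / 2 := by
        rw [hM, div_lt_iff₀ ha] at hcase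
        linarith
      have h6 : c₂ * S.card ≤ (a / 2) * S.card := by
        exact mul_le_mul_of_nonneg_right (min_le_right _ _) hcn
      linarith
  -- integrate
  have hint1 : ∫⁻ x, ENNReal.ofReal c₂ * (∑ i, (ball (p i) R).indicator 1 x) ∂μ
      = ENNReal.ofReal c₂ * (n * ENNReal.ofReal V1) := by
    rw [lintegral_const_mul]
    · congr 1
      rw [lintegral_finsetSum]
      · have : ∀ i : Fin n, ∫⁻ x, (ball (p i) R).indicator (1 : E → ℝ≥0∞) x ∂μ
            = ENNReal.ofReal V1 := by
          intro i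
          rw [lintegral_indicator_one measurableSet_ball, hV1, ENNReal.ofReal_toReal hV1fin]
          exact Measure.addHaar_ball_center μ _ _
        simp [this]
      · intro i _
        exact measurable_one.indicator measurableSet_ball
    · exact Finset.measurable_sum _ fun i _ => measurable_one.indicator measurableSet_ball
  have hint2 : ∫⁻ x, W (ball x R2) ∂μ = W univ * ENNReal.ofReal V2 := by
    have hmeas : MeasurableSet {q : E × E | dist q.2 q.1 < R2} := by
      apply (isOpen_lt (by fun_prop) continuous_const).measurableSet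
    have e1 : ∀ x : E, W (ball x R2)
        = ∫⁻ y, {q : E × E | dist q.2 q.1 < R2}.indicator (1 : E × E → ℝ≥0∞) (x, y) ∂W := by
      intro x
      rw [← lintegral_indicator_one (μ := W) (measurableSet_ball (x := x) (ε := R2))]
      refine lintegral_congr fun y => ?_
      by_cases h : dist y x < R2 <;> simp [h, indicator]
    simp only [e1]
    rw [lintegral_lintegral_swap]
    · have e2 : ∀ y : E, ∫⁻ x, {q : E × E | dist q.2 q.1 < R2}.indicator
          (1 : E × E → ℝ≥0∞) (x, y) ∂μ = ENNReal.ofReal V2 := by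
        intro y
        have : ∀ x, {q : E × E | dist q.2 q.1 < R2}.indicator (1 : E × E → ℝ≥0∞) (x, y)
            = (ball y R2).indicator (1 : E → ℝ≥0∞) x := by
          intro x
          by_cases h : dist y x < R2
          · have h' : dist x y < R2 := by rwa [dist_comm]
            simp [h, h', indicator]
          · have h' : ¬ dist x y < R2 := by rwa [dist_comm]
            simp [h, h', indicator]
        simp only [this]
        rw [lintegral_indicator_one measurableSet_ball, hV2, ENNReal.ofReal_toReal hV2fin]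
        exact Measure.addHaar_ball_center μ _ _
      simp only [e2]
      rw [lintegral_const, mul_comm]
    · exact (measurable_one.indicator hmeas).aemeasurable
  have hfin := lintegral_mono (μ := μ) hpt
  rw [hint1, hint2] at hfin
  set w : ℝ := (W univ).toReal with hw
  have hwe : W univ = ENNReal.ofReal w := (ENNReal.ofReal_toReal hWfin).symm
  have hw0 : 0 ≤ w := ENNReal.toReal_nonneg
  rw [hwe] at hfin ⊢
  rw [← ENNReal.ofReal_natCast, ← ENNReal.ofReal_mul (by positivity),
    ← ENNReal.ofReal_mul (by positivity), ← ENNReal.ofReal_mul hw0,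
    ENNReal.ofReal_le_ofReal_iff (by positivity)] at hfin
  rw [ENNReal.ofReal_le_ofReal_iff hw0]
  have : c₂ * V1 / V2 * n = (c₂ * (n * V1)) / V2 := by ring
  rw [this, div_le_iff₀ hV2pos]
  exact hfin

end Pool.Agent.HexNear
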