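import Pool.Agent.Lib.MP_20f220_co.Ultra
import Pool.Agent.Lib.MP_20f220_co.Waste

/-! Little waste near one copy forces a tiling of an unbounded convex set. -/

open Filter Topology Metric Set MeasureTheory
open scoped ENNReal Pointwise

namespace Pool.Agent.HexNear

lemma mp_iso (φ : Pl ≃ᵢ Pl) : MeasurePreserving φ volume volume := by
  set a := φ.toRealAffineIsometryEquiv with ha
  have h : (φ : Pl → Pl) = (fun x => x + a 0) ∘ a.linearIsometryEquiv := by
    funext x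
    have h1 := a.map_vadd 0 x
    have h2 : a (x +ᵥ (0 : Pl)) = φ x := by
      have h3 : x +ᵥ (0 : Pl) = x := by simp
      rw [h3]
      rfl
    rw [← h2, h1]
    rfl
  rw [h]
  exact (measurePreserving_add_right volume (a 0)).comp a.linearIsometryEquiv.measurePreserving

lemma vol_image (φ : Pl ≃ᵢ Pl) (A : Set Pl) : volume (φ '' A) = volume A := by
  have h1 : φ '' A = φ.symm ⁻¹' A := by
    ext x
    constructor
    · rintro ⟨y, hy, rfl⟩; simpa using hy
    · intro hx; exact ⟨φ.symm x, hx, by simp⟩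
  rw [h1]
  exact (mp_iso φ.symm).measure_preimage_emb φ.symm.toHomeomorph.measurableEmbedding A

/-- `K` lies between two homothets of `P`. -/
def Near (P : Set Pl) (η : ℝ) (K : Set Pl) : Prop :=
  (1 - η) • P ⊆ K ∧ K ⊆ (1 + η) • P

lemma near_in (U : Ultrafilter ℕ) (P : Set Pl) (K : ℕ → Set Pl) (η : ℕ → ℝ)
    (hη : Tendsto η (U : Filter ℕ) (𝓝 0)) (hK : ∀ m, Near P (η m) (K m))
    (y : Pl) (hy : y ∈ interior P) : ∃ h > 0, ∀ᶠ m in (U : Filter ℕ), ball y h ⊆ K m := by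
  have h1 : ContinuousAt (fun q : ℝ × Pl => q.1⁻¹ • q.2) ((1 : ℝ), y) :=
    (ContinuousAt.inv₀ continuousAt_fst (by norm_num)).smul continuousAt_snd
  have h2 : ∀ᶠ q : ℝ × Pl in 𝓝 ((1 : ℝ), y), q.1⁻¹ • q.2 ∈ P := by
    apply h1.eventually_mem
    simp only [inv_one, one_smul]
    exact mem_interior_iff_mem_nhds.1 hy
  rw [nhds_prod_eq, eventually_prod_iff] at h2
  obtain ⟨pa, hpa, pb, hpb, hab⟩ := h2
  obtain ⟨h, hh, hball⟩ := Metric.eventually_nhds_iff_ball.1 hpb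
  have h3 : Tendsto (fun m => 1 - η m) (U : Filter ℕ) (𝓝 1) := by
    simpa using tendsto_const_nhds.sub hη
  have h4 : ∀ᶠ m in (U : Filter ℕ), (0 : ℝ) < 1 - η m := (tendsto_order.1 h3).1 0 one_pos
  refine ⟨h, hh, ?_⟩
  filter_upwards [h3.eventually hpa, h4] with m a1 a2
  intro z hz
  apply (hK m).1
  have := hab a1 (hball z hz)
  refine ⟨(1 - η m)⁻¹ • z, this, ?_⟩
  simp only
  rw [smul_smul, mul_inv_cancel₀ a2.ne', one_smul]

lemma near_out (U : Ultrafilter ℕ) (P : Set Pl) (hP : IsClosed P) (K : ℕ → Set Pl) (η : ℕ → ℝ)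
    (hη : Tendsto η (U : Filter ℕ) (𝓝 0)) (hK : ∀ m, Near P (η m) (K m))
    (y : Pl) (hy : y ∉ P) : ∃ h > 0, ∀ᶠ m in (U : Filter ℕ), Disjoint (ball y h) (K m) := by
  have h1 : ContinuousAt (fun q : ℝ × Pl => q.1⁻¹ • q.2) ((1 : ℝ), y) :=
    (ContinuousAt.inv₀ continuousAt_fst (by norm_num)).smul continuousAt_snd
  have h2 : ∀ᶠ q : ℝ × Pl in 𝓝 ((1 : ℝ), y), q.1⁻¹ • q.2 ∈ Pᶜ := by
    apply h1.eventually_mem
    simp only [inv_one, one_smul]
    exact hP.isOpen_compl.mem_nhds hy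
  rw [nhds_prod_eq, eventually_prod_iff] at h2
  obtain ⟨pa, hpa, pb, hpb, hab⟩ := h2
  obtain ⟨h, hh, hball⟩ := Metric.eventually_nhds_iff_ball.1 hpb
  have h3 : Tendsto (fun m => 1 + η m) (U : Filter ℕ) (𝓝 1) := by
    simpa using tendsto_const_nhds.add hη
  have h4 : ∀ᶠ m in (U : Filter ℕ), (0 : ℝ) < 1 + η m := (tendsto_order.1 h3).1 0 one_pos
  refine ⟨h, hh, ?_⟩
  filter_upwards [h3.eventually hpa, h4] with m a1 a2
  rw [Set.disjoint_left]
  intro z hz hzK
  obtain ⟨w, hw, hwz⟩ := (hK m).2 hzK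
  have h5 := hab a1 (hball z hz)
  simp only at hwz
  have h6 : (1 + η m)⁻¹ • z = w := by
    rw [← hwz, smul_smul, inv_mul_cancel₀ a2.ne', one_smul]
  simp only [h6] at h5
  exact h5 hw

lemma near_bd (U : Ultrafilter ℕ) (P : Set Pl) (hP : Bornology.IsBounded P)
    (K : ℕ → Set Pl) (η : ℕ → ℝ)
    (hη : Tendsto η (U : Filter ℕ) (𝓝 0)) (hK : ∀ m, Near P (η m) (K m)) :
    ∃ C : ℝ, ∀ᶠ m in (U : Filter ℕ), K m ⊆ closedBall 0 C := by
  obtain ⟨C, hC⟩ := hP.subset_closedBall (0 : Pl)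
  refine ⟨2 * |C|, ?_⟩
  have h3 : Tendsto (fun m => |1 + η m|) (U : Filter ℕ) (𝓝 1) := by
    have h4 := ((tendsto_const_nhds (x := (1 : ℝ))).add hη).abs
    simpa using h4
  filter_upwards [(tendsto_order.1 h3).2 2 (by norm_num)] with m hm
  intro z hz
  obtain ⟨w, hw, hwz⟩ := (hK m).2 hz
  simp only at hwz
  have h1 := hC hw
  rw [mem_closedBall, dist_zero_right] at h1 ⊢
  rw [← hwz, norm_smul, Real.norm_eq_abs]
  have h2 : ‖w‖ ≤ |C| := h1.trans (le_abs_self C)
  exact mul_le_mul hm.le h2 (norm_nonneg _) (by norm_num)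

/-- no unbounded closed convex set is tiled by `P` -/
def NoUnbounded (P : Set Pl) : Prop :=
  ∀ D : Set Pl, IsClosed D → Convex ℝ D → ¬ Bornology.IsBounded D → ¬ ∃ F, IsTiling P F D

/-- the family of copies of `K` used in the covering -/
abbrev copies {n : ℕ} (φ : Fin n → (Pl ≃ᵢ Pl)) (K : Set Pl) : Fin n → Set Pl := fun j => φ j '' K

/-- a sequence of coverings with vanishing waste around chosen copies -/
structure Seq (P : Set Pl) where
  K : ℕ → Set Pl
  D : ℕ → Set Pl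
  n : ℕ → ℕ
  φ : ∀ m, Fin (n m) → (Pl ≃ᵢ Pl)
  i : ∀ m, Fin (n m)
  hKc : ∀ m, IsCompact (K m)
  hDc : ∀ m, IsCompact (D m)
  hDv : ∀ m, Convex ℝ (D m)
  near : ∀ m : ℕ, Near P (1 / ((m : ℝ) + 1 + 1)) (K m)
  cov : ∀ m, D m ⊆ ⋃ j, φ m j '' K m
  small : ∀ m : ℕ, waste volume (copies (φ m) (K m)) (D m) (ball (φ m (i m) 0) ((m : ℝ) + 1))
    < ENNReal.ofReal (1 / ((m : ℝ) + 1))

namespace Seq
variable {P : Set Pl} (S : Seq P)

/-- normalised isometries -/
noncomputable def g (m : ℕ) (j : Fin (S.n m)) : Pl ≃ᵢ Pl := (S.φ m j).trans (S.φ m (S.i m)).symm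

lemma g_apply (m : ℕ) (j : Fin (S.n m)) (x : Pl) :
    S.g m j x = (S.φ m (S.i m)).symm (S.φ m j x) := rfl

lemma g_self (m : ℕ) (x : Pl) : S.g m (S.i m) x = x := by
  rw [g_apply]; simp

/-- normalised domains -/
noncomputable def D' (m : ℕ) : Set Pl := (S.φ m (S.i m)).symm '' S.D m

lemma image_g (m : ℕ) (j : Fin (S.n m)) :
    S.φ m (S.i m) '' (S.g m j '' S.K m) = S.φ m j '' S.K m := by
  rw [← image_comp]
  congr 1
  funext x
  simp [g_apply]

lemma image_D' (m : ℕ) : S.φ m (S.i m) '' S.D' m = S.D m := by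
  rw [D', ← image_comp]
  convert image_id _
  funext x
  simp

lemma convex_D' (m : ℕ) : Convex ℝ (S.D' m) := by
  have h1 : S.D' m = ((S.φ m (S.i m)).symm.toRealAffineIsometryEquiv.toAffineEquiv.toAffineMap) ''
      S.D m := by
    rw [D']
    rfl
  rw [h1]
  exact (S.hDv m).affine_image _

lemma eta_tendsto : Tendsto (fun m : ℕ => 1 / ((m : ℝ) + 1 + 1)) atTop (𝓝 0) := by
  have h := (tendsto_one_div_add_atTop_nhds_zero_nat (𝕜 := ℝ)).comp (tendsto_add_atTop_nat 1)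
  refine h.congr fun m => ?_
  simp

lemma ball_sub (x : Pl) (h : ℝ) : ∀ᶠ m : ℕ in atTop,
    ball (S.φ m (S.i m) x) h ⊆ ball (S.φ m (S.i m) 0) ((m : ℝ) + 1) := by
  filter_upwards [eventually_ge_atTop (⌈dist x 0 + h⌉₊)] with m hm
  apply ball_subset_ball'
  rw [(S.φ m (S.i m)).dist_eq]
  have h1 : dist x 0 + h ≤ (m : ℝ) := (Nat.le_ceil _).trans (by exact_mod_cast hm)
  linarith

lemma small' (x : Pl) (h : ℝ) (hh : 0 < h) : ∀ᶠ m : ℕ in atTop,
    waste volume (copies (S.φ m) (S.K m)) (S.D m) (ball (S.φ m (S.i m) x) h)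
      < volume (ball (S.φ m (S.i m) x) h) := by
  have hpos : 0 < volume (ball (0 : Pl) h) := measure_ball_pos volume _ hh
  have hlim : Tendsto (fun m : ℕ => ENNReal.ofReal (1 / ((m : ℝ) + 1))) atTop (𝓝 0) := by
    have := ENNReal.tendsto_ofReal (tendsto_one_div_add_atTop_nhds_zero_nat (𝕜 := ℝ))
    simpa using this
  filter_upwards [S.ball_sub x h, (tendsto_order.1 hlim).2 _ hpos] with m a1 a2
  have a3 : volume (ball (S.φ m (S.i m) x) h) = volume (ball (0 : Pl) h) :=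
    Measure.addHaar_ball_center volume _ _
  rw [a3]
  exact (measure_mono a1).trans_lt ((S.small m).trans a2)

lemma cov' (m : ℕ) : S.D m ⊆ ⋃ j, copies (S.φ m) (S.K m) j := S.cov m

lemma meas' (m : ℕ) (j : Fin (S.n m)) : MeasurableSet (copies (S.φ m) (S.K m) j) :=
  ((S.hKc m).image (S.φ m j).continuous).isClosed.measurableSet

/-- the limit tiling -/
theorem tiling (hPc : IsCompact P) (hPv : Convex ℝ P) (h0 : (interior P).Nonempty)
    (U : Ultrafilter ℕ) (hU : (U : Filter ℕ) ≤ atTop) :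
    IsTiling P (limFam U S.g P) (limSet U S.D') := by
  have : ∀ m, Nonempty (Fin (S.n m)) := fun m => ⟨S.i m⟩
  have hη : Tendsto (fun m : ℕ => 1 / ((m : ℝ) + 1 + 1)) (U : Filter ℕ) (𝓝 0) :=
    eta_tendsto.mono_left hU
  refine lim_tiling U hU S.g S.K S.D' P ?_ ?_ ?_ ?_ ?_ ?_ ?_
  · rw [hPv.closure_interior_eq_closure_of_nonempty_interior h0]
    exact subset_closure
  · intro y hy
    exact near_in U P S.K _ hη S.near y hy
  · intro y hy
    exact near_out U P hPc.isClosed S.K _ hη S.near y hy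
  · exact near_bd U P hPc.isBounded S.K _ hη S.near
  · intro x h hh
    filter_upwards [hU (S.small' x h hh)] with m hm
    rintro j k hjk ⟨h1, h2⟩
    refine absurd hm (not_lt.2 ?_)
    apply le_waste_of_two volume _ _ (S.cov' m) (S.meas' m) (S.hDc m).measure_lt_top.ne
      measurableSet_ball measure_ball_lt_top.ne j k hjk
    · rw [← IsometryEquiv.image_ball, copies, ← S.image_g m j]
      exact image_mono h1
    · rw [← IsometryEquiv.image_ball, copies, ← S.image_g m k]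
      exact image_mono h2
  · intro x h hh
    filter_upwards [hU (S.small' x h hh)] with m hm
    rintro j ⟨h1, h2⟩
    refine absurd hm (not_lt.2 ?_)
    apply le_waste_of_out volume _ _ (S.cov' m) (S.meas' m) (S.hDc m).measure_lt_top.ne
      measurableSet_ball j
    · rw [← IsometryEquiv.image_ball, copies, ← S.image_g m j]
      exact image_mono h1
    · rw [← IsometryEquiv.image_ball, ← S.image_D' m]
      exact (disjoint_image_iff (S.φ m (S.i m)).injective).2 h2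
  · intro R
    refine Eventually.of_forall fun m => ?_
    rintro x ⟨⟨y, hy, rfl⟩, -⟩
    obtain ⟨j, z, hz, hzy⟩ := mem_iUnion.1 (S.cov m hy)
    refine mem_iUnion.2 ⟨j, z, hz, ?_⟩
    rw [g_apply, hzy]

lemma self_mem (U : Ultrafilter ℕ) : P ∈ limFam U S.g P := by
  refine ⟨S.i, IsometryEquiv.refl _, fun x => ?_, ?_⟩
  · simp only [g_self]
    exact tendsto_const_nhds
  · have h : ((IsometryEquiv.refl Pl : Pl ≃ᵢ Pl) : Pl → Pl) = id := rfl
    rw [h, image_id]

end Seq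

end Pool.Agent.HexNear
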