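import Pool.Agent.Lib.MP_20f220_co.Plane

/-! Few copies and a domain with at most eight vertices. -/

open Filter Topology Metric Set MeasureTheory
open scoped ENNReal Pointwise

namespace Pool.Agent.HexNear

lemma mem_hull_range {k : ℕ} (v : Fin k → Pl) (x : Pl) :
    x ∈ convexHull ℝ (range v) ↔ ∃ w ∈ stdSimplex ℝ (Fin k), ∑ i, w i • v i = x := by
  let L : (Fin k → ℝ) →ₗ[ℝ] Pl := ∑ i, (LinearMap.proj i).smulRight (v i)
  have hL : ∀ w, L w = ∑ i, w i • v i := by
    intro w
    simp [L]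
  constructor
  · intro hx
    have h1 : convexHull ℝ (range v) ⊆ L '' stdSimplex ℝ (Fin k) := by
      apply convexHull_min
      · rintro _ ⟨i, rfl⟩
        refine ⟨Pi.single i 1, single_mem_stdSimplex ℝ i, ?_⟩
        rw [hL]
        simp [Pi.single_apply]
      · exact (convex_stdSimplex ℝ (Fin k)).linear_image L
    obtain ⟨w, hw, hwx⟩ := h1 hx
    exact ⟨w, hw, by rw [← hL, hwx]⟩
  · rintro ⟨w, hw, rfl⟩
    apply (convex_convexHull ℝ (range v)).sum_mem (fun i _ => hw.1 i) hw.2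
    intro i _
    exact subset_convexHull ℝ _ ⟨i, rfl⟩

lemma exists_tendsto_of_mem_limSet (U : Ultrafilter ℕ) (hU : (U : Filter ℕ) ≤ atTop)
    (D : ℕ → Set Pl) (x : Pl) (hx : x ∈ limSet U D) :
    ∃ y : ℕ → Pl, (∀ᶠ m in (U : Filter ℕ), y m ∈ D m) ∧ Tendsto y (U : Filter ℕ) (𝓝 x) := by
  have hy : ∀ m : ℕ, ∃ y : Pl, (D m).Nonempty →
      (y ∈ D m ∧ dist y x < infDist x (D m) + 1 / ((m : ℝ) + 1)) := by
    intro m
    by_cases hne : (D m).Nonempty
    · have hpos : (0 : ℝ) < 1 / ((m : ℝ) + 1) := by positivity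
      obtain ⟨y, hyD, hy⟩ := (Metric.infDist_lt_iff hne).1
        (lt_add_of_pos_right (infDist x (D m)) hpos)
      exact ⟨y, fun _ => ⟨hyD, by rw [dist_comm]; exact hy⟩⟩
    · exact ⟨x, fun h => absurd h hne⟩
  choose y hy using hy
  refine ⟨y, ?_, ?_⟩
  · filter_upwards [hx 1 one_pos] with m hm
    obtain ⟨z, hz, -⟩ := hm
    exact (hy m ⟨z, hz⟩).1
  · have hlim0 : Tendsto (fun m : ℕ => 1 / ((m : ℝ) + 1)) (U : Filter ℕ) (𝓝 0) :=
      tendsto_one_div_add_atTop_nhds_zero_nat.mono_left hU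
    rw [Metric.tendsto_nhds]
    intro δ hδ
    have hs := (tendsto_order.1 hlim0).2 (δ / 2) (by linarith)
    filter_upwards [hx (δ / 2) (by linarith), hs] with m hm hm2
    obtain ⟨z, hz, hzx⟩ := hm
    have a1 := (hy m ⟨z, hz⟩).2
    have a2 : infDist x (D m) ≤ dist x z := infDist_le_dist_of_mem hz
    rw [dist_comm x z] at a2
    linarith

/-- limits of hulls of at most `k` points in a fixed ball -/
lemma limSet_hull (U : Ultrafilter ℕ) (hU : (U : Filter ℕ) ≤ atTop) {k : ℕ}
    (D : ℕ → Set Pl) (v : ℕ → Fin k → Pl) (R : ℝ)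
    (hD : ∀ᶠ m in (U : Filter ℕ), D m = convexHull ℝ (range (v m)))
    (hv : ∀ᶠ m in (U : Filter ℕ), ∀ i, dist (v m i) 0 ≤ R)
    (hcv : Convex ℝ (limSet U D)) :
    ∃ v' : Fin k → Pl, limSet U D = convexHull ℝ (range v') := by
  have h1 : ∀ i, ∃ x, Tendsto (fun m => v m i) (U : Filter ℕ) (𝓝 x) := fun i =>
    exists_lim U _ 0 R (hv.mono fun m hm => hm i)
  choose v' hv' using h1
  refine ⟨v', Subset.antisymm ?_ ?_⟩
  · intro x hx
    obtain ⟨y, hyD, hy⟩ := exists_tendsto_of_mem_limSet U hU D x hx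
    have hw : ∀ m, ∃ w : Fin k → ℝ, y m ∈ convexHull ℝ (range (v m)) →
        (w ∈ stdSimplex ℝ (Fin k) ∧ ∑ i, w i • v m i = y m) := by
      intro m
      by_cases h : y m ∈ convexHull ℝ (range (v m))
      · obtain ⟨w, h2, h3⟩ := (mem_hull_range _ _).1 h
        exact ⟨w, fun _ => ⟨h2, h3⟩⟩
      · exact ⟨0, fun h' => absurd h' h⟩
    choose w hw using hw
    have hev : ∀ᶠ m in (U : Filter ℕ), w m ∈ stdSimplex ℝ (Fin k) ∧
        ∑ i, w m i • v m i = y m := by
      filter_upwards [hyD, hD] with m a1 a2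
      rw [a2] at a1
      exact hw m a1
    have hcomp : (U.map w : Filter (Fin k → ℝ)) ≤ 𝓟 (stdSimplex ℝ (Fin k)) := by
      rw [le_principal_iff]
      exact hev.mono fun m hm => hm.1
    obtain ⟨w', hw'1, hw'2⟩ := (isCompact_stdSimplex ℝ (Fin k)).ultrafilter_le_nhds (U.map w) hcomp
    have hwlim : Tendsto w (U : Filter ℕ) (𝓝 w') := hw'2
    have hlim : Tendsto (fun m => ∑ i, w m i • v m i) (U : Filter ℕ) (𝓝 (∑ i, w' i • v' i)) :=
      tendsto_finsetSum _ fun i _ => ((tendsto_pi_nhds.1 hwlim) i).smul (hv' i)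
    have hlim2 : Tendsto (fun m => ∑ i, w m i • v m i) (U : Filter ℕ) (𝓝 x) :=
      hy.congr' (hev.mono fun m hm => hm.2.symm)
    rw [mem_hull_range]
    exact ⟨w', hw'1, tendsto_nhds_unique hlim hlim2⟩
  · apply convexHull_min _ hcv
    rintro _ ⟨i, rfl⟩
    refine mem_limSet_of_tendsto U D (fun m => v m i) _ ?_ (hv' i)
    filter_upwards [hD] with m hm
    rw [hm]
    exact subset_convexHull ℝ _ ⟨i, rfl⟩

/-- `P` tiles no convex polygon with at most eight vertices, except by one tile. -/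
def NoOctagon (P : Set Pl) : Prop :=
  ∀ t : Finset Pl, t.card ≤ 8 → ∀ F, IsTiling P F (convexHull ℝ (t : Set Pl)) → F.Subsingleton

/-- **Few copies.** -/
theorem few (P : Set Pl) (hPc : IsCompact P) (hPv : Convex ℝ P)
    (h0 : (0 : Pl) ∈ interior P) (hP8 : NoOctagon P) (R : ℝ) :
    ∃ η₁ > 0, η₁ ≤ 1 / 2 ∧ ∃ c₁ > 0, ∀ K : Set Pl, IsCompact K → ∀ η, 0 ≤ η → η ≤ η₁ →
      Near P η K → ∀ t : Finset Pl, t.card ≤ 8 → ∀ (n : ℕ), 2 ≤ n → ∀ (φ : Fin n → (Pl ≃ᵢ Pl)),
      convexHull ℝ (t : Set Pl) ⊆ ⋃ j, φ j '' K → ∀ i : Fin n,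
      convexHull ℝ (t : Set Pl) ⊆ ball (φ i 0) R →
      ENNReal.ofReal c₁ ≤ waste volume (copies φ K) (convexHull ℝ (t : Set Pl)) univ := by
  classical
  by_contra hcon
  push Not at hcon
  have hmono : ∀ (a b : ℝ), 0 ≤ a → a ≤ b → b < 1 → ∀ K, Near P a K → Near P b K := by
    intro a b ha hab hb K hK
    have hstar : ∀ s t : ℝ, 0 ≤ s → s ≤ t → 0 < t → s • P ⊆ t • P := by
      intro s t hs hst ht
      rintro x ⟨y, hy, rfl⟩
      refine ⟨(s / t) • y, ?_, ?_⟩
      · exact hPv.smul_mem_of_zero_mem (interior_subset h0) hy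
          ⟨by positivity, (div_le_one ht).2 hst⟩
      · simp only
        rw [smul_smul, mul_div_cancel₀ _ ht.ne']
    exact ⟨(hstar _ _ (by linarith) (by linarith) (by linarith)).trans hK.1,
      hK.2.trans (hstar _ _ (by linarith) (by linarith) (by linarith))⟩
  have hseq : ∀ m : ℕ, ∃ (K : Set Pl) (t : Finset Pl) (n : ℕ) (φ : Fin n → (Pl ≃ᵢ Pl)) (i : Fin n),
      IsCompact K ∧ t.card ≤ 8 ∧ 2 ≤ n ∧ Near P (1 / ((m : ℝ) + 1 + 1)) K ∧
      convexHull ℝ (t : Set Pl) ⊆ ⋃ j, φ j '' K ∧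
      convexHull ℝ (t : Set Pl) ⊆ ball (φ i 0) R ∧
      waste volume (copies φ K) (convexHull ℝ (t : Set Pl)) univ
        < ENNReal.ofReal (1 / ((m : ℝ) + 1)) := by
    intro m
    have hle : 1 / ((m : ℝ) + 1 + 1) ≤ 1 / 2 := by
      apply one_div_le_one_div_of_le (by norm_num)
      have : (0 : ℝ) ≤ m := Nat.cast_nonneg m
      linarith
    obtain ⟨K, hK, η, hη0, hη, hN, t, ht, n, hn, φ, hcov, i, h1, h2⟩ :=
      hcon (1 / ((m : ℝ) + 1 + 1)) (by positivity) hle (1 / ((m : ℝ) + 1))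
        (by positivity)
    exact ⟨K, t, n, φ, i, hK, ht, hn, hmono η _ hη0 hη (by linarith) K hN, hcov, h1, h2⟩
  choose K t n φ i hK ht hn hN hcov hball hw using hseq
  let S : Seq P := ⟨K, fun m => convexHull ℝ (t m : Set Pl), n, φ, i, hK,
    fun m => (t m).finite_toSet.isCompact_convexHull ℝ, fun m => convex_convexHull ℝ _, hN, hcov,
    fun m => (measure_mono (subset_univ _)).trans_lt (hw m)⟩
  set U : Ultrafilter ℕ := hyperfilter ℕ with hUdef
  have hU : (U : Filter ℕ) ≤ atTop := Nat.hyperfilter_le_atTop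
  have hT := S.tiling hPc hPv ⟨0, h0⟩ U hU
  have hcv := convex_limSet U S.D' S.convex_D'
  have h0D : (0 : Pl) ∈ limSet U S.D' := by
    rw [← hT.2.2]
    exact ⟨P, S.self_mem U, interior_subset h0⟩
  -- the domains as hulls of eight points
  have hrep : ∀ m, ∃ v : Fin 8 → Pl, (S.D' m).Nonempty →
      (S.D' m = convexHull ℝ (range v) ∧ ∀ k, dist (v k) 0 ≤ R) := by
    intro m
    by_cases hne : (S.D' m).Nonempty
    · have himg : S.D' m = convexHull ℝ (((t m).image (φ m (i m)).symm : Finset Pl) : Set Pl) := by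
        have e1 : S.D' m = ((φ m (i m)).symm.toRealAffineIsometryEquiv.toAffineEquiv.toAffineMap) ''
          (convexHull ℝ (t m : Set Pl)) := rfl
        rw [e1, AffineMap.image_convexHull, Finset.coe_image]
        rfl
      have htne : ((t m).image (φ m (i m)).symm).Nonempty := by
        rw [himg] at hne
        rw [← Finset.coe_nonempty]
        exact convexHull_nonempty_iff.1 hne
      obtain ⟨p0, hp0⟩ := htne
      have hcard : ((t m).image (φ m (i m)).symm).card ≤ 8 := Finset.card_image_le.trans (ht m)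
      let e := ((t m).image (φ m (i m)).symm).equivFin
      let v : Fin 8 → Pl := fun k => if h : (k : ℕ) < ((t m).image (φ m (i m)).symm).card
        then (e.symm ⟨k, h⟩ : Pl) else p0
      have hrange : range v = (((t m).image (φ m (i m)).symm : Finset Pl) : Set Pl) := by
        apply Subset.antisymm
        · rintro _ ⟨k, rfl⟩
          by_cases h : (k : ℕ) < ((t m).image (φ m (i m)).symm).card
          · simp only [v, dif_pos h]
            exact (e.symm ⟨k, h⟩).2
          · simp only [v, dif_neg h]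
            exact hp0
        · intro p hp
          refine ⟨⟨(e ⟨p, hp⟩ : ℕ), lt_of_lt_of_le (e ⟨p, hp⟩).2 hcard⟩, ?_⟩
          simp only [v]
          rw [dif_pos (e ⟨p, hp⟩).2]
          simp
      refine ⟨v, fun _ => ⟨by rw [hrange]; exact himg, ?_⟩⟩
      intro k
      have hk : v k ∈ S.D' m := by
        rw [himg, ← hrange]
        exact subset_convexHull ℝ _ ⟨k, rfl⟩
      obtain ⟨y, hy, hyk⟩ := hk
      have h1 := hball m hy
      rw [mem_ball] at h1
      rw [← hyk]
      change dist ((φ m (i m)).symm y) 0 ≤ R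
      rw [← (φ m (i m)).dist_eq, IsometryEquiv.apply_symm_apply]
      exact h1.le
    · exact ⟨0, fun h => absurd h hne⟩
  choose v hv using hrep
  have hne : ∀ᶠ m in (U : Filter ℕ), (S.D' m).Nonempty := by
    filter_upwards [h0D 1 one_pos] with m hm
    obtain ⟨y, hy, -⟩ := hm
    exact ⟨y, hy⟩
  obtain ⟨v', hv'⟩ := limSet_hull U hU S.D' v R (hne.mono fun m hm => (hv m hm).1)
    (hne.mono fun m hm => (hv m hm).2) hcv
  have hsub : (limFam U S.g P).Subsingleton := by
    apply hP8 (Finset.univ.image v') (Finset.card_image_le.trans (by simp))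
    rw [Finset.coe_image, Finset.coe_univ, image_univ, ← hv']
    exact hT
  -- a second copy
  have hj : ∀ m, ∃ j : Fin (n m), j ≠ i m := by
    intro m
    have : Nontrivial (Fin (n m)) := Fin.nontrivial_iff_two_le.2 (hn m)
    exact exists_ne (i m)
  choose j hj using hj
  obtain ⟨h, hh, hin⟩ := near_in U P K _ (Seq.eta_tendsto.mono_left hU) hN 0 h0
  have hpos : 0 < volume (ball (0 : Pl) h) := measure_ball_pos volume _ hh
  have hlim : Tendsto (fun m : ℕ => ENNReal.ofReal (1 / ((m : ℝ) + 1))) (U : Filter ℕ) (𝓝 0) := by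
    have := ENNReal.tendsto_ofReal (tendsto_one_div_add_atTop_nhds_zero_nat (𝕜 := ℝ))
    simpa using this.mono_left hU
  have hsmall := (tendsto_order.1 hlim).2 _ hpos
  have hbound : ∀ᶠ m in (U : Filter ℕ), dist (S.g m (j m) 0) 0 ≤ h + R := by
    filter_upwards [hin, hsmall] with m a1 a2
    have hmeet : ¬ Disjoint (ball (φ m (j m) 0) h) (convexHull ℝ (t m : Set Pl)) := by
      intro hd
      have h1 : volume (ball (φ m (j m) 0) h) ≤ waste volume (copies (φ m) (K m))
          (convexHull ℝ (t m : Set Pl)) (ball (φ m (j m) 0) h) := by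
        apply le_waste_of_out volume _ _ (S.cov' m) (S.meas' m) (S.hDc m).measure_lt_top.ne
          measurableSet_ball (j m) _ hd
        rw [← IsometryEquiv.image_ball]
        exact image_mono a1
      have h2 : volume (ball (φ m (j m) 0) h) = volume (ball (0 : Pl) h) :=
        Measure.addHaar_ball_center volume _ _
      rw [h2] at h1
      have h3 := (h1.trans (measure_mono (subset_univ _))).trans_lt (hw m)
      exact absurd (h3.trans a2) (lt_irrefl _)
    obtain ⟨y, hy1, hy2⟩ := Set.not_disjoint_iff.1 hmeet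
    have h4 := hball m hy2
    rw [mem_ball] at hy1 h4
    have e : dist (S.g m (j m) 0) 0 = dist (φ m (j m) 0) (φ m (i m) 0) := by
      rw [Seq.g_apply, ← (φ m (i m)).dist_eq]
      change dist ((φ m (i m)) ((φ m (i m)).symm (φ m (j m) 0))) _ = _
      rw [IsometryEquiv.apply_symm_apply]
    rw [e]
    have := dist_triangle (φ m (j m) 0) y (φ m (i m) 0)
    rw [dist_comm _ y] at this
    linarith
  obtain ⟨ψ, hψ⟩ := exists_iso_lim U (fun m => S.g m (j m)) _ hbound
  have hTmem : ψ '' P ∈ limFam U S.g P := ⟨j, ψ, hψ, rfl⟩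
  have heq : ψ '' P = P := hsub hTmem (S.self_mem U)
  have h0' : (0 : Pl) ∈ interior (ψ '' P) := by rw [heq]; exact h0
  obtain ⟨h', hh', hev'⟩ := inner_ball U (fun m => S.g m (j m)) ψ hψ K P
    (fun y hy => near_in U P K _ (Seq.eta_tendsto.mono_left hU) hN y hy) 0 h0'
  have hmin : 0 < min h h' := lt_min hh hh'
  obtain ⟨m, a1, a2, a3⟩ := (hin.and (hev'.and (hU (S.small' 0 (min h h') hmin)))).exists
  refine absurd a3 (not_lt.2 ?_)
  apply le_waste_of_two volume _ _ (S.cov' m) (S.meas' m) (S.hDc m).measure_lt_top.ne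
    measurableSet_ball measure_ball_lt_top.ne (j m) (i m) (hj m)
  · rw [← IsometryEquiv.image_ball, copies, ← S.image_g m (j m)]
    exact image_mono ((ball_subset_ball (min_le_right _ _)).trans a2)
  · rw [← IsometryEquiv.image_ball]
    exact image_mono ((ball_subset_ball (min_le_left _ _)).trans a1)

end Pool.Agent.HexNear
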