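import Pool.Agent.Lib.MP_20f220_co.Unbounded

/-! Strips, half-planes: from a tiling of an unbounded convex set to a tiling of the plane. -/

open Filter Topology Metric Set MeasureTheory
open scoped ENNReal Pointwise

namespace Pool.Agent.HexNear

/-- a family of translated strips -/
lemma plane_of_strip (P S : Set Pl) (G : Set (Set Pl)) (hG : IsTiling P G S)
    (n : Pl) (f : Pl →L[ℝ] ℝ) (hfn : f n = 1) (a b : ℝ) (hab : a < b)
    (hS : S = {x | a ≤ f x ∧ f x ≤ b}) : ∃ G', IsTiling P G' univ := by
  set w := b - a with hw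
  have hwpos : 0 < w := by linarith
  let τ : ℤ → (Pl ≃ᵢ Pl) := fun k => IsometryEquiv.addRight (((k : ℝ) * w) • n)
  have hτ : ∀ k x, τ k x = x + ((k : ℝ) * w) • n := fun k x => rfl
  have himg : ∀ k, τ k '' S = {x | a + k * w ≤ f x ∧ f x ≤ b + k * w} := by
    intro k
    ext x
    constructor
    · rintro ⟨y, hy, rfl⟩
      rw [hS] at hy
      simp only [mem_setOf_eq, hτ, map_add, map_smul, hfn, smul_eq_mul, mul_one] at hy ⊢
      constructor <;> linarith [hy.1, hy.2]
    · intro hx
      refine ⟨x - ((k : ℝ) * w) • n, ?_, ?_⟩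
      · rw [hS]
        simp only [mem_setOf_eq, map_sub, map_smul, hfn, smul_eq_mul, mul_one] at hx ⊢
        constructor <;> linarith [hx.1, hx.2]
      · rw [hτ]; simp
  have hint : ∀ k, interior (τ k '' S) ⊆ {x | a + k * w < f x ∧ f x < b + k * w} := by
    intro k x hx
    obtain ⟨ε, hε, hb⟩ := Metric.isOpen_iff.1 isOpen_interior x hx
    have hb' : ball x ε ⊆ τ k '' S := hb.trans interior_subset
    have hnpos : 0 < ‖n‖ := by
      rw [norm_pos_iff]
      rintro rfl
      simp at hfn
    set δ := ε / (2 * ‖n‖) with hδ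
    have hδpos : 0 < δ := by positivity
    have hmem : ∀ s : ℝ, |s| = δ → x + s • n ∈ ball x ε := by
      intro s hs
      rw [mem_ball, dist_eq_norm, add_sub_cancel_left, norm_smul, Real.norm_eq_abs, hs, hδ]
      have : ε / (2 * ‖n‖) * ‖n‖ = ε / 2 := by field_simp
      rw [this]; linarith
    have h1 := hb' (hmem δ (abs_of_pos hδpos))
    have h2 := hb' (hmem (-δ) (by rw [abs_neg, abs_of_pos hδpos]))
    rw [himg] at h1 h2
    simp only [mem_setOf_eq, map_add, map_smul, hfn, smul_eq_mul, mul_one] at h1 h2 ⊢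
    constructor <;> linarith [h1.1, h1.2, h2.1, h2.2]
  have htile := IsTiling.iUnion (P := P) (F := fun k : ℤ => (fun T => τ k '' T) '' G)
    (S := fun k => τ k '' S) (fun k => hG.image (τ k)) (by
      intro k l hkl
      rw [Set.disjoint_left]
      intro x hx hx'
      have h1 := hint k hx
      have h2 := hint l hx'
      simp only [mem_setOf_eq] at h1 h2
      rcases lt_or_gt_of_ne hkl with h | h
      · have h3 : (k : ℝ) + 1 ≤ l := by exact_mod_cast h
        have h4 : ((k : ℝ) + 1) * w ≤ l * w := mul_le_mul_of_nonneg_right h3 hwpos.le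
        linarith [h1.2, h2.1]
      · have h3 : (l : ℝ) + 1 ≤ k := by exact_mod_cast h
        have h4 : ((l : ℝ) + 1) * w ≤ k * w := mul_le_mul_of_nonneg_right h3 hwpos.le
        linarith [h1.1, h2.2])
  have huniv : ⋃ k, τ k '' S = univ := by
    rw [eq_univ_iff_forall]
    intro x
    refine mem_iUnion.2 ⟨⌊(f x - a) / w⌋, ?_⟩
    rw [himg]
    have h1 := Int.floor_le ((f x - a) / w)
    have h2 := Int.lt_floor_add_one ((f x - a) / w)
    rw [le_div_iff₀ hwpos] at h1
    rw [div_lt_iff₀ hwpos] at h2
    simp only [mem_setOf_eq]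
    constructor <;> linarith
  rw [huniv] at htile
  exact ⟨_, htile⟩

/-- a half-plane and its point reflection -/
lemma plane_of_half (P S : Set Pl) (G : Set (Set Pl)) (hG : IsTiling P G S)
    (n : Pl) (f : Pl →L[ℝ] ℝ) (hfn : f n = 1) (a : ℝ)
    (hS : S = {x | a ≤ f x}) : ∃ G', IsTiling P G' univ := by
  let ρ : Pl ≃ᵢ Pl := IsometryEquiv.subLeft ((2 * a) • n)
  have hρ : ∀ x, ρ x = (2 * a) • n - x := fun x => rfl
  let g : Bool → (Pl ≃ᵢ Pl) := fun b => if b then ρ else IsometryEquiv.refl Pl
  have hnpos : 0 < ‖n‖ := by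
    rw [norm_pos_iff]
    rintro rfl
    simp at hfn
  have himg1 : ρ '' S = {x | f x ≤ a} := by
    ext x
    constructor
    · rintro ⟨y, hy, rfl⟩
      rw [hS] at hy
      simp only [mem_setOf_eq, hρ, map_sub, map_smul, hfn, smul_eq_mul, mul_one] at hy ⊢
      linarith
    · intro hx
      refine ⟨(2 * a) • n - x, ?_, ?_⟩
      · rw [hS]
        simp only [mem_setOf_eq, map_sub, map_smul, hfn, smul_eq_mul, mul_one] at hx ⊢
        linarith
      · rw [hρ]; simp
  have himg0 : (IsometryEquiv.refl Pl) '' S = {x | a ≤ f x} := by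
    have h : ((IsometryEquiv.refl Pl : Pl ≃ᵢ Pl) : Pl → Pl) = id := rfl
    rw [h, image_id, hS]
  have hint0 : interior {x : Pl | a ≤ f x} ⊆ {x | a < f x} := by
    intro x hx
    obtain ⟨ε, hε, hb⟩ := Metric.isOpen_iff.1 isOpen_interior x hx
    set δ := ε / (2 * ‖n‖) with hδ
    have hδpos : 0 < δ := by positivity
    have hmem : x + (-δ) • n ∈ ball x ε := by
      rw [mem_ball, dist_eq_norm, add_sub_cancel_left, norm_smul, Real.norm_eq_abs, abs_neg,
        abs_of_pos hδpos, hδ]
      have : ε / (2 * ‖n‖) * ‖n‖ = ε / 2 := by field_simp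
      rw [this]; linarith
    have h1 := interior_subset (hb hmem)
    simp only [mem_setOf_eq, map_add, map_smul, hfn, smul_eq_mul, mul_one] at h1 ⊢
    linarith
  have hint1 : interior {x : Pl | f x ≤ a} ⊆ {x | f x < a} := by
    intro x hx
    obtain ⟨ε, hε, hb⟩ := Metric.isOpen_iff.1 isOpen_interior x hx
    set δ := ε / (2 * ‖n‖) with hδ
    have hδpos : 0 < δ := by positivity
    have hmem : x + δ • n ∈ ball x ε := by
      rw [mem_ball, dist_eq_norm, add_sub_cancel_left, norm_smul, Real.norm_eq_abs,
        abs_of_pos hδpos, hδ]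
      have : ε / (2 * ‖n‖) * ‖n‖ = ε / 2 := by field_simp
      rw [this]; linarith
    have h1 := interior_subset (hb hmem)
    simp only [mem_setOf_eq, map_add, map_smul, hfn, smul_eq_mul, mul_one] at h1 ⊢
    linarith
  have hdis : Disjoint (interior {x : Pl | f x ≤ a}) (interior {x : Pl | a ≤ f x}) := by
    rw [Set.disjoint_left]
    intro x hx hx'
    have h1 := hint1 hx
    have h2 := hint0 hx'
    simp only [mem_setOf_eq] at h1 h2
    linarith
  have htile := IsTiling.iUnion (P := P) (F := fun b : Bool => (fun T => g b '' T) '' G)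
    (S := fun b => g b '' S) (fun b => hG.image (g b)) (by
      intro k l hkl
      cases k <;> cases l
      · exact absurd rfl hkl
      · change Disjoint (interior ((IsometryEquiv.refl Pl) '' S)) (interior (ρ '' S))
        rw [himg0, himg1]; exact hdis.symm
      · change Disjoint (interior (ρ '' S)) (interior ((IsometryEquiv.refl Pl) '' S))
        rw [himg0, himg1]; exact hdis
      · exact absurd rfl hkl)
  have huniv : ⋃ b, g b '' S = univ := by
    rw [eq_univ_iff_forall]
    intro x
    rcases le_total a (f x) with h | h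
    · refine mem_iUnion.2 ⟨false, ?_⟩
      change x ∈ (IsometryEquiv.refl Pl) '' S
      rw [himg0]; exact h
    · refine mem_iUnion.2 ⟨true, ?_⟩
      change x ∈ ρ '' S
      rw [himg1]; exact h
  rw [huniv] at htile
  exact ⟨_, htile⟩

/-- **A convex body that tiles some unbounded closed convex set tiles the plane.** -/
theorem noUnbounded_of_not_plane (P : Set Pl) (hPc : IsCompact P) (hPv : Convex ℝ P)
    (h0 : (interior P).Nonempty) (hnt : ¬ ∃ G, IsTiling P G univ) : NoUnbounded P := by
  rintro D hDc hDv hDu ⟨F, hF⟩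
  obtain ⟨u, hu, hrec⟩ := exists_recession D hDc hDv hDu
  have hDne : D.Nonempty := by
    rw [nonempty_iff_ne_empty]
    rintro rfl
    exact hDu Bornology.isBounded_empty
  obtain ⟨S, G, hG, hSc, hSv, hSne, hSinv⟩ := push P hPc hPv h0 D hDv hDne F hF u hrec
  apply hnt
  -- the normal functional
  have hu2 : u 0 ^ 2 + u 1 ^ 2 = 1 := by
    have := EuclideanSpace.norm_eq u
    rw [hu, Fin.sum_univ_two] at this
    have h1 : (1 : ℝ) ^ 2 = (√(‖u 0‖ ^ 2 + ‖u 1‖ ^ 2)) ^ 2 := by rw [← this]
    rw [Real.sq_sqrt (by positivity)] at h1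
    simpa using h1.symm
  set n : Pl := !₂[-u 1, u 0] with hn
  let f : Pl →L[ℝ] ℝ := innerSL ℝ n
  have hf : ∀ x : Pl, f x = -u 1 * x 0 + u 0 * x 1 := by
    intro x
    simp [f, n, PiLp.inner_apply, Fin.sum_univ_two]
    ring
  have hfn : f n = 1 := by
    rw [hf]
    simp [n]
    nlinarith
  have hdec : ∀ x : Pl, x = f x • n + (u 0 * x 0 + u 1 * x 1) • u := by
    intro x
    rw [hf]
    ext i
    fin_cases i
    · simp [n]
      linear_combination (-x 0) * hu2
    · simp [n]
      linear_combination (-x 1) * hu2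
  have hSiff : ∀ x : Pl, x ∈ S ↔ f x • n ∈ S := by
    intro x
    constructor
    · intro hx
      have h1 := hSinv x hx (-(u 0 * x 0 + u 1 * x 1))
      have h2 : x + (-(u 0 * x 0 + u 1 * x 1)) • u = f x • n := by
        rw [neg_smul, ← sub_eq_add_neg, sub_eq_iff_eq_add]
        exact hdec x
      rwa [h2] at h1
    · intro hx
      have h1 := hSinv _ hx (u 0 * x 0 + u 1 * x 1)
      rwa [← hdec x] at h1
  set J : Set ℝ := {s | s • n ∈ S} with hJ
  have hJc : IsClosed J := hSc.preimage (by fun_prop)
  have hJord : OrdConnected J := by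
    rw [← convex_iff_ordConnected]
    intro s hs t ht a b ha hb hab
    have := hSv hs ht ha hb hab
    change (a • s + b • t) • n ∈ S
    convert this using 1
    simp only [smul_eq_mul]
    module
  have hJne : J.Nonempty := by
    obtain ⟨x, hx⟩ := hSne
    exact ⟨f x, (hSiff x).1 hx⟩
  have hSJ : ∀ x, x ∈ S ↔ f x ∈ J := hSiff
  by_cases hbelow : BddBelow J
  · have ha : sInf J ∈ J := hJc.csInf_mem hJne hbelow
    by_cases habove : BddAbove J
    · have hb : sSup J ∈ J := hJc.csSup_mem hJne habove
      have hJe : ∀ s, s ∈ J ↔ sInf J ≤ s ∧ s ≤ sSup J := fun s =>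
        ⟨fun hs => ⟨csInf_le hbelow hs, le_csSup habove hs⟩, fun hs => hJord.out ha hb hs⟩
      have hSeq : S = {x | sInf J ≤ f x ∧ f x ≤ sSup J} := by
        ext x
        rw [hSJ, hJe]
        rfl
      have hle : sInf J ≤ sSup J := csInf_le hbelow hb
      rcases hle.eq_or_lt with heq | hlt
      · exfalso
        -- a degenerate strip contains no copy of `P`
        obtain ⟨x, hx⟩ := hSne
        rw [← hG.2.2] at hx
        obtain ⟨T, hT, -⟩ := hx
        obtain ⟨ψ, hψ⟩ := hG.1 T hT
        have h1 : (interior T).Nonempty := by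
          rw [hψ]
          have e : interior (ψ '' P) = ψ '' interior P :=
            (ψ.toHomeomorph.image_interior P).symm
          rw [e]
          exact h0.image _
        obtain ⟨y, hy⟩ := h1
        obtain ⟨ε, hε, hball⟩ := Metric.isOpen_iff.1 isOpen_interior y hy
        have hTS := hG.subset hT
        have hy1 := hTS (interior_subset hy)
        have hnn : ‖n‖ ≠ 0 := by
          intro h
          rw [norm_eq_zero] at h
          rw [h] at hfn
          simp at hfn
        have hnpos : 0 < ‖n‖ := lt_of_le_of_ne (norm_nonneg _) (Ne.symm hnn)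
        set δ := ε / (2 * ‖n‖) with hδ
        have hδpos : 0 < δ := by positivity
        have hmem : y + δ • n ∈ ball y ε := by
          rw [mem_ball, dist_eq_norm, add_sub_cancel_left, norm_smul, Real.norm_eq_abs,
            abs_of_pos hδpos, hδ]
          have : ε / (2 * ‖n‖) * ‖n‖ = ε / 2 := by field_simp
          rw [this]; linarith
        have hy2 := hTS (interior_subset (hball hmem))
        rw [hSeq] at hy1 hy2
        simp only [mem_setOf_eq, map_add, map_smul, hfn, smul_eq_mul, mul_one] at hy1 hy2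
        linarith [hy1.1, hy1.2, hy2.1, hy2.2]
      · exact plane_of_strip P S G hG n f hfn _ _ hlt hSeq
    · refine plane_of_half P S G hG n f hfn (sInf J) ?_
      ext x
      rw [hSJ]
      constructor
      · intro hx; exact csInf_le hbelow hx
      · intro hx
        rw [not_bddAbove_iff] at habove
        obtain ⟨t, ht, hxt⟩ := habove (f x)
        exact hJord.out ha ht ⟨hx, hxt.le⟩
  · by_cases habove : BddAbove J
    · have hb : sSup J ∈ J := hJc.csSup_mem hJne habove
      refine plane_of_half P S G hG (-n) (-f) (by simp [hfn]) (-sSup J) ?_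
      ext x
      rw [hSJ]
      simp only [mem_setOf_eq, ContinuousLinearMap.neg_apply, neg_le_neg_iff]
      constructor
      · intro hx; exact le_csSup habove hx
      · intro hx
        rw [not_bddBelow_iff] at hbelow
        obtain ⟨t, ht, hxt⟩ := hbelow (f x)
        exact hJord.out ht hb ⟨hxt.le, hx⟩
    · have hSuniv : S = univ := by
        rw [eq_univ_iff_forall]
        intro x
        rw [hSJ]
        rw [not_bddBelow_iff] at hbelow
        rw [not_bddAbove_iff] at habove
        obtain ⟨t, ht, hxt⟩ := hbelow (f x)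
        obtain ⟨t', ht', hxt'⟩ := habove (f x)
        exact hJord.out ht ht' ⟨hxt.le, hxt'.le⟩
      rw [hSuniv] at hG
      exact ⟨G, hG⟩

end Pool.Agent.HexNear
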