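import Pool.Agent.Lib.MP_20f220_co.Waste

/-! Summation of the waste near the badly covered copies. -/

open Filter Topology Metric Set MeasureTheory
open scoped ENNReal

namespace Pool.Agent.HexNear

variable {E : Type*} [NormedAddCommGroup E] [MeasurableSpace E]

lemma fubini_balls [NormedSpace ℝ E] [FiniteDimensional ℝ E] [BorelSpace E]
    (μ : Measure E) [μ.IsAddHaarMeasure] (W : Measure E) [IsFiniteMeasure W]
    (r R c : ℝ) (hr : 0 < r) (hR : 0 < R) (hc : 0 < c)
    {n : ℕ} (p : Fin n → E) (B : Finset (Fin n))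
    (h : ∀ x, ENNReal.ofReal c * (∑ i ∈ B, (ball (p i) r).indicator 1 x) ≤ W (ball x R)) :
    ENNReal.ofReal (c * (μ (ball (0 : E) r)).toReal / (μ (ball (0 : E) R)).toReal * B.card)
      ≤ W univ := by
  classical
  set V1 : ℝ := (μ (ball (0 : E) r)).toReal with hV1
  set V2 : ℝ := (μ (ball (0 : E) R)).toReal with hV2
  have hV1fin : μ (ball (0 : E) r) ≠ ∞ := measure_ball_lt_top.ne
  have hV2fin : μ (ball (0 : E) R) ≠ ∞ := measure_ball_lt_top.ne
  have hV1pos : 0 < V1 := ENNReal.toReal_pos (measure_ball_pos μ _ hr).ne' hV1fin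
  have hV2pos : 0 < V2 := ENNReal.toReal_pos (measure_ball_pos μ _ hR).ne' hV2fin
  have hint1 : ∫⁻ x, ENNReal.ofReal c * (∑ i ∈ B, (ball (p i) r).indicator 1 x) ∂μ
      = ENNReal.ofReal c * (B.card * ENNReal.ofReal V1) := by
    rw [lintegral_const_mul]
    · congr 1
      rw [lintegral_finsetSum]
      · have : ∀ i : Fin n, ∫⁻ x, (ball (p i) r).indicator (1 : E → ℝ≥0∞) x ∂μ
            = ENNReal.ofReal V1 := by
          intro i
          rw [lintegral_indicator_one measurableSet_ball, hV1, ENNReal.ofReal_toReal hV1fin]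
          exact Measure.addHaar_ball_center μ _ _
        simp [this]
      · intro i _
        exact measurable_one.indicator measurableSet_ball
    · exact Finset.measurable_sum _ fun i _ => measurable_one.indicator measurableSet_ball
  have hint2 : ∫⁻ x, W (ball x R) ∂μ = W univ * ENNReal.ofReal V2 := by
    have hmeas : MeasurableSet {q : E × E | dist q.2 q.1 < R} := by
      apply (isOpen_lt (by fun_prop) continuous_const).measurableSet
    have e1 : ∀ x : E, W (ball x R)
        = ∫⁻ y, {q : E × E | dist q.2 q.1 < R}.indicator (1 : E × E → ℝ≥0∞) (x, y) ∂W := by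
      intro x
      rw [← lintegral_indicator_one (μ := W) (measurableSet_ball (x := x) (ε := R))]
      refine lintegral_congr fun y => ?_
      by_cases h : dist y x < R <;> simp [h, indicator]
    simp only [e1]
    rw [lintegral_lintegral_swap]
    · have e2 : ∀ y : E, ∫⁻ x, {q : E × E | dist q.2 q.1 < R}.indicator
          (1 : E × E → ℝ≥0∞) (x, y) ∂μ = ENNReal.ofReal V2 := by
        intro y
        have : ∀ x, {q : E × E | dist q.2 q.1 < R}.indicator (1 : E × E → ℝ≥0∞) (x, y)
            = (ball y R).indicator (1 : E → ℝ≥0∞) x := by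
          intro x
          have e3 : ((x, y) ∈ {q : E × E | dist q.2 q.1 < R}) ↔ x ∈ ball y R := by
            rw [mem_ball, dist_comm]; rfl
          by_cases h' : x ∈ ball y R
          · rw [indicator_of_mem (e3.2 h'), indicator_of_mem h']; rfl
          · rw [indicator_of_notMem (fun hh => h' (e3.1 hh)), indicator_of_notMem h']
        simp only [this]
        rw [lintegral_indicator_one measurableSet_ball, hV2, ENNReal.ofReal_toReal hV2fin]
        exact Measure.addHaar_ball_center μ _ _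
      simp only [e2]
      rw [lintegral_const, mul_comm]
    · exact (measurable_one.indicator hmeas).aemeasurable
  have hfin := lintegral_mono (μ := μ) h
  rw [hint1, hint2] at hfin
  have hWfin : W univ ≠ ∞ := measure_ne_top _ _
  set w : ℝ := (W univ).toReal with hw
  have hwe : W univ = ENNReal.ofReal w := (ENNReal.ofReal_toReal hWfin).symm
  have hw0 : 0 ≤ w := ENNReal.toReal_nonneg
  rw [hwe] at hfin ⊢
  have hBc : (0 : ℝ) ≤ (B.card : ℝ) := Nat.cast_nonneg _
  rw [← ENNReal.ofReal_natCast, ← ENNReal.ofReal_mul hBc,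
    ← ENNReal.ofReal_mul hc.le, ← ENNReal.ofReal_mul hw0,
    ENNReal.ofReal_le_ofReal_iff (mul_nonneg hw0 hV2pos.le)] at hfin
  rw [ENNReal.ofReal_le_ofReal_iff hw0]
  have : c * V1 / V2 * B.card = (c * (B.card * V1)) / V2 := by ring
  rw [this, div_le_iff₀ hV2pos]
  exact hfin

/-- **The waste near the badly covered copies** is at least proportional to the number of copies
near them. -/
theorem sum_bad [NormedSpace ℝ E] [FiniteDimensional ℝ E] [BorelSpace E]
    (μ : Measure E) [μ.IsAddHaarMeasure]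
    (R R2 ρ a c₀ : ℝ) (hρ : 0 < ρ) (hR : 2 + ρ ≤ R) (hR2 : 0 < R2) (ha : 0 < a) (hc : 0 < c₀) :
    ∃ c > 0, ∀ (n : ℕ) (C : Fin n → Set E) (D : Set E) (p : Fin n → E),
      D ⊆ ⋃ j, C j → (∀ j, MeasurableSet (C j)) → (∀ j, μ (C j) ≠ ∞) → μ D ≠ ∞ →
      (∀ j, C j ⊆ closedBall (p j) ρ) → (∀ j, ENNReal.ofReal a ≤ μ (C j)) →
      ∀ B : Finset (Fin n), (∀ j, j ∈ B ↔ ENNReal.ofReal c₀ ≤ waste μ C D (ball (p j) R)) →
      ∀ B2 : Finset (Fin n), (∀ l ∈ B2, ∃ b ∈ B, dist (p l) (p b) < R2) →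
      ENNReal.ofReal (c * B2.card) ≤ waste μ C D (⋃ b ∈ B, ball (p b) R) := by
  classical
  set R5 : ℝ := 1 + R2 + R with hR5
  have hR5pos : 0 < R5 := by linarith
  set V1 : ℝ := (μ (ball (0 : E) 1)).toReal with hV1
  set V5 : ℝ := (μ (ball (0 : E) R5)).toReal with hV5
  set V : ℝ := (μ (ball (0 : E) (1 + ρ))).toReal with hV
  have hV1fin : μ (ball (0 : E) 1) ≠ ∞ := measure_ball_lt_top.ne
  have hV5fin : μ (ball (0 : E) R5) ≠ ∞ := measure_ball_lt_top.ne
  have hVfin : μ (ball (0 : E) (1 + ρ)) ≠ ∞ := measure_ball_lt_top.ne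
  have hV1pos : 0 < V1 := ENNReal.toReal_pos (measure_ball_pos μ _ one_pos).ne' hV1fin
  have hV5pos : 0 < V5 := ENNReal.toReal_pos (measure_ball_pos μ _ hR5pos).ne' hV5fin
  have hVpos : 0 < V := ENNReal.toReal_pos (measure_ball_pos μ _ (by linarith)).ne' hVfin
  set M : ℝ := (2 * V + c₀) / a with hM
  have hMpos : 0 < M := by positivity
  set c₂ : ℝ := min (c₀ / M) (a / 2) with hc₂
  have hc2pos : 0 < c₂ := lt_min (by positivity) (by positivity)
  refine ⟨c₂ * V1 / V5, by positivity, ?_⟩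
  intro n C D p hcov hCm hCfin hDfin hCb haC B hB B2 hB2
  set W := waste μ C D with hW
  set N : Set E := ⋃ b ∈ B, ball (p b) R with hN
  have hNm : MeasurableSet N := Finset.measurableSet_biUnion _ fun b _ => measurableSet_ball
  have hWfin : W univ ≠ ∞ := by
    have h1 := waste_add μ C D hcov hCm hDfin MeasurableSet.univ
    have h2 : ∑ j, μ (univ ∩ C j) ≠ ∞ := by
      rw [ENNReal.sum_ne_top]
      intro j _
      rw [univ_inter]
      exact hCfin j
    rw [← h1] at h2
    exact (ENNReal.add_ne_top.1 h2).1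
  have hWF : IsFiniteMeasure W := ⟨hWfin.lt_top⟩
  have hres : W N = (W.restrict N) univ := by rw [Measure.restrict_apply_univ]
  rw [hres]
  apply fubini_balls μ (W.restrict N) 1 R5 c₂ one_pos hR5pos hc2pos p B2
  intro x
  rw [Measure.restrict_apply measurableSet_ball]
  set S : Finset (Fin n) := B2.filter (fun i => x ∈ ball (p i) 1) with hS
  have hsum : (∑ i ∈ B2, (ball (p i) 1).indicator (1 : E → ℝ≥0∞) x) = (S.card : ℝ≥0∞) := by
    rw [hS, Finset.card_filter]
    push_cast
    refine Finset.sum_congr rfl fun i _ => ?_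
    by_cases h : x ∈ ball (p i) 1 <;> simp [h]
  rw [hsum]
  rcases Finset.eq_empty_or_nonempty S with h0 | ⟨i0, hi0⟩
  · rw [h0]; simp
  have hxi : ∀ i ∈ S, dist x (p i) < 1 := fun i hi => (Finset.mem_filter.1 hi).2
  have hsub : ∀ i ∈ S, C i ⊆ ball x (1 + ρ) := by
    intro i hi y hy
    have h1 := hxi i hi
    have h2 : dist y (p i) ≤ ρ := hCb i hy
    rw [mem_ball]
    have := dist_triangle y (p i) x
    rw [dist_comm (p i) x] at this
    linarith
  have hbig : (S.card : ℝ≥0∞) * ENNReal.ofReal a ≤ W (ball x (1 + ρ)) + ENNReal.ofReal V := by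
    have h1 := waste_add μ C D hcov hCm hDfin (A := ball x (1 + ρ)) measurableSet_ball
    have h2 : ∑ i ∈ S, μ (ball x (1 + ρ) ∩ C i) ≤ ∑ i, μ (ball x (1 + ρ) ∩ C i) :=
      Finset.sum_le_sum_of_subset (Finset.subset_univ _)
    have h3 : (S.card : ℝ≥0∞) * ENNReal.ofReal a ≤ ∑ i ∈ S, μ (ball x (1 + ρ) ∩ C i) := by
      rw [← nsmul_eq_mul]
      apply Finset.card_nsmul_le_sum
      intro i hi
      rw [inter_eq_right.2 (hsub i hi)]
      exact haC i
    have h4 : μ (ball x (1 + ρ) ∩ D) ≤ ENNReal.ofReal V := by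
      rw [hV, ENNReal.ofReal_toReal hVfin]
      refine (measure_mono inter_subset_left).trans (le_of_eq ?_)
      exact Measure.addHaar_ball_center μ x _
    calc (S.card : ℝ≥0∞) * ENNReal.ofReal a ≤ ∑ i, μ (ball x (1 + ρ) ∩ C i) := h3.trans h2
      _ = W (ball x (1 + ρ)) + μ (ball x (1 + ρ) ∩ D) := h1.symm
      _ ≤ _ := by gcongr
  -- one bad copy nearby
  have hone : ENNReal.ofReal c₀ ≤ W (ball x R5 ∩ N) := by
    obtain ⟨b, hb, hdb⟩ := hB2 i0 (Finset.mem_filter.1 hi0).1
    refine ((hB b).1 hb).trans (measure_mono ?_)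
    intro y hy
    refine ⟨?_, mem_iUnion₂.2 ⟨b, hb, hy⟩⟩
    have h1 := hxi i0 hi0
    rw [mem_ball] at hy ⊢
    have h2 := dist_triangle y (p b) x
    have h3 := dist_triangle (p b) (p i0) x
    rw [dist_comm (p b) (p i0)] at h3
    rw [dist_comm (p i0) x] at h3
    linarith
  have hWb : W (ball x R5 ∩ N) ≠ ∞ := measure_ne_top _ _
  have hWb' : W (ball x (1 + ρ)) ≠ ∞ := measure_ne_top _ _
  have hball : ∀ i ∈ S, ball x (1 + ρ) ⊆ ball (p i) R := by
    intro i hi
    apply ball_subset_ball'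
    have h1 := hxi i hi
    linarith
  set w : ℝ := (W (ball x R5 ∩ N)).toReal with hw
  set w' : ℝ := (W (ball x (1 + ρ))).toReal with hw'
  have hwe : W (ball x R5 ∩ N) = ENNReal.ofReal w := (ENNReal.ofReal_toReal hWb).symm
  have hwe' : W (ball x (1 + ρ)) = ENNReal.ofReal w' := (ENNReal.ofReal_toReal hWb').symm
  have hw0 : 0 ≤ w := ENNReal.toReal_nonneg
  have hw0' : 0 ≤ w' := ENNReal.toReal_nonneg
  have hcard : ((S.card : ℕ) : ℝ≥0∞) = ENNReal.ofReal (S.card : ℝ) := by
    rw [ENNReal.ofReal_natCast]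
  have hcn : (0 : ℝ) ≤ (S.card : ℝ) := Nat.cast_nonneg _
  rw [hwe', hcard, ← ENNReal.ofReal_mul hcn, ← ENNReal.ofReal_add hw0' hVpos.le,
    ENNReal.ofReal_le_ofReal_iff (add_nonneg hw0' hVpos.le)] at hbig
  rw [hwe, ENNReal.ofReal_le_ofReal_iff hw0] at hone
  rw [hwe, hcard, ← ENNReal.ofReal_mul hc2pos.le, ENNReal.ofReal_le_ofReal_iff hw0]
  -- few copies at `x`
  have hfew : (S.card : ℝ) ≤ M → c₂ * S.card ≤ w := by
    intro hcase
    calc c₂ * S.card ≤ (c₀ / M) * M := by
          exact mul_le_mul (min_le_left _ _) hcase hcn (by positivity)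
      _ = c₀ := by field_simp
      _ ≤ w := hone
  by_cases hbad : i0 ∈ B
  · have hww : w' ≤ w := by
      apply ENNReal.toReal_mono hWb
      apply measure_mono
      intro y hy
      refine ⟨?_, mem_iUnion₂.2 ⟨i0, hbad, hball i0 hi0 hy⟩⟩
      exact ball_subset_ball (by linarith) hy
    by_cases hcase : (S.card : ℝ) ≤ M
    · exact hfew hcase
    · push Not at hcase
      have h5 : V ≤ S.card * a / 2 := by
        rw [hM, div_lt_iff₀ ha] at hcase
        linarith
      have h6 : c₂ * S.card ≤ (a / 2) * S.card := by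
        exact mul_le_mul_of_nonneg_right (min_le_right _ _) hcn
      linarith
  · apply hfew
    have h1 : ¬ ENNReal.ofReal c₀ ≤ W (ball (p i0) R) := fun h => hbad ((hB i0).2 h)
    have h2 : W (ball x (1 + ρ)) ≤ ENNReal.ofReal c₀ :=
      (measure_mono (hball i0 hi0)).trans (not_le.1 h1).le
    rw [hwe', ENNReal.ofReal_le_ofReal_iff hc.le] at h2
    rw [hM, le_div_iff₀ ha]
    linarith

end Pool.Agent.HexNear
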