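import Pool.Agent.Lib.MP_20f220_co.Cover
import Pool.Agent.Lib.MP_20f220_co.Half
import Pool.Agent.Lib.MP_20f220_co.Sum2

/-! The hexagon bound near angle-generic polygons. -/

open Filter Topology Metric Set MeasureTheory
open scoped ENNReal Pointwise

namespace Pool.Agent.HexNear

/-- the inscribed polygons spanned by the chosen triple points -/
noncomputable def polyOf {n : ℕ} (φ : Fin n → (Pl ≃ᵢ Pl)) (K : Set Pl) (x : Finset (Fin n) → Pl)
    (j : Fin n) : Set Pl :=
  convexHull ℝ (x '' {t | t.card = 3 ∧ j ∈ t ∧ (⋂ l ∈ t, φ l '' K).Nonempty})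

lemma isCompact_polyOf {n : ℕ} (φ : Fin n → (Pl ≃ᵢ Pl)) (K : Set Pl) (x : Finset (Fin n) → Pl)
    (j : Fin n) : IsCompact (polyOf φ K x j) :=
  ((Set.toFinite {t : Finset (Fin n) | t.card = 3 ∧ j ∈ t ∧
    (⋂ l ∈ t, φ l '' K).Nonempty}).image x).isCompact_convexHull ℝ

lemma convex_iso_image (ψ : Pl ≃ᵢ Pl) (A : Set Pl) (hA : Convex ℝ A) : Convex ℝ (ψ '' A) := by
  have h1 : ψ '' A = (ψ.toRealAffineIsometryEquiv.toAffineEquiv.toAffineMap) '' A := rfl
  rw [h1]
  exact hA.affine_image _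

lemma iso_hull (ψ : Pl ≃ᵢ Pl) (A : Set Pl) : ψ '' convexHull ℝ A = convexHull ℝ (ψ '' A) := by
  have e1 : ψ '' convexHull ℝ A
    = (ψ.toRealAffineIsometryEquiv.toAffineEquiv.toAffineMap) '' (convexHull ℝ A) := rfl
  rw [e1, AffineMap.image_convexHull]
  rfl

lemma polyOf_sub {n : ℕ} (φ : Fin n → (Pl ≃ᵢ Pl)) (K : Set Pl) (hKv : Convex ℝ K)
    (x : Finset (Fin n) → Pl)
    (hx : ∀ t : Finset (Fin n), t.card = 3 → (⋂ l ∈ t, φ l '' K).Nonempty →
      x t ∈ ⋂ l ∈ t, φ l '' K)
    (j : Fin n) : polyOf φ K x j ⊆ φ j '' K := by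
  apply convexHull_min _ (convex_iso_image _ _ hKv)
  rintro _ ⟨t, ⟨h1, h2, h3⟩, rfl⟩
  exact mem_iInter₂.1 (hx t h1 h3) j h2

/-- **Sharp local lemma.** -/
theorem local_sharp (s : Finset Pl) (h : AngleGeneric s)
    (h0 : (0 : Pl) ∈ interior (convexHull ℝ (s : Set Pl))) :
    ∃ R > 0, ∃ η₀ > 0, η₀ ≤ 1 / 2 ∧ ∃ c₀ > 0, ∀ K : Set Pl, IsCompact K → Convex ℝ K →
      ∀ η, 0 ≤ η → η ≤ η₀ →
      Near (convexHull ℝ (s : Set Pl)) η K → ∀ D : Set Pl, IsCompact D → Convex ℝ D →
      ∀ (n : ℕ) (φ : Fin n → (Pl ≃ᵢ Pl)), D ⊆ ⋃ j, φ j '' K →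
      ∀ x : Finset (Fin n) → Pl, (∀ t : Finset (Fin n), t.card = 3 →
        (⋂ l ∈ t, φ l '' K).Nonempty → x t ∈ ⋂ l ∈ t, φ l '' K) → ∀ i : Fin n,
      ENNReal.ofReal c₀ ≤ waste volume (copies φ K) D (ball (φ i 0) R) ∨
        D ⊆ ball (φ i 0) R ∨
        ({t : Finset (Fin n) | t.card = 3 ∧ i ∈ t ∧ (⋂ l ∈ t, φ l '' K).Nonempty}.ncard
            ≤ s.card ∧
          ∀ y ∈ D, y ∈ φ i '' K → ∃ j, y ∈ polyOf φ K x j) := by
  classical
  set P := convexHull ℝ (s : Set Pl) with hP
  have hPc : IsCompact P := s.finite_toSet.isCompact_convexHull ℝ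
  have hPv : Convex ℝ P := convex_convexHull ℝ _
  by_contra hcon
  push Not at hcon
  have hmono : ∀ (a b : ℝ), 0 ≤ a → a ≤ b → b < 1 → ∀ K, Near P a K → Near P b K := by
    intro a b ha hab hb K hK
    have hstar : ∀ s t : ℝ, 0 ≤ s → s ≤ t → 0 < t → s • P ⊆ t • P := by
      intro s t hs hst ht
      rintro x ⟨y, hy, rfl⟩
      refine ⟨(s / t) • y, ?_, ?_⟩
      · exact hPv.smul_mem_of_zero_mem (interior_subset h0) hy
          ⟨by positivity, (div_le_one ht).2 hst⟩
      · simp only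
        rw [smul_smul, mul_div_cancel₀ _ ht.ne']
    exact ⟨(hstar _ _ (by linarith) (by linarith) (by linarith)).trans hK.1,
      hK.2.trans (hstar _ _ (by linarith) (by linarith) (by linarith))⟩
  have hseq : ∀ m : ℕ, ∃ (K D : Set Pl) (n : ℕ) (φ : Fin n → (Pl ≃ᵢ Pl))
      (x : Finset (Fin n) → Pl) (i : Fin n),
      IsCompact K ∧ Convex ℝ K ∧ IsCompact D ∧ Convex ℝ D ∧ Near P (1 / ((m : ℝ) + 1 + 1)) K ∧
      D ⊆ ⋃ j, φ j '' K ∧
      (∀ t : Finset (Fin n), t.card = 3 → (⋂ l ∈ t, φ l '' K).Nonempty →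
        x t ∈ ⋂ l ∈ t, φ l '' K) ∧
      waste volume (copies φ K) D (ball (φ i 0) ((m : ℝ) + 1)) < ENNReal.ofReal (1 / ((m : ℝ) + 1))
      ∧ ¬ D ⊆ ball (φ i 0) ((m : ℝ) + 1) ∧
      ({t : Finset (Fin n) | t.card = 3 ∧ i ∈ t ∧ (⋂ l ∈ t, φ l '' K).Nonempty}.ncard
            ≤ s.card → ∃ y ∈ D, y ∈ φ i '' K ∧ ∀ j, y ∉ polyOf φ K x j) := by
    intro m
    have hm : (0 : ℝ) < (m : ℝ) + 1 := by positivity
    have hle : 1 / ((m : ℝ) + 1 + 1) ≤ 1 / 2 := by
      apply one_div_le_one_div_of_le (by norm_num)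
      have : (0 : ℝ) ≤ m := Nat.cast_nonneg m
      linarith
    obtain ⟨K, hK, hKv, η, hη0, hη, hN, D, hD, hDv, n, φ, hcov, x, hx, i, h1, h2, h3⟩ :=
      hcon ((m : ℝ) + 1) hm (1 / ((m : ℝ) + 1 + 1)) (by positivity) hle (1 / ((m : ℝ) + 1))
        (by positivity)
    exact ⟨K, D, n, φ, x, i, hK, hKv, hD, hDv, hmono η _ hη0 hη (by linarith) K hN, hcov, hx,
      h1, h2, h3⟩
  choose K D n φ x i hK hKv hD hDv hN hcov hx hw hfar hbad using hseq
  let S : Seq P := ⟨K, D, n, φ, i, hK, hD, hDv, hN, hcov, hw⟩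
  set U : Ultrafilter ℕ := hyperfilter ℕ with hUdef
  have hU : (U : Filter ℕ) ≤ atTop := Nat.hyperfilter_le_atTop
  have htile := S.tiling hPc hPv ⟨0, h0⟩ U hU
  have huniv : limSet U S.D' = univ :=
    h.univ_of_unbounded _ (isClosed_limSet _ _) (convex_limSet _ _ S.convex_D')
      (S.unbounded hPc hPv h0 _ hU hfar) _ htile
  have hF : Tame (limFam U S.g P) := by
    apply h.tame
    rw [← huniv]
    exact htile
  have hmemC : ∀ m (l : Fin (n m)) (z : Pl), z ∈ S.C m l ↔ φ m (i m) z ∈ φ m l '' K m := by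
    intro m l z
    have h1 := S.image_g m l
    have h2 : φ m l '' K m = φ m (i m) '' S.C m l := h1.symm
    rw [h2]
    constructor
    · intro hz
      exact ⟨z, hz, rfl⟩
    · rintro ⟨z', hz', hzz⟩
      rwa [← (φ m (i m)).injective hzz]
  have hinter : ∀ m (t : Finset (Fin (n m))), (⋂ l ∈ t, S.C m l).Nonempty →
      (⋂ l ∈ t, φ m l '' K m).Nonempty := by
    rintro m t ⟨z, hz⟩
    refine ⟨φ m (i m) z, mem_iInter₂.2 fun l hl => ?_⟩
    exact (hmemC m l z).1 (mem_iInter₂.1 hz l hl)
  have hinter' : ∀ m (t : Finset (Fin (n m))), (⋂ l ∈ t, φ m l '' K m).Nonempty →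
      (⋂ l ∈ t, S.C m l).Nonempty := by
    rintro m t ⟨z, hz⟩
    refine ⟨(φ m (i m)).symm z, mem_iInter₂.2 fun l hl => ?_⟩
    rw [hmemC, IsometryEquiv.apply_symm_apply]
    exact mem_iInter₂.1 hz l hl
  rcases Ultrafilter.em U (fun m => s.card < {t : Finset (Fin (n m)) | t.card = 3 ∧ i m ∈ t ∧
      (⋂ l ∈ t, φ m l '' K m).Nonempty}.ncard) with hbig | hsmall
  · -- too many triples
    apply S.few_triples U hU s hP hPc ⟨0, h0⟩ hF
    filter_upwards [hbig] with m hm
    set A : Set (Finset (Fin (n m))) := {t : Finset (Fin (n m)) | t.card = 3 ∧ i m ∈ t ∧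
      (⋂ l ∈ t, φ m l '' K m).Nonempty} with hA
    have hfin : A.Finite := Set.toFinite A
    have hcard : s.card + 1 ≤ hfin.toFinset.card := by
      rw [← Set.ncard_eq_toFinset_card A hfin]
      exact hm
    let e : Fin (s.card + 1) ↪ Finset (Fin (n m)) :=
      ((Fin.castLEEmb hcard).trans hfin.toFinset.equivFin.symm.toEmbedding).trans
        (Function.Embedding.subtype _)
    refine ⟨e, e.injective, fun k => ?_⟩
    have hek : e k ∈ A := by
      have h1 : e k ∈ hfin.toFinset :=
        (hfin.toFinset.equivFin.symm ((Fin.castLEEmb hcard) k)).2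
      exact hfin.mem_toFinset.1 h1
    exact ⟨hek.1, hek.2.1, hinter' m _ hek.2.2⟩
  · -- uncovered points
    have hy : ∀ m, ∃ y : Pl, (¬ s.card < {t : Finset (Fin (n m)) | t.card = 3 ∧ i m ∈ t ∧
        (⋂ l ∈ t, φ m l '' K m).Nonempty}.ncard) →
        (y ∈ D m ∧ y ∈ φ m (i m) '' K m ∧ ∀ j, y ∉ polyOf (φ m) (K m) (x m) j) := by
      intro m
      by_cases hc : s.card < {t : Finset (Fin (n m)) | t.card = 3 ∧ i m ∈ t ∧
        (⋂ l ∈ t, φ m l '' K m).Nonempty}.ncard
      · exact ⟨0, fun h' => absurd hc h'⟩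
      · obtain ⟨y, h1, h2, h3⟩ := hbad m (not_lt.1 hc)
        exact ⟨y, fun _ => ⟨h1, h2, h3⟩⟩
    choose y hy using hy
    let Y : S.Polys :=
      { Q := fun m j => (φ m (i m)).symm '' polyOf (φ m) (K m) (x m) j
        hQc := fun m j =>
          ((isCompact_polyOf (φ m) (K m) (x m) j).image (φ m (i m)).symm.continuous).isClosed
        hQv := fun m j => convex_iso_image _ _ (convex_convexHull ℝ _)
        x := fun m t => (φ m (i m)).symm (x m t)
        hx := by
          intro m t ht hne l hl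
          have hne' := hinter m t hne
          constructor
          · rw [hmemC, IsometryEquiv.apply_symm_apply]
            exact mem_iInter₂.1 (hx m t ht hne') l hl
          · refine ⟨x m t, ?_, rfl⟩
            exact subset_convexHull ℝ _ ⟨t, ⟨ht, hl, hne'⟩, rfl⟩ }
    obtain ⟨C, hC⟩ := near_bd U P hPc.isBounded S.K _ (Seq.eta_U U hU) S.near
    obtain ⟨p, hp⟩ := exists_lim U (fun m => (φ m (i m)).symm (y m)) 0 C (by
      filter_upwards [hsmall, hC] with m h1 h2
      obtain ⟨z, hz, hzy⟩ := (hy m h1).2.1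
      rw [← hzy, IsometryEquiv.symm_apply_apply]
      exact h2 hz)
    have hcl := S.cover_limit U hU Y hPc ⟨0, h0⟩ hF hKv huniv _ p hp
    obtain ⟨m, h1, h2⟩ := (hcl.and hsmall).exists
    obtain ⟨l, z, hz, hzy⟩ := h1
    have h3 : z = y m := (φ m (i m)).symm.injective hzy
    rw [h3] at hz
    exact (hy m h2).2.2 l hz

lemma ang_translate (P : Set Pl) (z v : Pl) : ang ((fun x => x + z) '' P) (v + z) = ang P v := by
  have h1 : unitCone ((fun x => x + z) '' P) (v + z) = unitCone P v := by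
    ext u
    constructor
    · rintro ⟨hu, t, ht, w, hw, hwt⟩
      refine ⟨hu, t, ht, ?_⟩
      have h2 : w = v + t • u := by
        have h3 : w + z = v + z + t • u := hwt
        have h4 : w + z = (v + t • u) + z := by rw [h3]; abel
        exact add_right_cancel h4
      rwa [← h2]
    · rintro ⟨hu, t, ht, hw⟩
      exact ⟨hu, t, ht, v + t • u, hw, by simp only; abel⟩
  rw [ang, h1, ang]

lemma hull_translate (s : Finset Pl) (z : Pl) [DecidableEq Pl] :
    convexHull ℝ ((s.image (fun x => x + z) : Finset Pl) : Set Pl)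
      = (fun x => x + z) '' convexHull ℝ (s : Set Pl) := by
  rw [Finset.coe_image]
  exact (iso_hull (IsometryEquiv.addRight z) (s : Set Pl)).symm

lemma AngleGeneric.translate {s : Finset Pl} (h : AngleGeneric s) (z : Pl) [DecidableEq Pl] :
    AngleGeneric (s.image (fun x => x + z)) := by
  have hh := hull_translate s z
  have hmem : ∀ v ∈ s.image (fun x => x + z), v - z ∈ s ∧
      ang (convexHull ℝ ((s.image (fun x => x + z) : Finset Pl) : Set Pl)) v
        = ang (convexHull ℝ (s : Set Pl)) (v - z) := by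
    intro v hv
    obtain ⟨w, hw, rfl⟩ := Finset.mem_image.1 hv
    refine ⟨by simpa using hw, ?_⟩
    rw [hh, ang_translate]
    simp
  refine ⟨?_, ?_, ?_, ?_⟩
  · rw [hh]
    have e : interior ((fun x => x + z) '' convexHull ℝ (s : Set Pl))
        = (fun x => x + z) '' interior (convexHull ℝ (s : Set Pl)) :=
      ((IsometryEquiv.addRight z).toHomeomorph.image_interior _).symm
    rw [e]
    exact h.int_ne.image _
  · intro v hv
    rw [(hmem v hv).2]
    exact h.angles _ (hmem v hv).1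
  · intro k f hf
    have h1 := h.half k (fun i => f i - z) (fun i => (hmem _ (hf i)).1)
    have h2 : ∑ i, ang (convexHull ℝ ((s.image (fun x => x + z) : Finset Pl) : Set Pl)) (f i)
        = ∑ i, ang (convexHull ℝ (s : Set Pl)) (f i - z) :=
      Finset.sum_congr rfl fun i _ => (hmem _ (hf i)).2
    rw [h2]; exact h1
  · intro k f hf hs
    have h2 : ∑ i, ang (convexHull ℝ ((s.image (fun x => x + z) : Finset Pl) : Set Pl)) (f i)
        = ∑ i, ang (convexHull ℝ (s : Set Pl)) (f i - z) :=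
      Finset.sum_congr rfl fun i _ => (hmem _ (hf i)).2
    rw [h2] at hs
    exact h.full k (fun i => f i - z) (fun i => (hmem _ (hf i)).1) hs

lemma area_le_hex (K : Set Pl) (hK : IsCompact K) (hKv : Convex ℝ K) (ψ : Pl ≃ᵢ Pl)
    (t : Finset Pl) (ht : t.card ≤ 6) (hsub : (t : Set Pl) ⊆ ψ '' K) :
    area (convexHull ℝ (t : Set Pl)) ≤ hexArea K := by
  classical
  have h1 : convexHull ℝ (t : Set Pl)
      = ψ '' convexHull ℝ ((t.image ψ.symm : Finset Pl) : Set Pl) := by
    rw [iso_hull, Finset.coe_image, ← image_comp]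
    congr 1
    ext x
    simp
  rw [h1, area, vol_image]
  apply le_hexArea K hK hKv
  · exact Finset.card_image_le.trans ht
  · intro x hx
    rw [Finset.coe_image] at hx
    obtain ⟨y, hy, rfl⟩ := hx
    obtain ⟨k, hk, rfl⟩ := hsub hy
    simpa using hk

lemma hexArea_le_area (K : Set Pl) (hK : IsCompact K) (hKv : Convex ℝ K) :
    hexArea K ≤ area K := by
  apply csSup_le
  · exact ⟨area (convexHull ℝ ((∅ : Finset Pl) : Set Pl)), ∅, by simp, by simp, rfl⟩
  · rintro a ⟨t, -, htK, rfl⟩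
    exact ENNReal.toReal_mono hK.measure_lt_top.ne (measure_mono (convexHull_min htK hKv))

/-- **Combination**: covering by inscribed polygons near well covered copies. -/
theorem combine (K D : Set Pl) (hK : IsCompact K) (hKv : Convex ℝ K) (hD : IsCompact D)
    {n : ℕ} (φ : Fin n → (Pl ≃ᵢ Pl)) (hcov : D ⊆ ⋃ j, φ j '' K) (R ρ c₀ c : ℝ) (hρ : 0 < ρ) (hρR : ρ < R)
    (hKρ : ∀ j, φ j '' K ⊆ closedBall (φ j 0) ρ) (hc : 0 < c)
    (x : Finset (Fin n) → Pl) (hx : ∀ t : Finset (Fin n), t.card = 3 →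
        (⋂ l ∈ t, φ l '' K).Nonempty → x t ∈ ⋂ l ∈ t, φ l '' K)
    (hδ : area K - hexArea K ≤ c)
    (hsum : ∀ B : Finset (Fin n),
      (∀ j, j ∈ B ↔ ENNReal.ofReal c₀ ≤ waste volume (copies φ K) D (ball (φ j 0) R)) →
      ∀ B2 : Finset (Fin n), (∀ l ∈ B2, ∃ b ∈ B, dist (φ l 0) (φ b 0) < R + ρ) →
      ENNReal.ofReal (c * B2.card) ≤ waste volume (copies φ K) D (⋃ b ∈ B, ball (φ b 0) R))
    (hloc : ∀ i : Fin n,
      ENNReal.ofReal c₀ ≤ waste volume (copies φ K) D (ball (φ i 0) R) ∨
        ({t : Finset (Fin n) | t.card = 3 ∧ i ∈ t ∧ (⋂ l ∈ t, φ l '' K).Nonempty}.ncard ≤ 6 ∧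
          ∀ y ∈ D, y ∈ φ i '' K → ∃ j, y ∈ polyOf φ K x j)) :
    area D ≤ n * hexArea K := by
  classical
  set W := waste volume (copies φ K) D with hW
  set B : Finset (Fin n) := Finset.univ.filter
    (fun j => ENNReal.ofReal c₀ ≤ W (ball (φ j 0) R)) with hB
  have hBmem : ∀ j, j ∈ B ↔ ENNReal.ofReal c₀ ≤ W (ball (φ j 0) R) := by
    intro j
    rw [hB, Finset.mem_filter]
    exact ⟨fun h => h.2, fun h => ⟨Finset.mem_univ _, h⟩⟩
  set B2 : Finset (Fin n) := Finset.univ.filter
    (fun l => ∃ b ∈ B, dist (φ l 0) (φ b 0) < R + ρ) with hB2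
  have hB2mem : ∀ l, l ∈ B2 ↔ ∃ b ∈ B, dist (φ l 0) (φ b 0) < R + ρ := by
    intro l
    rw [hB2, Finset.mem_filter]
    exact ⟨fun h => h.2, fun h => ⟨Finset.mem_univ _, h⟩⟩
  set N : Set Pl := ⋃ b ∈ B, ball (φ b 0) R with hN
  have hNm : MeasurableSet N := Finset.measurableSet_biUnion _ fun b _ => measurableSet_ball
  have h1 := hsum B hBmem B2 (fun l hl => (hB2mem l).1 hl)
  set A : Set Pl := Nᶜ with hA
  have hAm : MeasurableSet A := hNm.compl
  have hCc : ∀ j, IsCompact (φ j '' K) := fun j => hK.image (φ j).continuous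
  have hCm : ∀ j, MeasurableSet (copies φ K j) := fun j => (hCc j).isClosed.measurableSet
  have hwA := waste_add volume (copies φ K) D hcov hCm hD.measure_lt_top.ne hAm
  have hwU := waste_add volume (copies φ K) D hcov hCm hD.measure_lt_top.ne MeasurableSet.univ
  -- bad copies lie in `N`
  have hbadN : ∀ b ∈ B, φ b '' K ⊆ N := by
    intro b hb y hy
    refine mem_iUnion₂.2 ⟨b, hb, ?_⟩
    have := hKρ b hy
    rw [mem_closedBall] at this
    rw [mem_ball]; linarith
  have hQsub := polyOf_sub φ K hKv x hx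
  have hcovA : A ∩ D ⊆ ⋃ l ∈ Bᶜ, (A ∩ polyOf φ K x l) := by
    rintro y ⟨hyA, hyD⟩
    obtain ⟨i, hi⟩ := mem_iUnion.1 (hcov hyD)
    have hiB : i ∉ B := fun hb => hyA (hbadN i hb hi)
    rcases hloc i with h | ⟨-, h⟩
    · exact absurd ((hBmem i).2 h) hiB
    · obtain ⟨j, hj⟩ := h y hyD hi
      have hjB : j ∉ B := fun hb => hyA (hbadN j hb (hQsub j hj))
      exact mem_iUnion₂.2 ⟨j, Finset.mem_compl.2 hjB, hyA, hj⟩
  have hfinC : ∀ j, volume (A ∩ φ j '' K) ≠ ∞ := fun j =>
    ne_top_of_le_ne_top (hCc j).measure_lt_top.ne (measure_mono inter_subset_right)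
  have hfinQ : ∀ j, volume (A ∩ polyOf φ K x j) ≠ ∞ := fun j =>
    ne_top_of_le_ne_top (isCompact_polyOf φ K x j).measure_lt_top.ne
      (measure_mono inter_subset_right)
  have hfinD : volume (A ∩ D) ≠ ∞ :=
    ne_top_of_le_ne_top hD.measure_lt_top.ne (measure_mono inter_subset_right)
  have hWU : W univ ≠ ∞ := by
    have h2 : ∑ j, volume (univ ∩ copies φ K j) ≠ ∞ := by
      rw [ENNReal.sum_ne_top]
      intro j _
      rw [univ_inter]
      exact (hCc j).measure_lt_top.ne
    rw [← hwU] at h2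
    exact (ENNReal.add_ne_top.1 h2).1
  have hWA : W A ≠ ∞ := ne_top_of_le_ne_top hWU (measure_mono (subset_univ _))
  have hWN : W N ≠ ∞ := ne_top_of_le_ne_top hWU (measure_mono (subset_univ _))
  -- real versions
  have hDA : (volume (A ∩ D)).toReal ≤ ∑ l ∈ Bᶜ, (volume (A ∩ polyOf φ K x l)).toReal := by
    rw [← ENNReal.toReal_sum (fun l _ => hfinQ l)]
    apply ENNReal.toReal_mono
    · rw [ENNReal.sum_ne_top]
      exact fun l _ => hfinQ l
    · exact (measure_mono hcovA).trans (measure_biUnion_finset_le _ _)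
  have hwA' : (W A).toReal + (volume (A ∩ D)).toReal
      = ∑ j, (volume (A ∩ φ j '' K)).toReal := by
    rw [← ENNReal.toReal_add hWA hfinD, ← ENNReal.toReal_sum (fun l _ => hfinC l)]
    exact congrArg ENNReal.toReal hwA
  have hnn : 0 ≤ area K - hexArea K := by
    have := hexArea_le_area K hK hKv
    linarith
  have hgood : (n - B2.card : ℝ) * (area K - hexArea K) ≤ (W A).toReal := by
    have e1 : ∑ l ∈ Bᶜ, (volume (A ∩ φ l '' K)).toReal ≤ ∑ j, (volume (A ∩ φ j '' K)).toReal :=
      Finset.sum_le_sum_of_subset_of_nonneg (Finset.subset_univ _)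
        (fun _ _ _ => ENNReal.toReal_nonneg)
    have e2 : ∑ l ∈ Bᶜ, ((volume (A ∩ φ l '' K)).toReal - (volume (A ∩ polyOf φ K x l)).toReal)
        ≤ (W A).toReal := by
      rw [Finset.sum_sub_distrib]
      linarith
    have hBB2 : B2ᶜ ⊆ Bᶜ := by
      intro l hl
      rw [Finset.mem_compl] at hl ⊢
      intro hlB
      apply hl
      rw [hB2mem]
      refine ⟨l, hlB, ?_⟩
      rw [dist_self]
      linarith
    have e3 : ∑ l ∈ B2ᶜ, ((volume (A ∩ φ l '' K)).toReal
          - (volume (A ∩ polyOf φ K x l)).toReal)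
        ≤ ∑ l ∈ Bᶜ, ((volume (A ∩ φ l '' K)).toReal
          - (volume (A ∩ polyOf φ K x l)).toReal) := by
      apply Finset.sum_le_sum_of_subset_of_nonneg hBB2
      intro l _ _
      rw [sub_nonneg]
      exact ENNReal.toReal_mono (hfinC l) (measure_mono (inter_subset_inter_right _ (hQsub l)))
    have e4 : ∀ l ∈ B2ᶜ, area K - hexArea K ≤ (volume (A ∩ φ l '' K)).toReal
          - (volume (A ∩ polyOf φ K x l)).toReal := by
      intro l hl
      have hlB : l ∉ B := Finset.mem_compl.1 (hBB2 hl)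
      have hsubA : φ l '' K ⊆ A := by
        intro y hy hyN
        obtain ⟨b, hb, hyb⟩ := mem_iUnion₂.1 hyN
        apply Finset.mem_compl.1 hl
        rw [hB2mem]
        refine ⟨b, hb, ?_⟩
        have h2 := hKρ l hy
        rw [mem_closedBall] at h2
        rw [mem_ball] at hyb
        have h3 := dist_triangle (φ l 0) y (φ b 0)
        rw [dist_comm (φ l 0) y] at h3
        linarith
      have h2 : A ∩ φ l '' K = φ l '' K := inter_eq_right.2 hsubA
      have h3 : (volume (φ l '' K)).toReal = area K := by rw [vol_image, area]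
      have h4 : (volume (A ∩ polyOf φ K x l)).toReal ≤ hexArea K := by
        have h5 : (volume (A ∩ polyOf φ K x l)).toReal ≤ area (polyOf φ K x l) :=
          ENNReal.toReal_mono (isCompact_polyOf φ K x l).measure_lt_top.ne
            (measure_mono inter_subset_right)
        refine h5.trans ?_
        rcases hloc l with h | ⟨hcard, -⟩
        · exact absurd ((hBmem l).2 h) hlB
        · set Tl : Set (Finset (Fin n)) := {t : Finset (Fin n) | t.card = 3 ∧ l ∈ t ∧
            (⋂ l ∈ t, φ l '' K).Nonempty} with hTl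
          have hfin : Tl.Finite := Set.toFinite Tl
          have hset : polyOf φ K x l
              = convexHull ℝ ((hfin.toFinset.image x : Finset Pl) : Set Pl) := by
            rw [polyOf, Finset.coe_image, Set.Finite.coe_toFinset]
          rw [hset]
          apply area_le_hex K hK hKv (φ l)
          · refine Finset.card_image_le.trans ?_
            rw [← Set.ncard_eq_toFinset_card Tl hfin]
            exact hcard
          · intro y hy
            apply hQsub l
            rw [hset]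
            exact subset_convexHull ℝ _ hy
      rw [h2, h3]
      linarith
    have e5 : ((B2ᶜ).card : ℝ) * (area K - hexArea K) ≤ ∑ l ∈ B2ᶜ,
        ((volume (A ∩ φ l '' K)).toReal - (volume (A ∩ polyOf φ K x l)).toReal) := by
      rw [← nsmul_eq_mul]
      exact Finset.card_nsmul_le_sum _ _ _ e4
    have e6 : ((B2ᶜ).card : ℝ) = n - B2.card := by
      rw [Finset.card_compl, Fintype.card_fin, Nat.cast_sub]
      have := Finset.card_le_univ B2
      rwa [Fintype.card_fin] at this
    rw [e6] at e5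
    linarith
  have hN' : c * B2.card ≤ (W N).toReal := by
    have h2 := ENNReal.toReal_mono hWN h1
    rwa [ENNReal.toReal_ofReal (by positivity)] at h2
  have htot : n * (area K - hexArea K) ≤ (W univ).toReal := by
    have h2 : (W univ).toReal = (W N).toReal + (W A).toReal := by
      rw [← ENNReal.toReal_add hWN hWA, measure_add_measure_compl hNm]
    have h3 : (area K - hexArea K) * B2.card ≤ c * B2.card :=
      mul_le_mul_of_nonneg_right hδ (Nat.cast_nonneg _)
    rw [h2]
    nlinarith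
  have hfinal := gain_of_waste φ K D hK hD hcov (n * (area K - hexArea K)) (by positivity) (by
    rw [← ENNReal.ofReal_toReal hWU]
    exact ENNReal.ofReal_le_ofReal htot)
  have h4 : (volume D).toReal = area D := rfl
  have h5 : (volume K).toReal = area K := rfl
  rw [h4, h5] at hfinal
  linarith

lemma FewFor_noConvex (s : Finset Pl) (hnc : NoConvex (convexHull ℝ (s : Set Pl))) (z : Pl)
    (h0 : (0 : Pl) ∈ interior ((fun x => x + -z) '' (convexHull ℝ (s : Set Pl)))) :
    FewFor ((fun x => x + -z) '' (convexHull ℝ (s : Set Pl))) (fun _ => True) := by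
  intro R
  have hQc : IsCompact (convexHull ℝ (s : Set Pl)) := s.finite_toSet.isCompact_convexHull ℝ
  have hPc : IsCompact ((fun x => x + -z) '' (convexHull ℝ (s : Set Pl))) :=
    hQc.image (by fun_prop)
  have hPv : Convex ℝ ((fun x => x + -z) '' (convexHull ℝ (s : Set Pl))) :=
    convex_iso_image (IsometryEquiv.addRight (-z)) _ (convex_convexHull ℝ _)
  obtain ⟨η₁, h1, h2, c₁, h3, h4⟩ := fewAll _ hPc hPv h0
    (fun D hD hDv F hF => hnc D hD hDv F (hF.of_translate (-z))) R
  refine ⟨η₁, h1, h2, c₁, h3, ?_⟩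
  intro K hK η hη hη1 hN t _ ht htv n hn φ hcov i hi
  exact h4 K hK η hη hη1 hN t ht htv n hn φ hcov i hi

lemma FewFor_noOctagon (s : Finset Pl) (h8 : NoOctagon (convexHull ℝ (s : Set Pl))) (z : Pl)
    (h0 : (0 : Pl) ∈ interior ((fun x => x + -z) '' (convexHull ℝ (s : Set Pl)))) :
    FewFor ((fun x => x + -z) '' (convexHull ℝ (s : Set Pl))) Oct := by
  intro R
  have hQc : IsCompact (convexHull ℝ (s : Set Pl)) := s.finite_toSet.isCompact_convexHull ℝ
  have hPc : IsCompact ((fun x => x + -z) '' (convexHull ℝ (s : Set Pl))) :=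
    hQc.image (by fun_prop)
  have hPv : Convex ℝ ((fun x => x + -z) '' (convexHull ℝ (s : Set Pl))) :=
    convex_iso_image (IsometryEquiv.addRight (-z)) _ (convex_convexHull ℝ _)
  obtain ⟨η₁, h1, h2, c₁, h3, h4⟩ := few _ hPc hPv h0
    (fun t ht F hF => h8 t ht F (hF.of_translate (-z))) R
  refine ⟨η₁, h1, h2, c₁, h3, ?_⟩
  rintro K hK η hη hη1 hN _ ⟨t, ht, rfl⟩ - - n hn φ hcov i hi
  exact h4 K hK η hη hη1 hN t ht n hn φ hcov i hi

/-- **The hexagon bound near angle-generic polygons**, general form. -/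
theorem sharp_gen (s : Finset Pl) (hs : s.card ≤ 6) (hag : AngleGeneric s)
    (Good : Prop) (C : Set Pl → Prop)
    (hgood : Good → ∀ z : Pl,
      (0 : Pl) ∈ interior ((fun x => x + -z) '' (convexHull ℝ (s : Set Pl))) →
      FewFor ((fun x => x + -z) '' (convexHull ℝ (s : Set Pl))) C) :
    ∃ ε > 0, ∃ N : ℕ, ∀ K : Set Pl, IsCompact K → Convex ℝ K → K.Nonempty →
      hausdorffDist K (convexHull ℝ (s : Set Pl)) ≤ ε →
      ∀ D : Set Pl, IsCompact D → Convex ℝ D → ∀ (n : ℕ), 2 ≤ n → ∀ φ : Fin n → (Pl ≃ᵢ Pl),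
      D ⊆ ⋃ i, φ i '' K →
      (N ≤ n ∨ (Good ∧ C D)) → area D ≤ n * hexArea K := by
  classical
  obtain ⟨z, hz⟩ := hag.int_ne
  set Q : Set Pl := convexHull ℝ (s : Set Pl) with hQ
  have hQc : IsCompact Q := s.finite_toSet.isCompact_convexHull ℝ
  have hQv : Convex ℝ Q := convex_convexHull ℝ _
  -- translate
  set P : Set Pl := (fun x => x + -z) '' Q with hP
  set s' : Finset Pl := s.image (fun x => x + -z) with hs'
  have hPs : convexHull ℝ (s' : Set Pl) = P := hull_translate s (-z)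
  have hag' : AngleGeneric s' := hag.translate (-z)
  have hs'6 : s'.card ≤ 6 := Finset.card_image_le.trans hs
  have hPc : IsCompact P := hQc.image (by fun_prop)
  have hPv : Convex ℝ P := convex_iso_image (IsometryEquiv.addRight (-z)) _ hQv
  have h0 : (0 : Pl) ∈ interior P := by
    have e : interior P = (fun x => x + -z) '' interior Q :=
      ((IsometryEquiv.addRight (-z)).toHomeomorph.image_interior Q).symm
    rw [e]
    exact ⟨z, hz, by simp⟩
  obtain ⟨r, hr, hrP⟩ := Metric.isOpen_iff.1 isOpen_interior 0 h0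
  have hr2 : closedBall (0 : Pl) (r / 2) ⊆ P :=
    (closedBall_subset_ball (by linarith)).trans (hrP.trans interior_subset)
  -- constants
  set A : ℝ := area P with hA
  have hVPf : volume P ≠ ∞ := hPc.measure_lt_top.ne
  have hApos : 0 < A :=
    ENNReal.toReal_pos (measure_pos_iff_nonempty_interior_aux P ⟨0, h0⟩).ne' hVPf
  obtain ⟨R0, hR0, η₀, hη₀, hη₀', c₀, hc₀, hloc⟩ := local_sharp s' hag' (by rw [hPs]; exact h0)
  rw [hPs] at hloc
  obtain ⟨ρ, hρ, hbd⟩ := near_compact_bound P hPc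
  set R : ℝ := max R0 (2 + ρ) with hRdef
  have hR0R : R0 ≤ R := le_max_left _ _
  have hρR : 2 + ρ ≤ R := le_max_right _ _
  obtain ⟨c, hc, hsum⟩ := sum_bad (volume : Measure Pl) R (R + ρ) ρ (A / 4) c₀ hρ hρR
    (by linarith) (by positivity) hc₀
  set V : ℝ := (volume (ball (0 : Pl) R)).toReal with hV
  have hVf : volume (ball (0 : Pl) R) ≠ ∞ := measure_ball_lt_top.ne
  set N : ℕ := ⌈V / (A / 8)⌉₊ + 1 with hN
  obtain ⟨η₁, hη₁, hη₁', c₁, hc₁, hfew⟩ : ∃ η₁ > 0, η₁ ≤ 1 / 2 ∧ ∃ c₁ > 0, Good →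
      ∀ K : Set Pl, IsCompact K → ∀ η, 0 ≤ η → η ≤ η₁ →
      Near P η K → ∀ t : Set Pl, C t → IsCompact t → Convex ℝ t → ∀ (n : ℕ), 2 ≤ n →
      ∀ (φ : Fin n → (Pl ≃ᵢ Pl)), t ⊆ ⋃ j, φ j '' K → ∀ i : Fin n, t ⊆ ball (φ i 0) R →
      ENNReal.ofReal c₁ ≤ waste volume (copies φ K) t univ := by
    by_cases h8 : Good
    · obtain ⟨η₁, h1, h2, c₁, h3, h4⟩ := hgood h8 z h0 R
      exact ⟨η₁, h1, h2, c₁, h3, fun _ => h4⟩
    · exact ⟨1 / 2, by norm_num, le_refl _, 1, one_pos, fun h => absurd h h8⟩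
  have hNpos : (0 : ℝ) < N := by rw [hN]; positivity
  set c' : ℝ := min c (min (c₁ / N) (A / 8)) with hc'
  have hc'pos : 0 < c' := lt_min hc (lt_min (by positivity) (by positivity))
  have hc'c : c' ≤ c := min_le_left _ _
  have hc'c₁ : c' ≤ c₁ / N := (min_le_right _ _).trans (min_le_left _ _)
  have hc'A : c' ≤ A / 8 := (min_le_right _ _).trans (min_le_right _ _)
  set η : ℝ := min (min η₀ η₁) (c' / (8 * A)) with hη
  have hηpos : 0 < η := lt_min (lt_min hη₀ hη₁) (by positivity)
  have hηη₀ : η ≤ η₀ := (min_le_left _ _).trans (min_le_left _ _)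
  have hηη₁ : η ≤ η₁ := (min_le_left _ _).trans (min_le_right _ _)
  have hηc : η * (8 * A) ≤ c' := by
    have : η ≤ c' / (8 * A) := min_le_right _ _
    rwa [le_div_iff₀ (by positivity)] at this
  have hηhalf : η ≤ 1 / 2 := hηη₀.trans hη₀'
  refine ⟨η * (r / 2), by positivity, N, ?_⟩
  intro K hK hKv hKne hd D hD hDv n hn φ hcov hcase
  -- translate the covering
  set K' : Set Pl := (fun x => x + -z) '' K with hK'
  have hK'c : IsCompact K' := hK.image (by fun_prop)
  have hK'v : Convex ℝ K' := convex_iso_image (IsometryEquiv.addRight (-z)) _ hKv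
  have hd' : hausdorffDist K' P ≤ η * (r / 2) := by
    rw [hK', hP, hausdorffDist_image (isometry_add_right (-z))]
    exact hd
  have hnear : Near P η K' := near_of_hausdorff P hPc hPv (r / 2) (by positivity) hr2 K' hK'c hK'v
    (hKne.image _) η hηpos (by linarith) hd'
  let φ' : Fin n → (Pl ≃ᵢ Pl) := fun j => (IsometryEquiv.addRight z).trans (φ j)
  have hφ' : ∀ j, φ' j '' K' = φ j '' K := by
    intro j
    rw [hK', ← image_comp]
    congr 1
    funext x
    change φ j ((x + -z) + z) = φ j x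
    simp
  have hcov' : D ⊆ ⋃ j, φ' j '' K' := by
    simp only [hφ']
    exact hcov
  have hvolK : volume K' = volume K := by
    have := vol_image (IsometryEquiv.addRight (-z)) K
    exact this
  have hhexeq : hexArea K' ≤ hexArea K := by
    apply csSup_le
    · exact ⟨area (convexHull ℝ ((∅ : Finset Pl) : Set Pl)), ∅, by simp, by simp, rfl⟩
    · rintro a ⟨t, ht, htK, rfl⟩
      exact area_le_hex K hK hKv (IsometryEquiv.addRight (-z)) t ht htK
  -- lower bound for the hexagon
  have hhex : (1 - η) ^ 2 * A ≤ hexArea K' := by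
    set t : Finset Pl := s'.image (fun x => (1 - η) • x) with ht
    have hhull : convexHull ℝ (t : Set Pl) = (1 - η) • P := by
      rw [ht, Finset.coe_image, ← hPs, ← convexHull_smul]
      rfl
    have harea : area (convexHull ℝ (t : Set Pl)) = (1 - η) ^ 2 * A := by
      rw [hhull, area, vol_smul _ (by linarith), ENNReal.toReal_mul,
        ENNReal.toReal_ofReal (by positivity), hA, area]
    rw [← harea]
    apply le_hexArea K' hK'c hK'v
    · exact Finset.card_image_le.trans hs'6
    · intro x hx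
      have h1 : x ∈ convexHull ℝ (t : Set Pl) := subset_convexHull ℝ _ hx
      rw [hhull] at h1
      exact hnear.1 h1
  have hupp : (volume K').toReal ≤ (1 + η) ^ 2 * A := by
    have h1 := measure_mono (μ := volume) hnear.2
    rw [vol_smul _ (by linarith)] at h1
    have h2 := ENNReal.toReal_mono (ENNReal.mul_ne_top ENNReal.ofReal_ne_top hVPf) h1
    rwa [ENNReal.toReal_mul, ENNReal.toReal_ofReal (by positivity)] at h2
  have hlow' : ENNReal.ofReal (A / 4) ≤ volume K' := by
    refine le_trans ?_ (near_vol_lower P K' η hηhalf hnear)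
    rw [hA, area, ← ENNReal.ofReal_toReal hVPf, ENNReal.toReal_ofReal ENNReal.toReal_nonneg,
      ← ENNReal.ofReal_mul (by positivity)]
    apply ENNReal.ofReal_le_ofReal
    have h3 : (0 : ℝ) ≤ (volume P).toReal := ENNReal.toReal_nonneg
    have h4 : (1 / 4 : ℝ) ≤ (1 - η) ^ 2 := by nlinarith
    nlinarith
  have hlow : A / 4 ≤ (volume K').toReal := by
    have h2 := ENNReal.toReal_mono hK'c.measure_lt_top.ne hlow'
    rwa [ENNReal.toReal_ofReal (by positivity)] at h2
  have hn0 : (0 : ℝ) ≤ n := Nat.cast_nonneg n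
  have hδ : area K' - hexArea K' ≤ c' := by
    have h1 : area K' ≤ (1 + η) ^ 2 * A := hupp
    have h3 : (1 + η) ^ 2 * A = (1 - η) ^ 2 * A + 4 * (η * A) := by ring
    linarith
  suffices hmain : area D ≤ n * hexArea K' from
    hmain.trans (mul_le_mul_of_nonneg_left hhexeq hn0)
  by_cases hex : ∃ i, D ⊆ ball (φ' i 0) R
  · -- the domain is small
    obtain ⟨i, hi⟩ := hex
    have hgain : area D + c' * n ≤ n * (volume K').toReal := by
      by_cases hNn : N ≤ n
      · have h1 : area D ≤ V := by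
          have h2 := measure_mono (μ := volume) hi
          have h3 : volume (ball (φ' i 0) R) = volume (ball (0 : Pl) R) :=
            Measure.addHaar_ball_center volume _ _
          rw [h3] at h2
          exact ENNReal.toReal_mono hVf h2
        have h2 : V / (A / 8) ≤ n := by
          have a1 : V / (A / 8) ≤ (⌈V / (A / 8)⌉₊ : ℝ) := Nat.le_ceil _
          have a2 : ((⌈V / (A / 8)⌉₊ + 1 : ℕ) : ℝ) ≤ n := by exact_mod_cast hNn
          push_cast at a2
          linarith
        rw [div_le_iff₀ (by positivity)] at h2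
        have h3 : (n : ℝ) * (A / 4) ≤ n * (volume K').toReal := mul_le_mul_of_nonneg_left hlow hn0
        have h4 : c' * n ≤ A / 8 * n := mul_le_mul_of_nonneg_right hc'A hn0
        nlinarith
      · rcases hcase with h | ⟨h8, hCD⟩
        · exact absurd h hNn
        · have h1 := hfew h8 K' hK'c η hηpos.le hηη₁ hnear D hCD hD hDv n hn φ' hcov' i hi
          have h2 := gain_of_waste φ' K' _ hK'c hD hcov' c₁ hc₁.le h1
          have h3 : c' * n ≤ c₁ := by
            have a1 : (n : ℝ) ≤ N := by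
              have : n ≤ N := by omega
              exact_mod_cast this
            calc c' * n ≤ c₁ / N * N := mul_le_mul hc'c₁ a1 hn0 (by positivity)
              _ = c₁ := by field_simp
          have h4 : area D + c₁ ≤ n * (volume K').toReal := h2
          linarith
    have h5 : (volume K').toReal = area K' := rfl
    rw [h5] at hgain
    have h6 : (n : ℝ) * (area K' - hexArea K') ≤ n * c' := mul_le_mul_of_nonneg_left hδ hn0
    linarith
  · -- the sharp case
    push Not at hex
    have hxch : ∀ t : Finset (Fin n), ∃ y : Pl, (⋂ l ∈ t, φ' l '' K').Nonempty →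
        y ∈ ⋂ l ∈ t, φ' l '' K' := by
      intro t
      by_cases h : (⋂ l ∈ t, φ' l '' K').Nonempty
      · obtain ⟨y, hy⟩ := h
        exact ⟨y, fun _ => hy⟩
      · exact ⟨0, fun h' => absurd h' h⟩
    choose x hx using hxch
    have hKρ : ∀ j, φ' j '' K' ⊆ closedBall (φ' j 0) ρ := by
      rintro j _ ⟨y, hy, rfl⟩
      rw [mem_closedBall, (φ' j).dist_eq]
      exact hbd K' η hηpos.le hηhalf hnear hy
    apply combine K' D hK'c hK'v hD φ' hcov' R ρ c₀ c hρ (by linarith) hKρ hc x
      (fun t _ hne => hx t hne) (hδ.trans hc'c)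
    · intro B hB B2 hB2
      exact hsum n (copies φ' K') D (fun j => φ' j 0) hcov'
        (fun j => (hK'c.image (φ' j).continuous).isClosed.measurableSet)
        (fun j => by rw [vol_image]; exact hK'c.measure_lt_top.ne) hD.measure_lt_top.ne
        hKρ (fun j => by rw [vol_image]; exact hlow') B hB B2 hB2
    · intro i
      rcases hloc K' hK'c hK'v η hηpos.le hηη₀ hnear D hD hDv n φ' hcov' x
        (fun t _ hne => hx t hne) i with h | h | h
      · exact Or.inl (h.trans (measure_mono (ball_subset_ball hR0R)))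
      · exact absurd (h.trans (ball_subset_ball hR0R)) (hex i)
      · exact Or.inr ⟨h.1.trans hs'6, h.2⟩

/-- obtuse polygons are angle-generic -/
theorem AngleGeneric.of_obtuse (s : Finset Pl) (hne : s.Nonempty)
    (hang : ∀ v ∈ s, Real.pi / 2 < ang (convexHull ℝ (s : Set Pl)) v ∧
      ang (convexHull ℝ (s : Set Pl)) v < Real.pi) : AngleGeneric s := by
  have hpi := Real.pi_pos
  have hint : (interior (convexHull ℝ (s : Set Pl))).Nonempty := by
    by_contra hcon
    rw [not_nonempty_iff_eq_empty] at hcon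
    obtain ⟨v, hv⟩ := hne
    have hvP : v ∈ convexHull ℝ (s : Set Pl) := subset_convexHull ℝ _ hv
    obtain ⟨δ, hδ, hloc⟩ := area_local s v hvP
    have h1 := (hloc δ hδ le_rfl).1
    have h2 : volume (convexHull ℝ (s : Set Pl)) = 0 := by
      have h3 := (convex_convexHull ℝ (s : Set Pl)).addHaar_frontier volume
      have hcl : IsClosed (convexHull ℝ (s : Set Pl)) :=
        (s.finite_toSet.isCompact_convexHull ℝ).isClosed
      rw [frontier, hcon, sdiff_empty, hcl.closure_eq] at h3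
      exact h3
    have h4 : area (convexHull ℝ (s : Set Pl) ∩ ball v δ) = 0 := by
      rw [area, measure_mono_null inter_subset_left h2]
      simp
    rw [h4] at h1
    have h5 := (hang v hv).1
    have h6 : area (unitCone (convexHull ℝ (s : Set Pl)) v) = 0 := by
      rcases mul_eq_zero.1 h1.symm with h | h
      · exact absurd h (by positivity)
      · exact h
    rw [ang, h6] at h5
    linarith
  have hlow : ∀ (k : ℕ) (f : Fin k → Pl), (∀ i, f i ∈ s) → 1 ≤ k →
      k * (Real.pi / 2) < ∑ i, ang (convexHull ℝ (s : Set Pl)) (f i) := by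
    intro k f hf hk
    have : Nonempty (Fin k) := ⟨⟨0, hk⟩⟩
    have h1 : ∑ _i : Fin k, (Real.pi / 2) < ∑ i, ang (convexHull ℝ (s : Set Pl)) (f i) :=
      Finset.sum_lt_sum_of_nonempty Finset.univ_nonempty (fun i _ => (hang _ (hf i)).1)
    rwa [Finset.sum_const, Finset.card_univ, Fintype.card_fin, nsmul_eq_mul] at h1
  have hupp : ∀ (k : ℕ) (f : Fin k → Pl), (∀ i, f i ∈ s) → 1 ≤ k →
      ∑ i, ang (convexHull ℝ (s : Set Pl)) (f i) < k * Real.pi := by
    intro k f hf hk
    have : Nonempty (Fin k) := ⟨⟨0, hk⟩⟩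
    have h1 : ∑ i, ang (convexHull ℝ (s : Set Pl)) (f i) < ∑ _i : Fin k, Real.pi :=
      Finset.sum_lt_sum_of_nonempty Finset.univ_nonempty (fun i _ => (hang _ (hf i)).2)
    rwa [Finset.sum_const, Finset.card_univ, Fintype.card_fin, nsmul_eq_mul] at h1
  refine ⟨hint, fun v hv => (hang v hv).2, ?_, ?_⟩
  · intro k f hf hsum
    rcases Nat.eq_zero_or_pos k with rfl | hk
    · simp at hsum
      linarith
    have h1 := hlow k f hf hk
    have h2 := hupp k f hf hk
    rw [hsum] at h1 h2
    have h3 : (k : ℝ) < 2 := by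
      by_contra hcon
      push Not at hcon
      nlinarith
    have h4 : (1 : ℝ) < k := by
      by_contra hcon
      push Not at hcon
      nlinarith
    have h5 : k < 2 := by exact_mod_cast h3
    have h6 : 1 < k := by exact_mod_cast h4
    omega
  · intro k f hf hsum
    rcases Nat.eq_zero_or_pos k with rfl | hk
    · simp at hsum
    have h1 := hlow k f hf hk
    have h2 := hupp k f hf hk
    rw [hsum] at h1 h2
    have h3 : (k : ℝ) < 4 := by
      by_contra hcon
      push Not at hcon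
      nlinarith
    have h4 : (2 : ℝ) < k := by
      by_contra hcon
      push Not at hcon
      nlinarith
    have h5 : k < 4 := by exact_mod_cast h3
    have h6 : 2 < k := by exact_mod_cast h4
    omega

end Pool.Agent.HexNear
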