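import Pool.Agent.Lib.MP_20f220_co.All

/-! The local structure of tilings by polygons; angle-generic polygons. -/

open Filter Topology Metric Set MeasureTheory
open scoped ENNReal Pointwise

namespace Pool.Agent.HexNear

/-- **Local structure** of a tiling by a polygon. -/
theorem local_structure (s : Finset Pl) (hint : (interior (convexHull ℝ (s : Set Pl))).Nonempty)
    (D : Set Pl) (F : Set (Set Pl))
    (hF : IsTiling (convexHull ℝ (s : Set Pl)) F D) (v : Pl) :
    ∃ (J : Finset (Set Pl)) (a : Set Pl → ℝ), (∀ T, T ∈ J ↔ T ∈ F ∧ v ∈ T) ∧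
      (∀ T ∈ J, 0 < a T ∧ ∃ ψ : Pl ≃ᵢ Pl, ∃ w ∈ convexHull ℝ (s : Set Pl),
        T = ψ '' (convexHull ℝ (s : Set Pl)) ∧ ψ w = v ∧
        a T = ang (convexHull ℝ (s : Set Pl)) w) ∧
      ∃ δ > 0, (∀ T ∈ F, (T ∩ ball v δ).Nonempty → T ∈ J) ∧
        ∀ r, 0 < r → r ≤ δ → area (D ∩ ball v r) = r ^ 2 * (∑ T ∈ J, a T) / 2 := by
  classical
  set P := convexHull ℝ (s : Set Pl) with hP
  have hPc : IsCompact P := s.finite_toSet.isCompact_convexHull ℝ
  have hPv : Convex ℝ P := convex_convexHull ℝ _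
  choose! ψ hψ using hF.1
  have hTc : ∀ T ∈ F, IsCompact T := fun T hT => by
    rw [hψ T hT]; exact hPc.image (ψ T).continuous
  have hTv : ∀ T ∈ F, Convex ℝ T := fun T hT => by
    have h1 : T = ((ψ T).toRealAffineIsometryEquiv.toAffineEquiv.toAffineMap) '' P := hψ T hT
    rw [h1]
    exact hPv.affine_image _
  have hTint : ∀ T ∈ F, (interior T).Nonempty := fun T hT => by
    have e : interior (ψ T '' P) = ψ T '' interior P :=
      ((ψ T).toHomeomorph.image_interior P).symm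
    rw [hψ T hT, e]
    exact hint.image _
  have hTvol : ∀ T ∈ F, volume (interior T) = volume (interior P) := fun T hT => by
    have e : interior (ψ T '' P) = ψ T '' interior P :=
      ((ψ T).toHomeomorph.image_interior P).symm
    rw [hψ T hT, e, vol_image]
  have hvolP : 0 < volume (interior P) := isOpen_interior.measure_pos volume hint
  -- local finiteness
  obtain ⟨ρ, hρ⟩ : ∃ ρ : ℝ, ∀ T ∈ F, ∀ x ∈ T, ∀ y ∈ T, dist x y ≤ ρ := by
    obtain ⟨C, hC⟩ := Metric.isBounded_iff.1 hPc.isBounded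
    refine ⟨C, fun T hT x hx y hy => ?_⟩
    rw [hψ T hT] at hx hy
    obtain ⟨x', hx', rfl⟩ := hx
    obtain ⟨y', hy', rfl⟩ := hy
    rw [(ψ T).dist_eq]
    exact hC hx' hy'
  have hfin0 : {T : F | ((T : Set Pl) ∩ ball v 1).Nonempty}.Finite := by
    let As : F → Set Pl := fun T => interior (T : Set Pl) ∩ ball v (1 + ρ + 1)
    have h1 : {T : F | volume (interior P) ≤ volume (As T)}.Finite := by
      apply Measure.finite_const_le_meas_of_disjoint_iUnion volume hvolP
      · intro T; exact isOpen_interior.measurableSet.inter measurableSet_ball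
      · intro T T' hne
        have := hF.2.1 T T.2 T' T'.2 (fun h => hne (Subtype.ext h))
        exact this.mono inter_subset_left inter_subset_left
      · refine ne_top_of_le_ne_top (measure_ball_lt_top (x := v) (r := 1 + ρ + 1)).ne
          (measure_mono ?_)
        exact iUnion_subset fun T => inter_subset_right
    refine h1.subset ?_
    rintro T ⟨x, hxT, hxb⟩
    have h2 : As T = interior (T : Set Pl) := by
      apply inter_eq_left.2
      intro y hy
      have h3 := hρ T T.2 y (interior_subset hy) x hxT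
      rw [mem_ball] at hxb ⊢
      have := dist_triangle y x v
      linarith
    change volume (interior P) ≤ volume (As T)
    rw [h2, hTvol T T.2]
  have hfin : {T : Set Pl | T ∈ F ∧ (T ∩ ball v 1).Nonempty}.Finite := by
    refine (hfin0.image Subtype.val).subset ?_
    rintro T ⟨hT, hn⟩
    exact ⟨⟨T, hT⟩, hn, rfl⟩
  -- the tiles containing `v`
  set J : Finset (Set Pl) := hfin.toFinset.filter (fun T => v ∈ T) with hJ
  have hJmem : ∀ T : Set Pl, T ∈ J ↔ T ∈ F ∧ v ∈ T := by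
    intro T
    rw [hJ, Finset.mem_filter, Set.Finite.mem_toFinset]
    constructor
    · exact fun h => ⟨h.1.1, h.2⟩
    · intro h
      exact ⟨⟨h.1, v, h.2, mem_ball_self one_pos⟩, h.2⟩
  -- a radius below which only tiles through `v` occur
  obtain ⟨δ₁, hδ₁, hδ₁'⟩ : ∃ δ > 0, ∀ T ∈ F, (T ∩ ball v δ).Nonempty → T ∈ J := by
    set B : Finset (Set Pl) := hfin.toFinset.filter (fun T => v ∉ T) with hB
    rcases B.eq_empty_or_nonempty with h0 | hne
    · refine ⟨1, one_pos, fun T hTF hT => ?_⟩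
      rw [hJmem]
      refine ⟨hTF, ?_⟩
      by_contra hvT
      have : T ∈ B := Finset.mem_filter.2 ⟨hfin.mem_toFinset.2 ⟨hTF, hT⟩, hvT⟩
      rw [h0] at this
      exact absurd this (Finset.notMem_empty _)
    · obtain ⟨T0, hT0, hmin⟩ := B.exists_min_image (fun T : Set Pl => infDist v T) hne
      have h1 := (Finset.mem_filter.1 hT0).2
      have hT0F : T0 ∈ F := (hfin.mem_toFinset.1 (Finset.mem_filter.1 hT0).1).1
      have h2 : 0 < infDist v T0 :=
        ((hTc T0 hT0F).isClosed.notMem_iff_infDist_pos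
          ((hTint T0 hT0F).mono interior_subset)).1 h1
      refine ⟨min 1 (infDist v T0), lt_min one_pos h2, ?_⟩
      rintro T hTF ⟨x, hxT, hxb⟩
      rw [hJmem]
      refine ⟨hTF, ?_⟩
      by_contra hvT
      have hTfin : T ∈ hfin.toFinset := hfin.mem_toFinset.2
        ⟨hTF, x, hxT, ball_subset_ball (min_le_left _ _) hxb⟩
      have h3 : infDist v T0 ≤ infDist v T :=
        hmin T (Finset.mem_filter.2 ⟨hTfin, hvT⟩)
      have h4 : infDist v T ≤ dist v x := infDist_le_dist_of_mem hxT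
      rw [mem_ball, dist_comm] at hxb
      have h5 := lt_of_lt_of_le hxb (min_le_right _ _)
      linarith
  -- angles of the tiles at `v`
  let a : Set Pl → ℝ := fun T => ang P ((ψ T).symm v)
  have hpre : ∀ T ∈ J, (ψ T).symm v ∈ P := by
    intro T hT
    have h1 := ((hJmem T).1 hT).2
    rw [hψ T ((hJmem T).1 hT).1] at h1
    obtain ⟨y, hy, hyv⟩ := h1
    rw [← hyv]
    simpa using hy
  obtain ⟨δ₂, hδ₂, hδ₂'⟩ : ∃ δ > 0, ∀ T ∈ J, ∀ r : ℝ, 0 < r → r ≤ δ →
      area (T ∩ ball v r) = r ^ 2 * (a T / 2) := by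
    have h1 : ∀ T : Set Pl, ∃ δ > 0, T ∈ J → ∀ r : ℝ, 0 < r → r ≤ δ →
        area (T ∩ ball v r) = r ^ 2 * (a T / 2) := by
      intro T
      by_cases hT : T ∈ J
      · obtain ⟨δ, hδ, hloc⟩ := area_local s ((ψ T).symm v) (hpre T hT)
        refine ⟨δ, hδ, fun _ r hr hrδ => ?_⟩
        have h2 : T ∩ ball v r = ψ T '' (P ∩ ball ((ψ T).symm v) r) := by
          rw [image_inter (ψ T).injective, IsometryEquiv.image_ball,
            IsometryEquiv.apply_symm_apply, ← hψ T ((hJmem T).1 hT).1]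
        have h3 := (hloc r hr hrδ).1
        rw [h2, area, vol_image]
        rw [area] at h3
        rw [h3]
        simp only [a, ang]
        ring
      · exact ⟨1, one_pos, fun h => absurd h hT⟩
    choose δf hδf hδf' using h1
    rcases J.eq_empty_or_nonempty with h0 | hne
    · refine ⟨1, one_pos, fun T hT => ?_⟩
      rw [h0] at hT
      exact absurd hT (Finset.notMem_empty _)
    · obtain ⟨T0, hT0, hmin⟩ := J.exists_min_image δf hne
      exact ⟨δf T0, hδf T0, fun T hT r hr hrδ => hδf' T hT r hr (hrδ.trans (hmin T hT))⟩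
  refine ⟨J, a, hJmem, ?_, min δ₁ δ₂, lt_min hδ₁ hδ₂, ?_, ?_⟩
  · intro T hT
    have hTF := ((hJmem T).1 hT).1
    refine ⟨?_, ψ T, (ψ T).symm v, hpre T hT, hψ T hTF, by simp, rfl⟩
    have h1 := hδ₂' T hT δ₂ hδ₂ le_rfl
    have h2 : 0 < area (T ∩ ball v δ₂) := by
      have hcl : v ∈ closure (interior T) := by
        rw [(hTv T hTF).closure_interior_eq_closure_of_nonempty_interior (hTint T hTF)]
        exact subset_closure ((hJmem T).1 hT).2
      obtain ⟨y, hy1, hy2⟩ := mem_closure_iff.1 hcl (ball v δ₂) isOpen_ball (mem_ball_self hδ₂)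
      have h3 : 0 < volume (ball v δ₂ ∩ interior T) :=
        (isOpen_ball.inter isOpen_interior).measure_pos volume ⟨y, hy1, hy2⟩
      have h4 : volume (ball v δ₂ ∩ interior T) ≤ volume (T ∩ ball v δ₂) := by
        apply measure_mono
        rintro x ⟨h5, h6⟩
        exact ⟨interior_subset h6, h5⟩
      apply ENNReal.toReal_pos (h3.trans_le h4).ne'
      exact ne_top_of_le_ne_top measure_ball_lt_top.ne (measure_mono inter_subset_right)
    rw [h1] at h2
    have h3 : 0 < δ₂ ^ 2 := by positivity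
    have h4 := pos_of_mul_pos_right h2 h3.le
    linarith
  · intro T hT hn
    apply hδ₁' T hT
    exact hn.mono (inter_subset_inter_right _ (ball_subset_ball (min_le_left _ _)))
  · intro r hr hrδ
    have hr1 : r ≤ δ₁ := hrδ.trans (min_le_left _ _)
    have hr2 : r ≤ δ₂ := hrδ.trans (min_le_right _ _)
    have hset : D ∩ ball v r = ⋃ T ∈ J, (T ∩ ball v r) := by
      ext x
      constructor
      · rintro ⟨hx, hxb⟩
        rw [← hF.2.2] at hx
        obtain ⟨T, hT, hxT⟩ := hx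
        exact mem_iUnion₂.2 ⟨T, hδ₁' T hT ⟨x, hxT, ball_subset_ball hr1 hxb⟩, hxT, hxb⟩
      · intro hx
        obtain ⟨T, hTJ, hxT, hxb⟩ := mem_iUnion₂.1 hx
        exact ⟨hF.subset ((hJmem T).1 hTJ).1 hxT, hxb⟩
    have hmeas : ∀ T ∈ J, NullMeasurableSet (T ∩ ball v r) volume := fun T hT =>
      ((hTc T ((hJmem T).1 hT).1).isClosed.measurableSet.inter measurableSet_ball).nullMeasurableSet
    have hae : Set.Pairwise (↑J : Set (Set Pl))
        (Function.onFun (AEDisjoint volume) (fun T => T ∩ ball v r)) := by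
      intro T hT T' hT' hne
      have hTF : T ∈ F := ((hJmem T).1 hT).1
      have hTF' : T' ∈ F := ((hJmem T').1 hT').1
      have hd := hF.2.1 T hTF T' hTF' hne
      have hsub : (T ∩ ball v r) ∩ (T' ∩ ball v r) ⊆ frontier T := by
        rintro x ⟨⟨hx, -⟩, hx', -⟩
        refine ⟨subset_closure hx, fun hxi => ?_⟩
        have h1 : x ∈ closure (interior T') := by
          rw [(hTv T' hTF').closure_interior_eq_closure_of_nonempty_interior (hTint T' hTF')]
          exact subset_closure hx'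
        obtain ⟨y, hy1, hy2⟩ := mem_closure_iff.1 h1 _ isOpen_interior hxi
        exact disjoint_left.1 hd hy1 hy2
      exact measure_mono_null hsub ((hTv T hTF).addHaar_frontier volume)
    have h1 := measure_biUnion_finset₀ hae hmeas
    rw [← hset] at h1
    rw [area, h1, ENNReal.toReal_sum]
    · have h2 : ∀ T ∈ J, (volume (T ∩ ball v r)).toReal = r ^ 2 * (a T / 2) :=
        fun T hT => hδ₂' T hT r hr hr2
      rw [Finset.sum_congr rfl h2, ← Finset.mul_sum, ← Finset.sum_div]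
      ring
    · intro T _
      exact ne_top_of_le_ne_top measure_ball_lt_top.ne (measure_mono inter_subset_right)

/-- a polygon whose angles satisfy no relation with sum `π`, and only relations with three terms
with sum `2π` -/
structure AngleGeneric (s : Finset Pl) : Prop where
  int_ne : (interior (convexHull ℝ (s : Set Pl))).Nonempty
  angles : ∀ v ∈ s, ang (convexHull ℝ (s : Set Pl)) v < Real.pi
  half : ∀ (k : ℕ) (f : Fin k → Pl), (∀ i, f i ∈ s) →
    ∑ i, ang (convexHull ℝ (s : Set Pl)) (f i) ≠ Real.pi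
  full : ∀ (k : ℕ) (f : Fin k → Pl), (∀ i, f i ∈ s) →
    ∑ i, ang (convexHull ℝ (s : Set Pl)) (f i) = 2 * Real.pi → k = 3

lemma iso_comb (ψ : Pl ≃ᵢ Pl) (x y : Pl) (a b : ℝ) (hab : a + b = 1) :
    ψ (a • x + b • y) = a • ψ x + b • ψ y :=
  Convex.combo_affine_apply (f := ψ.toRealAffineIsometryEquiv.toAffineEquiv.toAffineMap) hab

lemma ext_image (ψ : Pl ≃ᵢ Pl) (A : Set Pl) (w : Pl) :
    ψ w ∈ Set.extremePoints ℝ (ψ '' A) ↔ w ∈ Set.extremePoints ℝ A := by
  rw [mem_extremePoints, mem_extremePoints]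
  constructor
  · rintro ⟨⟨w', hw', hww'⟩, h2⟩
    have hw : w' = w := ψ.injective hww'
    rw [hw] at hw'
    refine ⟨hw', fun x hx y hy hxy => ?_⟩
    obtain ⟨a, b, ha, hb, hab, hw⟩ := hxy
    have h3 := h2 (ψ x) ⟨x, hx, rfl⟩ (ψ y) ⟨y, hy, rfl⟩
      ⟨a, b, ha, hb, hab, by rw [← iso_comb ψ x y a b hab, hw]⟩
    exact ⟨ψ.injective h3.1, ψ.injective h3.2⟩
  · rintro ⟨h1, h2⟩
    refine ⟨⟨w, h1, rfl⟩, ?_⟩
    rintro _ ⟨x, hx, rfl⟩ _ ⟨y, hy, rfl⟩ ⟨a, b, ha, hb, hab, hw⟩
    rw [← iso_comb ψ x y a b hab] at hw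
    have h3 := h2 x hx y hy ⟨a, b, ha, hb, hab, ψ.injective hw⟩
    rw [h3.1, h3.2]
    exact ⟨rfl, rfl⟩

lemma AngleGeneric.ne_half {s : Finset Pl} (h : AngleGeneric s) {ι : Type*} (J : Finset ι)
    (w : ι → Pl) (hw : ∀ i ∈ J, w i ∈ s) :
    ∑ i ∈ J, ang (convexHull ℝ (s : Set Pl)) (w i) ≠ Real.pi := by
  have h1 := h.half J.card (fun i => w (J.equivFin.symm i)) (fun i => hw _ (J.equivFin.symm i).2)
  rw [Equiv.sum_comp J.equivFin.symm (fun x : J => ang (convexHull ℝ (s : Set Pl)) (w x)),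
    Finset.sum_coe_sort J (fun x => ang (convexHull ℝ (s : Set Pl)) (w x))] at h1
  exact h1

lemma AngleGeneric.eq_full {s : Finset Pl} (h : AngleGeneric s) {ι : Type*} (J : Finset ι)
    (w : ι → Pl) (hw : ∀ i ∈ J, w i ∈ s)
    (hs : ∑ i ∈ J, ang (convexHull ℝ (s : Set Pl)) (w i) = 2 * Real.pi) : J.card = 3 := by
  apply h.full J.card (fun i => w (J.equivFin.symm i)) (fun i => hw _ (J.equivFin.symm i).2)
  rw [Equiv.sum_comp J.equivFin.symm (fun x : J => ang (convexHull ℝ (s : Set Pl)) (w x)),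
    Finset.sum_coe_sort J (fun x => ang (convexHull ℝ (s : Set Pl)) (w x))]
  exact hs

/-- the extreme points are exactly the points of `s` -/
lemma AngleGeneric.ext_iff {s : Finset Pl} (h : AngleGeneric s) (w : Pl) :
    w ∈ Set.extremePoints ℝ (convexHull ℝ (s : Set Pl)) ↔ w ∈ s := by
  constructor
  · intro hw
    have := extremePoints_convexHull_subset hw
    exact_mod_cast this
  · intro hw
    by_contra hcon
    have h1 := ang_not_extreme s h.int_ne w (subset_convexHull ℝ _ hw) hcon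
    have h2 := h.angles w hw
    have := Real.pi_pos
    rcases h1 with h1 | h1 <;> linarith

/-- arithmetic of the angles around an interior point -/
lemma AngleGeneric.types {s : Finset Pl} (h : AngleGeneric s) {ι : Type*} [DecidableEq ι]
    (J : Finset ι) (a : ι → ℝ) (w : ι → Pl)
    (hw : ∀ i ∈ J, w i ∈ convexHull ℝ (s : Set Pl))
    (haw : ∀ i ∈ J, a i = ang (convexHull ℝ (s : Set Pl)) (w i))
    (hpos : ∀ i ∈ J, 0 < a i) (hsum : ∑ i ∈ J, a i = 2 * Real.pi) :
    (J.card = 1 ∧ ∀ i ∈ J, w i ∉ s) ∨ (J.card = 2 ∧ ∀ i ∈ J, w i ∉ s) ∨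
      (J.card = 3 ∧ ∀ i ∈ J, w i ∈ s) := by
  have hpi := Real.pi_pos
  have hcases : ∀ i ∈ J, w i ∉ s → a i = Real.pi ∨ a i = 2 * Real.pi := by
    intro i hi hs
    rw [haw i hi]
    exact ang_nonvertex s h.int_ne (w i) (hw i hi) hs
  by_cases hall : ∀ i ∈ J, w i ∈ s
  · right; right
    refine ⟨?_, hall⟩
    apply h.eq_full J w hall
    rw [← hsum]
    exact (Finset.sum_congr rfl haw).symm
  push Not at hall
  obtain ⟨i0, hi0, hi0s⟩ := hall
  have hsplit := Finset.add_sum_erase J a hi0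
  rw [hsum] at hsplit
  rcases hcases i0 hi0 hi0s with h0 | h0
  · -- rest has sum `π`
    have hrest : ∑ i ∈ J.erase i0, a i = Real.pi := by linarith
    have hex : ∃ i1 ∈ J.erase i0, w i1 ∉ s := by
      by_contra hcon
      push Not at hcon
      apply h.ne_half (J.erase i0) w hcon
      rw [← hrest]
      exact (Finset.sum_congr rfl fun i hi => haw i (Finset.mem_of_mem_erase hi)).symm
    obtain ⟨i1, hi1, hi1s⟩ := hex
    have hi1J := Finset.mem_of_mem_erase hi1
    have hsplit2 := Finset.add_sum_erase (J.erase i0) a hi1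
    rw [hrest] at hsplit2
    have hnn : 0 ≤ ∑ i ∈ (J.erase i0).erase i1, a i := Finset.sum_nonneg fun i hi =>
      (hpos i (Finset.mem_of_mem_erase (Finset.mem_of_mem_erase hi))).le
    have h1 : a i1 = Real.pi := by
      rcases hcases i1 hi1J hi1s with h1 | h1
      · exact h1
      · rw [h1] at hsplit2; linarith
    have hzero : ∑ i ∈ (J.erase i0).erase i1, a i = 0 := by linarith
    have hempty : (J.erase i0).erase i1 = ∅ := by
      by_contra hne
      obtain ⟨i2, hi2⟩ := Finset.nonempty_iff_ne_empty.2 hne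
      have h3 := Finset.sum_pos (fun i hi =>
        hpos i (Finset.mem_of_mem_erase (Finset.mem_of_mem_erase hi))) ⟨i2, hi2⟩
      linarith
    right; left
    have hJ : J = {i0, i1} := by
      ext i
      simp only [Finset.mem_insert, Finset.mem_singleton]
      constructor
      · intro hi
        by_contra hcon
        push Not at hcon
        have : i ∈ (J.erase i0).erase i1 :=
          Finset.mem_erase.2 ⟨hcon.2, Finset.mem_erase.2 ⟨hcon.1, hi⟩⟩
        rw [hempty] at this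
        exact absurd this (Finset.notMem_empty _)
      · rintro (rfl | rfl)
        · exact hi0
        · exact hi1J
    refine ⟨?_, ?_⟩
    · rw [hJ]
      exact Finset.card_pair (Finset.ne_of_mem_erase hi1).symm
    · intro i hi
      rw [hJ, Finset.mem_insert, Finset.mem_singleton] at hi
      rcases hi with rfl | rfl
      · exact hi0s
      · exact hi1s
  · have hzero : ∑ i ∈ J.erase i0, a i = 0 := by linarith
    have hempty : J.erase i0 = ∅ := by
      by_contra hne
      obtain ⟨i2, hi2⟩ := Finset.nonempty_iff_ne_empty.2 hne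
      have h3 := Finset.sum_pos (fun i hi => hpos i (Finset.mem_of_mem_erase hi)) ⟨i2, hi2⟩
      linarith
    left
    have hJ : J = {i0} := by
      ext i
      simp only [Finset.mem_singleton]
      constructor
      · intro hi
        by_contra hcon
        have : i ∈ J.erase i0 := Finset.mem_erase.2 ⟨hcon, hi⟩
        rw [hempty] at this
        exact absurd this (Finset.notMem_empty _)
      · rintro rfl
        exact hi0
    refine ⟨by rw [hJ]; simp, ?_⟩
    intro i hi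
    rw [hJ, Finset.mem_singleton] at hi
    rw [hi]
    exact hi0s

/-- the properties of a tiling of the plane used later -/
structure Tame (F : Set (Set Pl)) : Prop where
  compact : ∀ T ∈ F, IsCompact T
  convex : ∀ T ∈ F, Convex ℝ T
  int : ∀ T ∈ F, (interior T).Nonempty
  disj : ∀ T ∈ F, ∀ T' ∈ F, T ≠ T' → Disjoint (interior T) (interior T')
  cover : ∀ p, ∃ T ∈ F, p ∈ T
  loc : ∀ p, ∃ δ > 0, ∀ T ∈ F, (T ∩ ball p δ).Nonempty → p ∈ T
  three_ext : ∀ p, ∀ T1 ∈ F, ∀ T2 ∈ F, ∀ T3 ∈ F, T1 ≠ T2 → T1 ≠ T3 → T2 ≠ T3 →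
    p ∈ T1 → p ∈ T2 → p ∈ T3 → p ∈ Set.extremePoints ℝ T1
  three_max : ∀ p, ∀ T1 ∈ F, ∀ T2 ∈ F, ∀ T3 ∈ F, T1 ≠ T2 → T1 ≠ T3 → T2 ≠ T3 →
    p ∈ T1 → p ∈ T2 → p ∈ T3 → ∀ T ∈ F, p ∈ T → T = T1 ∨ T = T2 ∨ T = T3
  ext_three : ∀ T1 ∈ F, ∀ p ∈ Set.extremePoints ℝ T1, ∃ T2 ∈ F, ∃ T3 ∈ F,
    T1 ≠ T2 ∧ T1 ≠ T3 ∧ T2 ≠ T3 ∧ p ∈ T2 ∧ p ∈ T3

/-- **Tilings of the plane by angle-generic polygons.** -/
theorem AngleGeneric.tame {s : Finset Pl} (h : AngleGeneric s) (F : Set (Set Pl))
    (hF : IsTiling (convexHull ℝ (s : Set Pl)) F univ) : Tame F := by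
  classical
  set P := convexHull ℝ (s : Set Pl) with hP
  have hPc : IsCompact P := s.finite_toSet.isCompact_convexHull ℝ
  have hPv : Convex ℝ P := convex_convexHull ℝ _
  have hpi := Real.pi_pos
  -- the types of points
  have key : ∀ p : Pl, ∃ J : Finset (Set Pl), (∀ T, T ∈ J ↔ T ∈ F ∧ p ∈ T) ∧
      (∃ δ > 0, ∀ T ∈ F, (T ∩ ball p δ).Nonempty → T ∈ J) ∧
      ((J.card = 1 ∧ ∀ T ∈ J, p ∉ Set.extremePoints ℝ T) ∨
        (J.card = 2 ∧ ∀ T ∈ J, p ∉ Set.extremePoints ℝ T) ∨
        (J.card = 3 ∧ ∀ T ∈ J, p ∈ Set.extremePoints ℝ T)) := by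
    intro p
    obtain ⟨J, a, hJ, ha, δ, hδ, hδ1, hδ2⟩ := local_structure s h.int_ne univ F hF p
    refine ⟨J, hJ, ⟨δ, hδ, hδ1⟩, ?_⟩
    choose! hpos ψ w hw hT hwv haw using ha
    have hsum : ∑ T ∈ J, a T = 2 * Real.pi := by
      have h1 := hδ2 δ hδ le_rfl
      rw [univ_inter, area_ball p δ hδ.le] at h1
      have h2 : δ ^ 2 * (2 * Real.pi) = δ ^ 2 * ∑ T ∈ J, a T := by linarith
      exact (mul_left_cancel₀ (by positivity) h2).symm
    have hext : ∀ T ∈ J, (p ∈ Set.extremePoints ℝ T ↔ w T ∈ s) := by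
      intro T hTJ
      have h1 := ext_image (ψ T) P (w T)
      rw [hwv T hTJ, ← hT T hTJ, h.ext_iff] at h1
      exact h1
    rcases h.types J a w hw haw hpos hsum with h1 | h1 | h1
    · left
      exact ⟨h1.1, fun T hTJ => by rw [hext T hTJ]; exact h1.2 T hTJ⟩
    · right; left
      exact ⟨h1.1, fun T hTJ => by rw [hext T hTJ]; exact h1.2 T hTJ⟩
    · right; right
      exact ⟨h1.1, fun T hTJ => by rw [hext T hTJ]; exact h1.2 T hTJ⟩
  have hthree : ∀ p, ∀ T1 ∈ F, ∀ T2 ∈ F, ∀ T3 ∈ F, T1 ≠ T2 → T1 ≠ T3 → T2 ≠ T3 →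
    p ∈ T1 → p ∈ T2 → p ∈ T3 → p ∈ Set.extremePoints ℝ T1 ∧
      ∀ T ∈ F, p ∈ T → T = T1 ∨ T = T2 ∨ T = T3 := by
    intro p T1 h1 T2 h2 T3 h3 h12 h13 h23 p1 p2 p3
    obtain ⟨J, hJ, -, hJ3⟩ := key p
    have hsub : ({T1, T2, T3} : Finset (Set Pl)) ⊆ J := by
      intro T hT
      simp only [Finset.mem_insert, Finset.mem_singleton] at hT
      rcases hT with rfl | rfl | rfl
      · exact (hJ _).2 ⟨h1, p1⟩
      · exact (hJ _).2 ⟨h2, p2⟩
      · exact (hJ _).2 ⟨h3, p3⟩
    have hcard : ({T1, T2, T3} : Finset (Set Pl)).card = 3 := by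
      rw [Finset.card_insert_of_notMem (by simp [h12, h13]), Finset.card_pair h23]
    have hle := Finset.card_le_card hsub
    rw [hcard] at hle
    rcases hJ3 with h4 | h4 | h4
    · omega
    · omega
    · have heq : ({T1, T2, T3} : Finset (Set Pl)) = J :=
        Finset.eq_of_subset_of_card_le hsub (by rw [hcard, h4.1])
      refine ⟨h4.2 T1 ((hJ _).2 ⟨h1, p1⟩), fun T hT hpT => ?_⟩
      have h5 : T ∈ J := (hJ _).2 ⟨hT, hpT⟩
      rw [← heq] at h5
      simpa using h5
  refine ⟨?_, ?_, ?_, hF.2.1, ?_, ?_, ?_, ?_, ?_⟩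
  · intro T hT
    obtain ⟨ψ, rfl⟩ := hF.1 T hT
    exact hPc.image ψ.continuous
  · intro T hT
    obtain ⟨ψ, rfl⟩ := hF.1 T hT
    have h1 : ψ '' P = (ψ.toRealAffineIsometryEquiv.toAffineEquiv.toAffineMap) '' P := rfl
    rw [h1]
    exact hPv.affine_image _
  · intro T hT
    obtain ⟨ψ, rfl⟩ := hF.1 T hT
    have e : interior (ψ '' P) = ψ '' interior P :=
      (ψ.toHomeomorph.image_interior P).symm
    rw [e]
    exact h.int_ne.image _
  · intro p
    have : p ∈ ⋃₀ F := by rw [hF.2.2]; trivial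
    exact this
  · intro p
    obtain ⟨J, hJ, ⟨δ, hδ, hδ1⟩, -⟩ := key p
    exact ⟨δ, hδ, fun T hT hn => ((hJ T).1 (hδ1 T hT hn)).2⟩
  · intro p T1 h1 T2 h2 T3 h3 h12 h13 h23 p1 p2 p3
    exact (hthree p T1 h1 T2 h2 T3 h3 h12 h13 h23 p1 p2 p3).1
  · intro p T1 h1 T2 h2 T3 h3 h12 h13 h23 p1 p2 p3
    exact (hthree p T1 h1 T2 h2 T3 h3 h12 h13 h23 p1 p2 p3).2
  · intro T1 h1 p hp
    obtain ⟨J, hJ, -, hJ3⟩ := key p
    have hT1J : T1 ∈ J := (hJ T1).2 ⟨h1, hp.1⟩
    rcases hJ3 with h4 | h4 | h4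
    · exact absurd hp (h4.2 T1 hT1J)
    · exact absurd hp (h4.2 T1 hT1J)
    · have hc : (J.erase T1).card = 2 := by
        rw [Finset.card_erase_of_mem hT1J, h4.1]
      obtain ⟨T2, T3, h23, heq⟩ := Finset.card_eq_two.1 hc
      have m2 : T2 ∈ J.erase T1 := by rw [heq]; simp
      have m3 : T3 ∈ J.erase T1 := by rw [heq]; simp
      have n2 := (hJ T2).1 (Finset.mem_of_mem_erase m2)
      have n3 := (hJ T3).1 (Finset.mem_of_mem_erase m3)
      exact ⟨T2, n2.1, T3, n3.1, (Finset.ne_of_mem_erase m2).symm,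
        (Finset.ne_of_mem_erase m3).symm, h23, n2.2, n3.2⟩

end Pool.Agent.HexNear
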