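import Pool.Agent.Lib.MP_20f220_co.Defs

/-! Ultralimits of families of congruent copies. -/

open Filter Topology Metric Set

namespace Pool.Agent.HexNear

variable {E : Type*} [NormedAddCommGroup E] [NormedSpace ℝ E]

/-- the limit of the sets `D m` along an ultrafilter -/
def limSet (U : Ultrafilter ℕ) (D : ℕ → Set E) : Set E :=
  {x | ∀ δ > 0, ∀ᶠ m in (U : Filter ℕ), ∃ y ∈ D m, dist y x < δ}

/-- the limit copies of `P` -/
def limFam (U : Ultrafilter ℕ) {ι : ℕ → Type} (φ : ∀ m, ι m → E ≃ᵢ E) (P : Set E) :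
    Set (Set E) :=
  {T | ∃ (j : ∀ m, ι m) (ψ : E ≃ᵢ E),
    (∀ x, Tendsto (fun m => φ m (j m) x) (U : Filter ℕ) (𝓝 (ψ x))) ∧ T = ψ '' P}

lemma isClosed_limSet (U : Ultrafilter ℕ) (D : ℕ → Set E) : IsClosed (limSet U D) := by
  rw [← closure_subset_iff_isClosed]
  intro x hx δ hδ
  obtain ⟨y, hy, hxy⟩ := Metric.mem_closure_iff.1 hx (δ / 2) (by linarith)
  filter_upwards [hy (δ / 2) (by linarith)] with m hm
  obtain ⟨z, hz, hzy⟩ := hm
  refine ⟨z, hz, ?_⟩
  have := dist_triangle z y x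
  rw [dist_comm] at hxy
  linarith

lemma convex_limSet (U : Ultrafilter ℕ) (D : ℕ → Set E) (hD : ∀ m, Convex ℝ (D m)) :
    Convex ℝ (limSet U D) := by
  intro x hx y hy a b ha hb hab δ hδ
  filter_upwards [hx δ hδ, hy δ hδ] with m h1 h2
  obtain ⟨p, hp, hpx⟩ := h1
  obtain ⟨q, hq, hqy⟩ := h2
  refine ⟨a • p + b • q, hD m hp hq ha hb hab, ?_⟩
  have h3 : a • p + b • q - (a • x + b • y) = a • (p - x) + b • (q - y) := by
    module
  rw [dist_eq_norm, h3]
  rw [dist_eq_norm] at hpx hqy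
  calc ‖a • (p - x) + b • (q - y)‖ ≤ ‖a • (p - x)‖ + ‖b • (q - y)‖ := norm_add_le _ _
    _ = a * ‖p - x‖ + b * ‖q - y‖ := by
        rw [norm_smul, norm_smul, Real.norm_of_nonneg ha, Real.norm_of_nonneg hb]
    _ < δ := by
        rcases ha.eq_or_lt with h | h
        · have hb1 : b = 1 := by linarith
          rw [← h, hb1]; linarith
        · nlinarith

section proper
variable [ProperSpace E]

lemma exists_lim (U : Ultrafilter ℕ) (u : ℕ → E) (c : E) (C : ℝ)
    (h : ∀ᶠ m in (U : Filter ℕ), dist (u m) c ≤ C) : ∃ x, Tendsto u U (𝓝 x) := by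
  have hK : IsCompact (closedBall c C) := isCompact_closedBall c C
  have h1 : (U.map u : Filter E) ≤ 𝓟 (closedBall c C) := by
    rw [le_principal_iff]; exact h
  obtain ⟨x, -, hx⟩ := hK.ultrafilter_le_nhds (U.map u) h1
  exact ⟨x, hx⟩

lemma exists_iso_lim (U : Ultrafilter ℕ) (g : ℕ → E ≃ᵢ E) (C : ℝ)
    (h : ∀ᶠ m in (U : Filter ℕ), dist (g m 0) 0 ≤ C) :
    ∃ ψ : E ≃ᵢ E, ∀ x, Tendsto (fun m => g m x) U (𝓝 (ψ x)) := by
  have h1 : ∀ x, ∃ y, Tendsto (fun m => g m x) U (𝓝 y) := by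
    intro x
    refine exists_lim U _ 0 (dist x 0 + C) ?_
    filter_upwards [h] with m hm
    have := dist_triangle (g m x) (g m 0) 0
    rw [(g m).dist_eq] at this
    linarith
  have h2 : ∀ y, ∃ x, Tendsto (fun m => (g m).symm y) U (𝓝 x) := by
    intro y
    refine exists_lim U _ 0 (dist y 0 + C) ?_
    filter_upwards [h] with m hm
    have e : dist ((g m).symm y) 0 = dist y (g m 0) := by
      rw [← (g m).dist_eq, IsometryEquiv.apply_symm_apply]
    rw [e]
    have := dist_triangle y 0 (g m 0)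
    rw [dist_comm 0 (g m 0)] at this
    linarith
  choose f hf using h1
  choose k hk using h2
  have hiso : Isometry f := by
    refine Isometry.of_dist_eq fun x y => ?_
    have a1 : Tendsto (fun m => dist (g m x) (g m y)) U (𝓝 (dist (f x) (f y))) :=
      (hf x).dist (hf y)
    have a2 : Tendsto (fun m => dist (g m x) (g m y)) U (𝓝 (dist x y)) := by
      simp only [(g _).dist_eq]
      exact tendsto_const_nhds
    exact tendsto_nhds_unique a1 a2
  have hfk : ∀ y, f (k y) = y := by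
    intro y
    have a1 : Tendsto (fun m => dist (g m (k y)) y) U (𝓝 (dist (f (k y)) y)) :=
      (hf (k y)).dist tendsto_const_nhds
    have a2 : Tendsto (fun m => dist (g m (k y)) y) U (𝓝 0) := by
      have a3 : ∀ m, dist (g m (k y)) y = dist (k y) ((g m).symm y) := by
        intro m
        rw [← (g m).dist_eq (k y), IsometryEquiv.apply_symm_apply]
      simp only [a3]
      have a4 := (tendsto_const_nhds (x := k y) (f := (U : Filter ℕ))).dist (hk y)
      simpa using a4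
    exact dist_eq_zero.1 (tendsto_nhds_unique a1 a2)
  exact ⟨IsometryEquiv.mk' f k hfk hiso, hf⟩

end proper

lemma inner_ball (U : Ultrafilter ℕ) (g : ℕ → E ≃ᵢ E) (ψ : E ≃ᵢ E)
    (hg : ∀ x, Tendsto (fun m => g m x) (U : Filter ℕ) (𝓝 (ψ x)))
    (K : ℕ → Set E) (P : Set E)
    (hin : ∀ y ∈ interior P, ∃ h > 0, ∀ᶠ m in (U : Filter ℕ), ball y h ⊆ K m)
    (x : E) (hx : x ∈ interior (ψ '' P)) :
    ∃ h > 0, ∀ᶠ m in (U : Filter ℕ), ball x h ⊆ g m '' K m := by
  have h1 : interior (ψ '' P) = ψ '' interior P := (ψ.toHomeomorph.image_interior P).symm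
  rw [h1] at hx
  obtain ⟨y, hy, rfl⟩ := hx
  obtain ⟨h, hh, hev⟩ := hin y hy
  refine ⟨h / 2, by linarith, ?_⟩
  have h2 : ∀ᶠ m in (U : Filter ℕ), dist (g m y) (ψ y) < h / 2 :=
    (Metric.tendsto_nhds.1 (hg y)) (h / 2) (by linarith)
  filter_upwards [hev, h2] with m hm1 hm2
  intro z hz
  refine ⟨(g m).symm z, hm1 ?_, by simp⟩
  rw [mem_ball] at hz ⊢
  have e : dist ((g m).symm z) y = dist z (g m y) := by
    rw [← (g m).dist_eq, IsometryEquiv.apply_symm_apply]
  rw [e]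
  have := dist_triangle z (ψ y) (g m y)
  rw [dist_comm (ψ y)] at this
  linarith

lemma outer_ball (U : Ultrafilter ℕ) (g : ℕ → E ≃ᵢ E) (ψ : E ≃ᵢ E)
    (hg : ∀ x, Tendsto (fun m => g m x) (U : Filter ℕ) (𝓝 (ψ x)))
    (K : ℕ → Set E) (P : Set E)
    (hout : ∀ y, y ∉ P → ∃ h > 0, ∀ᶠ m in (U : Filter ℕ), Disjoint (ball y h) (K m))
    (x : E) (hx : x ∉ ψ '' P) :
    ∃ h > 0, ∀ᶠ m in (U : Filter ℕ), Disjoint (ball x h) (g m '' K m) := by
  have hy : ψ.symm x ∉ P := fun hy => hx ⟨ψ.symm x, hy, by simp⟩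
  obtain ⟨h, hh, hev⟩ := hout _ hy
  refine ⟨h / 2, by linarith, ?_⟩
  have h2 : ∀ᶠ m in (U : Filter ℕ), dist (g m (ψ.symm x)) x < h / 2 := by
    have h3 := hg (ψ.symm x)
    rw [IsometryEquiv.apply_symm_apply] at h3
    exact (Metric.tendsto_nhds.1 h3) (h / 2) (by linarith)
  filter_upwards [hev, h2] with m hm1 hm2
  rw [Set.disjoint_left]
  rintro z hz ⟨w, hw, rfl⟩
  refine Set.disjoint_left.1 hm1 ?_ hw
  rw [mem_ball] at hz ⊢
  rw [← (g m).dist_eq]
  have := dist_triangle (g m w) x (g m (ψ.symm x))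
  rw [dist_comm x] at this
  linarith

/-- The limit of almost-tilings is a tiling. -/
theorem lim_tiling [ProperSpace E] (U : Ultrafilter ℕ) (hU : (U : Filter ℕ) ≤ atTop)
    {ι : ℕ → Type} [∀ m, Nonempty (ι m)]
    (φ : ∀ m, ι m → E ≃ᵢ E) (K D : ℕ → Set E) (P : Set E)
    (hPc : P ⊆ closure (interior P))
    (hin : ∀ y ∈ interior P, ∃ h > 0, ∀ᶠ m in (U : Filter ℕ), ball y h ⊆ K m)
    (hout : ∀ y, y ∉ P → ∃ h > 0, ∀ᶠ m in (U : Filter ℕ), Disjoint (ball y h) (K m))
    (hbd : ∃ C : ℝ, ∀ᶠ m in (U : Filter ℕ), K m ⊆ closedBall 0 C)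
    (h1 : ∀ x, ∀ h > 0, ∀ᶠ m in (U : Filter ℕ), ∀ i j : ι m, i ≠ j →
      ¬ (ball x h ⊆ φ m i '' K m ∧ ball x h ⊆ φ m j '' K m))
    (h2 : ∀ x, ∀ h > 0, ∀ᶠ m in (U : Filter ℕ), ∀ i : ι m,
      ¬ (ball x h ⊆ φ m i '' K m ∧ Disjoint (ball x h) (D m)))
    (h3 : ∀ R, ∀ᶠ m in (U : Filter ℕ), D m ∩ ball 0 R ⊆ ⋃ i, φ m i '' K m) :
    IsTiling P (limFam U φ P) (limSet U D) := by
  classical
  refine ⟨?_, ?_, ?_⟩
  · rintro T ⟨j, ψ, -, rfl⟩
    exact ⟨ψ, rfl⟩
  · rintro T ⟨j, ψ, hψ, rfl⟩ T' ⟨j', ψ', hψ', rfl⟩ hne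
    rw [Set.disjoint_left]
    intro x hx hx'
    rcases Ultrafilter.em U (fun m => j m = j' m) with he | he
    · apply hne
      have : ψ = ψ' := by
        ext1 y
        refine tendsto_nhds_unique (hψ y) ((hψ' y).congr' ?_)
        filter_upwards [he] with m hm
        rw [hm]
      rw [this]
    · obtain ⟨h, hh, hev⟩ := inner_ball U _ ψ hψ K P hin x hx
      obtain ⟨h', hh', hev'⟩ := inner_ball U _ ψ' hψ' K P hin x hx'
      have hmin : 0 < min h h' := lt_min hh hh'
      have hev1 := h1 x (min h h') hmin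
      obtain ⟨m, a1, a2, a3, a4⟩ := (he.and (hev.and (hev'.and hev1))).exists
      exact a4 _ _ a1 ⟨(ball_subset_ball (min_le_left _ _)).trans a2,
        (ball_subset_ball (min_le_right _ _)).trans a3⟩
  · have hsub : ∀ T ∈ limFam U φ P, interior T ⊆ limSet U D := by
      rintro T ⟨j, ψ, hψ, rfl⟩ x hx δ hδ
      obtain ⟨h, hh, hev⟩ := inner_ball U _ ψ hψ K P hin x hx
      by_contra hcon
      rw [← Ultrafilter.eventually_not] at hcon
      have hmin : 0 < min h δ := lt_min hh hδ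
      obtain ⟨m, a1, a2, a3⟩ := (hcon.and (hev.and (h2 x (min h δ) hmin))).exists
      refine a3 (j m) ⟨(ball_subset_ball (min_le_left _ _)).trans a2, ?_⟩
      rw [Set.disjoint_left]
      intro y hy hyD
      exact a1 ⟨y, hyD, lt_of_lt_of_le (mem_ball.1 hy) (min_le_right _ _)⟩
    apply Set.Subset.antisymm
    · rintro x ⟨T, hT, hx⟩
      obtain ⟨j, ψ, hψ, rfl⟩ := hT
      have hcl : ψ '' P ⊆ closure (interior (ψ '' P)) := by
        have e1 : interior (ψ '' P) = ψ '' interior P := (ψ.toHomeomorph.image_interior P).symm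
        have e2 : closure (ψ '' interior P) = ψ '' closure (interior P) :=
          (ψ.toHomeomorph.image_closure _).symm
        rw [e1, e2]
        exact image_mono hPc
      have := closure_minimal (hsub _ ⟨j, ψ, hψ, rfl⟩) (isClosed_limSet U D)
      exact this (hcl hx)
    · intro x hx
      have hy : ∀ m : ℕ, ∃ y : E, (D m).Nonempty →
          (y ∈ D m ∧ dist y x < infDist x (D m) + 1 / ((m : ℝ) + 1)) := by
        intro m
        by_cases hne : (D m).Nonempty
        · have hpos : (0 : ℝ) < 1 / ((m : ℝ) + 1) := by positivity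
          obtain ⟨y, hyD, hy⟩ := (Metric.infDist_lt_iff hne).1
            (lt_add_of_pos_right (infDist x (D m)) hpos)
          exact ⟨y, fun _ => ⟨hyD, by rw [dist_comm]; exact hy⟩⟩
        · exact ⟨x, fun h => absurd h hne⟩
      choose y hy using hy
      have hyD : ∀ᶠ m in (U : Filter ℕ), y m ∈ D m := by
        filter_upwards [hx 1 one_pos] with m hm
        obtain ⟨z, hz, -⟩ := hm
        exact (hy m ⟨z, hz⟩).1
      have hlim0 : Tendsto (fun m : ℕ => 1 / ((m : ℝ) + 1)) (U : Filter ℕ) (𝓝 0) :=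
        tendsto_one_div_add_atTop_nhds_zero_nat.mono_left hU
      have hylim : Tendsto y (U : Filter ℕ) (𝓝 x) := by
        rw [Metric.tendsto_nhds]
        intro δ hδ
        have hs := (tendsto_order.1 hlim0).2 (δ / 2) (by linarith)
        filter_upwards [hx (δ / 2) (by linarith), hs] with m hm hm2
        obtain ⟨z, hz, hzx⟩ := hm
        have a1 := (hy m ⟨z, hz⟩).2
        have a2 : infDist x (D m) ≤ dist x z := infDist_le_dist_of_mem hz
        rw [dist_comm x z] at a2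
        linarith
      have hj : ∀ m, ∃ j : ι m, y m ∈ (⋃ i, φ m i '' K m) → y m ∈ φ m j '' K m := by
        intro m
        by_cases hm : y m ∈ ⋃ i, φ m i '' K m
        · obtain ⟨i, hi⟩ := mem_iUnion.1 hm
          exact ⟨i, fun _ => hi⟩
        · exact ⟨Classical.arbitrary _, fun h => absurd h hm⟩
      choose j hj using hj
      have hyball : ∀ᶠ m in (U : Filter ℕ), dist (y m) x < 1 :=
        (Metric.tendsto_nhds.1 hylim) 1 one_pos
      have hjK : ∀ᶠ m in (U : Filter ℕ), y m ∈ φ m (j m) '' K m := by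
        filter_upwards [h3 (dist x 0 + 1), hyD, hyball] with m a1 a2 a3
        apply hj m
        apply a1
        refine ⟨a2, ?_⟩
        rw [mem_ball]
        have := dist_triangle (y m) x 0
        linarith
      obtain ⟨C, hC⟩ := hbd
      have hbound : ∀ᶠ m in (U : Filter ℕ), dist (φ m (j m) 0) 0 ≤ C + (dist x 0 + 1) := by
        filter_upwards [hjK, hyball, hC] with m a1 a2 a3
        obtain ⟨z, hz, hzy⟩ := a1
        have b1 : dist z 0 ≤ C := a3 hz
        have b2 : dist (φ m (j m) 0) (y m) = dist z 0 := by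
          rw [← hzy, (φ m (j m)).dist_eq, dist_comm]
        have b3 := dist_triangle (φ m (j m) 0) (y m) 0
        have b4 := dist_triangle (y m) x 0
        linarith
      obtain ⟨ψ, hψ⟩ := exists_iso_lim U (fun m => φ m (j m)) _ hbound
      refine ⟨ψ '' P, ⟨j, ψ, hψ, rfl⟩, ?_⟩
      by_contra hxP
      obtain ⟨h, hh, hev⟩ := outer_ball U _ ψ hψ K P hout x hxP
      have hyh : ∀ᶠ m in (U : Filter ℕ), dist (y m) x < h :=
        (Metric.tendsto_nhds.1 hylim) h hh
      obtain ⟨m, a1, a2, a3⟩ := (hev.and (hyh.and hjK)).exists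
      exact Set.disjoint_left.1 a1 (mem_ball.2 a2) a3

end Pool.Agent.HexNear
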