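import Pool.Agent.Lib.MP_20f220_co.Core

/-! A convex body that tiles an unbounded closed convex set tiles the plane. -/

open Filter Topology Metric Set MeasureTheory
open scoped ENNReal Pointwise

namespace Pool.Agent.HexNear

lemma IsTiling.image {P S : Set Pl} {F : Set (Set Pl)} (h : IsTiling P F S) (g : Pl ≃ᵢ Pl) :
    IsTiling P ((fun T => g '' T) '' F) (g '' S) := by
  obtain ⟨h1, h2, h3⟩ := h
  refine ⟨?_, ?_, ?_⟩
  · rintro _ ⟨T, hT, rfl⟩
    obtain ⟨ψ, rfl⟩ := h1 T hT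
    refine ⟨ψ.trans g, ?_⟩
    change g '' (ψ '' P) = (fun x => g (ψ x)) '' P
    rw [← image_comp]
    rfl
  · rintro _ ⟨T, hT, rfl⟩ _ ⟨T', hT', rfl⟩ hne
    have hne' : T ≠ T' := fun h => hne (by rw [h])
    have e : ∀ A : Set Pl, interior (g '' A) = g '' interior A := fun A =>
      (g.toHomeomorph.image_interior A).symm
    simp only [e]
    exact (disjoint_image_iff g.injective).2 (h2 T hT T' hT' hne')
  · rw [← h3, sUnion_image, sUnion_eq_biUnion, image_iUnion₂]

lemma IsTiling.subset {P S : Set Pl} {F : Set (Set Pl)} (h : IsTiling P F S) {T : Set Pl}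
    (hT : T ∈ F) : T ⊆ S := by
  rw [← h.2.2]; exact subset_sUnion_of_mem hT

lemma IsTiling.iUnion {κ : Type} {P : Set Pl} {F : κ → Set (Set Pl)} {S : κ → Set Pl}
    (h : ∀ k, IsTiling P (F k) (S k))
    (hd : ∀ k l, k ≠ l → Disjoint (interior (S k)) (interior (S l))) :
    IsTiling P (⋃ k, F k) (⋃ k, S k) := by
  refine ⟨?_, ?_, ?_⟩
  · intro T hT
    obtain ⟨k, hk⟩ := mem_iUnion.1 hT
    exact (h k).1 T hk
  · intro T hT T' hT' hne
    obtain ⟨k, hk⟩ := mem_iUnion.1 hT
    obtain ⟨l, hl⟩ := mem_iUnion.1 hT'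
    by_cases hkl : k = l
    · subst hkl
      exact (h k).2.1 T hk T' hl hne
    · exact (hd k l hkl).mono (interior_mono ((h k).subset hk)) (interior_mono ((h l).subset hl))
  · rw [sUnion_iUnion]
    exact iUnion_congr fun k => (h k).2.2

/-- recession direction of an unbounded closed convex set -/
lemma exists_recession (D : Set Pl) (hDc : IsClosed D) (hDv : Convex ℝ D)
    (hDu : ¬ Bornology.IsBounded D) :
    ∃ u : Pl, ‖u‖ = 1 ∧ ∀ x ∈ D, ∀ t : ℝ, 0 ≤ t → x + t • u ∈ D := by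
  have hfar : ∀ m : ℕ, ∃ z ∈ D, (m : ℝ) < ‖z‖ := by
    intro m
    by_contra hcon
    push Not at hcon
    apply hDu
    refine (isBounded_iff_subset_closedBall (0 : Pl)).2 ⟨m, fun z hz => ?_⟩
    rw [mem_closedBall, dist_zero_right]
    exact hcon z hz
  choose z hzD hz using hfar
  set U : Ultrafilter ℕ := hyperfilter ℕ with hUdef
  have hU : (U : Filter ℕ) ≤ atTop := Nat.hyperfilter_le_atTop
  obtain ⟨u, hu⟩ := exists_lim U (fun m => (‖z m‖)⁻¹ • z m) 0 1 (by
    refine Eventually.of_forall fun m => ?_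
    have hpos : 0 < ‖z m‖ := lt_of_le_of_lt (Nat.cast_nonneg m) (hz m)
    rw [dist_zero_right, norm_smul, norm_inv, norm_norm, inv_mul_cancel₀ hpos.ne'])
  have hzlim : Tendsto (fun m => ‖z m‖) (U : Filter ℕ) atTop := by
    refine tendsto_atTop_mono (fun m => (hz m).le) ?_
    exact tendsto_natCast_atTop_atTop.mono_left hU
  have hinv : Tendsto (fun m => (‖z m‖)⁻¹) (U : Filter ℕ) (𝓝 0) := tendsto_inv_atTop_zero.comp hzlim
  refine ⟨u, ?_, ?_⟩
  · have a1 : Tendsto (fun m => ‖(‖z m‖)⁻¹ • z m‖) (U : Filter ℕ) (𝓝 ‖u‖) := hu.norm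
    have a2 : Tendsto (fun m => ‖(‖z m‖)⁻¹ • z m‖) (U : Filter ℕ) (𝓝 1) := by
      refine tendsto_const_nhds.congr fun m => ?_
      have hpos : 0 < ‖z m‖ := lt_of_le_of_lt (Nat.cast_nonneg m) (hz m)
      rw [norm_smul, norm_inv, norm_norm, inv_mul_cancel₀ hpos.ne']
    exact tendsto_nhds_unique a1 a2
  · intro x hx t ht
    have hev : ∀ᶠ m in (U : Filter ℕ), x + (t * (‖z m‖)⁻¹) • (z m - x) ∈ D := by
      filter_upwards [hzlim.eventually_ge_atTop t] with m hm
      have hpos : 0 < ‖z m‖ := lt_of_le_of_lt (Nat.cast_nonneg m) (hz m)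
      apply hDv.add_smul_sub_mem hx (hzD m)
      constructor
      · positivity
      · rw [← div_eq_mul_inv]
        exact (div_le_one hpos).2 hm
    have hlim : Tendsto (fun m => x + (t * (‖z m‖)⁻¹) • (z m - x)) (U : Filter ℕ)
        (𝓝 (x + t • u)) := by
      have e : ∀ m, x + (t * (‖z m‖)⁻¹) • (z m - x)
          = x + (t • ((‖z m‖)⁻¹ • z m) - (t * (‖z m‖)⁻¹) • x) := by
        intro m; module
      simp only [e]
      have a1 : Tendsto (fun m => (t * (‖z m‖)⁻¹) • x) (U : Filter ℕ) (𝓝 ((t * 0) • x)) :=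
        (hinv.const_mul t).smul_const x
      have a2 := (hu.const_smul t).sub a1
      have a3 := a2.const_add x
      simpa using a3
    exact hDc.mem_of_tendsto hlim hev

/-- pushing a tiling of `D` to infinity along a recession direction -/
lemma push (P : Set Pl) (hPc : IsCompact P) (hPv : Convex ℝ P) (h0 : (interior P).Nonempty)
    (D : Set Pl) (hDv : Convex ℝ D) (hne : D.Nonempty)
    (F : Set (Set Pl)) (hF : IsTiling P F D) (u : Pl)
    (hrec : ∀ x ∈ D, ∀ t : ℝ, 0 ≤ t → x + t • u ∈ D) :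
    ∃ (S : Set Pl) (G : Set (Set Pl)), IsTiling P G S ∧ IsClosed S ∧ Convex ℝ S ∧ S.Nonempty ∧
      ∀ x ∈ S, ∀ t : ℝ, x + t • u ∈ S := by
  classical
  set U : Ultrafilter ℕ := hyperfilter ℕ with hUdef
  have hU : (U : Filter ℕ) ≤ atTop := Nat.hyperfilter_le_atTop
  obtain ⟨d0, hd0⟩ := hne
  have hFne : Nonempty F := by
    rw [← hF.2.2] at hd0
    obtain ⟨T, hT, -⟩ := hd0
    exact ⟨⟨T, hT⟩⟩
  have hψ : ∀ T : F, ∃ ψ : Pl ≃ᵢ Pl, (T : Set Pl) = ψ '' P := fun T => hF.1 T T.2
  choose ψ hψ using hψ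
  let φ : ∀ m : ℕ, (fun _ : ℕ => (F : Type)) m → (Pl ≃ᵢ Pl) :=
    fun m T => (ψ T).trans (IsometryEquiv.addRight (-((m : ℝ) • u)))
  let Dm : ℕ → Set Pl := fun m => (fun x => x + -((m : ℝ) • u)) '' D
  have hφ : ∀ (m : ℕ) (T : F), φ m T '' P = (fun x => x + -((m : ℝ) • u)) '' (T : Set Pl) := by
    intro m T
    rw [hψ T, ← image_comp]
    rfl
  have hinj : ∀ m : ℕ, Function.Injective (fun x : Pl => x + -((m : ℝ) • u)) := fun m x y h => by
    simpa using h
  have hint : ∀ (m : ℕ) (A : Set Pl), interior ((fun x => x + -((m : ℝ) • u)) '' A)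
      = (fun x => x + -((m : ℝ) • u)) '' interior A := fun m A =>
    ((IsometryEquiv.addRight (-((m : ℝ) • u))).toHomeomorph.image_interior A).symm
  have htile : IsTiling P (limFam U φ P) (limSet U Dm) := by
    have : ∀ m : ℕ, Nonempty ((fun _ : ℕ => (F : Type)) m) := fun m => hFne
    refine lim_tiling U hU φ (fun _ => P) Dm P ?_ ?_ ?_ ?_ ?_ ?_ ?_
    · rw [hPv.closure_interior_eq_closure_of_nonempty_interior h0]
      exact subset_closure
    · intro y hy
      obtain ⟨h, hh, hb⟩ := Metric.isOpen_iff.1 isOpen_interior y hy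
      exact ⟨h, hh, Eventually.of_forall fun _ => hb.trans interior_subset⟩
    · intro y hy
      obtain ⟨h, hh, hb⟩ := Metric.isOpen_iff.1 hPc.isClosed.isOpen_compl y hy
      exact ⟨h, hh, Eventually.of_forall fun _ => disjoint_left.2 fun z hz => hb hz⟩
    · obtain ⟨C, hC⟩ := hPc.isBounded.subset_closedBall (0 : Pl)
      exact ⟨C, Eventually.of_forall fun _ => hC⟩
    · intro x h hh
      refine Eventually.of_forall fun m => ?_
      rintro T T' hTT ⟨a1, a2⟩
      simp only [hφ] at a1 a2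
      have b1 : x ∈ interior ((fun x => x + -((m : ℝ) • u)) '' (T : Set Pl)) :=
        interior_maximal a1 isOpen_ball (mem_ball_self hh)
      have b2 : x ∈ interior ((fun x => x + -((m : ℝ) • u)) '' (T' : Set Pl)) :=
        interior_maximal a2 isOpen_ball (mem_ball_self hh)
      rw [hint] at b1 b2
      have hne : (T : Set Pl) ≠ T' := fun h => hTT (Subtype.ext h)
      have := (disjoint_image_iff (hinj m)).2 (hF.2.1 T T.2 T' T'.2 hne)
      exact disjoint_left.1 this b1 b2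
    · intro x h hh
      refine Eventually.of_forall fun m => ?_
      rintro T ⟨a1, a2⟩
      simp only [hφ] at a1
      have b1 := a1 (mem_ball_self hh)
      have b2 : x ∈ Dm m := image_mono (hF.subset T.2) b1
      exact disjoint_left.1 a2 (mem_ball_self hh) b2
    · intro R
      refine Eventually.of_forall fun m => ?_
      rintro x ⟨⟨y, hy, rfl⟩, -⟩
      rw [← hF.2.2] at hy
      obtain ⟨T, hT, hyT⟩ := hy
      refine mem_iUnion.2 ⟨⟨T, hT⟩, ?_⟩
      rw [hφ]
      exact ⟨y, hyT, rfl⟩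
  have hconv : ∀ m, Convex ℝ (Dm m) := by
    intro m
    rintro _ ⟨x, hx, rfl⟩ _ ⟨y, hy, rfl⟩ a b ha hb hab
    refine ⟨a • x + b • y, hDv hx hy ha hb hab, ?_⟩
    have e : -((m : ℝ) • u) = (a + b) • (-((m : ℝ) • u)) := by rw [hab, one_smul]
    simp only
    nth_rewrite 1 [e]
    module
  refine ⟨limSet U Dm, limFam U φ P, htile, isClosed_limSet _ _, convex_limSet _ _ hconv,
    ⟨d0, ?_⟩, ?_⟩
  · intro δ hδ
    refine Eventually.of_forall fun m => ⟨d0, ⟨d0 + (m : ℝ) • u, hrec d0 hd0 m (by positivity), ?_⟩,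
      by simpa using hδ⟩
    simp
  · intro x hx t δ hδ
    obtain ⟨m0, y, hy, hyx⟩ := (hx δ hδ).exists
    obtain ⟨d, hd, hdy⟩ := hy
    simp only at hdy
    have hev : ∀ᶠ m : ℕ in (U : Filter ℕ), (m0 : ℝ) + |t| ≤ m := by
      apply hU
      filter_upwards [eventually_ge_atTop ⌈(m0 : ℝ) + |t|⌉₊] with m hm
      exact (Nat.le_ceil _).trans (by exact_mod_cast hm)
    filter_upwards [hev] with m hm
    have h1 : 0 ≤ (m : ℝ) - m0 + t := by
      have := neg_abs_le t
      linarith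
    refine ⟨y + t • u, ⟨d + ((m : ℝ) - m0 + t) • u, hrec d hd _ h1, ?_⟩, ?_⟩
    · simp only
      rw [← hdy]
      module
    · rwa [dist_add_right]

end Pool.Agent.HexNear
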